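import Pool.Agent.H96.CK.CountM
import Pool.Agent.H55.CK.Defs

/-!
# The tile sets of `CountM` in the form of `H55.CK.Tiles`
-/

namespace H96.CK

theorem orb_eq {T : Type} (x : ℤ × ℤ → T) : Orb x = H55.CK.Tl.Orb x := by
  ext y
  constructor
  · rintro ⟨p, rfl⟩
    exact ⟨p, rfl⟩
  · rintro ⟨p, rfl⟩
    exact ⟨p, rfl⟩

theorem tiles (r : ℕ → ℕ → Prop) (hr : H55.CK.CompWO r) : Nonempty (H55.CK.Tiles r) := by
  have h1 := hr.wo
  obtain ⟨T, hf, H, V, o, h2, h3, h4, h5⟩ := exists_tiles r hr.comp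
  refine ⟨⟨T, hf, H, V, o, h2, ?_, ?_, ?_⟩⟩
  · intro j v hjv
    have h6 := h3 j v hjv
    rw [orb_eq] at h6
    exact h6
  · intro v hv
    refine h4 v ?_
    intro n
    obtain ⟨x, hx, hxv⟩ := hv n
    refine ⟨x, ?_, hxv⟩
    rw [Set.mem_iUnion₂] at hx
    obtain ⟨j, hj, hx⟩ := hx
    refine ⟨j, hj, ?_⟩
    rw [orb_eq]
    exact hx
  · refine h5.mono ?_
    rintro Z ⟨hZ1, hZ2, hZ3⟩
    exact ⟨hZ1, hZ2, fun x hx p => hZ3 p x hx⟩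

end H96.CK
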