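import Pool.Agent.H96.CK.LvA

/-!
# Module Adic (100 lines): `a`-adic integers as coherent sequences of residues

`IsLv a c x i`: the column `x` has level `i`; `IsInf a c x`: it has infinite level.
* `coh_le`: induction.
* `lv_or`: if not `IsInf`, take the least `n` with `¬ a ^ n ∣ x - c n` (`Nat.find`); `n ≥ 1`.
* `IsLv.unique`, `IsLv.not_inf`: `a ^ j ∣ x - c j` implies `a ^ i ∣ x - c i` for `i ≤ j` by `coh_le`.
* `IsLv.lvT`: `IsLv a c x i`, `i < n`, then `LvT a n (x - c n) i`.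
* `IsInf.unique`: `a ^ n ∣ x - x'` for all `n`.
* `lv_exists`: every level occurs: `x = c (i+1) + a ^ i`.
* `lv_between`: among `a ^ n` consecutive columns one satisfies `a ^ n ∣ x - c n`.
-/

namespace H96.CK

def Coh (a : ℕ) (c : ℕ → ℤ) : Prop := ∀ n, (a : ℤ) ^ n ∣ c (n + 1) - c n

def IsLv (a : ℕ) (c : ℕ → ℤ) (x : ℤ) (i : ℕ) : Prop :=
  (a : ℤ) ^ i ∣ x - c i ∧ ¬ (a : ℤ) ^ (i + 1) ∣ x - c (i + 1)

def IsInf (a : ℕ) (c : ℕ → ℤ) (x : ℤ) : Prop := ∀ n, (a : ℤ) ^ n ∣ x - c n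

variable {a : ℕ} {c : ℕ → ℤ}

theorem coh_le (hc : Coh a c) {m n : ℕ} (h : m ≤ n) : (a : ℤ) ^ m ∣ c n - c m := by
  induction n, h using Nat.le_induction with
  | base => simp
  | succ n hmn ih =>
    have h1 : (a : ℤ) ^ m ∣ c (n + 1) - c n := (pow_dvd_pow _ hmn).trans (hc n)
    have h2 := dvd_add h1 ih
    rwa [sub_add_sub_cancel] at h2

theorem lv_or (a : ℕ) (c : ℕ → ℤ) (x : ℤ) : (∃ i, IsLv a c x i) ∨ IsInf a c x := by
  classical
  by_cases h : IsInf a c x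
  · exact Or.inr h
  · left
    unfold IsInf at h
    push Not at h
    have hs := Nat.find_spec h
    have h0 : Nat.find h ≠ 0 := by
      intro h0
      rw [h0] at hs
      exact hs (by simp)
    obtain ⟨i, hi⟩ := Nat.exists_eq_succ_of_ne_zero h0
    refine ⟨i, ?_, ?_⟩
    · have h1 : i < Nat.find h := by omega
      exact not_not.1 (Nat.find_min h h1)
    · rw [hi] at hs
      exact hs

theorem IsLv.dvd (hc : Coh a c) {x : ℤ} {i n : ℕ} (h : IsLv a c x i) :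
    (a : ℤ) ^ n ∣ x - c n ↔ n ≤ i := by
  constructor
  · intro h1
    by_contra hn
    have hn' : i + 1 ≤ n := by omega
    apply h.2
    have h2 := dvd_add ((pow_dvd_pow _ hn').trans h1) (coh_le hc hn')
    rwa [sub_add_sub_cancel] at h2
  · intro hn
    have h2 := dvd_add ((pow_dvd_pow _ hn).trans h.1) (coh_le hc hn)
    rwa [sub_add_sub_cancel] at h2

theorem IsLv.unique (hc : Coh a c) {x : ℤ} {i j : ℕ} (hi : IsLv a c x i) (hj : IsLv a c x j) :
    i = j := by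
  have h1 := (hi.dvd hc).1 hj.1
  have h2 := (hj.dvd hc).1 hi.1
  omega

theorem IsLv.not_inf {x : ℤ} {i : ℕ} (hi : IsLv a c x i) : ¬ IsInf a c x :=
  fun h => hi.2 (h (i + 1))

theorem IsLv.lvT (hc : Coh a c) {x : ℤ} {i n : ℕ} (h : IsLv a c x i) (hn : i < n) :
    LvT a n (x - c n) i := by
  refine ⟨hn.le, ?_, fun _ h1 => h.2 ?_⟩
  · have h2 := dvd_sub h.1 (coh_le hc hn.le)
    rwa [sub_sub_sub_cancel_right] at h2
  · have h2 := dvd_add h1 (coh_le hc (Nat.succ_le_of_lt hn))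
    rwa [sub_add_sub_cancel] at h2

theorem IsInf.unique (ha : 2 ≤ a) {x x' : ℤ} (h : IsInf a c x) (h' : IsInf a c x') : x = x' := by
  have h1 := dvd_sub (h (x - x').natAbs) (h' (x - x').natAbs)
  rw [sub_sub_sub_cancel_right] at h1
  have h2 : (x - x').natAbs < a ^ (x - x').natAbs := Nat.lt_pow_self (by omega)
  have h3 : |x - x'| < (a : ℤ) ^ (x - x').natAbs := by
    rw [Int.abs_eq_natAbs]
    exact_mod_cast h2
  have h4 := Int.eq_zero_of_abs_lt_dvd h1 h3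
  omega

theorem lv_exists (ha : 2 ≤ a) (hc : Coh a c) (i : ℕ) : ∃ x, IsLv a c x i := by
  refine ⟨c (i + 1) + (a : ℤ) ^ i, ?_, ?_⟩
  · have h2 := dvd_add (hc i) (dvd_refl ((a : ℤ) ^ i))
    have h3 : c (i + 1) + (a : ℤ) ^ i - c i = c (i + 1) - c i + (a : ℤ) ^ i := by ring
    rwa [h3]
  · rw [add_sub_cancel_left]
    intro h
    have h1 : a ^ (i + 1) ∣ a ^ i := by exact_mod_cast h
    have h2 := (Nat.pow_dvd_pow_iff_le_right (by omega : 1 < a)).1 h1
    omega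

theorem lv_between (ha : 1 ≤ a) (n : ℕ) (x : ℤ) :
    ∃ x', x < x' ∧ x' ≤ x + (a : ℤ) ^ n ∧ (a : ℤ) ^ n ∣ x' - c n := by
  have hA : (0 : ℤ) < (a : ℤ) ^ n := by positivity
  have h0 := Int.emod_nonneg (c n - (x + 1)) hA.ne'
  have h1 := Int.emod_lt_of_pos (c n - (x + 1)) hA
  have h2 := Int.emod_add_mul_ediv (c n - (x + 1)) ((a : ℤ) ^ n)
  refine ⟨x + 1 + (c n - (x + 1)) % (a : ℤ) ^ n, by omega, by omega, ?_⟩
  refine ⟨-((c n - (x + 1)) / (a : ℤ) ^ n), ?_⟩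
  rw [mul_neg]
  omega

/-- adding a number of smaller level keeps the level -/
theorem lv_add (hc : Coh a c) {x z : ℤ} {j n : ℕ} (hx : (a : ℤ) ^ n ∣ x - c n) (hj : j < n)
    (h1 : (a : ℤ) ^ j ∣ z) (h2 : ¬ (a : ℤ) ^ (j + 1) ∣ z) : IsLv a c (x + z) j := by
  constructor
  · have h3 := dvd_add (dvd_add ((pow_dvd_pow _ hj.le).trans hx) (coh_le hc hj.le)) h1
    have h4 : x - c n + (c n - c j) + z = x + z - c j := by ring
    rwa [h4] at h3
  · intro h
    apply h2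
    have h3 := dvd_add ((pow_dvd_pow _ (Nat.succ_le_of_lt hj)).trans hx)
      (coh_le hc (Nat.succ_le_of_lt hj))
    have h4 := dvd_sub h h3
    have h5 : x + z - c (j + 1) - (x - c n + (c n - c (Nat.succ j))) = z := by
      simp only [Nat.succ_eq_add_one]
      ring
    rwa [h5] at h4

end H96.CK
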