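import Pool.Agent.H96.CK.Lane

/-!
# Module LaneA (150 lines): levels and digits of columns

Elementary arithmetic. `dgA`, `dgB` are the digit labels of the columns for a coherent sequence `c`
(for a column of infinite level `1` and `3`).
* `dA12`: `dig_pos`, `dig_lt`.
* `one_iff`: write `x - c (i+1) = 3 ^ i * w`, `¬ 3 ∣ w`, `dA x = w % 3` (`dig_eq`).
* `odd_iff`, `three_iff`: `i = 2 m` or `i = 2 m + 1`; `x - c (2 m + 2) = 9 ^ m * W`, `dB x = W % 9`;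
  for `i = 2 m`: `¬ 3 ∣ W`; for `i = 2 m + 1`: `W = 3 w`, `¬ 3 ∣ w`, `W % 9 = 3 (w % 3)`, `dA x = w % 3`.
* `lv_delta`: `0 < d < 3 ^ n`, `3 ^ n ∣ X - c n`: the level of `X + d` is the exponent of `3` in `d`
  (`lv_add`).
* `dA_delta`: the digit of `X + d` at its level `j < n` is the digit of `d`.
-/

namespace H96.CK

private lemma get_w {c : ℕ → ℤ} {dA dB : ℤ → ℕ} (h : ColOk c dA dB) {x : ℤ} {i : ℕ}
    (hx : IsLv 3 c x i) :
    ∃ w : ℤ, x - c (i + 1) = 3 ^ i * w ∧ ¬ (3 : ℤ) ∣ w ∧ (dA x : ℤ) = w % 3 := by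
  have h1 : (3 : ℤ) ^ i ∣ x - c (i + 1) := by
    have h2 := dvd_sub hx.1 (h.coh i)
    have e : x - c i - (c (i + 1) - c i) = x - c (i + 1) := by ring
    rw [e] at h2
    exact_mod_cast h2
  obtain ⟨w, hw⟩ := h1
  refine ⟨w, hw, ?_, ?_⟩
  · rintro ⟨v, rfl⟩
    apply hx.2
    refine ⟨v, ?_⟩
    rw [hw]
    push_cast
    ring
  · rw [h.A x i hx, hw]
    have h3 := dig_eq (a := 3) (by norm_num) i w
    push_cast at h3
    exact h3

private lemma dB_cases {c : ℕ → ℤ} {dA dB : ℤ → ℕ} (h : ColOk c dA dB) {x : ℤ} {i : ℕ}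
    (hx : IsLv 3 c x i) : (i % 2 = 0 ∧ ¬ 3 ∣ dB x) ∨ (i % 2 = 1 ∧ dB x = 3 * dA x) := by
  have hB := h.B x i hx
  obtain ⟨w, hw, hw3, hwA⟩ := get_w h hx
  have hpow : ∀ m : ℕ, (9 : ℤ) ^ m = 3 ^ (2 * m) := by
    intro m
    rw [pow_mul]
    norm_num
  rcases Nat.even_or_odd' i with ⟨m, hm | hm⟩
  · left
    have hi2 : i / 2 = m := by omega
    rw [hi2] at hB
    refine ⟨by omega, ?_⟩
    -- `3 ^ (2 m)` divides `x - c (2 m + 2)`
    have h1 : (3 : ℤ) ^ (2 * m) ∣ x - c (2 * m + 2) := by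
      have h2 := dvd_sub hx.1 (coh_le h.coh (show i ≤ 2 * m + 2 by omega))
      rw [sub_sub_sub_cancel_right] at h2
      have h2' : (3 : ℤ) ^ i ∣ x - c (2 * m + 2) := by exact_mod_cast h2
      have e : (3 : ℤ) ^ (2 * m) = 3 ^ i := by rw [hm]
      rw [e]
      exact h2'
    rw [← hpow] at h1
    obtain ⟨W, hW⟩ := h1
    have h3 : (dB x : ℤ) = W % 9 := by
      rw [hB, hW]
      have h4 := dig_eq (a := 9) (by norm_num) m W
      push_cast at h4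
      exact h4
    have h5 : ¬ (3 : ℤ) ∣ W := by
      rintro ⟨v, rfl⟩
      apply hx.2
      have h6 : ((3 : ℕ) : ℤ) ^ (i + 1) ∣ x - c (2 * m + 2) := by
        refine ⟨v, ?_⟩
        rw [hW, hpow, hm]
        push_cast
        ring
      have h7 := dvd_add h6 (coh_le h.coh (show i + 1 ≤ 2 * m + 2 by omega))
      rwa [sub_add_sub_cancel] at h7
    omega
  · right
    have hi2 : i / 2 = m := by omega
    rw [hi2] at hB
    refine ⟨by omega, ?_⟩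
    have hW : x - c (2 * m + 2) = 9 ^ m * (3 * w) := by
      have e : 2 * m + 2 = i + 1 := by omega
      rw [e, hw, hpow, hm]
      ring
    have h3 : (dB x : ℤ) = (3 * w) % 9 := by
      rw [hB, hW]
      have h4 := dig_eq (a := 9) (by norm_num) m (3 * w)
      push_cast at h4
      exact h4
    omega

theorem ColOk.dA12 {c : ℕ → ℤ} {dA dB : ℤ → ℕ} (h : ColOk c dA dB) {x : ℤ} {i : ℕ}
    (hx : IsLv 3 c x i) : dA x = 1 ∨ dA x = 2 := by
  obtain ⟨w, -, hw3, hwA⟩ := get_w h hx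
  omega

theorem ColOk.one_iff {c : ℕ → ℤ} {dA dB : ℤ → ℕ} (h : ColOk c dA dB) {x : ℤ} {i : ℕ}
    (hx : IsLv 3 c x i) : dA x = 1 ↔ (3 : ℤ) ^ (i + 1) ∣ x - 3 ^ i - c (i + 1) := by
  obtain ⟨w, hw, hw3, hwA⟩ := get_w h hx
  have e : x - 3 ^ i - c (i + 1) = 3 ^ i * (w - 1) := by
    have e1 : x - 3 ^ i - c (i + 1) = (x - c (i + 1)) - 3 ^ i := by ring
    rw [e1, hw]
    ring
  rw [e, pow_succ, mul_dvd_mul_iff_left (by positivity : (3 : ℤ) ^ i ≠ 0)]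
  omega

theorem ColOk.two_iff {c : ℕ → ℤ} {dA dB : ℤ → ℕ} (h : ColOk c dA dB) {x : ℤ} {i : ℕ}
    (hx : IsLv 3 c x i) : dA x = 2 ↔ (3 : ℤ) ^ (i + 1) ∣ x + 3 ^ i - c (i + 1) := by
  obtain ⟨w, hw, hw3, hwA⟩ := get_w h hx
  have e : x + 3 ^ i - c (i + 1) = 3 ^ i * (w + 1) := by
    have e1 : x + 3 ^ i - c (i + 1) = (x - c (i + 1)) + 3 ^ i := by ring
    rw [e1, hw]
    ring
  rw [e, pow_succ, mul_dvd_mul_iff_left (by positivity : (3 : ℤ) ^ i ≠ 0)]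
  omega

theorem ColOk.odd_iff {c : ℕ → ℤ} {dA dB : ℤ → ℕ} (h : ColOk c dA dB) {x : ℤ} {i : ℕ}
    (hx : IsLv 3 c x i) : 3 ∣ dB x ↔ i % 2 = 1 := by
  rcases dB_cases h hx with ⟨h1, h2⟩ | ⟨h1, h2⟩
  · constructor
    · intro h3
      exact absurd h3 h2
    · intro h3
      omega
  · constructor
    · intro _
      exact h1
    · intro _
      exact ⟨dA x, h2⟩

theorem ColOk.three_iff {c : ℕ → ℤ} {dA dB : ℤ → ℕ} (h : ColOk c dA dB) {x : ℤ} {i : ℕ}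
    (hx : IsLv 3 c x i) : dB x = 3 ↔ i % 2 = 1 ∧ dA x = 1 := by
  rcases dB_cases h hx with ⟨h1, h2⟩ | ⟨h1, h2⟩
  · constructor
    · intro h3
      exact absurd (by rw [h3]) h2
    · rintro ⟨h3, -⟩
      omega
  · rw [h2]
    omega

theorem lv_delta {c : ℕ → ℤ} (hc : Coh 3 c) {X : ℤ} {n d : ℕ} (hX : (3 : ℤ) ^ n ∣ X - c n)
    (h0 : 0 < d) (hd : d < 3 ^ n) :
    ∃ j, j < n ∧ 3 ^ j ∣ d ∧ ¬ 3 ^ (j + 1) ∣ d ∧ IsLv 3 c (X + d) j := by
  obtain ⟨j, hj1, hj2, hj3⟩ := LvT.exists 3 n (d : ℤ)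
  have hj2' : 3 ^ j ∣ d := by exact_mod_cast hj2
  have hjn : j < n := by
    rcases Nat.lt_or_ge j n with h | h
    · exact h
    · have e : j = n := by omega
      rw [e] at hj2'
      exact absurd (Nat.le_of_dvd h0 hj2') (by omega)
  have hj3' := hj3 hjn
  refine ⟨j, hjn, hj2', fun h => hj3' (by exact_mod_cast h), ?_⟩
  exact lv_add hc (by exact_mod_cast hX) hjn hj2 hj3'

theorem ColOk.dA_delta {c : ℕ → ℤ} {dA dB : ℤ → ℕ} (h : ColOk c dA dB) {X : ℤ} {n d j : ℕ}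
    (hX : (3 : ℤ) ^ n ∣ X - c n) (hj : j < n) (h1 : 3 ^ j ∣ d) (h2 : ¬ 3 ^ (j + 1) ∣ d) :
    dA (X + d) = d / 3 ^ j % 3 := by
  have hl : IsLv 3 c (X + d) j := by
    refine lv_add h.coh (by exact_mod_cast hX) hj (by exact_mod_cast h1) (fun h3 => h2 ?_)
    exact_mod_cast h3
  have h3 : ((3 : ℕ) : ℤ) ^ (j + 1) ∣ X + d - c (j + 1) - d := by
    have e : X + d - c (j + 1) - d = X - c (j + 1) := by ring
    rw [e]
    have h4 : ((3 : ℕ) : ℤ) ^ (j + 1) ∣ X - c n :=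
      (pow_dvd_pow _ (Nat.succ_le_of_lt hj)).trans (by exact_mod_cast hX)
    have h5 := dvd_add h4 (coh_le h.coh (Nat.succ_le_of_lt hj))
    rwa [sub_add_sub_cancel] at h5
  rw [h.A _ j hl, dig_congr (by norm_num) h3]
  have h6 := dig_cast (a := 3) (by norm_num) j (d : ℤ)
  have h7 : ((d / 3 ^ j % 3 : ℕ) : ℤ) = (d : ℤ) / ((3 : ℕ) : ℤ) ^ j % ((3 : ℕ) : ℤ) := by
    push_cast
    rfl
  rw [← h7] at h6
  exact_mod_cast h6

open Classical in
noncomputable def dgA (c : ℕ → ℤ) (x : ℤ) : ℕ :=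
  if h : ∃ i, IsLv 3 c x i then dig 3 h.choose (x - c (h.choose + 1)) else 1

open Classical in
noncomputable def dgB (c : ℕ → ℤ) (x : ℤ) : ℕ :=
  if h : ∃ i, IsLv 3 c x i then dig 9 (h.choose / 2) (x - c (2 * (h.choose / 2) + 2)) else 3

theorem colOk_dg {c : ℕ → ℤ} (hc : Coh 3 c) : ColOk c (dgA c) (dgB c) := by
  refine ⟨hc, fun x i hx => ?_, fun x i hx => ?_⟩
  · have he : ∃ i, IsLv 3 c x i := ⟨i, hx⟩
    have h1 : he.choose = i := IsLv.unique hc he.choose_spec hx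
    unfold dgA
    rw [dif_pos he, h1]
  · have he : ∃ i, IsLv 3 c x i := ⟨i, hx⟩
    have h1 : he.choose = i := IsLv.unique hc he.choose_spec hx
    unfold dgB
    rw [dif_pos he, h1]

end H96.CK
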