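import Pool.Agent.H96.CK.TileSk
import Pool.Agent.H96.CK.LaneA

/-!
# Module BusA (250 lines): a configuration with a base row

`(he x a0 b0).be = true`; `be` is constant along the row. Every cell of the row `b0` has `tA = 2`
(`OkL.base`), so the row has infinite level (a row of level `j` has `tA = 0` at a column of level `j`,
`lv_exists`). `IsInf.unique`: there is only one base row.
* `u_fin`: column `a` of level `i`. Above the base cell `u = true`. The rows `b0 + z`, `0 < z`, have level =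
  exponent of 3 in `z`; for `z < 3 ^ (i+1)` the level is `≤ i`, `tA ≤ 0`, so `u` is kept; the row `b0 + 3 ^ (i+1)` has
  `tA > 0`: `u = false`, and then `u` stays `false` (no other base row; cells with `tA ≤ 0` keep it, cells with `tA > 0` make it
  `false`). Below the base row: some row `b' ≤ b` has level `> i` (`lv_between`), there `u = false`, upwards it stays
  `false` up to the base row.
* `u_inf`: all rows of finite level keep `u` (`tA = -2`), the base row has `u = false` below, `true` above.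
* `ro`: a row `b ≠ b0` has a finite level `j`; take a column `a` of level `j` (`lv_exists`): `tA = 0` there, so
  `ro ↔ (ve x a (b-1)).u ∧ dy = 1`; by `u_fin` the first means `b0 ≤ b - 1 < b0 + 3 ^ (j+1)`, so `b = b0 + 3 ^ j w`,
  `1 ≤ w ≤ 3`, `w ≠ 3` as the level is `j`, and `dy = w % 3` (`dig 3 j (b - r (j+1))`, `r (j+1) = b0` mod `3 ^ (j+1)`), so
  `w = 1`. Conversely clear. `ro` is constant along the row.
* `wire`: `b0 + 3 ^ (t-1) ≤ b < b0 + 3 ^ t` (`t ≥ 1`): the rows strictly above `b0 + 3 ^ (t-1)` up to `b` have `ro = false` and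
  level `< t`; if `tA < 0` the wire is kept (`wc`); if `tA = 0` (then the column has the same level) both are blank
  (`we`), so by induction the wire equals that above the row `b0 + 3 ^ (t-1)`: for a column of level `i ≥ t` all these rows have
  `tA < 0`; for level `i = t - 1`: the wire above `b0 + 3 ^ i` is blank (the cell is `ro`, `tA = 0`, `LRule` with `sA = 0` has
  `wu = blank` in all cases) and stays blank; for level `i < t - 1`: `u = false` (`u_fin`), `wu`.
* `lane_of`: `pass`: the cell `(a, b0 + 3 ^ t)` has `tA > 0`; `hr`, and `Wf a t = blank` for `t > i`: shown in `wire`.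
  `rule`, `inf`: `OkL.lane` at `(a, b0 + 3 ^ t)`; the wire below it is that of the row `b0 + 3 ^ t - 1`, which is
  `Wf a t` by `wire`. `base1`, `base2`: `OkL.base` and matching of `ini`.
-/

namespace H96.CK

variable {K G : Type} [DecidableEq G] {M : SM K G} {mn : K} {cs : G}

/-- facts about the base row `b0` and the companion rows -/
structure BaseG (x : ℤ × ℤ → Tile M) (c r : ℕ → ℤ) (b0 : ℤ) : Prop where
  inf : IsInf 3 r b0
  be : ∀ a b, (he x a b).be = true ↔ b = b0
  u_fin : ∀ a b i, IsLv 3 c a i → ((ve x a b).u = true ↔ b0 ≤ b ∧ b < b0 + 3 ^ (i + 1))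
  u_inf : ∀ a b, IsInf 3 c a → ((ve x a b).u = true ↔ b0 ≤ b)
  ro : ∀ a b, (he x a b).ro = true ↔ ∃ t : ℕ, b = b0 + 3 ^ t
  row0 : ∀ a, (he x a b0).n = 0 ∧ (he x a b0).dy = 1 ∧ (∀ k, (he x a b0).pA k = 0) ∧
    (∀ k, (he x a b0).pB k = 0) ∧ (he x a b0).h = .blank ∧
    ((he x a b0).ini = true ↔ (ve x a b0).w = .P)
  rows : ∀ a b, b ≠ b0 → (he x a b).ini = false ∧ ((he x a b).ro = false → (he x a b).h = .blank)

/-- lane labels -/
def Hf (x : ℤ × ℤ → Tile M) (b0 a : ℤ) (t : ℕ) : HL M := (he x a (b0 + 3 ^ t)).h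

/-- wire labels -/
def Wf (x : ℤ × ℤ → Tile M) (b0 a : ℤ) (t : ℕ) : WL M :=
  (ve x a (b0 + if t = 0 then 0 else 3 ^ (t - 1))).w

def cA (x : ℤ × ℤ → Tile M) (a : ℤ) : ℕ := (ve x a 0).dA

def cB (x : ℤ × ℤ → Tile M) (a : ℤ) : ℕ := (ve x a 0).dB

section Rows

variable {x : ℤ × ℤ → Tile M} {c r : ℕ → ℤ}

private theorem p3 (t : ℕ) : ¬ (3 : ℤ) ^ (t + 1) ∣ 3 ^ t := by
  intro h
  have h1 : 3 ^ (t + 1) ∣ 3 ^ t := by exact_mod_cast h
  have h2 := (Nat.pow_dvd_pow_iff_le_right (by norm_num : 1 < 3)).1 h1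
  omega

/-- a base row has infinite level -/
private theorem base_inf (hx : x ∈ TX M mn cs) (g : Geo x c r) {a0 b : ℤ}
    (hb : (he x a0 b).be = true) : IsInf 3 r b := by
  rcases lv_or 3 r b with ⟨j, hj⟩ | h
  · exfalso
    obtain ⟨a, ha⟩ := lv_exists (a := 3) (by norm_num) g.cohc j
    have h1 := g.A_fin a b j j ha hj
    obtain ⟨hok, hl, -, -, -⟩ := TX.eqs hx a b
    have h2 : (x (a, b)).l.be = true := by
      rw [hl, (TX.rowc hx (a - 1) a0 b).2.2.1]
      exact hb
    have h3 := (hok.l.base h2).1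
    rw [h3, sub_self] at h1
    exact absurd h1 (by decide)
  · exact h

private theorem be_iff (hx : x ∈ TX M mn cs) (g : Geo x c r) {a0 b0 : ℤ}
    (hb : (he x a0 b0).be = true) (a b : ℤ) : (he x a b).be = true ↔ b = b0 := by
  constructor
  · intro h
    exact (base_inf hx g h).unique (by norm_num) (base_inf hx g hb)
  · rintro rfl
    rw [(TX.rowc hx a a0 b).2.2.1]
    exact hb

private theorem lbe (hx : x ∈ TX M mn cs) (g : Geo x c r) {a0 b0 : ℤ}
    (hb : (he x a0 b0).be = true) {a b : ℤ} (h : b ≠ b0) : (x (a, b)).l.be = false := by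
  rw [(TX.eqs hx a b).2.1]
  by_contra hc
  rw [Bool.not_eq_false] at hc
  exact h ((be_iff hx g hb (a - 1) b).1 hc)

private theorem base_at (hx : x ∈ TX M mn cs) (g : Geo x c r) {a0 b0 : ℤ}
    (hb : (he x a0 b0).be = true) (a : ℤ) : (x (a, b0)).l.be = true := by
  rw [(TX.eqs hx a b0).2.1]
  exact (be_iff hx g hb (a - 1) b0).2 rfl

private theorem u_up (hx : x ∈ TX M mn cs) (g : Geo x c r) {a0 b0 : ℤ}
    (hb : (he x a0 b0).be = true) {a b : ℤ} (h : b ≠ b0) (h0 : (ve x a (b - 1)).u = false) :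
    (ve x a b).u = false := by
  obtain ⟨hok, -, -, hd, hu⟩ := TX.eqs hx a b
  have h1 := lbe hx g hb (a := a) h
  rw [← hu]
  rcases lt_or_ge 0 (x (a, b)).tA with h2 | h2
  · exact hok.l.ur h1 h2
  · rw [hok.l.uc h1 h2, hd]
    exact h0

private theorem u_low (hx : x ∈ TX M mn cs) (g : Geo x c r) {a0 b0 : ℤ}
    (hb : (he x a0 b0).be = true) {a b : ℤ} {j : ℕ} {k : ℕ} (h : b ≠ b0)
    (ha : IsLv 3 c a k) (hj : IsLv 3 r b j) (hjk : k < j) :
    (ve x a b).u = false := by
  obtain ⟨hok, -, -, hd, hu⟩ := TX.eqs hx a b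
  rw [← hu]
  refine hok.l.ur (lbe hx g hb h) ?_
  rw [g.A_fin a b k j ha hj]
  unfold cl
  omega

private theorem u_keep (hx : x ∈ TX M mn cs) (g : Geo x c r) {a0 b0 : ℤ}
    (hb : (he x a0 b0).be = true) {a b : ℤ} (h : b ≠ b0) (h2 : (x (a, b)).tA ≤ 0) :
    (ve x a b).u = (ve x a (b - 1)).u := by
  obtain ⟨hok, -, -, hd, hu⟩ := TX.eqs hx a b
  rw [← hu, hok.l.uc (lbe hx g hb h) h2, hd]

private theorem u_base (hx : x ∈ TX M mn cs) (g : Geo x c r) {a0 b0 : ℤ}
    (hb : (he x a0 b0).be = true) (a : ℤ) :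
    (ve x a (b0 - 1)).u = false ∧ (ve x a b0).u = true := by
  obtain ⟨hok, -, -, hd, hu⟩ := TX.eqs hx a b0
  have h1 := hok.l.base (base_at hx g hb a)
  rw [← hu, ← hd]
  exact ⟨h1.2.2.2.2.2.2.1, h1.2.2.2.2.2.2.2.1⟩

private theorem cl_le {i j : ℕ} (h : j ≤ i) : cl ((j : ℤ) - i) ≤ 0 := by
  unfold cl
  omega

/-- upwards from the base row -/
private theorem u_true (hx : x ∈ TX M mn cs) (g : Geo x c r) {a0 b0 : ℤ}
    (hb : (he x a0 b0).be = true) {a : ℤ} {i : ℕ} (ha : IsLv 3 c a i) (z : ℕ)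
    (hz : z < 3 ^ (i + 1)) : (ve x a (b0 + z)).u = true := by
  induction z with
  | zero => simpa using (u_base hx g hb a).2
  | succ z ih =>
    obtain ⟨j, h1, -, -, h2⟩ := lv_delta g.cohr (base_inf hx g hb (i + 1)) (Nat.succ_pos z) hz
    rw [u_keep hx g hb (by push_cast; omega) (by rw [g.A_fin _ _ _ _ ha h2]; exact cl_le (by omega)),
      ← ih (by omega)]
    congr 2
    push_cast
    ring

private theorem lv_top (g : Geo x c r) {b0 : ℤ} (hinf : IsInf 3 r b0) (t : ℕ) :
    IsLv 3 r (b0 + 3 ^ t) t :=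
  lv_add g.cohr (hinf (t + 1)) (Nat.lt_succ_self t) (dvd_refl _) (p3 t)

private theorem u_false_up (hx : x ∈ TX M mn cs) (g : Geo x c r) {a0 b0 : ℤ}
    (hb : (he x a0 b0).be = true) {a : ℤ} {i : ℕ} (ha : IsLv 3 c a i) (z : ℕ) :
    (ve x a (b0 + 3 ^ (i + 1) + z)).u = false := by
  have hp : (0 : ℤ) < 3 ^ (i + 1) := by positivity
  induction z with
  | zero =>
    have h1 := u_low hx g hb (by omega) ha (lv_top g (base_inf hx g hb) (i + 1))
      (Nat.lt_succ_self i)
    simpa using h1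
  | succ z ih =>
    refine u_up hx g hb (by push_cast; omega) ?_
    rw [← ih]
    congr 2
    push_cast
    ring

private theorem u_below (hx : x ∈ TX M mn cs) (g : Geo x c r) {a0 b0 : ℤ}
    (hb : (he x a0 b0).be = true) {a : ℤ} {i : ℕ} (ha : IsLv 3 c a i) {b : ℤ} (h : b < b0) :
    (ve x a b).u = false := by
  by_contra hu
  rw [Bool.not_eq_false] at hu
  have hall : ∀ z : ℕ, (ve x a (b - z)).u = true := by
    intro z
    induction z with
    | zero => simpa using hu
    | succ z ih =>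
      by_contra h1
      rw [Bool.not_eq_true] at h1
      have h2 := u_up hx g hb (a := a) (b := b - z) (by omega) (by
        rw [← h1]
        congr 2
        push_cast
        ring)
      rw [ih] at h2
      exact absurd h2 (by decide)
  obtain ⟨b', h1, h2, h3⟩ := lv_between (a := 3) (c := r) (by norm_num) (i + 1) (b - 3 ^ (i + 1))
  have h2' : b' ≤ b := by
    have h4 : b' ≤ b - 3 ^ (i + 1) + (3 : ℤ) ^ (i + 1) := by exact_mod_cast h2
    omega
  have h5 := hall (b - b').toNat
  rw [Int.toNat_of_nonneg (by omega), sub_sub_cancel] at h5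
  rcases lv_or 3 r b' with ⟨j, hj⟩ | hinf
  · have h6 : i + 1 ≤ j := (hj.dvd g.cohr).1 (by exact_mod_cast h3)
    rw [u_low hx g hb (by omega) ha hj (by omega)] at h5
    exact absurd h5 (by decide)
  · have h7 := hinf.unique (by norm_num) (base_inf hx g hb)
    omega

private theorem u_fin' (hx : x ∈ TX M mn cs) (g : Geo x c r) {a0 b0 : ℤ}
    (hb : (he x a0 b0).be = true) (a b : ℤ) (i : ℕ) (ha : IsLv 3 c a i) :
    (ve x a b).u = true ↔ b0 ≤ b ∧ b < b0 + 3 ^ (i + 1) := by
  constructor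
  · intro h
    constructor
    · by_contra h1
      rw [u_below hx g hb ha (by omega)] at h
      exact absurd h (by decide)
    · by_contra h1
      have h2 := u_false_up hx g hb ha (b - (b0 + 3 ^ (i + 1))).toNat
      rw [Int.toNat_of_nonneg (by omega), add_sub_cancel] at h2
      rw [h2] at h
      exact absurd h (by decide)
  · rintro ⟨h1, h2⟩
    have h3 := u_true hx g hb ha (b - b0).toNat (by
      zify
      rw [Int.toNat_of_nonneg (by omega)]
      omega)
    rw [Int.toNat_of_nonneg (by omega), add_sub_cancel] at h3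
    exact h3

private theorem u_inf' (hx : x ∈ TX M mn cs) (g : Geo x c r) {a0 b0 : ℤ}
    (hb : (he x a0 b0).be = true) (a b : ℤ) (ha : IsInf 3 c a) :
    (ve x a b).u = true ↔ b0 ≤ b := by
  have hkeep : ∀ b', b' ≠ b0 → (ve x a b').u = (ve x a (b' - 1)).u := by
    intro b' h
    refine u_keep hx g hb h ?_
    rcases lv_or 3 r b' with ⟨j, hj⟩ | hinf
    · rw [g.A_ci a b' j ha hj]
      norm_num
    · exact absurd (hinf.unique (by norm_num) (base_inf hx g hb)) h
  have hup : ∀ z : ℕ, (ve x a (b0 + z)).u = true := by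
    intro z
    induction z with
    | zero => simpa using (u_base hx g hb a).2
    | succ z ih =>
      rw [hkeep _ (by push_cast; omega), ← ih]
      congr 2
      push_cast
      ring
  have hdown : ∀ z : ℕ, (ve x a (b0 - 1 - z)).u = false := by
    intro z
    induction z with
    | zero => simpa using (u_base hx g hb a).1
    | succ z ih =>
      rw [← ih, hkeep (b0 - 1 - z) (by omega)]
      congr 2
      push_cast
      ring
  constructor
  · intro h
    by_contra h1
    have h2 := hdown (b0 - 1 - b).toNat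
    rw [Int.toNat_of_nonneg (by omega), sub_sub_cancel] at h2
    rw [h2] at h
    exact absurd h (by decide)
  · intro h
    have h2 := hup (b - b0).toNat
    rw [Int.toNat_of_nonneg (by omega), add_sub_cancel] at h2
    exact h2

private theorem ro' (hx : x ∈ TX M mn cs) (g : Geo x c r) {a0 b0 : ℤ}
    (hb : (he x a0 b0).be = true) (a b : ℤ) :
    (he x a b).ro = true ↔ ∃ t : ℕ, b = b0 + 3 ^ t := by
  have hinf := base_inf hx g hb
  by_cases h : b = b0
  · subst h
    have h1 := ((TX.eqs hx a b).1.l.base (base_at hx g hb a)).2.2.1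
    rw [(TX.eqs hx a b).2.1] at h1
    rw [(TX.rowc hx a (a - 1) b).2.2.2, h1]
    constructor
    · intro h2
      exact absurd h2 (by decide)
    · rintro ⟨t, ht⟩
      have : (0 : ℤ) < 3 ^ t := by positivity
      omega
  · rcases lv_or 3 r b with ⟨j, hj⟩ | hinf'
    swap
    · exact absurd (hinf'.unique (by norm_num) hinf) h
    obtain ⟨a', ha'⟩ := lv_exists (a := 3) (by norm_num) g.cohc j
    obtain ⟨hok, hl, -, hd, -⟩ := TX.eqs hx a' b
    have htA : (x (a', b)).tA = 0 := by
      rw [g.A_fin a' b j j ha' hj, sub_self]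
      rfl
    have hro := hok.l.roE htA
    rw [hl, hd] at hro
    rw [(TX.rowc hx a (a' - 1) b).2.2.2, hro, u_fin' hx g hb a' (b - 1) j ha']
    have hdy := g.dy (a' - 1) b j hj
    have hcon : dig 3 j (b - r (j + 1)) = dig 3 j (b - b0) := by
      refine dig_congr (by norm_num) ?_
      have h1 := hinf (j + 1)
      have h2 : b - r (j + 1) - (b - b0) = b0 - r (j + 1) := by ring
      rw [h2]
      exact_mod_cast h1
    have hdv : (3 : ℤ) ^ j ∣ b - b0 := by
      have h1 := dvd_sub hj.1 (hinf j)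
      have h2 : b - r j - (b0 - r j) = b - b0 := by ring
      rw [h2] at h1
      exact_mod_cast h1
    have hndv : ¬ (3 : ℤ) ^ (j + 1) ∣ b - b0 := by
      intro h1
      apply hj.2
      have h2 := dvd_add h1 (show (3 : ℤ) ^ (j + 1) ∣ b0 - r (j + 1) by exact_mod_cast hinf (j + 1))
      have h3 : b - b0 + (b0 - r (j + 1)) = b - r (j + 1) := by ring
      rw [h3] at h2
      exact_mod_cast h2
    obtain ⟨w, hw⟩ := hdv
    have hdw : (dig 3 j (b - b0) : ℤ) = w % 3 := by
      rw [hw]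
      have := dig_eq (a := 3) (by norm_num) j w
      exact_mod_cast this
    have hp : (0 : ℤ) < 3 ^ j := by positivity
    have hp1 : (3 : ℤ) ^ (j + 1) = 3 * 3 ^ j := by ring
    have hdy1 : (he x (a' - 1) b).dy = 1 ↔ w % 3 = 1 := by
      rw [← hdw, ← hcon, ← hdy]
      constructor
      · intro h1
        rw [h1]
        rfl
      · intro h1
        have h2 : ((he x (a' - 1) b).dy : ℕ) = 1 := by exact_mod_cast h1
        exact Fin.ext h2
    constructor
    · rintro ⟨⟨h1, h2⟩, h3⟩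
      have h4 := hdy1.1 h3
      have h5 : 0 < w := by
        by_contra hc
        have : 3 ^ j * w ≤ 0 := mul_nonpos_of_nonneg_of_nonpos hp.le (by omega)
        omega
      have h6 : w ≤ 3 := by
        by_contra hc
        have : 3 ^ j * 4 ≤ 3 ^ j * w := mul_le_mul_of_nonneg_left (by omega) hp.le
        omega
      have h7 : w = 1 := by omega
      rw [h7, mul_one] at hw
      exact ⟨j, by omega⟩
    · rintro ⟨t, ht⟩
      have h1 := (lv_top g hinf t).unique g.cohr (ht ▸ hj)
      subst h1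
      have h2 : (3 : ℤ) ^ t * w = 3 ^ t * 1 := by
        rw [← hw]
        omega
      have h3 : w = 1 := mul_left_cancel₀ hp.ne' h2
      refine ⟨⟨by omega, by omega⟩, hdy1.2 (by rw [h3]; rfl)⟩

end Rows

theorem baseG_of {x : ℤ × ℤ → Tile M} (hx : x ∈ TX M mn cs) {c r : ℕ → ℤ} (g : Geo x c r)
    {a0 b0 : ℤ} (hb : (he x a0 b0).be = true) : BaseG x c r b0 where
  inf := base_inf hx g hb
  be := be_iff hx g hb
  u_fin := u_fin' hx g hb
  u_inf := u_inf' hx g hb
  ro := ro' hx g hb
  row0 a := by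
    obtain ⟨hok, hl, hr, hd, hu⟩ := TX.eqs hx a b0
    obtain ⟨-, -, -, h1, h2, h3, -, -, -, -, h4, -, h5, -⟩ := hok.l.base (base_at hx g hb a)
    rw [hl] at h1 h2
    rw [hr] at h4 h5
    rw [hu] at h5
    refine ⟨?_, ?_, fun k => ?_, fun k => ?_, h4, h5⟩
    · rw [(TX.rowc hx a (a - 1) b0).1, h1]
    · rw [(TX.rowc hx a (a - 1) b0).2.1, h2]
    · rw [← hr]
      exact (h3 k).2.2.1
    · rw [← hr]
      exact (h3 k).2.2.2
  rows a b h := by
    obtain ⟨hok, hl, hr, hd, hu⟩ := TX.eqs hx a b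
    have h1 := hok.l.nini (lbe hx g hb h)
    rw [hr] at h1
    refine ⟨h1.2, fun h2 => ?_⟩
    have h3 := hok.l.h0 (by rw [hl, (TX.rowc hx (a - 1) a b).2.2.2]; exact h2)
    rw [hr] at h3
    exact h3.2

theorem colOk_of {x : ℤ × ℤ → Tile M} {c r : ℕ → ℤ} (g : Geo x c r) :
    ColOk c (cA x) (cB x) where
  coh := g.cohc
  A a i h := g.dA a 0 i h
  B a i h := g.dB a 0 i h

section Wires

variable {x : ℤ × ℤ → Tile M} {c r : ℕ → ℤ} {b0 : ℤ}

private theorem lbe' (hx : x ∈ TX M mn cs) (B : BaseG x c r b0) {a b : ℤ} (h : b ≠ b0) :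
    (x (a, b)).l.be = false := by
  rw [(TX.eqs hx a b).2.1]
  by_contra hc
  rw [Bool.not_eq_false] at hc
  exact h ((B.be (a - 1) b).1 hc)

private theorem w_keep (hx : x ∈ TX M mn cs) (B : BaseG x c r b0) {a b : ℤ} (h : b ≠ b0)
    (hro : ∀ t : ℕ, b ≠ b0 + 3 ^ t) : (ve x a b).w = (ve x a (b - 1)).w := by
  obtain ⟨hok, hl, -, hd, hu⟩ := TX.eqs hx a b
  have h1 := lbe' hx B (a := a) h
  have h2 : (x (a, b)).l.ro = false := by
    rw [hl]
    by_contra hc
    rw [Bool.not_eq_false] at hc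
    obtain ⟨t, ht⟩ := (B.ro (a - 1) b).1 hc
    exact hro t ht
  rw [← hu, ← hd]
  rcases lt_trichotomy (x (a, b)).tA 0 with h3 | h3 | h3
  · exact hok.l.wc h2 h3
  · rw [(hok.l.we h2 h3).1, (hok.l.we h2 h3).2]
  · rw [hok.l.wr h1 h3, hok.l.wu (hok.l.ur h1 h3)]

private theorem u_bel (B : BaseG x c r b0) {a b : ℤ} (h : b < b0) : (ve x a b).u = false := by
  by_contra hc
  rw [Bool.not_eq_false] at hc
  rcases lv_or 3 c a with ⟨i, hi⟩ | hinf
  · have := ((B.u_fin a b i hi).1 hc).1
    omega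
  · have := (B.u_inf a b hinf).1 hc
    omega

end Wires

theorem wire {x : ℤ × ℤ → Tile M} (hx : x ∈ TX M mn cs) {c r : ℕ → ℤ} (g : Geo x c r)
    {b0 : ℤ} (B : BaseG x c r b0) (a b : ℤ) :
    (b < b0 → (ve x a b).w = .blank) ∧ (b = b0 → (ve x a b).w = Wf x b0 a 0) ∧
    ∀ t : ℕ, b0 + 3 ^ t ≤ b → b < b0 + 3 ^ (t + 1) → (ve x a b).w = Wf x b0 a (t + 1) := by
  refine ⟨fun h => ?_, fun h => ?_, fun t h1 h2 => ?_⟩
  · have h1 := (TX.eqs hx a b).1.l.wu
    rw [(TX.eqs hx a b).2.2.2.2] at h1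
    exact h1 (u_bel B h)
  · rw [h]
    simp [Wf]
  · have key : ∀ z : ℕ, (b0 + 3 ^ t + z : ℤ) < b0 + 3 ^ (t + 1) →
        (ve x a (b0 + 3 ^ t + z)).w = Wf x b0 a (t + 1) := by
      intro z
      have hp : (0 : ℤ) < 3 ^ t := by positivity
      induction z with
      | zero =>
        intro _
        simp [Wf]
      | succ z ih =>
        intro hz
        have hz' : (b0 + 3 ^ t + z : ℤ) < b0 + 3 ^ (t + 1) := by
          push_cast at hz
          omega
        rw [w_keep hx B (by push_cast; omega) (fun s hs => ?_), ← ih hz']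
        · congr 2
          push_cast
          ring
        · have h3 : (3 : ℤ) ^ t < 3 ^ s := by
            push_cast at hs
            omega
          have h4 : (3 : ℤ) ^ s < 3 ^ (t + 1) := by
            push_cast at hs hz
            omega
          have h5 := (pow_lt_pow_iff_right₀ (by norm_num : (1 : ℤ) < 3)).1 h3
          have h6 := (pow_lt_pow_iff_right₀ (by norm_num : (1 : ℤ) < 3)).1 h4
          omega
    have h3 := key (b - (b0 + 3 ^ t)).toNat
    rw [Int.toNat_of_nonneg (by omega), add_sub_cancel] at h3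
    exact h3 h2

/-- in a cell with `sA = 0` the wire ends -/
private theorem wu_top {sB : ℤ} {p q : ℕ} {hl hr : HL M} {wd wu : WL M}
    (h : LRule M mn cs 0 sB p q hl hr wd wu) : wu = .blank := by
  cases wd <;> cases wu
  case P.P => exact absurd h.1 (by norm_num)
  case blank.V => exact absurd h.1.1 (by norm_num)
  case P.V => exact absurd h.1.1 (by norm_num)
  case V.V => exact absurd h.1.1 (by norm_num)
  case blank.T => exact absurd h.1.1 (by norm_num)
  case T.T => exact absurd h.1.1 (by norm_num)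
  all_goals first | rfl | exact (h : False).elim

theorem lane_of {x : ℤ × ℤ → Tile M} (hx : x ∈ TX M mn cs) {c r : ℕ → ℤ} (g : Geo x c r)
    {b0 : ℤ} (B : BaseG x c r b0) :
    LaneOk M mn cs c (cA x) (cB x) (Hf x b0) (Wf x b0) := by
  have hne : ∀ t : ℕ, b0 + 3 ^ t ≠ b0 := by
    intro t
    have hp : (0 : ℤ) < 3 ^ t := by positivity
    omega
  have hro : ∀ a (t : ℕ), (x (a, b0 + 3 ^ t)).l.ro = true := by
    intro a t
    rw [(TX.eqs hx a _).2.1]
    exact (B.ro (a - 1) _).2 ⟨t, rfl⟩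
  -- the wire below the companion row
  have hwd : ∀ a (t : ℕ), (ve x a (b0 + 3 ^ t - 1)).w = Wf x b0 a t := by
    intro a t
    rcases Nat.eq_zero_or_pos t with h | h
    · subst h
      have h1 : b0 + 3 ^ 0 - 1 = b0 := by norm_num
      rw [h1]
      exact (wire hx g B a b0).2.1 rfl
    · obtain ⟨s, rfl⟩ := Nat.exists_eq_succ_of_ne_zero h.ne'
      have hp : (0 : ℤ) < 3 ^ s := by positivity
      have hp1 : (3 : ℤ) ^ (s + 1) = 3 * 3 ^ s := by ring
      simp only [Nat.succ_eq_add_one]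
      exact (wire hx g B a _).2.2 s (by omega) (by omega)
  have hcell : ∀ a (t : ℕ), (x (a, b0 + 3 ^ t)).tA ≤ 0 →
      LRule M mn cs (x (a, b0 + 3 ^ t)).tA (x (a, b0 + 3 ^ t)).tB (cA x a) (cB x a)
        (Hf x b0 (a - 1) t) (Hf x b0 a t) (Wf x b0 a t) (Wf x b0 a (t + 1)) := by
    intro a t h
    obtain ⟨hok, hl, hr, hd, hu⟩ := TX.eqs hx a (b0 + 3 ^ t)
    have h1 := hok.l.lane (hro a t) h
    rw [hl, hr, hd, hu, hwd a t] at h1
    rw [(TX.colc hx a (b0 + 3 ^ t - 1) 0).2.2.1, (TX.colc hx a (b0 + 3 ^ t - 1) 0).2.2.2] at h1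
    exact h1
  refine ⟨?_, ?_, ?_, ?_, ?_⟩
  · intro a t i hi ht
    obtain ⟨hok, hl, hr, hd, hu⟩ := TX.eqs hx a (b0 + 3 ^ t)
    have hlt := lv_top g B.inf t
    constructor
    · have h1 := hok.l.hr (hro a t) (by
        rw [g.A_fin a _ i t hi hlt]
        unfold cl
        omega)
      rw [hl, hr] at h1
      exact h1
    · obtain ⟨s, rfl⟩ := Nat.exists_eq_succ_of_ne_zero (by omega : t ≠ 0)
      have hW : Wf x b0 a (s + 1) = (ve x a (b0 + 3 ^ s)).w := by simp [Wf]
      rw [Nat.succ_eq_add_one, hW]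
      obtain ⟨hok', hl', hr', hd', hu'⟩ := TX.eqs hx a (b0 + 3 ^ s)
      have htA := g.A_fin a _ i s hi (lv_top g B.inf s)
      rcases Nat.lt_or_ge i s with h1 | h1
      · rw [← hu']
        refine hok'.l.wu (hok'.l.ur (lbe' hx B (hne s)) ?_)
        rw [htA]
        unfold cl
        omega
      · have h2 : s = i := by omega
        subst h2
        rw [sub_self] at htA
        have htA0 : (x (a, b0 + 3 ^ s)).tA = 0 := htA
        have h3 := hcell a s (by rw [htA0])
        rw [htA0, hW] at h3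
        exact wu_top h3
  · intro a t i hi ht
    have htA := g.A_fin a _ i t hi (lv_top g B.inf t)
    have htB := g.B_fin a _ i t hi (lv_top g B.inf t)
    have h1 := hcell a t (by rw [htA]; unfold cl; omega)
    rw [htA, htB] at h1
    exact h1
  · intro a t hi
    have htA := g.A_ci a _ t hi (lv_top g B.inf t)
    have htB := g.B_ci a _ t hi (lv_top g B.inf t)
    have h1 := hcell a t (by rw [htA]; norm_num)
    rw [htA, htB] at h1
    exact h1
  · intro a
    obtain ⟨hok, hl, hr, hd, hu⟩ := TX.eqs hx a b0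
    have h1 := hok.l.base (by rw [hl]; exact (B.be (a - 1) b0).2 rfl)
    rw [hu] at h1
    have hW : Wf x b0 a 0 = (ve x a b0).w := by simp [Wf]
    rw [hW]
    exact h1.2.2.2.2.2.2.2.2.2.2.2.1
  · intro a
    obtain ⟨hok, hl, hr, hd, hu⟩ := TX.eqs hx a b0
    obtain ⟨hok', hl', hr', hd', hu'⟩ := TX.eqs hx (a - 1) b0
    have h1 := hok.l.base (by rw [hl]; exact (B.be (a - 1) b0).2 rfl)
    have h2 := hok'.l.base (by rw [hl']; exact (B.be (a - 1 - 1) b0).2 rfl)
    have h3 := h1.2.2.2.2.2.2.2.2.2.2.2.2.2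
    have h4 := h2.2.2.2.2.2.2.2.2.2.2.2.2.1
    rw [hl, hu] at h3
    rw [hr', hu'] at h4
    have hW : ∀ a', Wf x b0 a' 0 = (ve x a' b0).w := fun a' => by simp [Wf]
    rw [hW, hW, ← h3, h4]

end H96.CK
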