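import Pool.Agent.H96.CK.BusA

/-!
# Module BusB (250 lines): columns of high level; configurations without base row; translations

* `high_col`: `3 ^ n ∣ a - c n`, `n ≥ 4`, `|b - b0| < 3 ^ (n / 2 - 1)`. `mA`, `mB`: `Geo.mA`, `Geo.mB` (`n ≥ 2`).
  Column of finite level `i ≥ n`: `Geo.eA` with `q = i + k - 1 ≥ n / 2 - 1`, `r (q+1) = b0` mod `3 ^ (q+1)` (`BaseG.inf`), so
  `eA k = dig 3 q (b - b0)`: `0` if `0 ≤ b - b0 < 3 ^ q`, `2` if `- 3 ^ q ≤ b - b0 < 0` (`Int.ediv`, floor `-1`, `-1 % 3 = 2`). `eB`: the same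
  with `q = i / 2 + k - 1`. Column of infinite level: at the base cell `tA = tB = 2`, so `colA`, `colB` give `2` below, `0` above
  (`k ≤ 1 < 2`; `mA = mB = 0`), and `Geo.eI` keeps the values on rows of finite level (all rows except `b0`). `u`: `u_fin`
  (`b < b0 + 3 ^ (i+1)`), `u_inf`.
* `nobase`: no cell has `be`. Column of finite level `i`: below every `b` there is a row of level `> i` (finite or infinite) within
  `3 ^ (i+1)` rows (`lv_between`), where `tA > 0`, so `u = false` above it, and it stays so: `u = false` everywhere, so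
  `w = blank`. Row of finite level `j`: at a column of level `j` (`lv_exists`) `tA = 0`, `d.u = false`, so `ro = false`, along the
  whole row, and `h = blank`. `he`, `ve` on lines of infinite level: all components (constants by `TX.rowc`, `TX.colc`, signals by
  `Geo.pI`, `Geo.eI`, `h` by `OkL.hr` or `h0`, `u` by `uc`, `w` by `wc` since `ro = false` on rows of finite level).
* `*_sh`: direct.
-/

namespace H96.CK

variable {K G : Type} [DecidableEq G] {M : SM K G} {mn : K} {cs : G}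

private theorem dig_small {q : ℕ} {z : ℤ} (h1 : -3 ^ q ≤ z) (h2 : z < 3 ^ q) :
    dig 3 q z = if 0 ≤ z then 0 else 2 := by
  have hp : (0 : ℤ) < 3 ^ q := by positivity
  have h3 := dig_cast (a := 3) (by norm_num) q z
  push_cast at h3
  split_ifs with h
  · rw [Int.ediv_eq_zero_of_lt h h2] at h3
    norm_num at h3
    exact_mod_cast h3
  · have h4 : z / 3 ^ q = -1 := by
      rw [Int.ediv_eq_iff_of_pos hp]
      constructor
      · omega
      · omega
    rw [h4] at h3
    norm_num at h3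
    exact_mod_cast h3

private theorem nat_ite {P : Prop} [Decidable P] {y : Fin 3} {m : ℕ}
    (h : (y : ℕ) = m) (hm : m = if P then 0 else 2) : y = if P then 0 else 2 := by
  apply Fin.ext
  rw [h, hm]
  split_ifs <;> rfl

/-- signals of a column of infinite level -/
private theorem inf_col {x : ℤ × ℤ → Tile M} (hx : x ∈ TX M mn cs) {c r : ℕ → ℤ} (g : Geo x c r)
    {b0 : ℤ} (B : BaseG x c r b0) {a : ℤ} (ha : IsInf 3 c a) (hmA : ∀ b, (ve x a b).mA = 0)
    (hmB : ∀ b, (ve x a b).mB = 0) (k : Fin 3) (b : ℤ) :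
    (ve x a b).eA k = (if b0 ≤ b then 0 else 2) ∧ (ve x a b).eB k = (if b0 ≤ b then 0 else 2) := by
  obtain ⟨hok, hl, hr, hd, hu⟩ := TX.eqs hx a b0
  have hbase := hok.l.base (by rw [hl]; exact (B.be (a - 1) b0).2 rfl)
  have hA := hok.s.colA k (fun _ => by rw [hd]; exact hmA _)
  have hB := hok.s.colB k (fun _ => by rw [hd]; exact hmB _)
  rw [hbase.1, hd, hu] at hA
  rw [hbase.2.1, hd, hu] at hB
  have hk : ((k : ℕ) : ℤ) - 1 < 2 := by
    have := k.isLt
    omega
  have hA3 := hA.2.2 hk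
  have hB3 := hB.2.2 hk
  have hup0 : (ve x a b0).eA k = 0 ∧ (ve x a b0).eB k = 0 :=
    ⟨Fin.ext hA3.2, Fin.ext hB3.2⟩
  have hdn0 : (ve x a (b0 - 1)).eA k = 2 ∧ (ve x a (b0 - 1)).eB k = 2 := by
    refine ⟨Fin.ext ?_, Fin.ext ?_⟩
    · have h1 := hA3.1
      change ((ve x a (b0 - 1)).eA k : ℕ) = 2
      omega
    · have h1 := hB3.1
      change ((ve x a (b0 - 1)).eB k : ℕ) = 2
      omega
  have hkeep : ∀ b', b' ≠ b0 → (ve x a b').eA k = (ve x a (b' - 1)).eA k ∧
      (ve x a b').eB k = (ve x a (b' - 1)).eB k := by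
    intro b' h
    rcases lv_or 3 r b' with ⟨j, hj⟩ | hinf
    · exact g.eI a b' j k ha hj
    · exact absurd (hinf.unique (by norm_num) B.inf) h
  have hup : ∀ z : ℕ, (ve x a (b0 + z)).eA k = 0 ∧ (ve x a (b0 + z)).eB k = 0 := by
    intro z
    induction z with
    | zero => simpa using hup0
    | succ z ih =>
      have h1 := hkeep (b0 + (z + 1 : ℕ)) (by push_cast; omega)
      have e : b0 + ((z + 1 : ℕ) : ℤ) - 1 = b0 + z := by push_cast; ring
      rw [e] at h1
      rw [h1.1, h1.2]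
      exact ih
  have hdown : ∀ z : ℕ, (ve x a (b0 - 1 - z)).eA k = 2 ∧ (ve x a (b0 - 1 - z)).eB k = 2 := by
    intro z
    induction z with
    | zero => simpa using hdn0
    | succ z ih =>
      have h1 := hkeep (b0 - 1 - z) (by omega)
      have e : b0 - 1 - ((z + 1 : ℕ) : ℤ) = b0 - 1 - z - 1 := by push_cast; ring
      rw [e, ← h1.1, ← h1.2]
      exact ih
  split_ifs with h
  · have h2 := hup (b - b0).toNat
    rw [Int.toNat_of_nonneg (by omega), add_sub_cancel] at h2
    exact h2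
  · have h2 := hdown (b0 - 1 - b).toNat
    rw [Int.toNat_of_nonneg (by omega), sub_sub_cancel] at h2
    exact h2

theorem high_col {x : ℤ × ℤ → Tile M} (hx : x ∈ TX M mn cs) {c r : ℕ → ℤ} (g : Geo x c r)
    {b0 : ℤ} (B : BaseG x c r b0) {n : ℕ} (hn : 4 ≤ n) {a b : ℤ} (ha : (3 : ℤ) ^ n ∣ a - c n)
    (hb : |b - b0| < 3 ^ (n / 2 - 1)) :
    (ve x a b).mA = 0 ∧ (ve x a b).mB = 0 ∧
    (∀ k, (ve x a b).eA k = if b0 ≤ b then 0 else 2) ∧
    (∀ k, (ve x a b).eB k = if b0 ≤ b then 0 else 2) ∧ ((ve x a b).u = true ↔ b0 ≤ b) := by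
  have hdv : ∀ m, m ≤ n → (3 : ℤ) ^ m ∣ a - c m := by
    intro m hm
    have h1 : (3 : ℤ) ^ m ∣ a - c n := (pow_dvd_pow _ hm).trans ha
    have h2 : (3 : ℤ) ^ m ∣ c n - c m := by exact_mod_cast coh_le g.cohc hm
    have h3 := dvd_add h1 h2
    rwa [sub_add_sub_cancel] at h3
  have hmA : ∀ b', (ve x a b').mA = 0 := by
    intro b'
    have h1 := g.mA a b'
    have h2 := hdv 1 (by omega)
    apply Fin.ext
    change ((ve x a b').mA : ℕ) = 0
    norm_num at h2
    omega
  have hmB : ∀ b', (ve x a b').mB = 0 := by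
    intro b'
    have h1 := g.mB a b'
    have h2 := hdv 2 (by omega)
    apply Fin.ext
    change ((ve x a b').mB : ℕ) = 0
    norm_num at h2
    omega
  rw [abs_lt] at hb
  refine ⟨hmA b, hmB b, ?_⟩
  rcases lv_or 3 c a with ⟨i, hi⟩ | hinf
  · have hni : n ≤ i := (hi.dvd g.cohc).1 (by exact_mod_cast ha)
    have hmono : ∀ q : ℕ, n / 2 - 1 ≤ q → (3 : ℤ) ^ (n / 2 - 1) ≤ 3 ^ q := fun q hq =>
      pow_le_pow_right₀ (by norm_num) hq
    have hdig : ∀ q : ℕ, n / 2 - 1 ≤ q →
        dig 3 q (b - r (q + 1)) = if b0 ≤ b then 0 else 2 := by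
      intro q hq
      have h1 : dig 3 q (b - r (q + 1)) = dig 3 q (b - b0) := by
        refine dig_congr (by norm_num) ?_
        have h2 := B.inf (q + 1)
        have h3 : b - r (q + 1) - (b - b0) = b0 - r (q + 1) := by ring
        rw [h3]
        exact_mod_cast h2
      have h4 := hmono q hq
      rw [h1, dig_small (by omega) (by omega)]
      by_cases h5 : b0 ≤ b
      · rw [if_pos h5, if_pos (by omega)]
      · rw [if_neg h5, if_neg (by omega)]
    refine ⟨fun k => ?_, fun k => ?_, ?_⟩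
    · have hk := k.isLt
      exact nat_ite (g.eA a b i k (i + k - 1) hi (by omega)) (hdig _ (by omega))
    · have hk := k.isLt
      exact nat_ite (g.eB a b i k (i / 2 + k - 1) hi (by omega)) (hdig _ (by omega))
    · rw [B.u_fin a b i hi]
      have h4 := hmono (i + 1) (by omega)
      constructor
      · exact fun h => h.1
      · exact fun h => ⟨h, by omega⟩
  · refine ⟨fun k => (inf_col hx g B hinf hmA hmB k b).1,
      fun k => (inf_col hx g B hinf hmA hmB k b).2, B.u_inf a b hinf⟩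

structure NoBase (x : ℤ × ℤ → Tile M) (c r : ℕ → ℤ) : Prop where
  be : ∀ a b, (he x a b).be = false ∧ (he x a b).ini = false
  col : ∀ a b i, IsLv 3 c a i → (ve x a b).u = false ∧ (ve x a b).w = .blank
  row : ∀ a b j, IsLv 3 r b j → (he x a b).ro = false ∧ (he x a b).h = .blank
  hinf : ∀ a b i, IsInf 3 r b → IsLv 3 c a i → he x a b = he x (a - 1) b
  vinf : ∀ a b j, IsInf 3 c a → IsLv 3 r b j → ve x a b = ve x a (b - 1)

private theorem he_ext {e e' : HE M} (h1 : e.n = e'.n) (h2 : e.dy = e'.dy) (h3 : e.be = e'.be)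
    (h4 : e.ro = e'.ro) (h5 : e.ini = e'.ini) (h6 : e.pA = e'.pA) (h7 : e.pB = e'.pB)
    (h8 : e.h = e'.h) : e = e' := by
  cases e
  cases e'
  simp_all

private theorem ve_ext {e e' : VE M} (h1 : e.mA = e'.mA) (h2 : e.mB = e'.mB)
    (h3 : e.dA = e'.dA) (h4 : e.dB = e'.dB) (h5 : e.eA = e'.eA) (h6 : e.eB = e'.eB)
    (h7 : e.u = e'.u) (h8 : e.w = e'.w) : e = e' := by
  cases e
  cases e'
  simp_all

theorem nobase {x : ℤ × ℤ → Tile M} (hx : x ∈ TX M mn cs) {c r : ℕ → ℤ} (g : Geo x c r)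
    (hb : ∀ a b, (he x a b).be = false) : NoBase x c r := by
  have hbl : ∀ a b, (x (a, b)).l.be = false := by
    intro a b
    rw [(TX.eqs hx a b).2.1]
    exact hb _ _
  have hini : ∀ a b, (he x a b).ini = false := by
    intro a b
    have h1 := ((TX.eqs hx a b).1.l.nini (hbl a b)).2
    rwa [(TX.eqs hx a b).2.2.1] at h1
  have hpos : ∀ a b, 0 < (x (a, b)).tA → (ve x a b).u = false := by
    intro a b h
    have h1 := (TX.eqs hx a b).1.l.ur (hbl a b) h
    rwa [(TX.eqs hx a b).2.2.2.2] at h1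
  have hup : ∀ a b, (ve x a (b - 1)).u = false → (ve x a b).u = false := by
    intro a b h
    rcases lt_or_ge 0 (x (a, b)).tA with h2 | h2
    · exact hpos a b h2
    · have h1 := (TX.eqs hx a b).1.l.uc (hbl a b) h2
      rw [(TX.eqs hx a b).2.2.2.2, (TX.eqs hx a b).2.2.2.1] at h1
      rw [h1]
      exact h
  have hu : ∀ a b i, IsLv 3 c a i → (ve x a b).u = false := by
    intro a b i ha
    by_contra hc
    rw [Bool.not_eq_false] at hc
    have hall : ∀ z : ℕ, (ve x a (b - z)).u = true := by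
      intro z
      induction z with
      | zero => simpa using hc
      | succ z ih =>
        by_contra h1
        rw [Bool.not_eq_true] at h1
        have h2 := hup a (b - z) (by
          rw [← h1]
          congr 2
          push_cast
          ring)
        rw [ih] at h2
        exact absurd h2 (by decide)
    obtain ⟨b', h1, h2, h3⟩ := lv_between (a := 3) (c := r) (by norm_num) (i + 1)
      (b - 3 ^ (i + 1))
    have h2' : b' ≤ b := by
      have h4 : b' ≤ b - 3 ^ (i + 1) + (3 : ℤ) ^ (i + 1) := by exact_mod_cast h2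
      omega
    have h5 := hall (b - b').toNat
    rw [Int.toNat_of_nonneg (by omega), sub_sub_cancel] at h5
    have h6 : 0 < (x (a, b')).tA := by
      rcases lv_or 3 r b' with ⟨j, hj⟩ | hinf
      · have h6 : i + 1 ≤ j := (hj.dvd g.cohr).1 (by exact_mod_cast h3)
        rw [g.A_fin a b' i j ha hj]
        unfold cl
        omega
      · rw [g.A_ri a b' i ha hinf]
        norm_num
    rw [hpos a b' h6] at h5
    exact absurd h5 (by decide)
  have hro : ∀ a b j, IsLv 3 r b j → (he x a b).ro = false := by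
    intro a b j hj
    obtain ⟨a', ha'⟩ := lv_exists (a := 3) (by norm_num) g.cohc j
    obtain ⟨hok, hl, -, hd, -⟩ := TX.eqs hx a' b
    have htA : (x (a', b)).tA = 0 := by
      rw [g.A_fin a' b j j ha' hj, sub_self]
      rfl
    have h1 := hok.l.roE htA
    rw [hl, hd] at h1
    rw [(TX.rowc hx a (a' - 1) b).2.2.2]
    by_contra hc
    rw [Bool.not_eq_false] at hc
    have h2 := (h1.1 hc).1
    rw [hu a' (b - 1) j ha'] at h2
    exact absurd h2 (by decide)
  refine ⟨fun a b => ⟨hb a b, hini a b⟩, ?_, ?_, ?_, ?_⟩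
  · intro a b i hi
    refine ⟨hu a b i hi, ?_⟩
    have h1 := (TX.eqs hx a b).1.l.wu
    rw [(TX.eqs hx a b).2.2.2.2] at h1
    exact h1 (hu a b i hi)
  · intro a b j hj
    refine ⟨hro a b j hj, ?_⟩
    have h1 := (TX.eqs hx a b).1.l.h0
    rw [(TX.eqs hx a b).2.1, (TX.eqs hx a b).2.2.1] at h1
    exact (h1 (hro (a - 1) b j hj)).2
  · intro a b i hbi hai
    obtain ⟨hok, hl, hr, -, -⟩ := TX.eqs hx a b
    have hc := TX.rowc hx a (a - 1) b
    have htA : (x (a, b)).tA = 2 := g.A_ri a b i hai hbi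
    refine he_ext hc.1 hc.2.1 hc.2.2.1 hc.2.2.2 ((hini a b).trans (hini (a - 1) b).symm)
      (funext fun k => (g.pI a b i k hbi hai).1) (funext fun k => (g.pI a b i k hbi hai).2) ?_
    cases hro' : (he x (a - 1) b).ro
    · have h1 := hok.l.h0 (by rw [hl]; exact hro')
      rw [hl, hr] at h1
      rw [h1.1, h1.2]
    · have h1 := hok.l.hr (by rw [hl]; exact hro') (by rw [htA]; norm_num)
      rw [hl, hr] at h1
      exact h1
  · intro a b j hai hbj
    obtain ⟨hok, hl, hr, hd, hu'⟩ := TX.eqs hx a b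
    have hc := TX.colc hx a b (b - 1)
    have htA : (x (a, b)).tA = -2 := g.A_ci a b j hai hbj
    refine ve_ext hc.1 hc.2.1 hc.2.2.1 hc.2.2.2
      (funext fun k => (g.eI a b j k hai hbj).1) (funext fun k => (g.eI a b j k hai hbj).2) ?_ ?_
    · have h1 := hok.l.uc (hbl a b) (by rw [htA]; norm_num)
      rw [hd, hu'] at h1
      exact h1
    · have h1 := hok.l.wc (by rw [hl]; exact hro (a - 1) b j hbj) (by rw [htA]; norm_num)
      rw [hd, hu'] at h1
      exact h1

theorem TX_sh {x : ℤ × ℤ → Tile M} (hx : x ∈ TX M mn cs) (p : ℤ × ℤ) : sh p x ∈ TX M mn cs := by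
  intro a b
  have h := hx (a + p.1) (b + p.2)
  rw [add_right_comm a p.1 1, add_right_comm b p.2 1] at h
  exact h

theorem isLv_sh {c : ℕ → ℤ} {p a : ℤ} {i : ℕ} :
    IsLv 3 (fun n => c n - p) a i ↔ IsLv 3 c (a + p) i := by
  have e : ∀ n, a - (c n - p) = a + p - c n := fun n => by ring
  unfold IsLv
  simp only [e]

theorem isInf_sh {c : ℕ → ℤ} {p a : ℤ} :
    IsInf 3 (fun n => c n - p) a ↔ IsInf 3 c (a + p) := by
  have e : ∀ n, a - (c n - p) = a + p - c n := fun n => by ring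
  unfold IsInf
  simp only [e]

private theorem coh_sh {c : ℕ → ℤ} (h : Coh 3 c) (p : ℤ) : Coh 3 (fun n => c n - p) := by
  intro n
  have e : c (n + 1) - p - (c n - p) = c (n + 1) - c n := by ring
  change _ ∣ c (n + 1) - p - (c n - p)
  rw [e]
  exact h n

private theorem sube (a c p : ℤ) : a - (c - p) = a + p - c := by ring

private theorem sub1 (a p : ℤ) : a - 1 + p = a + p - 1 := by ring

private theorem he_sh (x : ℤ × ℤ → Tile M) (p q a b : ℤ) :
    he (sh (p, q) x) a b = he x (a + p) (b + q) := rfl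

private theorem ve_sh (x : ℤ × ℤ → Tile M) (p q a b : ℤ) :
    ve (sh (p, q) x) a b = ve x (a + p) (b + q) := rfl

theorem geo_sh {x : ℤ × ℤ → Tile M} {c r : ℕ → ℤ} (g : Geo x c r) (p q : ℤ) :
    Geo (sh (p, q) x) (fun n => c n - p) (fun n => r n - q) where
  cohc := coh_sh g.cohc p
  cohr := coh_sh g.cohr q
  A_fin a b i j hi hj := g.A_fin (a + p) (b + q) i j (isLv_sh.1 hi) (isLv_sh.1 hj)
  A_ri a b i hi hj := g.A_ri (a + p) (b + q) i (isLv_sh.1 hi) (isInf_sh.1 hj)
  A_ci a b j hi hj := g.A_ci (a + p) (b + q) j (isInf_sh.1 hi) (isLv_sh.1 hj)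
  B_fin a b i j hi hj := g.B_fin (a + p) (b + q) i j (isLv_sh.1 hi) (isLv_sh.1 hj)
  B_ri a b i hi hj := g.B_ri (a + p) (b + q) i (isLv_sh.1 hi) (isInf_sh.1 hj)
  B_ci a b j hi hj := g.B_ci (a + p) (b + q) j (isInf_sh.1 hi) (isLv_sh.1 hj)
  mA a b := by rw [ve_sh, sube]; exact g.mA _ _
  mB a b := by rw [ve_sh, sube]; exact g.mB _ _
  n a b := by rw [he_sh, sube]; exact g.n _ _
  dA a b i hi := by rw [ve_sh, sube]; exact g.dA _ _ i (isLv_sh.1 hi)
  dB a b i hi := by rw [ve_sh, sube]; exact g.dB _ _ i (isLv_sh.1 hi)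
  dy a b j hj := by rw [he_sh, sube]; exact g.dy _ _ j (isLv_sh.1 hj)
  pA a b j k q' hj hq := by rw [he_sh, sube]; exact g.pA _ _ j k q' (isLv_sh.1 hj) hq
  pB a b j k q' hj hq := by rw [he_sh, sube]; exact g.pB _ _ j k q' (isLv_sh.1 hj) hq
  pA0 a b hj := g.pA0 _ _ (isLv_sh.1 hj)
  pB0 a b hj := g.pB0 _ _ (isLv_sh.1 hj)
  pI a b i k hb hi := by
    rw [he_sh, he_sh, sub1]
    exact g.pI _ _ i k (isInf_sh.1 hb) (isLv_sh.1 hi)
  eA a b i k q' hi hq := by rw [ve_sh, sube]; exact g.eA _ _ i k q' (isLv_sh.1 hi) hq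
  eB a b i k q' hi hq := by rw [ve_sh, sube]; exact g.eB _ _ i k q' (isLv_sh.1 hi) hq
  eA0 a b hi := g.eA0 _ _ (isLv_sh.1 hi)
  eB0 a b i hi h2 := g.eB0 _ _ i (isLv_sh.1 hi) h2
  eI a b j k ha hj := by
    rw [ve_sh, ve_sh, sub1]
    exact g.eI _ _ j k (isInf_sh.1 ha) (isLv_sh.1 hj)

theorem baseG_sh {x : ℤ × ℤ → Tile M} {c r : ℕ → ℤ} {b0 : ℤ} (B : BaseG x c r b0) (p q : ℤ) :
    BaseG (sh (p, q) x) (fun n => c n - p) (fun n => r n - q) (b0 - q) where
  inf := isInf_sh.2 (by rw [sub_add_cancel]; exact B.inf)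
  be a b := by
    rw [he_sh, B.be]
    constructor <;> intro h <;> omega
  u_fin a b i hi := by
    rw [ve_sh, B.u_fin _ _ i (isLv_sh.1 hi)]
    constructor <;> rintro ⟨h1, h2⟩ <;> constructor <;> omega
  u_inf a b hi := by
    rw [ve_sh, B.u_inf _ _ (isInf_sh.1 hi)]
    constructor <;> intro h <;> omega
  ro a b := by
    rw [he_sh, B.ro]
    constructor <;> rintro ⟨t, ht⟩ <;> exact ⟨t, by omega⟩
  row0 a := by
    rw [he_sh, ve_sh, sub_add_cancel]
    exact B.row0 _
  rows a b h := by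
    rw [he_sh]
    exact B.rows _ _ (by omega)

end H96.CK
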