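import Pool.Agent.H96.CK.LaneG

/-!
# Module Chn (200 lines): chains of corners if there is a column of infinite level

`no_chain`: put `z l = X l - a0` (`a0 = c n` mod `3 ^ n`). `3 ^ (k l) ∣ z l` exactly, `z (l+1) = z l - 3 ^ (k l)` and
`3 ^ (k l + 1) ∣ z (l+1)`, so `z l / 3 ^ (k l) = 1` mod 3. The `z l` decrease strictly, so some `z l < 0` (all later ones too).
If `z l < 0`: `z l = - 3 ^ (k l) * w`, `w > 0`, `w = 2` mod 3, so `|z l| ≥ 2 * 3 ^ (k l)`. Fix `l0` with `z l0 < 0`. For `l > l0`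
`|z l| = |z l0| + Σ_{l0 ≤ m < l} 3 ^ (k m) ≤ |z l0| + 3 ^ (k (l-1) + 1) / 2 ≤ |z l0| + 3 ^ (k l) / 2` (distinct exponents `≤ k (l-1) < k l`; by
induction: `2 * |z l| ≤ 2 * |z l0| + 3 ^ (k l)`). With `|z l| ≥ 2 * 3 ^ (k l)` this gives `3 * 3 ^ (k l) ≤ 2 * |z l0|` for all
`l > l0`, impossible since `k l → ∞`.
`corner_root`: suppose `X` is a corner and `W a0 0 ≠ P` or `X < a0`. A corner of infinite level is `a0` (`IsInf.unique`). If some iterated
parent (`parent` of `LaneG`: `X - 3 ^ k` is a corner, level `> k` or infinite; `3 ^ (k+1) ∣ X - 3 ^ k - c (k+1)`: from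
`one_iff` and `corner_up`) has infinite level we get `W a0 0 = P` and `a0 ≤ X`. Otherwise all iterated parents have finite level:
sequences as in `no_chain` (recursion on the subtype of corners of finite level).
`left_inf`: `act_H`, `act_W` and `corner_root`.
-/

namespace H96.CK

variable {K G : Type} [DecidableEq G] {M : SM K G} {mn : K} {cs : G} {c : ℕ → ℤ}
  {dA dB : ℤ → ℕ} {H : ℤ → ℕ → HL M} {W : ℤ → ℕ → WL M} {e : ℕ → ℕ}
  {r : ℕ → ℕ → Prop} {μ : ℕ → ℕ}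

theorem no_chain (hc : Coh 3 c) {a0 : ℤ} (h : IsInf 3 c a0) (X : ℕ → ℤ) (k : ℕ → ℕ)
    (hk : ∀ l, IsLv 3 c (X l) (k l)) (hX : ∀ l, X (l + 1) = X l - 3 ^ k l)
    (hm : StrictMono k) : False := by
  -- the distance to the column of infinite level
  have hd : ∀ l n, (3 : ℤ) ^ n ∣ X l - a0 ↔ (3 : ℤ) ^ n ∣ X l - c n := by
    intro l n
    have h1 : (3 : ℤ) ^ n ∣ a0 - c n := by exact_mod_cast h n
    have e : X l - c n = (X l - a0) + (a0 - c n) := by ring
    rw [e]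
    exact (dvd_add_left h1).symm
  have hpos : ∀ n : ℕ, (0 : ℤ) < 3 ^ n := fun n => by positivity
  have hw : ∀ l, ∃ w : ℤ, X l - a0 = 3 ^ k l * w ∧ w % 3 = 1 := by
    intro l
    have h1 : (3 : ℤ) ^ k l ∣ X l - a0 := (hd l _).2 (by exact_mod_cast (hk l).1)
    obtain ⟨w, hw⟩ := h1
    refine ⟨w, hw, ?_⟩
    have h2 : (3 : ℤ) ^ k (l + 1) ∣ X (l + 1) - a0 := (hd (l + 1) _).2 (by exact_mod_cast (hk (l + 1)).1)
    have h3 : (3 : ℤ) ^ (k l + 1) ∣ X (l + 1) - a0 := (pow_dvd_pow _ (hm (Nat.lt_succ_self l))).trans h2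
    have e : X (l + 1) - a0 = 3 ^ k l * (w - 1) := by
      rw [hX l]
      linarith
    rw [e, pow_succ, mul_dvd_mul_iff_left (hpos (k l)).ne'] at h3
    omega
  have hb : ∀ l, 2 * (X 0 - a0) ≤ 2 * (X l - a0) + 3 ^ k l := by
    intro l
    induction l with
    | zero =>
      have := hpos (k 0)
      omega
    | succ l ih =>
      have h1 : (3 : ℤ) ^ (k l + 1) ≤ 3 ^ k (l + 1) :=
        pow_le_pow_right₀ (by norm_num) (hm (Nat.lt_succ_self l))
      rw [pow_succ] at h1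
      rw [hX l]
      linarith
  have hle : ∀ l, X l ≤ X 0 := by
    intro l
    induction l with
    | zero => exact le_rfl
    | succ l ih =>
      rw [hX l]
      have := hpos (k l)
      omega
  obtain ⟨l, hl⟩ : ∃ l, 2 * |X 0 - a0| < 3 ^ k l := by
    refine ⟨(2 * |X 0 - a0|).toNat, ?_⟩
    set N : ℕ := (2 * |X 0 - a0|).toNat with hN
    have h1 : (2 * |X 0 - a0|) = N := by
      rw [hN, Int.toNat_of_nonneg (by positivity)]
    have h2 : N < 3 ^ k N := (hm.le_apply).trans_lt (Nat.lt_pow_self (by norm_num))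
    rw [h1]
    exact_mod_cast h2
  obtain ⟨w, hw1, hw2⟩ := hw l
  have h1 := hb l
  have h2 := hle l
  have h3 := hpos (k l)
  have h4 := le_abs_self (X 0 - a0)
  have h5 := neg_abs_le (X 0 - a0)
  have h6 : w ≤ 0 := by
    by_contra hcon
    have h7 : (1 : ℤ) ≤ w := by omega
    have h8 : 3 ^ k l * 1 ≤ 3 ^ k l * w := mul_le_mul_of_nonneg_left h7 h3.le
    linarith
  have h7 : w ≤ -2 := by omega
  have h8 : 3 ^ k l * w ≤ 3 ^ k l * (-2) := mul_le_mul_of_nonneg_left h7 h3.le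
  linarith

theorem corner_root (hT : Tm M mn cs e r μ) (hc : ColOk c dA dB)
    (hL : LaneOk M mn cs c dA dB H W) {a0 X : ℤ} (h : IsInf 3 c a0) (hX : W X 0 = .P) :
    a0 ≤ X ∧ W a0 0 = .P := by
  classical
  by_contra hX0
  let Bad : Type := {X : ℤ // W X 0 = .P ∧ ¬ (a0 ≤ X ∧ W a0 0 = .P)}
  have hlv : ∀ B : Bad, ∃ k, IsLv 3 c B.1 k := by
    intro B
    rcases lv_or 3 c B.1 with h1 | h1
    · exact h1
    · exfalso
      have h2 : B.1 = a0 := h1.unique (by norm_num) h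
      exact B.2.2 ⟨h2.ge, h2 ▸ B.2.1⟩
  choose k hk using hlv
  have hnext : ∀ B : Bad, ∃ B' : Bad, B'.1 = B.1 - 3 ^ k B ∧ k B < k B' := by
    intro B
    obtain ⟨v, hv⟩ := corner_code hT hc hL B.2.1
    obtain ⟨v1, hv1, -, -, h4⟩ := parent hT hc hL (hk B) hv
    have h0 : (0 : ℤ) < 3 ^ k B := by positivity
    have h5 : ¬ (a0 ≤ B.1 - 3 ^ k B ∧ W a0 0 = .P) := fun h6 => B.2.2 ⟨by omega, h6.2⟩
    refine ⟨⟨B.1 - 3 ^ k B, hv1.1, h5⟩, rfl, ?_⟩
    have h6 := h4 _ (hk ⟨B.1 - 3 ^ k B, hv1.1, h5⟩)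
    omega
  choose nx hnx1 hnx2 using hnext
  let S : ℕ → Bad := fun l => Nat.rec ⟨X, hX, hX0⟩ (fun _ B => nx B) l
  exact no_chain hc.coh h (fun l => (S l).1) (fun l => k (S l)) (fun l => hk (S l))
    (fun l => hnx1 (S l)) (strictMono_nat_of_lt_succ fun l => hnx2 (S l))

theorem left_inf (hT : Tm M mn cs e r μ) (hc : ColOk c dA dB)
    (hL : LaneOk M mn cs c dA dB H W) {a0 a : ℤ} (h : IsInf 3 c a0) (ha : a < a0) (t : ℕ) :
    H a t = .blank ∧ W a t = .blank := by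
  constructor
  · by_contra h1
    obtain ⟨X, h2, h3⟩ := act_H hc hL h1
    have h4 := (corner_root hT hc hL h h3).1
    omega
  · by_contra h1
    obtain ⟨X, h2, h3⟩ := act_W hc hL h1
    have h4 := (corner_root hT hc hL h h3).1
    omega

/-- left of a launched corner the low lanes are blank -/
theorem hw_left (v : Option ℕ) {k d t : ℕ} (hk : 2 ≤ k) (h1 : 1 ≤ d) (h2 : d ≤ 3 ^ (k - 1))
    (ht : t < (k - 1) / 2) :
    hlab M mn cs e v (3 ^ k - d) t = .blank ∧ wlab M mn cs e v (3 ^ k - d) t = .blank := by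
  obtain ⟨j, rfl⟩ : ∃ j, k = j + 1 := ⟨k - 1, by omega⟩
  rw [Nat.add_sub_cancel] at h2 ht
  have e1 : 3 ^ (j + 1) = 3 * 3 ^ j := by rw [pow_succ]; ring
  have h0 : 0 < 3 ^ j := by positivity
  have hj : 3 ^ (j / 2) < 3 ^ j := Nat.pow_lt_pow_right (by norm_num) (by omega)
  have hlog : Nat.log 3 (3 ^ (j + 1) - d) = j := by
    rw [Nat.log_eq_iff (Or.inr ⟨by norm_num, by omega⟩)]
    omega
  have hd : ¬ (3 ^ (j + 1) - d = 0) := by omega
  constructor
  · rw [hlab, dif_neg hd, hlog, if_neg (by omega), if_neg (by omega), if_neg]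
    rintro ⟨-, h3⟩
    omega
  · rw [wlab, dif_neg hd, hlog, if_neg (by omega)]
    split_ifs <;> first | rfl | omega

end H96.CK
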