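import Pool.Agent.H96.CK.Recu

/-!
# Module Cls (300 lines): configurations with a corner

`Tame x`: no base cell has the wire `P` above. If `x` is not tame there are a base row `b0` (`baseG_of`; for a base cell `(a, b)` `b = b0`) and a
corner (`Wf x b0 a 0 = P`).
`records`: the values of `v` are unbounded (`v` injective); take the least `m > L` with `v m > max_{i ≤ L} v i`; then `v m > v i` for all
`i < m`; `l = m - 1`.
`cls_inf`: column `a0` of infinite level: `corner_root`: `Wf a0 0 = P`; `corner_code` gives a code (second alternative), `inf_conf`: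
`x = sh (-a0, -b0) (oo v)`.
`cls_chain`: no column of infinite level. Iterate `parent` from a corner `X 0`: corners `X l` of level `k l`, codes `some (v l)`,
`X (l+1) = X l - 3 ^ k l`, `k l < k (l+1) / 2`, `Lau (some (v (l+1))) (k l)`, `v l = chd (k l)`, `r (v l) (v (l+1))` (`lau_rel`); so `r (v i) (v l)` for `i < l`,
`v` is injective (irreflexive); `k l` odd.
(i) Given `n`, `p = q = 0`, the window `|a|, |b| ≤ n`: choose `M'` with `¬ 3 ^ (M'+1) ∣ a - c (M'+1)` for all `|a| ≤ n + 1` (finitely many columns, all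
of finite level) and `3 ^ (M'+1) > n + 1 + |b0|` (then a row `b ≠ b0`, `|b| ≤ n + 1`, has `¬ 3 ^ (M'+1) ∣ b - b0`). `R = 2 M' + 6`. Choose `l` with
`k l ≥ R`, `X l < - n - 1`, `n + 1 < X l + 3 ^ (k l / 2)`, `n + 1 + |b0| < 3 ^ (k l / 2)`: `X l ≤ X 0 - l`, and `X l = X 0 - Σ_{i<l} 3 ^ (k i)
≥ X 0 - 3 ^ (k (l-1) + 1)`, `k (l-1) + 1 ≤ k l / 2`, hmm: `Σ_{i<l} 3 ^ (k i) ≤ (3 ^ (k (l-1) + 1)) / 2` and `k (l-1) < k l / 2`, so
`X l + 3 ^ (k l / 2) ≥ X 0 + 3 ^ (k l / 2) / 2`, which tends to infinity. `deep` gives `x (a, b) = oo (some (v l)) (a - X l, b - b0)`, an element of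
the orbit of `oo (some (v l))`.
(ii) Given `j` and `n`: `N = 4 n + 40`, `B` from `Tm.chain N`; take by `records` `l > j` with `k l / 2 ≥ B` and `v i < v (l+1)` for `i ≤ l`. `Tm.chain` with
`κ = k l / 2` (`k l = 2 κ + 1`), `(v j, v l, v (l+1))`: `k'` with `N ≤ k' < κ`, `Lau (some (v l)) k'`, `chd k' = v j`. The column
`X l + 3 ^ k'` has level `k'` and `Wf _ 0 = wlab (some (v l)) (3 ^ k') 0 = P` (`Agr (X l) (some (v l)) κ`); its code is `some (chd k') = some (v j)`
(`corner_code`). `sub_window`: the window of size `n` there is that of `oo (some (v j))`.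
-/

namespace H96.CK

variable {K G : Type} [DecidableEq G] {M : SM K G} {mn : K} {cs : G} {e : ℕ → ℕ}
  {r : ℕ → ℕ → Prop} {μ : ℕ → ℕ}

def Tame (x : ℤ × ℤ → Tile M) : Prop := ∀ a b, (he x a b).be = true → (ve x a b).w ≠ .P

theorem records (v : ℕ → ℕ) (hv : Function.Injective v) (L : ℕ) :
    ∃ l, L ≤ l ∧ ∀ i ≤ l, v i < v (l + 1) := by
  classical
  have hex : ∃ m, ∀ i ≤ L, v i < v m := by
    by_contra hcon
    push Not at hcon
    obtain ⟨S, hS⟩ : ∃ S, ∀ i ≤ L, v i ≤ S :=
      ⟨(Finset.range (L + 1)).sup v, fun i hi =>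
        Finset.le_sup (f := v) (Finset.mem_range.2 (by omega))⟩
    have h1 : ∀ m, v m ≤ S := by
      intro m
      obtain ⟨i, hi, him⟩ := hcon m
      exact him.trans (hS i hi)
    have h2 : Set.InjOn v (Finset.range (S + 2) : Set ℕ) := hv.injOn
    have h3 : ∀ m ∈ Finset.range (S + 2), v m ∈ Finset.range (S + 1) := by
      intro m _
      exact Finset.mem_range.2 (Nat.lt_succ_of_le (h1 m))
    have h4 := Finset.card_le_card_of_injOn v h3 h2
    rw [Finset.card_range, Finset.card_range] at h4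
    omega
  have hs := Nat.find_spec hex
  have hm := fun i (hi : i < Nat.find hex) => Nat.find_min hex hi
  have hL : L < Nat.find hex := by
    by_contra h
    have := hs (Nat.find hex) (by omega)
    omega
  refine ⟨Nat.find hex - 1, by omega, fun i hi => ?_⟩
  rw [Nat.sub_add_cancel (by omega)]
  rcases Nat.lt_or_ge L i with h | h
  · have h1 := hm i (by omega)
    push Not at h1
    obtain ⟨i', hi', h2⟩ := h1
    exact lt_of_le_of_lt h2 (hs i' hi')
  · exact hs i h

theorem cls_inf (hT : Tm M mn cs e r μ) {x : ℤ × ℤ → Tile M}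
    (hx : x ∈ TX M mn cs) {c r0 : ℕ → ℤ} (g : Geo x c r0) (ht : ¬ Tame x) {a0 : ℤ}
    (hi : IsInf 3 c a0) : ∃ v, x ∈ Orb (oo M mn cs e v) := by
  unfold Tame at ht
  push Not at ht
  obtain ⟨a, b, hbe, hw⟩ := ht
  have B := baseG_of hx g hbe
  have hc := colOk_of (M := M) g
  have hL := lane_of hx g B
  have hP : Wf x b a 0 = .P := by
    unfold Wf
    rw [if_pos rfl, add_zero]
    exact hw
  obtain ⟨-, hP0⟩ := corner_root hT hc hL hi hP
  obtain ⟨v, hC⟩ := corner_code hT hc hL hP0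
  have hI := inf_conf hT hx g B hi hC
  refine ⟨v, (-a0, -b), ?_⟩
  funext q
  show x q = oo M mn cs e v (q.1 + -a0, q.2 + -b)
  rw [← hI]
  congr 1
  ext
  · show q.1 = a0 + (q.1 + -a0)
    ring
  · show q.2 = b + (q.2 + -b)
    ring

theorem cls_chain (hT : Tm M mn cs e r μ) (hir : ∀ a, ¬ r a a)
    (htr : ∀ a b c, r a b → r b c → r a c) {x : ℤ × ℤ → Tile M}
    (hx : x ∈ TX M mn cs) {c r0 : ℕ → ℤ} (g : Geo x c r0) (ht : ¬ Tame x)
    (hi : ∀ a, ¬ IsInf 3 c a) :
    ∃ v : ℕ → ℕ, x ∈ Cl {y | ∃ l, y ∈ Orb (oo M mn cs e (some (v l)))} ∧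
      ∀ l, oo M mn cs e (some (v l)) ∈ Cl (Orb x) := by
  classical
  unfold Tame at ht
  push Not at ht
  obtain ⟨a, b0, hbe, hw⟩ := ht
  have B := baseG_of hx g hbe
  have hc := colOk_of (M := M) g
  have hL := lane_of hx g B
  have hP : Wf x b0 a 0 = .P := by
    unfold Wf
    rw [if_pos rfl, add_zero]
    exact hw
  choose lev hlev using fun a => (lv_or 3 c a).resolve_right (hi a)
  -- codes of corners
  have hcode : ∀ X : ℤ, Wf x b0 X 0 = .P →
      Cod M mn cs c e (Hf x b0) (Wf x b0) X (some (chd M mn cs e (lev X))) := by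
    intro X hX
    obtain ⟨w, hC⟩ := corner_code hT hc hL hX
    obtain ⟨v1, -, -, hw, -⟩ := parent hT hc hL (hlev X) hC
    rw [← hw]
    exact hC
  have hpar : ∀ X : ℤ, Wf x b0 X 0 = .P → Wf x b0 (X - 3 ^ lev X) 0 = .P ∧
      Lau M mn cs (some (chd M mn cs e (lev (X - 3 ^ lev X)))) (lev X) = true ∧
      lev X < lev (X - 3 ^ lev X) / 2 := by
    intro X hX
    obtain ⟨v1, hC1, hl, -, hk⟩ := parent hT hc hL (hlev X) (hcode X hX)
    refine ⟨hC1.1, ?_, hk _ (hlev _)⟩
    obtain ⟨v2, -, -, hw, -⟩ := parent hT hc hL (hlev _) hC1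
    rw [← hw]
    exact hl
  -- the chain of corners
  let X : ℕ → ℤ := fun l => Nat.rec a (fun _ Y => Y - 3 ^ lev Y) l
  have hX0 : X 0 = a := rfl
  have hXs : ∀ l, X (l + 1) = X l - 3 ^ lev (X l) := fun l => rfl
  have hXP : ∀ l, Wf x b0 (X l) 0 = .P := by
    intro l
    induction l with
    | zero => exact hP
    | succ l ih =>
      rw [hXs]
      exact (hpar _ ih).1
  let k : ℕ → ℕ := fun l => lev (X l)
  let v : ℕ → ℕ := fun l => chd M mn cs e (k l)
  have hXk : ∀ l, X (l + 1) = X l - 3 ^ k l := hXs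
  have hkL : ∀ l, IsLv 3 c (X l) (k l) := fun l => hlev _
  have hC : ∀ l, Cod M mn cs c e (Hf x b0) (Wf x b0) (X l) (some (v l)) := fun l =>
    hcode _ (hXP l)
  have hlt : ∀ l, k l < k (l + 1) / 2 := by
    intro l
    have h := (hpar _ (hXP l)).2.2
    rw [← hXs] at h
    exact h
  have hlau : ∀ l, Lau M mn cs (some (v (l + 1))) (k l) = true := by
    intro l
    have h := (hpar _ (hXP l)).2.1
    rw [← hXs] at h
    exact h
  have hrs : ∀ l, r (v l) (v (l + 1)) := by
    intro l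
    obtain ⟨m, h1, h2⟩ := hT.lau_rel _ _ (hlau l)
    have h3 : v (l + 1) = m := Option.some.inj h1
    rw [h3]
    exact h2
  have hr : ∀ i l, i < l → r (v i) (v l) := by
    intro i l hil
    induction l, hil using Nat.le_induction with
    | base => exact hrs i
    | succ l _ ih => exact htr _ _ _ ih (hrs l)
  have hv : Function.Injective v := by
    intro i l h
    rcases lt_trichotomy i l with h1 | h1 | h1
    · have h2 := hr i l h1
      rw [h] at h2
      exact absurd h2 (hir _)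
    · exact h1
    · have h2 := hr l i h1
      rw [h] at h2
      exact absurd h2 (hir _)
  have hodd : ∀ l, k l % 2 = 1 := fun l => (hT.lau_odd _ _ (hlau l)).1
  have hkl : ∀ l, l ≤ k l := by
    intro l
    induction l with
    | zero => omega
    | succ l ih =>
      have := hlt l
      omega
  have hκ : ∀ l, 1 ≤ l → l ≤ k l / 2 := by
    intro l hl
    obtain ⟨l', rfl⟩ : ∃ l', l = l' + 1 := ⟨l - 1, by omega⟩
    have h1 := hlt l'
    have h2 := hkl l'
    omega
  have hXl : ∀ l : ℕ, X l ≤ X 0 - l := by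
    intro l
    induction l with
    | zero => simp
    | succ l ih =>
      rw [hXk]
      have h1 : (0 : ℤ) < 3 ^ k l := by positivity
      push_cast
      omega
  have hX2 : ∀ l : ℕ, 2 * (X 0 - X l) ≤ 3 ^ (k l / 2) := by
    intro l
    induction l with
    | zero =>
      rw [sub_self, mul_zero]
      positivity
    | succ l ih =>
      rw [hXk]
      have h1 : (3 : ℤ) ^ (k l / 2) ≤ 3 ^ k l :=
        pow_le_pow_right₀ (by norm_num) (Nat.div_le_self _ _)
      have h2 : (3 : ℤ) ^ (k l + 1) ≤ 3 ^ (k (l + 1) / 2) :=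
        pow_le_pow_right₀ (by norm_num) (hlt l)
      rw [pow_succ] at h2
      linarith
  have hagr : ∀ l, Agr mn cs e (Hf x b0) (Wf x b0) (X l) (some (v l)) (k l / 2) := by
    intro l
    rcases (hC l).2 with ⟨k', hk', -, -, -, -, hA, -⟩ | ⟨hinf, -⟩
    · rw [IsLv.unique g.cohc (hkL l) hk']
      exact hA
    · exact absurd hinf (hi _)
  have hpw : ∀ m : ℕ, (m : ℤ) < 3 ^ m := by
    intro m
    have := Nat.lt_pow_self (n := m) (by norm_num : 1 < 3)
    exact_mod_cast this
  refine ⟨v, ?_, ?_⟩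
  · intro n
    -- the choice of `M'`
    obtain ⟨M', hM1, hM2⟩ : ∃ M' : ℕ, (∀ a : ℤ, |a| ≤ n + 1 → lev a ≤ M') ∧
        n + 1 + b0.natAbs ≤ M' := by
      refine ⟨max ((Finset.Icc (-(n + 1) : ℤ) (n + 1)).sup lev) (n + 1 + b0.natAbs),
        fun a ha => ?_, le_max_right _ _⟩
      refine le_trans ?_ (le_max_left _ _)
      refine Finset.le_sup (f := lev) (Finset.mem_Icc.2 ?_)
      rw [abs_le] at ha
      exact ha
    obtain ⟨l, hl⟩ : ∃ l : ℕ, 2 * (n + 1) + 2 * (X 0).natAbs + b0.natAbs + 2 * M' + 10 ≤ l :=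
      ⟨_, le_rfl⟩
    have h1 := hκ l (by omega)
    have h2 := hXl l
    have h3 := hX2 l
    have h4 : (l : ℤ) < 3 ^ (k l / 2) := by
      have h5 := hpw (k l / 2)
      have h6 : (l : ℤ) ≤ ((k l / 2 : ℕ) : ℤ) := by exact_mod_cast h1
      exact lt_of_le_of_lt h6 h5
    have h7 := hpw (M' + 1)
    have h8 : (X 0).natAbs ≤ l := by omega
    refine ⟨sh (-X l, -b0) (oo M mn cs e (some (v l))), ⟨l, _, rfl⟩, fun a' b' ha hb => ?_⟩
    have key := deep hT hx g B (X := X l) (v := some (v l)) (κ := k l / 2) (N := n) (M' := M')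
      (R := 2 * M' + 6) (p := 0) (q := 0) le_rfl
      (((hkL l).dvd g.cohc).2 (by have := hkl l; omega)) (hagr l) ?_ ?_ a' b' ha hb
    · rw [zero_add, zero_add] at key
      rw [key]
      rfl
    · intro a1 ha1
      have h9 := hM1 a1 ha1
      rw [abs_le] at ha1
      rw [zero_add]
      refine ⟨by omega, by omega, fun h10 => ?_⟩
      have h11 := ((hlev a1).dvd g.cohc).1 h10
      omega
    · intro b1 hb1
      rw [zero_add]
      rw [abs_le] at hb1
      refine ⟨by omega, fun hne h10 => ?_⟩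
      have h11 : |b1 - b0| < 3 ^ (M' + 1) := by
        rw [abs_lt]
        push_cast at h7
        constructor <;> omega
      have h12 := Int.eq_zero_of_abs_lt_dvd h10 h11
      omega
  · intro j n
    obtain ⟨B1, hB1⟩ := hT.chain (4 * n + 40)
    obtain ⟨l, hl, hrec⟩ := records v hv (j + 1 + B1)
    have h1 := hκ l (by omega)
    have h2 := hodd l
    have h3 : 2 * (k l / 2) + 1 = k l := by omega
    obtain ⟨k', hk1, hk2, hk3, hk4⟩ := hB1 (k l / 2) (by omega) (v j) (v l) (v (l + 1))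
      (hr j l (by omega)) (by rw [h3]; exact hlau l) (by rw [h3]) (hrec j (by omega))
      (hrec l le_rfl)
    have hYl : IsLv 3 c (X l + 3 ^ k') k' := by
      refine lv_add g.cohc (hkL l).1 (by omega) (dvd_refl ((3 : ℤ) ^ k')) ?_
      intro h
      have h4 : 3 ^ (k' + 1) ∣ 3 ^ k' := by exact_mod_cast h
      have h5 := (Nat.pow_dvd_pow_iff_le_right (by norm_num : 1 < 3)).1 h4
      omega
    have hYP : Wf x b0 (X l + 3 ^ k') 0 = .P := by
      have h4 : 3 ^ k' < 3 ^ (k l / 2) := Nat.pow_lt_pow_right (by norm_num) hk2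
      have h5 := (hagr l (3 ^ k') h4).2 (by positivity) 0
      push_cast at h5
      rw [h5]
      have h6 : Nat.log 3 (3 ^ k') = k' := Nat.log_pow (by norm_num) k'
      have h7 : 0 < 3 ^ k' := by positivity
      rw [wlab, h6, dif_neg (by omega), if_pos rfl, if_neg (by omega),
        if_neg (by omega), if_neg (by omega), if_pos hk3]
    have hCY := hcode _ hYP
    rw [IsLv.unique g.cohc (hlev (X l + 3 ^ k')) hYl, hk4] at hCY
    refine ⟨sh (X l + 3 ^ k', b0) x, ⟨_, rfl⟩, fun a' b' ha hb => ?_⟩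
    rw [← sub_window hT n hx g B hYl hk1 hCY a' b' ha hb]
    show x (a' + (X l + 3 ^ k'), b' + b0) = _
    rw [add_comm a', add_comm b']

end H96.CK
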