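import Pool.Agent.H96.CK.Time
import Pool.Agent.H96.CK.Adic

/-!
# Lanes and wires (definitions)

Above a base row there are lanes `t = 0, 1, 2, ..` (later: the rows at height `3 ^ t`). `H x t` is the
label of lane `t` between the columns `x` and `x + 1`, `W x t` the label of the wire in column `x`
between lane `t - 1` and lane `t` (`W x 0`: between the base row and lane `0`).
A column of level `i` meets the lanes `t ≤ i` only.
`LRule` is the local rule at the cell of column `x` and lane `t` (`hl`, `hr` the lane on the left and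
right, `wd`, `wu` the wire below and above; `sA = cl (t - i)`, `sB = cl (t - i / 2)`, `dA`, `dB` the
last nonzero digits of the column in base 3 and 9; the level is odd iff `3 ∣ dB`).
* no wire: the lane passes (it must be dead if `sB < 0`; a new lane (`F`) passes only columns of its
  own level with digit 2);
* `P`: the left boundary of a patch below the lowest living lane; lanes are dead;
* `I0`: time step 0 of a corner;
* `V g j`: time step `i` of a corner, `g` = (control, contents of the top lane, choice) is constant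
  along the wire, `j` = (contents of the two lanes below, comparison of words, token seen) is
  computed upwards;
* `T`: the right boundary of a patch.
-/

namespace H96.CK

variable {K G : Type}

inductive HL (M : SM K G) where
  | blank : HL M
  | A (l : Lam K G) : HL M
  | F (l : Lam K G) (s : St M.Q) : HL M

structure Info (K G : Type) where
  y1 : Lam K G
  y2 : Lam K G
  e : Bool
  z : Bool

def Info.ini (K G : Type) : Info K G := ⟨Lam0 K G, Lam0 K G, false, false⟩

structure Glob (M : SM K G) where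
  st : St M.Q
  l0 : Lam K G
  ch : Bool

inductive WL (M : SM K G) where
  | blank : WL M
  | P : WL M
  | I0 : WL M
  | T : WL M
  | V (g : Glob M) (j : Info K G) : WL M

section Fun

variable [DecidableEq G]

/-- one step of the comparison of two words, from the bottom -/
def eqs (mn : K) (cs : G) (l : Lam K G) (e : Bool) : Bool :=
  match l.1 mn, l.2.1 with
  | some a, some b => decide (a = b) && (decide (a = cs) || e)
  | _, _ => false

def Info.up (mn : K) (cs : G) (dy : Bool) (l : Lam K G) (j : Info K G) : Info K G :=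
  ⟨l, j.y1, eqs mn cs l j.e, j.z || (dy && l.2.2)⟩

end Fun

/-- letter of a stack after the operation, from the letters of three lanes -/
def Op.lett : Op G → Option G → Option G → Option G → Option G
  | .keep, _, y1, _ => y1
  | .push _, l, _, _ => l
  | .pop, _, _, y2 => y2

def Glob.newA {M : SM K G} (mn : K) (g : Glob M) (l y1 y2 : Lam K G) : Lam K G :=
  (fun k => (g.st.op M g.l0 k).lett (l.1 k) (y1.1 k) (y2.1 k),
    if g.ch = true then y1.1 mn else y1.2.1, l.2.2)

def Op.top : Op G → Option G → Option G → Option G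
  | .keep, y1, _ => y1
  | .push a, _, _ => some a
  | .pop, _, y2 => y2

def Glob.newT {M : SM K G} (mn : K) (g : Glob M) (y1 y2 : Lam K G) : Lam K G :=
  (fun k => (g.st.op M g.l0 k).top (y1.1 k) (y2.1 k),
    if g.ch = true then y1.1 mn else y1.2.1, g.st.plc M)

/-- the lowest cell of a wire `V` or `T` in a column of level `i`: lane `(i - 1) / 2` -/
def Bot (sA sB : ℤ) (dB : ℕ) : Prop := sA < 0 ∧ (sB = -1 ∧ ¬ 3 ∣ dB ∨ sB = 0 ∧ 3 ∣ dB)

/-- the cells between the lowest and the highest cell -/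
def Mid (sA sB : ℤ) (dB : ℕ) : Prop := sA < 0 ∧ (0 ≤ sB ∧ ¬ 3 ∣ dB ∨ 1 ≤ sB ∧ 3 ∣ dB)

/-- left lane of a special column below the top: old lanes `A`, the lane below the top is new -/
def LeftV {M : SM K G} (sA : ℤ) (hl : HL M) (l : Lam K G) (g : Glob M) : Prop :=
  (sA = -2 ∧ hl = .A l) ∨ (sA = -1 ∧ hl = .F l g.st ∧ l = g.l0)

section Rule

variable [DecidableEq G] (M : SM K G) (mn : K) (cs : G)

/-- a cell of a `V` wire below the top; `dy`: the lane dies here -/
def VCell (sA : ℤ) (dy : Bool) (hl hr : HL M) (g : Glob M) (ji jo : Info K G) : Prop :=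
  ∃ l, LeftV sA hl l g ∧ jo = Info.up mn cs dy l ji ∧
    hr = if dy = true then HL.blank else HL.A (g.newA mn l ji.y1 ji.y2)

def TCell {M : SM K G} (sA : ℤ) (hl hr : HL M) : Prop :=
  ((∃ l, sA = -2 ∧ hl = .A l) ∨ (∃ l s, sA = -1 ∧ hl = .F l s ∧ s.acc = true)) ∧ hr = .blank

def LRule (sA sB : ℤ) (dA dB : ℕ) (hl hr : HL M) : WL M → WL M → Prop
  | .blank, .blank => hr = hl ∧ (sB < 0 → hl = .blank) ∧ (∀ l s, hl = .F l s → sA = 0 ∧ dA = 2)
  | .P, .P => sA < 0 ∧ sB < 0 ∧ dA = 1 ∧ dB = 3 ∧ hl = .blank ∧ hr = .blank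
  | .I0, .blank => sA = 0 ∧ dA = 1 ∧ hl = .blank ∧ hr = .F (Lam0 K G) (St.init M)
  | .blank, .V g j => Bot sA sB dB ∧ dA = 1 ∧ (g.ch = true → g.st.chOK M = true) ∧
      g.st.lch = false ∧ VCell M mn cs sA (decide (sB = -1)) hl hr g (Info.ini K G) j
  | .P, .V g j => Bot sA sB dB ∧ dA = 1 ∧ dB = 3 ∧ (g.ch = true → g.st.chOK M = true) ∧
      g.st.lch = true ∧ VCell M mn cs sA (decide (sB = -1)) hl hr g (Info.ini K G) j
  | .V g j, .V g' j' => Mid sA sB dB ∧ dA = 1 ∧ g' = g ∧ VCell M mn cs sA false hl hr g j j'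
  | .V g j, .blank => sA = 0 ∧ dA = 1 ∧ hl = .blank ∧
      hr = .F (g.newT mn j.y1 j.y2) (g.st.next M g.l0 g.ch j.e j.z)
  | .blank, .T => Bot sA sB dB ∧ dA = 1 ∧ TCell sA hl hr
  | .T, .T => Mid sA sB dB ∧ dA = 1 ∧ TCell sA hl hr
  | .T, .blank => sA = 0 ∧ dA = 1 ∧ hr = hl ∧ ∃ l, hl = .A l
  | _, _ => False

/-- the labels of the columns -/
structure ColOk (c : ℕ → ℤ) (dA dB : ℤ → ℕ) : Prop where
  coh : Coh 3 c
  A : ∀ x i, IsLv 3 c x i → dA x = dig 3 i (x - c (i + 1))
  B : ∀ x i, IsLv 3 c x i → dB x = dig 9 (i / 2) (x - c (2 * (i / 2) + 2))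

structure LaneOk (c : ℕ → ℤ) (dA dB : ℤ → ℕ) (H : ℤ → ℕ → HL M) (W : ℤ → ℕ → WL M) :
    Prop where
  pass : ∀ x t i, IsLv 3 c x i → i < t → H x t = H (x - 1) t ∧ W x t = .blank
  rule : ∀ x t i, IsLv 3 c x i → t ≤ i →
    LRule M mn cs (cl (t - i)) (cl (t - (i / 2 : ℕ))) (dA x) (dB x) (H (x - 1) t) (H x t)
      (W x t) (W x (t + 1))
  inf : ∀ x t, IsInf 3 c x →
    LRule M mn cs (-2) (-2) (dA x) (dB x) (H (x - 1) t) (H x t) (W x t) (W x (t + 1))
  base1 : ∀ x, W x 0 = .blank ∨ W x 0 = .P ∨ W x 0 = .I0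
  base2 : ∀ x, W x 0 = .I0 ↔ W (x - 1) 0 = .P

end Rule

section Sol

variable [DecidableEq G] (M : SM K G) (mn : K) (cs : G) (e : ℕ → ℕ)

/-- a sub-corner is launched at time `k` by a corner with code `v` -/
def Lau (v : Option ℕ) (k : ℕ) : Bool := decide (1 ≤ k) && (tl M mn cs v (k - 1)).st.lch

/-- a patch with code `v` may be closed at time `k` -/
def Clo (v : Option ℕ) (k : ℕ) : Bool := decide (1 ≤ k) && (tl M mn cs v (k - 1)).st.acc

/-- the code of the sub-corner launched at time `k` -/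
def chd (k : ℕ) : ℕ := e (tl M mn cs none (k - 1)).nE - 1

def glob (v : Option ℕ) (i : ℕ) : Glob M where
  st := (tl M mn cs v (i - 1)).st
  l0 := (tl M mn cs v (i - 1)).lam (i - 1) (i - 1)
  ch := (tl M mn cs v (i - 1)).ch v

/-- information on the wire below lane `t`, `(i - 1) / 2 < t ≤ i` -/
def info (v : Option ℕ) (i t : ℕ) : Info K G where
  y1 := (tl M mn cs v (i - 1)).lam (i - 1) (t - 1)
  y2 := if (i - 1) / 2 + 2 ≤ t then (tl M mn cs v (i - 1)).lam (i - 1) (t - 2) else Lam0 K G
  e := eqw cs (((tl M mn cs v (i - 1)).S mn).drop (i - t))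
    (((tl M mn cs v (i - 1)).C).drop (i - t))
  z := (tl M mn cs v (i - 1)).zz i

/-- the lane `t` at distance `d` to the right of a corner with code `v` -/
def hlab (v : Option ℕ) (d t : ℕ) : HL M :=
  if hd : d = 0 then .blank
  else if Nat.log 3 d < t then .blank
  else if Nat.log 3 d / 2 ≤ t then
    (if t = Nat.log 3 d then .F ((tl M mn cs v (Nat.log 3 d)).lam (Nat.log 3 d) t)
        (tl M mn cs v (Nat.log 3 d)).st
      else .A ((tl M mn cs v (Nat.log 3 d)).lam (Nat.log 3 d) t))
  else if Lau M mn cs v (Nat.log 3 d) = true ∧ d - 3 ^ Nat.log 3 d < 3 ^ (Nat.log 3 d / 2) then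
    hlab (some (chd M mn cs e (Nat.log 3 d))) (d - 3 ^ Nat.log 3 d) t
  else .blank
termination_by d
decreasing_by
  have : 0 < 3 ^ Nat.log 3 d := by positivity
  omega

/-- the wire below lane `t` in the column at distance `d ≥ 1` to the right of a corner with
code `v` -/
def wlab (v : Option ℕ) (d t : ℕ) : WL M :=
  if hd : d = 0 then .P
  else if d = 3 ^ Nat.log 3 d then
    (if Nat.log 3 d < t then .blank
      else if Nat.log 3 d = 0 then .I0
      else if (Nat.log 3 d - 1) / 2 < t then
        .V (glob M mn cs v (Nat.log 3 d)) (info M mn cs v (Nat.log 3 d) t)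
      else if Lau M mn cs v (Nat.log 3 d) = true then .P else .blank)
  else if Lau M mn cs v (Nat.log 3 d) = true then
    (if d - 3 ^ Nat.log 3 d < 3 ^ (Nat.log 3 d / 2) then
      wlab (some (chd M mn cs e (Nat.log 3 d))) (d - 3 ^ Nat.log 3 d) t
    else if d - 3 ^ Nat.log 3 d = 3 ^ (Nat.log 3 d / 2) then
      (if (Nat.log 3 d / 2 - 1) / 2 < t ∧ t ≤ Nat.log 3 d / 2 then .T else .blank)
    else .blank)
  else .blank
termination_by d
decreasing_by
  have : 0 < 3 ^ Nat.log 3 d := by positivity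
  omega

end Sol

end H96.CK
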