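import Pool.Agent.H96.CK.TimA
import Pool.Agent.H96.CK.Lane

/-!
# Module LaneB (200 lines): one time step by wires

Notation `x = tl v (i - 1)`, `b = (i - 1) / 2`. All statements are unfoldings of the definitions with
`tl_len` (`3 * length ≤ i - 1`, so positions `i - b ≥ (i+1)/2` and more of the stacks are empty).
* `info_succ`: `eqw cs (m.drop (i - (t+1))) (g.drop (i - (t+1)))` against `m[i-1-t]?`, `g[i-1-t]?` and
  `eqw cs (m.drop (i - t)) (g.drop (i - t))`: `List.drop_eq_getElem_cons` if the position exists, all is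
  `false` otherwise (note `i - (t+1) = (i-1) - t`). The second lane: `t - 1 ≥ b` iff `b + 2 ≤ t + 1`.
* `info_bot`: `(m.drop (i - b)) = []`, `z`: `zz i` is true iff `tok = some t` with `i = 2 t + 2`, that is
  `t = b` and `i` even.
* `newA_mid`, `newT_top`: `(Op.app o l)[d]?` with `d = i - t`, `l[d - 1]?` is the letter of lane `t`,
  `l[d]?` of lane `t - 1`, `l[d+1]?` of lane `t - 2` (positions with respect to time `i - 1`):
  keep: `l[d]?`; push: `l[d-1]?` (`d ≥ 1`), the pushed letter for `d = 0`; pop: `l[d+1]?`.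
  If `t - 2 < b` then the true letter `l[d+1]?` is `none` by length, as in `Lam0`.
  Code track: `l[d]?` in both cases. Token (`newA`): `tok` is kept or becomes `some i ≠ some t`; in the
  second case the old token is not on a lane `t ≥ b`: invariant `mode = run → tok = some t → 2 t + 2 ≤ i`
  (induction, together with: `mode = launch → tok = some t → 2 t + 2 ≤ i`, `zz` is what switches from
  hold to launch).
* `next_top`: `info.e` for `t = i` is `eqw cs (m.drop 0) (g.drop 0)`.
* `glob_ch`: `MS.ch` contains `chOK`.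
-/

namespace H96.CK

variable {K G : Type} [DecidableEq G] {M : SM K G} {mn : K} {cs : G}

private lemma eqw_drop (m g : List G) (p : ℕ) :
    eqw cs (m.drop p) (g.drop p) =
      match m[p]?, g[p]? with
      | some a, some b => decide (a = b) && (decide (a = cs) || eqw cs (m.drop (p + 1)) (g.drop (p + 1)))
      | _, _ => false := by
  by_cases hm : p < m.length
  · by_cases hg : p < g.length
    · rw [List.getElem?_eq_getElem hm, List.getElem?_eq_getElem hg, List.drop_eq_getElem_cons hm,
        List.drop_eq_getElem_cons hg]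
      rfl
    · rw [List.getElem?_eq_getElem hm, List.getElem?_eq_none (not_lt.mp hg), List.drop_eq_getElem_cons hm,
        List.drop_eq_nil_of_le (not_lt.mp hg)]
      rfl
  · rw [List.getElem?_eq_none (not_lt.mp hm), List.drop_eq_nil_of_le (not_lt.mp hm)]
    rfl

private lemma eqw_nil (m g : List G) (h : m = []) : eqw cs m g = false := by
  subst h
  rfl

private lemma tl_succ (v : Option ℕ) (j : ℕ) :
    tl M mn cs v (j + 1) = (tl M mn cs v j).next mn cs (j + 1) ((tl M mn cs v j).ch v) := rfl

/-- a token is old in the modes run and launch -/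
private lemma tok_old (v : Option ℕ) (i : ℕ) :
    ((tl M mn cs v i).st.mode = .run ∨ (tl M mn cs v i).st.mode = .launch) →
      ∀ t, (tl M mn cs v i).tok = some t → 2 * t + 2 ≤ i := by
  induction i with
  | zero =>
    intro _ t h
    exact absurd h (by simp [tl, MS.init])
  | succ i ih =>
    rw [tl_succ]
    generalize (tl M mn cs v i).ch v = ch
    generalize hx : tl M mn cs v i = x at ih ⊢
    intro hm t ht
    have ht' : (if x.st.plc M = true then some (i + 1) else x.tok) = some t := ht
    have hm' : (x.st.next M (x.lam (i + 1 - 1) (i + 1 - 1)) ch (eqw cs (x.S mn) x.C) (x.zz (i + 1))).mode = .run ∨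
      (x.st.next M (x.lam (i + 1 - 1) (i + 1 - 1)) ch (eqw cs (x.S mn) x.C) (x.zz (i + 1))).mode = .launch := hm
    by_cases hp : x.st.plc M = true
    · exfalso
      unfold St.plc St.isEv at hp
      rw [Bool.and_eq_true, Bool.and_eq_true, decide_eq_true_iff, decide_eq_true_iff] at hp
      obtain ⟨⟨h1, h2⟩, h3⟩ := hp
      unfold St.next at hm'
      rw [h1] at hm'
      simp [h2, h3] at hm'
    · rw [if_neg hp] at ht'
      cases hmode : x.st.mode with
      | run =>
        have := ih (Or.inl hmode) t ht'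
        omega
      | launch =>
        have := ih (Or.inr hmode) t ht'
        omega
      | hold0 =>
        unfold St.next at hm'
        rw [hmode] at hm'
        simp at hm'
      | hold =>
        unfold St.next at hm'
        rw [hmode] at hm'
        by_cases hz : x.zz (i + 1) = true
        · unfold MS.zz at hz
          rw [ht'] at hz
          have : i + 1 = 2 * t + 2 := of_decide_eq_true hz
          omega
        · simp [hz, hmode] at hm'

private lemma len_S (v : Option ℕ) (i : ℕ) (k : K) {p : ℕ} (h : i < 3 * p + 1) :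
    ((tl M mn cs v i).S k)[p]? = none := by
  apply List.getElem?_eq_none
  have := (tl_len (M := M) (mn := mn) (cs := cs) v i k).1
  omega

private lemma len_C (v : Option ℕ) (i : ℕ) {p : ℕ} (h : i < 3 * p + 1) :
    ((tl M mn cs v i).C)[p]? = none := by
  apply List.getElem?_eq_none
  have := (tl_len (M := M) (mn := mn) (cs := cs) v i mn).2
  omega

private lemma tail_get (l : List G) (d : ℕ) : l.tail[d]? = l[d + 1]? := by
  cases l <;> simp

theorem info_succ (v : Option ℕ) {i t : ℕ} (h1 : (i - 1) / 2 < t) (h2 : t < i) :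
    info M mn cs v i (t + 1) =
      Info.up mn cs false ((tl M mn cs v (i - 1)).lam (i - 1) t) (info M mn cs v i t) := by
  have hy : (i - 1) / 2 + 2 ≤ t + 1 := by omega
  have he := eqw_drop (cs := cs) ((tl M mn cs v (i - 1)).S mn) ((tl M mn cs v (i - 1)).C) (i - (t + 1))
  unfold info Info.up
  rw [if_pos hy]
  congr 1
  · rw [he]
    unfold eqs MS.lam
    rw [show i - (t + 1) + 1 = i - t by omega, show i - (t + 1) = i - 1 - t by omega]
    rfl
  · simp

theorem info_bot (v : Option ℕ) {i : ℕ} (hi : 1 ≤ i) :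
    info M mn cs v i ((i - 1) / 2 + 1) =
      Info.up mn cs (decide (i % 2 = 0)) ((tl M mn cs v (i - 1)).lam (i - 1) ((i - 1) / 2))
        (Info.ini K G) := by
  have hy : ¬ (i - 1) / 2 + 2 ≤ (i - 1) / 2 + 1 := by omega
  have he := eqw_drop (cs := cs) ((tl M mn cs v (i - 1)).S mn) ((tl M mn cs v (i - 1)).C) (i - ((i - 1) / 2 + 1))
  have hnil : ((tl M mn cs v (i - 1)).S mn).drop (i - ((i - 1) / 2 + 1) + 1) = [] := by
    apply List.drop_eq_nil_of_le
    have := (tl_len (M := M) (mn := mn) (cs := cs) v (i - 1) mn).1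
    omega
  rw [eqw_nil _ _ hnil] at he
  unfold info Info.up Info.ini
  rw [if_neg hy]
  congr 1
  · rw [he]
    unfold eqs MS.lam
    rw [show i - ((i - 1) / 2 + 1) = i - 1 - (i - 1) / 2 by omega]
    rfl
  · rw [Bool.false_or]
    unfold MS.zz MS.lam
    cases htok : (tl M mn cs v (i - 1)).tok with
    | none => simp
    | some t =>
      simp only [Option.some.injEq]
      rw [← Bool.decide_and]
      apply decide_eq_decide.2
      omega

/-- the lane after the step, `l` the letters one lane above (older), `y1`, `y2` -/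
private lemma lett_eq (o : Op G) (l : List G) {d : ℕ} (hd : 1 ≤ d) :
    o.lett l[d - 1]? l[d]? l[d + 1]? = (o.app l)[d]? := by
  cases o with
  | keep => rfl
  | push a =>
    show l[d - 1]? = (a :: l)[d]?
    obtain ⟨e, rfl⟩ : ∃ e, d = e + 1 := ⟨d - 1, by omega⟩
    simp
  | pop =>
    show l[d + 1]? = l.tail[d]?
    rw [tail_get]

private lemma top_eq (o : Op G) (l : List G) :
    o.top l[0]? l[1]? = (o.app l)[0]? := by
  cases o with
  | keep => rfl
  | push a => rfl
  | pop =>
    show l[1]? = l.tail[0]?
    rw [tail_get]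

private lemma plc_run {x : MS M} (h : x.st.plc M = true) : x.st.mode = .run := by
  unfold St.plc St.isEv at h
  rw [Bool.and_eq_true, Bool.and_eq_true, decide_eq_true_iff, decide_eq_true_iff] at h
  exact h.1.1

/-- the token bit of an old lane -/
private lemma tok_bit (v : Option ℕ) (j t : ℕ) (h1 : j < 2 * t + 2) (h2 : t < j + 1) :
    decide ((tl M mn cs v j).tok = some t) =
      decide ((if (tl M mn cs v j).st.plc M = true then some (j + 1) else (tl M mn cs v j).tok) = some t) := by
  by_cases hp : (tl M mn cs v j).st.plc M = true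
  · rw [if_pos hp]
    have ha : (tl M mn cs v j).tok ≠ some t := by
      intro ht
      have := tok_old (M := M) (mn := mn) (cs := cs) v j (Or.inl (plc_run hp)) t ht
      omega
    have hb : (some (j + 1) : Option ℕ) ≠ some t := by
      intro hc
      have := Option.some.inj hc
      omega
    rw [decide_eq_false ha, decide_eq_false hb]
  · rw [if_neg hp]

theorem newA_mid (v : Option ℕ) {i t : ℕ} (h1 : (i - 1) / 2 < t) (h2 : t < i) :
    (glob M mn cs v i).newA mn ((tl M mn cs v (i - 1)).lam (i - 1) t) (info M mn cs v i t).y1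
      (info M mn cs v i t).y2 = (tl M mn cs v i).lam i t := by
  obtain ⟨j, rfl⟩ : ∃ j, i = j + 1 := ⟨i - 1, by omega⟩
  have h1' : j / 2 < t := h1
  have hy2 : ∀ k, (info M mn cs v (j + 1) t).y2.1 k = ((tl M mn cs v j).S k)[j + 1 - t + 1]? := by
    intro k
    show (if j / 2 + 2 ≤ t then (tl M mn cs v j).lam j (t - 2) else Lam0 K G).1 k = _
    by_cases hc : j / 2 + 2 ≤ t
    · rw [if_pos hc]
      show ((tl M mn cs v j).S k)[j - (t - 2)]? = _
      rw [show j - (t - 2) = j + 1 - t + 1 by omega]
    · rw [if_neg hc, len_S v j k (by omega)]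
      rfl
  have hy1 : ∀ k, (info M mn cs v (j + 1) t).y1.1 k = ((tl M mn cs v j).S k)[j + 1 - t]? := by
    intro k
    show ((tl M mn cs v j).S k)[j - (t - 1)]? = _
    rw [show j - (t - 1) = j + 1 - t by omega]
  have hy3 : (info M mn cs v (j + 1) t).y1.2.1 = ((tl M mn cs v j).C)[j + 1 - t]? := by
    show ((tl M mn cs v j).C)[j - (t - 1)]? = _
    rw [show j - (t - 1) = j + 1 - t by omega]
  refine Prod.ext ?_ (Prod.ext ?_ ?_)
  · funext k
    show Op.lett _ ((tl M mn cs v j).S k)[j - t]? ((info M mn cs v (j + 1) t).y1.1 k)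
      ((info M mn cs v (j + 1) t).y2.1 k) = _
    rw [hy1, hy2, show j - t = j + 1 - t - 1 by omega, lett_eq _ _ (by omega)]
    rfl
  · show (if (tl M mn cs v j).ch v = true then (info M mn cs v (j + 1) t).y1.1 mn
      else (info M mn cs v (j + 1) t).y1.2.1) =
      (if (tl M mn cs v j).ch v = true then (tl M mn cs v j).S mn else (tl M mn cs v j).C)[j + 1 - t]?
    rw [hy1, hy3]
    split_ifs <;> rfl
  · exact tok_bit v j t (by omega) (by omega)

theorem newA_bot (v : Option ℕ) {i : ℕ} (hi : i % 2 = 1) :
    (glob M mn cs v i).newA mn ((tl M mn cs v (i - 1)).lam (i - 1) ((i - 1) / 2)) (Lam0 K G)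
      (Lam0 K G) = (tl M mn cs v i).lam i ((i - 1) / 2) := by
  obtain ⟨j, rfl⟩ : ∃ j, i = j + 1 := ⟨i - 1, by omega⟩
  show (glob M mn cs v (j + 1)).newA mn ((tl M mn cs v j).lam j (j / 2)) (Lam0 K G)
      (Lam0 K G) = (tl M mn cs v (j + 1)).lam (j + 1) (j / 2)
  refine Prod.ext ?_ (Prod.ext ?_ ?_)
  · funext k
    have e1 : ((tl M mn cs v j).S k)[j + 1 - j / 2]? = none := len_S v j k (by omega)
    have e2 : ((tl M mn cs v j).S k)[j + 1 - j / 2 + 1]? = none := len_S v j k (by omega)
    have e3 := fun o : Op G => lett_eq o ((tl M mn cs v j).S k) (d := j + 1 - j / 2) (by omega)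
    rw [e1, e2, show j + 1 - j / 2 - 1 = j - j / 2 by omega] at e3
    exact e3 _
  · show (if (tl M mn cs v j).ch v = true then none else none) =
      (if (tl M mn cs v j).ch v = true then (tl M mn cs v j).S mn else (tl M mn cs v j).C)[j + 1 - j / 2]?
    split_ifs
    · rw [len_S v j mn (by omega)]
    · rw [len_C v j (by omega)]
  · exact tok_bit v j (j / 2) (by omega) (by omega)

theorem newT_top (v : Option ℕ) {i : ℕ} (hi : 1 ≤ i) :
    (glob M mn cs v i).newT mn (info M mn cs v i i).y1 (info M mn cs v i i).y2 =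
      (tl M mn cs v i).lam i i := by
  obtain ⟨j, rfl⟩ : ∃ j, i = j + 1 := ⟨i - 1, by omega⟩
  have hy2 : ∀ k, (info M mn cs v (j + 1) (j + 1)).y2.1 k = ((tl M mn cs v j).S k)[1]? := by
    intro k
    show (if j / 2 + 2 ≤ j + 1 then (tl M mn cs v j).lam j (j + 1 - 2) else Lam0 K G).1 k = _
    by_cases hc : j / 2 + 2 ≤ j + 1
    · rw [if_pos hc]
      show ((tl M mn cs v j).S k)[j - (j + 1 - 2)]? = _
      rw [show j - (j + 1 - 2) = 1 by omega]
    · rw [if_neg hc, len_S v j k (by omega)]
      rfl
  have hy1 : ∀ k, (info M mn cs v (j + 1) (j + 1)).y1.1 k = ((tl M mn cs v j).S k)[0]? := by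
    intro k
    show ((tl M mn cs v j).S k)[j - j]? = _
    rw [Nat.sub_self]
  have hy3 : (info M mn cs v (j + 1) (j + 1)).y1.2.1 = ((tl M mn cs v j).C)[0]? := by
    show ((tl M mn cs v j).C)[j - j]? = _
    rw [Nat.sub_self]
  refine Prod.ext ?_ (Prod.ext ?_ ?_)
  · funext k
    show Op.top _ ((info M mn cs v (j + 1) (j + 1)).y1.1 k)
      ((info M mn cs v (j + 1) (j + 1)).y2.1 k) = (_ : List G)[j + 1 - (j + 1)]?
    rw [hy1, hy2, Nat.sub_self, top_eq]
    rfl
  · show (if (tl M mn cs v j).ch v = true then (info M mn cs v (j + 1) (j + 1)).y1.1 mn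
      else (info M mn cs v (j + 1) (j + 1)).y1.2.1) =
      (if (tl M mn cs v j).ch v = true then (tl M mn cs v j).S mn else (tl M mn cs v j).C)[j + 1 - (j + 1)]?
    rw [hy1, hy3, Nat.sub_self]
    split_ifs <;> rfl
  · show (tl M mn cs v j).st.plc M =
      decide ((if (tl M mn cs v j).st.plc M = true then some (j + 1) else (tl M mn cs v j).tok) = some (j + 1))
    by_cases hp : (tl M mn cs v j).st.plc M = true
    · rw [if_pos hp, hp]
      simp
    · rw [if_neg hp]
      have ha : (tl M mn cs v j).tok ≠ some (j + 1) := by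
        intro ht
        have := tl_tok (M := M) (mn := mn) (cs := cs) v j _ ht
        omega
      rw [decide_eq_false ha]
      simpa using hp

theorem next_top (v : Option ℕ) {i : ℕ} (hi : 1 ≤ i) :
    (glob M mn cs v i).st.next M (glob M mn cs v i).l0 (glob M mn cs v i).ch
      (info M mn cs v i i).e (info M mn cs v i i).z = (tl M mn cs v i).st := by
  obtain ⟨j, rfl⟩ : ∃ j, i = j + 1 := ⟨i - 1, by omega⟩
  unfold glob info
  rw [Nat.sub_self]
  rfl

theorem glob_ch (v : Option ℕ) (i : ℕ) :
    (glob M mn cs v i).ch = true → (glob M mn cs v i).st.chOK M = true := by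
  unfold glob MS.ch
  intro h
  rw [Bool.and_eq_true] at h
  exact h.1

end H96.CK
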