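import Pool.Agent.H96.CK.Mach

/-!
# Module MachW (100 lines): words of numbers

`trNat n` (Mathlib, `Turing.PartrecToTM2`) is a list of `bit0`, `bit1` (binary digits, lowest first),
`trList (n :: l) = trNat n ++ cons :: trList l`.
* `trNat_bits`: all letters of `trNat n` are `bit0` or `bit1`, hence different from `cons`
  (`trNat n = trNum n`, `trPosNum` is defined by recursion; induct on `PosNum`).
* `trNat_inj`: the word determines the number (induct on `PosNum`: `bit1 :: ..`, `bit0 :: ..`, and
  `trPosNum one = [bit1]`; the word of `PosNum.bit1 n` is longer than `[bit1]`; then `Num.cast`).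
* `eqw_word`: for words `u`, `u'` without `cons`:
  `eqw cons (u ++ cons :: l) (u' ++ cons :: l') = decide (u = u')` (induction on `u`, cases on `u'`).
-/

namespace H96.CK

open Turing.PartrecToTM2

private theorem trPosNum_ne_nil (n : PosNum) : trPosNum n ≠ [] := by
  cases n <;> simp [trPosNum]

private theorem trPosNum_inj : ∀ m n : PosNum, trPosNum m = trPosNum n → m = n
  | PosNum.one, PosNum.one, _ => rfl
  | PosNum.one, PosNum.bit0 n, h => by simp [trPosNum] at h
  | PosNum.one, PosNum.bit1 n, h => by
    simp only [trPosNum, List.cons.injEq, true_and] at h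
    exact absurd h.symm (trPosNum_ne_nil n)
  | PosNum.bit0 m, PosNum.one, h => by simp [trPosNum] at h
  | PosNum.bit0 m, PosNum.bit0 n, h => by
    simp only [trPosNum, List.cons.injEq, true_and] at h
    rw [trPosNum_inj m n h]
  | PosNum.bit0 m, PosNum.bit1 n, h => by simp [trPosNum] at h
  | PosNum.bit1 m, PosNum.one, h => by
    simp only [trPosNum, List.cons.injEq, true_and] at h
    exact absurd h (trPosNum_ne_nil m)
  | PosNum.bit1 m, PosNum.bit0 n, h => by simp [trPosNum] at h
  | PosNum.bit1 m, PosNum.bit1 n, h => by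
    simp only [trPosNum, List.cons.injEq, true_and] at h
    rw [trPosNum_inj m n h]

private theorem trNum_inj : ∀ m n : Num, trNum m = trNum n → m = n
  | Num.zero, Num.zero, _ => rfl
  | Num.zero, Num.pos n, h => absurd h.symm (trPosNum_ne_nil n)
  | Num.pos m, Num.zero, h => absurd h (trPosNum_ne_nil m)
  | Num.pos m, Num.pos n, h => by rw [trPosNum_inj m n h]

private theorem trNat_inj {m n : ℕ} (h : trNat m = trNat n) : m = n := by
  have h1 : (m : Num) = (n : Num) := trNum_inj _ _ h
  exact_mod_cast h1

private theorem trNat_ne_cons (n : ℕ) : ∀ x ∈ trNat n, x ≠ Γ'.cons := by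
  intro x hx h
  have h1 := trNat_natEnd n x hx
  rw [h] at h1
  simp [natEnd] at h1

private theorem eqw_word (l l' : List Γ') : ∀ u u' : List Γ', (∀ x ∈ u, x ≠ Γ'.cons) →
    (∀ x ∈ u', x ≠ Γ'.cons) →
    eqw Γ'.cons (u ++ Γ'.cons :: l) (u' ++ Γ'.cons :: l') = decide (u = u')
  | [], [], _, _ => by simp [eqw]
  | [], b :: v, _, h => by
    have hb : Γ'.cons ≠ b := fun h1 => h b (by simp) h1.symm
    simp [eqw, hb]
  | a :: v, [], h, _ => by
    have ha : a ≠ Γ'.cons := h a (by simp)
    simp [eqw, ha]
  | a :: v, b :: v', h, h' => by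
    have ha : a ≠ Γ'.cons := h a (by simp)
    have ih := eqw_word l l' v v' (fun x hx => h x (by simp [hx])) (fun x hx => h' x (by simp [hx]))
    rw [List.cons_append, List.cons_append, eqw, ih]
    simp [ha]

theorem eqw_trList (x x' : ℕ) (l l' : List ℕ) :
    eqw Γ'.cons (trList (x :: l)) (trList (x' :: l')) = decide (x = x') := by
  rw [trList, trList, eqw_word _ _ _ _ (trNat_ne_cons x) (trNat_ne_cons x')]
  exact decide_eq_decide.2 ⟨trNat_inj, fun h => by rw [h]⟩

end H96.CK
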