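import Pool.Agent.H96.CK.MachA
import Pool.Agent.H96.CK.MachW

/-!
# Module MachB (200 lines): a machine which computes `e 0, e 1, e 2, ..`

The function `v ↦ e (v.get 1 + 1)` on `List.Vector ℕ 2` is computable, hence `Nat.Partrec'`
(`Nat.Partrec'.part_iff`, `Computable.partrec`), so
`Turing.ToPartrec.Code.exists_code` gives a code `c1` with `c1.eval [x, n] = pure [e (n + 1)]`, in the
same way `c2` with `c2.eval [x, n] = pure [n + 1]`; `c = Code.cons c1 c2` has
`c.eval [x, n] = pure [e (n + 1), n + 1]` (`Code.cons_eval`).
Let `(M0, st)` be the block of `c`. The machine `M`: states `M0.Q ⊕ Fin (2 * e0 + 10)` or any finite type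
of boot states; boot: push the letters of the list `trList [e 0, 0]` on `main`, last letter first
(any finite list `L` can be loaded by `L.length` states: state `inr i` pushes the letter
`L[L.length - 1 - i]`), the state after the last push is an extra event state with restart
`inl st`. On `inl q`: `ev`, `act` of `M0`, `rs _ = inl st`.
Events: by induction the `n`-th event is reached with stacks `K'.elim (trList [e n, n]) [] [] []`;
`evs (n + 1) = evs n + 1 + (number of steps of the block)`. Between them there is no event.
`eqw_trList` gives the last clause.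
-/

namespace H96.CK

open Turing.PartrecToTM2

private theorem mb_code (f : ℕ → ℕ) (hf : Computable f) :
    ∃ c : Turing.ToPartrec.Code, ∀ x n : ℕ, c.eval [x, n] = pure [f n] := by
  have h1 : Computable fun v : List.Vector ℕ 2 => f v.tail.head :=
    hf.comp (Primrec.vector_head.to_comp.comp Primrec.vector_tail.to_comp)
  have h2 : Nat.Partrec' (n := 2) (fun v : List.Vector ℕ 2 => (Part.some (f v.tail.head))) :=
    Nat.Partrec'.of_part h1.partrec
  obtain ⟨c, hc⟩ := Turing.ToPartrec.Code.exists_code h2
  refine ⟨c, fun x n => ?_⟩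
  have h3 := hc ⟨[x, n], rfl⟩
  have h4 : c.eval [x, n] = pure <$> (Part.some (f n) : Part ℕ) := h3
  rw [h4]
  simp

private theorem mb_step (e : ℕ → ℕ) (he : Computable e) :
    ∃ c : Turing.ToPartrec.Code, ∀ n : ℕ, [e (n + 1), n + 1] ∈ c.eval [e n, n] := by
  obtain ⟨c1, h1⟩ := mb_code (fun n => e (n + 1)) (he.comp Computable.succ)
  obtain ⟨c2, h2⟩ := mb_code (fun n => n + 1) Computable.succ
  refine ⟨Turing.ToPartrec.Code.cons c1 c2, fun n => ?_⟩
  rw [Turing.ToPartrec.Code.cons_eval]
  simp [h1, h2]

/-- the machine with its boot states -/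
private def mb_M (M0 : SM K' Γ') (st : M0.Q) (L : List Γ') : SM K' Γ' where
  Q := M0.Q ⊕ Fin (L.length + 1)
  fin := by
    haveI := M0.fin
    infer_instance
  q0 := Sum.inr 0
  ev := fun q => match q with
    | Sum.inl q => M0.ev q
    | Sum.inr i => decide (i.1 = L.length)
  rs := fun _ => Sum.inl st
  act := fun q t => match q with
    | Sum.inl q => (Sum.inl (M0.act q t).1, (M0.act q t).2)
    | Sum.inr i => if h : i.1 < L.length then
        (Sum.inr ⟨i.1 + 1, by omega⟩, fun k => if k = K'.main then Op.push (L[i.1]'h) else Op.keep)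
      else (Sum.inl st, fun _ => Op.keep)

private theorem mb_stp_inl (M0 : SM K' Γ') (st : M0.Q) (L : List Γ') (q : M0.Q)
    (S : K' → List Γ') :
    (mb_M M0 st L).stp (Sum.inl q, S) = (Sum.inl (M0.stp (q, S)).1, (M0.stp (q, S)).2) := rfl

private theorem mb_iter (M0 : SM K' Γ') (st : M0.Q) (L : List Γ') (S : K' → List Γ') (s : ℕ)
    (h0 : (mb_M M0 st L).run s = (Sum.inl st, S)) (k : ℕ)
    (hk : ∀ m < k, M0.ev (M0.stp^[m] (st, S)).1 = false) :
    ∀ m ≤ k, (mb_M M0 st L).run (s + m) =
      (Sum.inl (M0.stp^[m] (st, S)).1, (M0.stp^[m] (st, S)).2) := by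
  intro m
  induction m with
  | zero => intro _; exact h0
  | succ m ih =>
    intro hm
    have h1 := ih (by omega)
    have h2 : (mb_M M0 st L).ev ((mb_M M0 st L).run (s + m)).1 = false := by
      rw [h1]; exact hk m (by omega)
    have h3 : (mb_M M0 st L).run (s + (m + 1)) = (mb_M M0 st L).stp ((mb_M M0 st L).run (s + m)) := by
      show (mb_M M0 st L).run ((s + m) + 1) = _
      rw [SM.run, if_neg (by rw [h2]; simp)]
    rw [h3, h1, Function.iterate_succ_apply']
    exact mb_stp_inl M0 st L _ _

private theorem mb_boot (M0 : SM K' Γ') (st : M0.Q) (L : List Γ') :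
    ∀ s, (hs : s ≤ L.length) → (mb_M M0 st L).run s =
      (Sum.inr ⟨s, by omega⟩, fun k => if k = K'.main then (L.take s).reverse else []) := by
  intro s
  induction s with
  | zero =>
    intro _
    rw [SM.run]
    refine Prod.ext rfl ?_
    funext k
    simp
  | succ s ih =>
    intro hs
    have h1 := ih (by omega)
    have h2 : (mb_M M0 st L).ev ((mb_M M0 st L).run s).1 = false := by
      rw [h1]
      show decide (s = L.length) = false
      simp only [decide_eq_false_iff_not]; omega
    rw [SM.run, if_neg (by rw [h2]; simp), h1]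
    have hs' : s < L.length := by omega
    have h4 : ∀ t, (mb_M M0 st L).act (Sum.inr ⟨s, by omega⟩) t =
        (Sum.inr ⟨s + 1, by omega⟩,
          fun k => if k = K'.main then Op.push (L[s]'hs') else Op.keep) := by
      intro t
      exact dif_pos hs'
    have h5 : ∀ S : K' → List Γ', (mb_M M0 st L).stp (Sum.inr ⟨s, by omega⟩, S) =
        (Sum.inr ⟨s + 1, by omega⟩,
          fun k => (if k = K'.main then Op.push (L[s]'hs') else Op.keep : Op Γ').app (S k)) := by
      intro S
      exact congrArg (fun p : (mb_M M0 st L).Q × (K' → Op Γ') =>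
        ((p.1, fun k => (p.2 k).app (S k)) : (mb_M M0 st L).Q × (K' → List Γ')))
        (h4 fun k => (S k).head?)
    refine (h5 _).trans ?_
    refine Prod.ext rfl (funext fun k => ?_)
    show (if k = K'.main then Op.push (L[s]'hs') else Op.keep : Op Γ').app
      (if k = K'.main then (L.take s).reverse else []) =
      if k = K'.main then (L.take (s + 1)).reverse else []
    by_cases hk : k = K'.main
    · rw [if_pos hk, if_pos hk, if_pos hk, List.take_succ_eq_append_getElem hs',
        List.reverse_append]
      rfl
    · rw [if_neg hk, if_neg hk, if_neg hk]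
      rfl

theorem exists_prog (e : ℕ → ℕ) (he : Computable e) :
    ∃ M : SM K' Γ', M.Prog K'.main Γ'.cons e := by
  obtain ⟨c, hc⟩ := mb_step e he
  obtain ⟨M0, st, -, hb⟩ := exists_block c
  have hb' := fun n => hb [e n, n] [e (n + 1), n + 1] (hc n)
  choose k hk1 hk2 hk3 using hb'
  set L : List Γ' := (trList [e 0, 0]).reverse with hL
  set evs : ℕ → ℕ := fun n => Nat.rec L.length (fun n s => s + 1 + k n) n with hevs
  have hevs0 : evs 0 = L.length := rfl
  have hevsS : ∀ n, evs (n + 1) = evs n + 1 + k n := fun n => rfl
  have hmono : StrictMono evs := strictMono_nat_of_lt_succ fun n => by rw [hevsS]; omega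
  -- the stacks at the events
  have hmain : ∀ n, (mb_M M0 st L).ev ((mb_M M0 st L).run (evs n)).1 = true ∧
      ((mb_M M0 st L).run (evs n)).2 = K'.elim (trList [e n, n]) [] [] [] := by
    intro n
    induction n with
    | zero =>
      rw [hevs0, mb_boot M0 st L L.length le_rfl]
      refine ⟨?_, ?_⟩
      · show decide (L.length = L.length) = true
        simp
      · funext k
        simp only [List.take_length, hL, List.reverse_reverse]
        cases k <;> simp
    | succ n ih =>
      have h1 : (mb_M M0 st L).run (evs n + 1) = (Sum.inl st, K'.elim (trList [e n, n]) [] [] []) := by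
        rw [SM.run, if_pos ih.1, ih.2]
        rfl
      have h2 := mb_iter M0 st L _ _ h1 (k n) (hk1 n) (k n) le_rfl
      rw [hevsS]
      rw [h2]
      exact ⟨hk2 n, hk3 n⟩
  refine ⟨mb_M M0 st L, evs, hmono, ?_, ?_⟩
  · intro s
    constructor
    · intro hs
      have h0 : evs 0 ≤ s := by
        by_contra hlt
        push Not at hlt
        rw [hevs0] at hlt
        rw [mb_boot M0 st L s hlt.le] at hs
        have : decide (s = L.length) = true := hs
        simp only [decide_eq_true_eq] at this
        omega
      -- the last event before `s`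
      obtain ⟨n, hn1, hn2⟩ : ∃ n, evs n ≤ s ∧ s < evs (n + 1) := by
        have hex : ∃ n, s < evs (n + 1) := ⟨s, lt_of_lt_of_le (Nat.lt_succ_self s) (hmono.id_le (s + 1))⟩
        classical
        refine ⟨Nat.find hex, ?_, Nat.find_spec hex⟩
        rcases Nat.eq_zero_or_pos (Nat.find hex) with h | h
        · rw [h]; exact h0
        · obtain ⟨m, hm⟩ : ∃ m, Nat.find hex = m + 1 := ⟨Nat.find hex - 1, by omega⟩
          rw [hm]
          have := Nat.find_min hex (m := m) (by omega)
          exact not_lt.mp this
      rcases eq_or_lt_of_le hn1 with h | h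
      · exact ⟨n, h.symm⟩
      · exfalso
        have h1 : (mb_M M0 st L).run (evs n + 1) = (Sum.inl st, K'.elim (trList [e n, n]) [] [] []) := by
          rw [SM.run, if_pos (hmain n).1, (hmain n).2]
          rfl
        rw [hevsS] at hn2
        obtain ⟨m, hm⟩ : ∃ m, s = evs n + 1 + m := ⟨s - (evs n + 1), by omega⟩
        have h2 := mb_iter M0 st L _ _ h1 (k n) (hk1 n) m (by omega)
        rw [← hm] at h2
        rw [h2] at hs
        have h3 : M0.ev (M0.stp^[m] (st, K'.elim (trList [e n, n]) [] [] [])).1 = true := hs
        rw [hk1 n m (by omega)] at h3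
        exact Bool.noConfusion h3
    · rintro ⟨n, rfl⟩
      exact (hmain n).1
  · intro m n
    rw [(hmain m).2, (hmain n).2]
    exact eqw_trList _ _ _ _

end H96.CK
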