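import Pool.Agent.H96.CK.TimB
import Pool.Agent.H96.CK.MachB
import Pool.Agent.H96.CK.Lane

/-!
# Module TimC (150 lines): all facts about the time line which are used for the tiles

From `exists_prog (enm r)` (`enm_computable`) and `exists_tline` with `e = enm r`; by `enm0`, `enm1`,
`enm2` : `e (3 m) = m + 1`, `e (3 q + 1) = eV r q`, `e (3 q + 2) = eJ r q`.
* `Lau v k = true` iff `k = 2 κ q + 1`, `v = some m`, `m ≤ q`, `eV r q = m + 1` for some `q, m`.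
* `Clo v k = true` iff `k = κ q`, `v = some m`, `m ≤ q`, `eJ r q = m + 1`.
* `chd (2 κ q + 1) = eJ r q - 1` (`TLine.nE`).
* `lau_odd`, `lau_clo`, `clo_uniq`, `lau_rel`: `eV_pos`, injectivity of `κ`.
* `rec`: `enm_inf` with `max N ..`; `κ q ≥ q` (`StrictMono.le_apply` or `StrictMono.id_le`).
* `chain`: `B = κ ((N + 2) ^ 2)`; if `κ ≥ B` and `Lau (some v') (2 κ + 1)` then `κ = κ Q` with
  `Q ≥ (N + 2) ^ 2`, `enm_chain` gives `q` with `N ≤ q < Q`, and `k = 2 κ q + 1 < κ (q + 1) ≤ κ Q`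
  by `dbl`; `k ≥ q ≥ N`; `m = v ≤ q` by `eV_pos`.
* `ch`, `chOK`, `mu`, `muk`: copies of `TLine` (`muk`: `μ m + 1 < κ q` for `m ≤ q`; if
  `Clo (some m) k` then `k = κ q`, `m ≤ q`).
-/

namespace H96.CK

open Turing.PartrecToTM2

structure Tm {K G : Type} [DecidableEq G] (M : SM K G) (mn : K) (cs : G) (e : ℕ → ℕ)
    (r : ℕ → ℕ → Prop) (μ : ℕ → ℕ) : Prop where
  lau_odd : ∀ v k, Lau M mn cs v k = true → k % 2 = 1 ∧ 3 ≤ k
  lau_clo : ∀ v k, Lau M mn cs v k = true → Clo M mn cs (some (chd M mn cs e k)) (k / 2) = true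
  clo_uniq : ∀ v v' k, Lau M mn cs v k = true → Clo M mn cs v' (k / 2) = true →
    v' = some (chd M mn cs e k)
  lau_rel : ∀ v k, Lau M mn cs v k = true → ∃ m, v = some m ∧ r (chd M mn cs e k) m
  recur : ∀ j m, r j m → ∀ N, ∃ k, N ≤ k ∧ Lau M mn cs (some m) k = true ∧ chd M mn cs e k = j
  chain : ∀ N, ∃ B, ∀ κ, B ≤ κ → ∀ j v v', r j v → Lau M mn cs (some v') (2 * κ + 1) = true →
    chd M mn cs e (2 * κ + 1) = v → j < v' → v < v' →
    ∃ k, N ≤ k ∧ k < κ ∧ Lau M mn cs (some v) k = true ∧ chd M mn cs e k = j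
  mu : StrictMono μ
  ch : ∀ v i, (tl M mn cs v i).ch v = true ↔ ∃ m, v = some m ∧ i = μ m
  chOK : ∀ v i, (tl M mn cs v i).st.chOK M = true ↔ ∃ m, i = μ m ∧ ∀ m', v = some m' → m ≤ m'
  muk : ∀ m k, Clo M mn cs (some m) k = true → μ m + 1 < k

private theorem lau_iff {M : SM K' Γ'} {r : ℕ → ℕ → Prop} {κ μ : ℕ → ℕ}
    (T : TLine M K'.main Γ'.cons (enm r) κ μ) (v : Option ℕ) (k : ℕ) :
    Lau M K'.main Γ'.cons v k = true ↔
      ∃ q m, k = 2 * κ q + 1 ∧ v = some m ∧ m ≤ q ∧ eV r q = m + 1 := by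
  unfold Lau
  rw [Bool.and_eq_true, decide_eq_true_eq, T.lch]
  constructor
  · rintro ⟨h1, q, m, h2, h3, h4, h5⟩
    rw [enm1, enm0] at h5
    exact ⟨q, m, by omega, h3, h4, h5⟩
  · rintro ⟨q, m, h2, h3, h4, h5⟩
    refine ⟨by omega, q, m, by omega, h3, h4, ?_⟩
    rw [enm1, enm0]
    exact h5

private theorem clo_iff {M : SM K' Γ'} {r : ℕ → ℕ → Prop} {κ μ : ℕ → ℕ}
    (T : TLine M K'.main Γ'.cons (enm r) κ μ) (v : Option ℕ) (k : ℕ) :
    Clo M K'.main Γ'.cons v k = true ↔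
      ∃ q m, k = κ q ∧ v = some m ∧ m ≤ q ∧ eJ r q = m + 1 := by
  unfold Clo
  rw [Bool.and_eq_true, decide_eq_true_eq, T.acc]
  constructor
  · rintro ⟨h1, q, m, h2, h3, h4, h5⟩
    rw [enm2, enm0] at h5
    exact ⟨q, m, by omega, h3, h4, h5⟩
  · rintro ⟨q, m, h2, h3, h4, h5⟩
    have h6 := T.one q
    refine ⟨by omega, q, m, by omega, h3, h4, ?_⟩
    rw [enm2, enm0]
    exact h5

private theorem chd_eq {M : SM K' Γ'} {r : ℕ → ℕ → Prop} {κ μ : ℕ → ℕ}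
    (T : TLine M K'.main Γ'.cons (enm r) κ μ) (q : ℕ) :
    chd M K'.main Γ'.cons (enm r) (2 * κ q + 1) = eJ r q - 1 := by
  unfold chd
  rw [show 2 * κ q + 1 - 1 = 2 * κ q by omega, T.nE, enm2]

theorem exists_tm {r : ℕ → ℕ → Prop} (hr : ComputablePred fun p : ℕ × ℕ => r p.1 p.2) :
    ∃ (M : SM K' Γ') (μ : ℕ → ℕ), Tm M K'.main Γ'.cons (enm r) r μ := by
  obtain ⟨M, hM⟩ := exists_prog (enm r) (enm_computable hr)
  obtain ⟨κ, μ, T⟩ := exists_tline hM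
  have hle : ∀ q, q ≤ κ q := fun q => T.mono.le_apply
  refine ⟨M, μ, ⟨?_, ?_, ?_, ?_, ?_, ?_, T.mu, T.ch, T.chOK, ?_⟩⟩
  · intro v k h
    obtain ⟨q, m, rfl, -, -, -⟩ := (lau_iff T v k).1 h
    have h1 := T.one q
    omega
  · intro v k h
    obtain ⟨q, m, rfl, -, -, hV⟩ := (lau_iff T v k).1 h
    obtain ⟨j, hJ, -, -, hj⟩ := eV_pos hV
    rw [clo_iff T, chd_eq T]
    exact ⟨q, eJ r q - 1, by omega, rfl, by omega, by omega⟩
  · intro v v' k h h'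
    obtain ⟨q, m, rfl, -, -, hV⟩ := (lau_iff T v k).1 h
    obtain ⟨q', m', hk, hv', -, hJ⟩ := (clo_iff T v' _).1 h'
    have hq : κ q = κ q' := by omega
    have hqq : q = q' := T.mono.injective hq
    subst hqq
    rw [chd_eq T, hJ, hv']
    rfl
  · intro v k h
    obtain ⟨q, m, rfl, hv, -, hV⟩ := (lau_iff T v k).1 h
    obtain ⟨j, hJ, hr', -, -⟩ := eV_pos hV
    refine ⟨m, hv, ?_⟩
    rw [chd_eq T, hJ]
    exact hr'
  · intro j m hjm N
    obtain ⟨q, hN, hV, hJ⟩ := enm_inf hjm N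
    obtain ⟨-, -, -, hm, -⟩ := eV_pos hV
    have h1 := hle q
    refine ⟨2 * κ q + 1, by omega, ?_, ?_⟩
    · rw [lau_iff T]
      exact ⟨q, m, rfl, rfl, hm, hV⟩
    · rw [chd_eq T, hJ]
      rfl
  · intro N
    refine ⟨κ ((N + 2) ^ 2), ?_⟩
    intro k hk j v v' hr' hL hc hj hv
    obtain ⟨Q, m, hQ, hm, hmQ, hV⟩ := (lau_iff T _ _).1 hL
    obtain rfl := Option.some.inj hm
    have hkQ : k = κ Q := by omega
    subst hkQ
    rw [chd_eq T] at hc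
    obtain ⟨j', hJ', -, -, -⟩ := eV_pos hV
    have hJ : eJ r Q = v + 1 := by omega
    have hQN : (N + 2) ^ 2 ≤ Q := T.mono.le_iff_le.1 hk
    obtain ⟨q, hNq, hqQ, hVq, hJq⟩ := enm_chain N Q hQN j v v' hr' hJ hV hj hv
    obtain ⟨-, -, -, hvq, -⟩ := eV_pos hVq
    have h1 := hle q
    have h2 := T.dbl q
    have h3 : κ (q + 1) ≤ κ Q := T.mono.monotone hqQ
    refine ⟨2 * κ q + 1, by omega, by omega, ?_, ?_⟩
    · rw [lau_iff T]
      exact ⟨q, v, rfl, rfl, hvq, hVq⟩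
    · rw [chd_eq T, hJq]
      rfl
  · intro m k h
    obtain ⟨q, m', rfl, hm, hmq, -⟩ := (clo_iff T _ _).1 h
    obtain rfl := Option.some.inj hm
    exact T.muk m q hmq

end H96.CK
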