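import Pool.Agent.H96.CK.LaneA
import Pool.Agent.H96.CK.LaneB
import Pool.Agent.H96.CK.TimC

/-!
# Module LaneC2 (250 lines; here hw_rule): the labels `hlab`, `wlab` obey the rules

Put `i = Nat.log 3 d`, `ε = d - 3 ^ i`, `κ = i / 2`. Strong induction on `d` for all codes `v`. Useful first:
`log 3 (3 ^ i - 1) = i - 1` (`i ≥ 1`) and for `t < (i - 1) / 2`: `hlab v (3 ^ i - 1) t = blank` and
`wlab v (3 ^ i - 1) 0 ≠ P`, because `3 ^ i - 1 - 3 ^ (i-1) = 2 * 3 ^ (i-1) - 1 ≥ 3 ^ ((i-1)/2)`, equality only if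
`i = 1` (and then `Lau v 0 = false`).
`hw_pass` (`j < t`): `d = 3 ^ i` (`j = i`): both sides blank. `d > 3 ^ i`: `log (d - 1) = i`; `t > i`: blank;
`κ ≤ t ≤ i`: the same label; `t < κ`: launched and `ε < 3 ^ κ`: induction for `ε` (same level `j`), `ε = 3 ^ κ` is
excluded since then `j = κ > t`; otherwise both blank. Wires similar.
`hw_base`: cases as above; `wlab v 0 0 = P`, `wlab v 1 0 = I0`; `d = 3 ^ i + 1` launched: `wlab _ 1 0 = I0` and
`wlab v (3 ^ i) 0 = P`.
`hw_rule` (`t ≤ j`, `dA = d / 3 ^ j % 3`, `dB` satisfies `odd` and `three`):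
 * `d = 3 ^ i`, `i = 0`: `I0` cell. `i ≥ 1`, `b = (i-1)/2`: `t = i`: `(V, blank)` by `newT_top`, `next_top`;
   `b < t < i`: `(V, V)` by `info_succ`, `newA_mid`; left label `F` if `t = i - 1`, else `A`; `t = b`:
   `(P or blank, V)` by `info_bot`, `newA_bot` (`i` odd) or the lane dies (`i` even, then `Lau v i = false`
   by `lau_odd`); `t < b`: `(P, P)` or `(blank, blank)`, all lanes blank.
 * `d > 3 ^ i`, not launched: wires blank, lanes equal; `sB < 0` means `t < j / 2 ≤ κ`: blank; label `F` only for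
   `t = i = j`, `d = 2 * 3 ^ i`, `dA = 2`.
 * launched (`i` odd, `κ ≥ 1`): `ε < 3 ^ κ`: then `j < κ` and the rule for `(child, ε)`; `ε = 3 ^ κ`: `T` column of level
   `κ`, digit 1: `t = κ`: `(T, blank)`, lane `κ` has label `A`; `(κ-1)/2 < t < κ`: `(T, T)`; `t = (κ-1)/2`: `(blank, T)`;
   lower: blank; the left lanes are those of the child at `3 ^ κ - 1` (`lau_clo` gives `acc` for the lane
   `κ - 1`); `ε > 3 ^ κ`: wires blank, lanes `t < κ` blank, lanes `t ≥ κ` pass.
`lane_ok`: for `x < 0` everything is blank; `x = 0` has infinite level for `c = 0`: `(P, P)`, `dA = 1`, `dB = 3`.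
For `x > 0` the level of `x` is the exponent of 3, `dgA`, `dgB` by `colOk_dg`, `odd_iff`, `three_iff`, `dA_delta`.
-/

namespace H96.CK

variable {K G : Type} [DecidableEq G] {M : SM K G} {mn : K} {cs : G} {e : ℕ → ℕ}
  {r : ℕ → ℕ → Prop} {μ : ℕ → ℕ}

private lemma log_add {i ε : ℕ} (h : ε < 2 * 3 ^ i) : Nat.log 3 (3 ^ i + ε) = i := by
  have hp : 0 < 3 ^ i := by positivity
  rw [Nat.log_eq_iff (Or.inr ⟨by norm_num, by omega⟩)]
  constructor
  · omega
  · rw [pow_succ]; omega

private lemma h_zero (v : Option ℕ) (t : ℕ) : hlab M mn cs e v 0 t = .blank := by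
  rw [hlab, dif_pos rfl]

private lemma h_eq (v : Option ℕ) {d i : ℕ} (t : ℕ) (hd : d ≠ 0) (hi : Nat.log 3 d = i) :
    hlab M mn cs e v d t = if i < t then .blank
      else if i / 2 ≤ t then
        (if t = i then .F ((tl M mn cs v i).lam i t) (tl M mn cs v i).st
          else .A ((tl M mn cs v i).lam i t))
      else if Lau M mn cs v i = true ∧ d - 3 ^ i < 3 ^ (i / 2) then
        hlab M mn cs e (some (chd M mn cs e i)) (d - 3 ^ i) t
      else .blank := by
  rw [hlab, dif_neg hd, hi]

private lemma h_hi (v : Option ℕ) {i ε t : ℕ} (h : ε < 2 * 3 ^ i) (ht : i < t) :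
    hlab M mn cs e v (3 ^ i + ε) t = .blank := by
  have hp : 0 < 3 ^ i := by positivity
  rw [h_eq v t (by omega) (log_add h), if_pos ht]

private lemma h_top (v : Option ℕ) {i ε : ℕ} (h : ε < 2 * 3 ^ i) :
    hlab M mn cs e v (3 ^ i + ε) i = .F ((tl M mn cs v i).lam i i) (tl M mn cs v i).st := by
  have hp : 0 < 3 ^ i := by positivity
  rw [h_eq v i (by omega) (log_add h), if_neg (lt_irrefl _), if_pos (Nat.div_le_self _ _), if_pos rfl]

private lemma h_mid (v : Option ℕ) {i ε t : ℕ} (h : ε < 2 * 3 ^ i) (h1 : i / 2 ≤ t) (h2 : t < i) :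
    hlab M mn cs e v (3 ^ i + ε) t = .A ((tl M mn cs v i).lam i t) := by
  have hp : 0 < 3 ^ i := by positivity
  rw [h_eq v t (by omega) (log_add h), if_neg (by omega), if_pos h1, if_neg (by omega)]

private lemma h_low1 (v : Option ℕ) {i ε t : ℕ} (h : ε < 3 ^ (i / 2)) (h1 : t < i / 2)
    (hL : Lau M mn cs v i = true) :
    hlab M mn cs e v (3 ^ i + ε) t = hlab M mn cs e (some (chd M mn cs e i)) ε t := by
  have hp : 0 < 3 ^ i := by positivity
  have hq : 3 ^ (i / 2) ≤ 3 ^ i := Nat.pow_le_pow_right (by norm_num) (Nat.div_le_self _ _)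
  rw [h_eq v t (by omega) (log_add (by omega)), if_neg (by omega), if_neg (by omega), if_pos ⟨hL, by omega⟩,
    Nat.add_sub_cancel_left]

private lemma h_low2 (v : Option ℕ) {i ε t : ℕ} (h : ε < 2 * 3 ^ i) (h1 : t < i / 2)
    (hL : ¬ (Lau M mn cs v i = true ∧ ε < 3 ^ (i / 2))) :
    hlab M mn cs e v (3 ^ i + ε) t = .blank := by
  have hp : 0 < 3 ^ i := by positivity
  rw [h_eq v t (by omega) (log_add h), if_neg (by omega), if_neg (by omega), Nat.add_sub_cancel_left,
    if_neg hL]

/-- the column `3 ^ i` itself: low lanes are dead -/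
private lemma h_low0 (v : Option ℕ) {i t : ℕ} (h1 : t < i / 2) :
    hlab M mn cs e v (3 ^ i) t = .blank := by
  have hp : 0 < 3 ^ i := by positivity
  by_cases hL : Lau M mn cs v i = true
  · have := h_low1 (e := e) v (i := i) (ε := 0) (t := t) (by positivity) h1 hL
    rw [Nat.add_zero] at this
    rw [this, h_zero]
  · have := h_low2 (e := e) v (i := i) (ε := 0) (t := t) (by omega) h1 (fun h => hL h.1)
    rwa [Nat.add_zero] at this

private lemma pred_pow {i : ℕ} (hi : 1 ≤ i) : 3 ^ i - 1 = 3 ^ (i - 1) + (2 * 3 ^ (i - 1) - 1) := by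
  obtain ⟨k, rfl⟩ : ∃ k, i = k + 1 := ⟨i - 1, by omega⟩
  have hp : 0 < 3 ^ k := by positivity
  rw [Nat.add_sub_cancel, pow_succ]
  omega

private lemma l_hi (v : Option ℕ) {i t : ℕ} (ht : i ≤ t) :
    hlab M mn cs e v (3 ^ i - 1) t = .blank := by
  rcases Nat.eq_zero_or_pos i with rfl | hi
  · exact h_zero v t
  · have hp : 0 < 3 ^ (i - 1) := by positivity
    rw [pred_pow hi]
    exact h_hi v (by omega) (by omega)

private lemma l_top (v : Option ℕ) {i : ℕ} (hi : 1 ≤ i) :
    hlab M mn cs e v (3 ^ i - 1) (i - 1) =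
      .F ((tl M mn cs v (i - 1)).lam (i - 1) (i - 1)) (tl M mn cs v (i - 1)).st := by
  have hp : 0 < 3 ^ (i - 1) := by positivity
  rw [pred_pow hi]
  exact h_top v (by omega)

private lemma l_mid (v : Option ℕ) {i t : ℕ} (h1 : (i - 1) / 2 ≤ t) (h2 : t < i - 1) :
    hlab M mn cs e v (3 ^ i - 1) t = .A ((tl M mn cs v (i - 1)).lam (i - 1) t) := by
  have hp : 0 < 3 ^ (i - 1) := by positivity
  rw [pred_pow (by omega)]
  exact h_mid v (by omega) h1 h2

private lemma l_low (v : Option ℕ) {i t : ℕ} (h1 : t < (i - 1) / 2) :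
    hlab M mn cs e v (3 ^ i - 1) t = .blank := by
  have hp : 0 < 3 ^ (i - 1) := by positivity
  have hq : 3 ^ ((i - 1) / 2) ≤ 3 ^ (i - 1) := Nat.pow_le_pow_right (by norm_num) (Nat.div_le_self _ _)
  rw [pred_pow (by omega)]
  exact h_low2 v (by omega) h1 (fun h => by omega)

private lemma w_eq (v : Option ℕ) {i : ℕ} (t : ℕ) :
    wlab M mn cs e v (3 ^ i) t = if i < t then .blank
      else if i = 0 then .I0
      else if (i - 1) / 2 < t then .V (glob M mn cs v i) (info M mn cs v i t)
      else if Lau M mn cs v i = true then .P else .blank := by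
  have hp : 0 < 3 ^ i := by positivity
  have hl : Nat.log 3 (3 ^ i) = i := Nat.log_pow (by norm_num) i
  rw [wlab, dif_neg (by omega), hl, if_pos rfl]

private lemma w_ne (v : Option ℕ) {i ε : ℕ} (t : ℕ) (h0 : 0 < ε) (h : ε < 2 * 3 ^ i) :
    wlab M mn cs e v (3 ^ i + ε) t = if Lau M mn cs v i = true then
      (if ε < 3 ^ (i / 2) then wlab M mn cs e (some (chd M mn cs e i)) ε t
      else if ε = 3 ^ (i / 2) then
        (if (i / 2 - 1) / 2 < t ∧ t ≤ i / 2 then .T else .blank)
      else .blank)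
    else .blank := by
  have hp : 0 < 3 ^ i := by positivity
  rw [wlab, dif_neg (by omega), log_add h, if_neg (by omega), Nat.add_sub_cancel_left]

private lemma cl_neg {z : ℤ} (h : z < 0) : cl z < 0 := by unfold cl; omega
private lemma cl_m1 {z : ℤ} : cl z = -1 ↔ z = -1 := by unfold cl; omega
private lemma cl_m2 {z : ℤ} (h : z ≤ -2) : cl z = -2 := by unfold cl; omega
private lemma cl_lt {z : ℤ} : cl z < 0 ↔ z < 0 := by unfold cl; omega

private lemma cl_self (j : ℕ) : cl ((j : ℤ) - j) = 0 := by unfold cl; omega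

private lemma bot_of {j dB : ℕ} (hj : 1 ≤ j) (hB : 3 ∣ dB ↔ j % 2 = 1) {t : ℕ} (ht : t = (j - 1) / 2) :
    Bot (cl (t - j)) (cl (t - (j / 2 : ℕ))) dB := by
  refine ⟨by unfold cl; omega, ?_⟩
  by_cases h : j % 2 = 1
  · exact Or.inr ⟨by unfold cl; omega, hB.2 h⟩
  · exact Or.inl ⟨by unfold cl; omega, fun h' => h (hB.1 h')⟩

private lemma mid_of {j dB : ℕ} (hB : 3 ∣ dB ↔ j % 2 = 1) {t : ℕ} (h1 : (j - 1) / 2 < t) (h2 : t < j) :
    Mid (cl (t - j)) (cl (t - (j / 2 : ℕ))) dB := by
  refine ⟨by unfold cl; omega, ?_⟩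
  by_cases h : j % 2 = 1
  · exact Or.inr ⟨by unfold cl; omega, hB.2 h⟩
  · exact Or.inl ⟨by unfold cl; omega, fun h' => h (hB.1 h')⟩

/-- the column `3 ^ i` -/
private lemma rule_pow (hT : Tm M mn cs e r μ) (v : Option ℕ) {i t dB : ℕ} (ht : t ≤ i)
    (hB : 3 ∣ dB ↔ i % 2 = 1) (hB3 : i % 2 = 1 → dB = 3) :
    LRule M mn cs (cl (t - i)) (cl (t - (i / 2 : ℕ))) 1 dB
      (hlab M mn cs e v (3 ^ i - 1) t) (hlab M mn cs e v (3 ^ i) t) (wlab M mn cs e v (3 ^ i) t)
      (wlab M mn cs e v (3 ^ i) (t + 1)) := by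
  have hp : 0 < 3 ^ i := by positivity
  rcases Nat.eq_zero_or_pos i with rfl | hi
  · obtain rfl : t = 0 := by omega
    have h1 : hlab M mn cs e v (3 ^ 0 - 1) 0 = .blank := h_zero v 0
    have h2 : hlab M mn cs e v (3 ^ 0) 0 = .F ((tl M mn cs v 0).lam 0 0) (tl M mn cs v 0).st :=
      h_top v (i := 0) (ε := 0) (by norm_num)
    have h3 : wlab M mn cs e v (3 ^ 0) 0 = .I0 := by rw [w_eq, if_neg (by omega), if_pos rfl]
    have h4 : wlab M mn cs e v (3 ^ 0) (0 + 1) = .blank := by rw [w_eq, if_pos (by omega)]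
    rw [h1, h2, h3, h4]
    exact ⟨cl_self 0, rfl, rfl, rfl⟩
  have hL : Lau M mn cs v i = (glob M mn cs v i).st.lch := by
    unfold Lau glob
    rw [decide_eq_true (show 1 ≤ i from hi), Bool.true_and]
  have hleft : ∀ t, (i - 1) / 2 ≤ t → t < i → LeftV (cl (t - i)) (hlab M mn cs e v (3 ^ i - 1) t)
      ((tl M mn cs v (i - 1)).lam (i - 1) t) (glob M mn cs v i) := by
    intro t h1 h2
    rcases Nat.lt_or_ge t (i - 1) with h | h
    · exact Or.inl ⟨cl_m2 (by omega), l_mid v h1 h⟩
    · obtain rfl : t = i - 1 := by omega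
      exact Or.inr ⟨cl_m1.2 (by omega), l_top v hi, rfl⟩
  have wV : ∀ t, (i - 1) / 2 < t → t ≤ i →
      wlab M mn cs e v (3 ^ i) t = .V (glob M mn cs v i) (info M mn cs v i t) := by
    intro t h1 h2
    rw [w_eq, if_neg (by omega), if_neg (by omega), if_pos h1]
  have wP : ∀ t, t ≤ (i - 1) / 2 → Lau M mn cs v i = true → wlab M mn cs e v (3 ^ i) t = .P := by
    intro t h1 h2
    rw [w_eq, if_neg (by omega), if_neg (by omega), if_neg (by omega), if_pos h2]
  have wN : ∀ t, t ≤ (i - 1) / 2 → ¬ Lau M mn cs v i = true →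
      wlab M mn cs e v (3 ^ i) t = .blank := by
    intro t h1 h2
    rw [w_eq, if_neg (by omega), if_neg (by omega), if_neg (by omega), if_neg h2]
  rcases lt_trichotomy t ((i - 1) / 2) with h | h | h
  · -- below the boundary
    have hl : hlab M mn cs e v (3 ^ i - 1) t = .blank := l_low v h
    have hr : hlab M mn cs e v (3 ^ i) t = .blank := h_low0 v (by omega)
    rw [hl, hr]
    by_cases hLa : Lau M mn cs v i = true
    · rw [wP t (by omega) hLa, wP (t + 1) (by omega) hLa]
      exact ⟨cl_lt.2 (by omega), cl_lt.2 (by omega), rfl, hB3 (hT.lau_odd v i hLa).1, rfl, rfl⟩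
    · rw [wN t (by omega) hLa, wN (t + 1) (by omega) hLa]
      exact ⟨rfl, fun _ => rfl, fun l s hs => by cases hs⟩
  · -- the lowest cell
    have hcell : VCell M mn cs (cl (t - i)) (decide (cl ((t : ℤ) - (i / 2 : ℕ)) = -1))
        (hlab M mn cs e v (3 ^ i - 1) t) (hlab M mn cs e v (3 ^ i) t) (glob M mn cs v i)
        (Info.ini K G) (info M mn cs v i (t + 1)) := by
      have hd : decide (cl ((t : ℤ) - (i / 2 : ℕ)) = -1) = decide (i % 2 = 0) := by
        apply decide_eq_decide.2
        rw [cl_m1]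
        omega
      refine ⟨(tl M mn cs v (i - 1)).lam (i - 1) t, hleft t (by omega) (by omega), ?_, ?_⟩
      · rw [hd, h]
        exact info_bot v hi
      · rw [hd]
        by_cases ho : i % 2 = 1
        · rw [if_neg (by rw [decide_eq_true_iff]; omega)]
          have hr : hlab M mn cs e v (3 ^ i) t = .A ((tl M mn cs v i).lam i t) := by
            have := h_mid (M := M) (mn := mn) (cs := cs) (e := e) v (i := i) (ε := 0) (t := t)
              (by omega) (by omega) (by omega)
            rwa [Nat.add_zero] at this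
          rw [hr, h]
          exact congrArg HL.A (newA_bot v ho).symm
        · rw [if_pos (by rw [decide_eq_true_iff]; omega)]
          exact h_low0 v (by omega)
    by_cases hLa : Lau M mn cs v i = true
    · rw [wP t (by omega) hLa, wV (t + 1) (by omega) (by omega)]
      exact ⟨bot_of hi hB h, rfl, hB3 (hT.lau_odd v i hLa).1, glob_ch v i, hL ▸ hLa, hcell⟩
    · rw [wN t (by omega) hLa, wV (t + 1) (by omega) (by omega)]
      refine ⟨bot_of hi hB h, rfl, glob_ch v i, ?_, hcell⟩
      rw [← hL]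
      simpa using hLa
  · rcases Nat.lt_or_ge t i with h' | h'
    · -- a middle cell
      rw [wV t h h'.le, wV (t + 1) (by omega) (by omega)]
      refine ⟨mid_of hB h h', rfl, rfl, (tl M mn cs v (i - 1)).lam (i - 1) t,
        hleft t (by omega) h', info_succ v h h', ?_⟩
      have hr : hlab M mn cs e v (3 ^ i) t = .A ((tl M mn cs v i).lam i t) := by
        have := h_mid (M := M) (mn := mn) (cs := cs) (e := e) v (i := i) (ε := 0) (t := t)
          (by omega) (by omega) h'
        rwa [Nat.add_zero] at this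
      rw [hr, newA_mid v h h']
      rfl
    · -- the top cell
      obtain rfl : t = i := by omega
      have hw : wlab M mn cs e v (3 ^ t) (t + 1) = .blank := by rw [w_eq, if_pos (by omega)]
      have hl : hlab M mn cs e v (3 ^ t - 1) t = .blank := l_hi v le_rfl
      have hr : hlab M mn cs e v (3 ^ t) t = .F ((tl M mn cs v t).lam t t) (tl M mn cs v t).st := by
        have := h_top (M := M) (mn := mn) (cs := cs) (e := e) v (i := t) (ε := 0) (by omega)
        rwa [Nat.add_zero] at this
      rw [wV t h le_rfl, hw, hl, hr]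
      refine ⟨cl_self t, rfl, rfl, ?_⟩
      rw [newT_top v hi, next_top v hi]

theorem hw_rule (hT : Tm M mn cs e r μ) (v : Option ℕ) {d j t dB : ℕ} (h0 : 0 < d)
    (h1 : 3 ^ j ∣ d) (h2 : ¬ 3 ^ (j + 1) ∣ d) (ht : t ≤ j) (hB : 3 ∣ dB ↔ j % 2 = 1)
    (hB3 : dB = 3 ↔ j % 2 = 1 ∧ d / 3 ^ j % 3 = 1) :
    LRule M mn cs (cl (t - j)) (cl (t - (j / 2 : ℕ))) (d / 3 ^ j % 3) dB
      (hlab M mn cs e v (d - 1) t) (hlab M mn cs e v d t) (wlab M mn cs e v d t)
      (wlab M mn cs e v d (t + 1)) := by
  induction d using Nat.strong_induction_on generalizing v j t dB with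
  | _ d ih =>
    obtain ⟨i, ε, hε, rfl⟩ : ∃ i ε, ε < 2 * 3 ^ i ∧ d = 3 ^ i + ε := by
      refine ⟨Nat.log 3 d, d - 3 ^ Nat.log 3 d, ?_, ?_⟩
      · have ha := Nat.pow_log_le_self 3 h0.ne'
        have hb := Nat.lt_pow_succ_log_self (b := 3) (by norm_num) d
        rw [pow_succ] at hb
        omega
      · have ha := Nat.pow_log_le_self 3 h0.ne'
        omega
    have hp : 0 < 3 ^ i := by positivity
    have hji : j ≤ i := by
      by_contra hc
      have ha := Nat.le_of_dvd h0 h1
      have hb : 3 ^ (i + 1) ≤ 3 ^ j := Nat.pow_le_pow_right (by norm_num) (by omega)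
      rw [pow_succ] at hb
      omega
    rcases Nat.eq_zero_or_pos ε with rfl | hε0
    · -- the special column
      rw [Nat.add_zero] at h1 h2 hB3 ⊢
      obtain rfl : j = i := by
        by_contra hc
        exact h2 (Nat.pow_dvd_pow 3 (by omega))
      have hd : 3 ^ j / 3 ^ j % 3 = 1 := by rw [Nat.div_self hp]
      rw [hd] at hB3 ⊢
      exact rule_pow hT v ht hB (fun h => hB3.2 ⟨h, rfl⟩)
    · have hpred : 3 ^ i + ε - 1 = 3 ^ i + (ε - 1) := by omega
      -- digit 2 at the own level of the top lane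
      have htwo : j = i → (3 ^ i + ε) / 3 ^ j % 3 = 2 := by
        intro hj
        subst hj
        have hdv : 3 ^ j ∣ ε := (Nat.dvd_add_right (dvd_refl _)).1 h1
        obtain ⟨w, rfl⟩ := hdv
        have hw0 : w ≠ 0 := by rintro rfl; simp at hε0
        have hw2 : w < 2 := by
          by_contra hc
          have : 3 ^ j * 2 ≤ 3 ^ j * w := Nat.mul_le_mul_left _ (by omega)
          omega
        obtain rfl : w = 1 := by omega
        rw [show 3 ^ j + 3 ^ j * 1 = 3 ^ j * 2 by ring, Nat.mul_div_cancel_left _ hp]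
      -- columns without wire where all lanes pass
      have hpass : (t < i / 2 → hlab M mn cs e v (3 ^ i + ε - 1) t = .blank ∧
            hlab M mn cs e v (3 ^ i + ε) t = .blank) →
          wlab M mn cs e v (3 ^ i + ε) t = .blank →
          wlab M mn cs e v (3 ^ i + ε) (t + 1) = .blank →
          LRule M mn cs (cl (t - j)) (cl (t - (j / 2 : ℕ))) ((3 ^ i + ε) / 3 ^ j % 3) dB
            (hlab M mn cs e v (3 ^ i + ε - 1) t) (hlab M mn cs e v (3 ^ i + ε) t)
            (wlab M mn cs e v (3 ^ i + ε) t) (wlab M mn cs e v (3 ^ i + ε) (t + 1)) := by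
        intro hlow hw1 hw2
        rw [hw1, hw2]
        rcases lt_trichotomy t i with hti | hti | hti
        · by_cases hk : t < i / 2
          · rw [(hlow hk).1, (hlow hk).2]
            exact ⟨rfl, fun _ => rfl, fun l s hs => by cases hs⟩
          · rw [hpred, h_mid v (by omega) (by omega) hti, h_mid v hε (by omega) hti]
            refine ⟨rfl, fun hs => ?_, fun l s hs => by cases hs⟩
            exfalso
            rw [cl_lt] at hs
            omega
        · obtain rfl : j = i := by omega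
          subst hti
          rw [hpred, h_top v (by omega), h_top v hε]
          refine ⟨rfl, fun hs => ?_, fun l s _ => ⟨cl_self _, htwo rfl⟩⟩
          exfalso
          rw [cl_lt] at hs
          omega
        · exact absurd hti (by omega)
      by_cases hLa : Lau M mn cs v i = true
      · obtain ⟨hodd, hi3⟩ := hT.lau_odd v i hLa
        have hκ : 1 ≤ i / 2 := by omega
        have hκi : 3 ^ (i / 2) ≤ 3 ^ i := Nat.pow_le_pow_right (by norm_num) (Nat.div_le_self _ _)
        rcases lt_trichotomy ε (3 ^ (i / 2)) with hc | hc | hc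
        · -- inside the patch
          have hjk : j < i / 2 := by
            by_contra hcc
            have ha : 3 ^ (i / 2) ∣ 3 ^ i + ε := (Nat.pow_dvd_pow 3 (by omega)).trans h1
            have hb : 3 ^ (i / 2) ∣ ε :=
              (Nat.dvd_add_right (Nat.pow_dvd_pow 3 (Nat.div_le_self _ _))).1 ha
            exact absurd (Nat.le_of_dvd hε0 hb) (by omega)
          have hd1 : 3 ^ (j + 1) ∣ 3 ^ i := Nat.pow_dvd_pow 3 (by omega)
          have h1' : 3 ^ j ∣ ε := (Nat.dvd_add_right (Nat.pow_dvd_pow 3 (by omega))).1 h1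
          have h2' : ¬ 3 ^ (j + 1) ∣ ε := fun h => h2 ((Nat.dvd_add_right hd1).2 h)
          have hdig : (3 ^ i + ε) / 3 ^ j % 3 = ε / 3 ^ j % 3 := by
            obtain ⟨w, hw⟩ := hd1
            rw [hw, pow_succ, show 3 ^ j * 3 * w + ε = ε + 3 ^ j * (3 * w) by ring,
              Nat.add_mul_div_left _ _ (by positivity), Nat.add_mul_mod_self_left]
          rw [hdig] at hB3 ⊢
          rw [hpred, h_low1 v (show ε - 1 < 3 ^ (i / 2) by omega) (by omega) hLa,
            h_low1 v hc (by omega) hLa, w_ne v t hε0 hε, if_pos hLa, if_pos hc,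
            w_ne v (t + 1) hε0 hε, if_pos hLa, if_pos hc]
          exact ih ε (by omega) _ hε0 h1' h2' ht hB hB3
        · -- the right boundary of the patch
          subst hc
          obtain rfl : j = i / 2 := by
            have ha : 3 ^ (i / 2) ∣ 3 ^ i + 3 ^ (i / 2) :=
              Nat.dvd_add (Nat.pow_dvd_pow 3 (Nat.div_le_self _ _)) (dvd_refl _)
            rcases lt_trichotomy j (i / 2) with h | h | h
            · exact absurd ((Nat.pow_dvd_pow 3 (by omega)).trans ha) h2
            · exact h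
            · exfalso
              have hb : 3 ^ (i / 2 + 1) ∣ 3 ^ i + 3 ^ (i / 2) := (Nat.pow_dvd_pow 3 (by omega)).trans h1
              have hc : 3 ^ (i / 2 + 1) ∣ 3 ^ (i / 2) :=
                (Nat.dvd_add_right (Nat.pow_dvd_pow 3 (by omega))).1 hb
              have := Nat.le_of_dvd (by positivity) hc
              rw [pow_succ] at this
              have : 0 < 3 ^ (i / 2) := by positivity
              omega
          have hdig : (3 ^ i + 3 ^ (i / 2)) / 3 ^ (i / 2) % 3 = 1 := by
            obtain ⟨w, hw⟩ : 3 ^ (i / 2 + 1) ∣ 3 ^ i := Nat.pow_dvd_pow 3 (by omega)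
            have hq : 0 < 3 ^ (i / 2) := by positivity
            rw [hw, pow_succ, show 3 ^ (i / 2) * 3 * w + 3 ^ (i / 2) = 3 ^ (i / 2) * (1 + 3 * w) by ring,
              Nat.mul_div_cancel_left _ hq, Nat.add_mul_mod_self_left]
          rw [hdig]
          have hacc : (tl M mn cs (some (chd M mn cs e i)) (i / 2 - 1)).st.acc = true := by
            have := hT.lau_clo v i hLa
            unfold Clo at this
            rw [Bool.and_eq_true] at this
            exact this.2
          have hwt : ∀ s, wlab M mn cs e v (3 ^ i + 3 ^ (i / 2)) s =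
              if (i / 2 - 1) / 2 < s ∧ s ≤ i / 2 then .T else .blank := by
            intro s
            rw [w_ne v s hε0 hε, if_pos hLa, if_neg (lt_irrefl _), if_pos rfl]
          have hleft : ∀ s, s < i / 2 → hlab M mn cs e v (3 ^ i + 3 ^ (i / 2) - 1) s =
              hlab M mn cs e (some (chd M mn cs e i)) (3 ^ (i / 2) - 1) s := by
            intro s hs
            rw [hpred, h_low1 v (by omega) hs hLa]
          have hright : ∀ s, s < i / 2 → hlab M mn cs e v (3 ^ i + 3 ^ (i / 2)) s = .blank := by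
            intro s hs
            exact h_low2 v hε hs (fun h => absurd h.2 (lt_irrefl _))
          have hcell : ∀ s, (i / 2 - 1) / 2 ≤ s → s < i / 2 →
              TCell (cl ((s : ℤ) - (i / 2 : ℕ))) (hlab M mn cs e v (3 ^ i + 3 ^ (i / 2) - 1) s)
                (hlab M mn cs e v (3 ^ i + 3 ^ (i / 2)) s) := by
            intro s hs1 hs2
            refine ⟨?_, hright s hs2⟩
            rw [hleft s hs2]
            rcases Nat.lt_or_ge s (i / 2 - 1) with h | h
            · exact Or.inl ⟨_, cl_m2 (by omega), l_mid _ hs1 h⟩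
            · obtain rfl : s = i / 2 - 1 := by omega
              exact Or.inr ⟨_, _, cl_m1.2 (by omega), l_top _ hκ, hacc⟩
          rcases lt_trichotomy t ((i / 2 - 1) / 2) with h | h | h
          · rw [hwt, hwt, if_neg (by omega), if_neg (by omega), hleft t (by omega), hright t (by omega),
              l_low _ h]
            exact ⟨rfl, fun _ => rfl, fun l s hs => by cases hs⟩
          · rw [hwt, hwt, if_neg (by omega), if_pos (by omega)]
            exact ⟨bot_of hκ hB h, rfl, hcell t (by omega) (by omega)⟩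
          · rcases Nat.lt_or_ge t (i / 2) with h' | h'
            · rw [hwt, hwt, if_pos (by omega), if_pos (by omega)]
              exact ⟨mid_of hB h h', rfl, hcell t (by omega) h'⟩
            · obtain rfl : t = i / 2 := by omega
              rw [hwt, hwt, if_pos (by omega), if_neg (by omega), hpred,
                h_mid v (by omega) le_rfl (by omega), h_mid v hε le_rfl (by omega)]
              exact ⟨cl_self _, rfl, rfl, _, rfl⟩
        · -- right of the patch
          refine hpass (fun hk => ⟨?_, ?_⟩) ?_ ?_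
          · rw [hpred]
            exact h_low2 v (by omega) hk (fun h => by omega)
          · exact h_low2 v hε hk (fun h => by omega)
          · rw [w_ne v t hε0 hε, if_pos hLa, if_neg (by omega), if_neg (by omega)]
          · rw [w_ne v (t + 1) hε0 hε, if_pos hLa, if_neg (by omega), if_neg (by omega)]
      · refine hpass (fun hk => ⟨?_, ?_⟩) ?_ ?_
        · rw [hpred]
          exact h_low2 v (by omega) hk (fun h => hLa h.1)
        · exact h_low2 v hε hk (fun h => hLa h.1)
        · rw [w_ne v t hε0 hε, if_neg hLa]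
        · rw [w_ne v (t + 1) hε0 hε, if_neg hLa]

end H96.CK
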