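import Pool.Agent.H96.CK.LaneC1
import Pool.Agent.H96.CK.LaneC2

/-!
# Module LaneC3 (100 lines; here lane_ok): the labels `hlab`, `wlab` obey the rules

Put `i = Nat.log 3 d`, `ε = d - 3 ^ i`, `κ = i / 2`. Strong induction on `d` for all codes `v`. Useful first:
`log 3 (3 ^ i - 1) = i - 1` (`i ≥ 1`) and for `t < (i - 1) / 2`: `hlab v (3 ^ i - 1) t = blank` and
`wlab v (3 ^ i - 1) 0 ≠ P`, because `3 ^ i - 1 - 3 ^ (i-1) = 2 * 3 ^ (i-1) - 1 ≥ 3 ^ ((i-1)/2)`, equality only if
`i = 1` (and then `Lau v 0 = false`).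
`hw_pass` (`j < t`): `d = 3 ^ i` (`j = i`): both sides blank. `d > 3 ^ i`: `log (d - 1) = i`; `t > i`: blank;
`κ ≤ t ≤ i`: the same label; `t < κ`: launched and `ε < 3 ^ κ`: induction for `ε` (same level `j`), `ε = 3 ^ κ` is
excluded since then `j = κ > t`; otherwise both blank. Wires similar.
`hw_base`: cases as above; `wlab v 0 0 = P`, `wlab v 1 0 = I0`; `d = 3 ^ i + 1` launched: `wlab _ 1 0 = I0` and
`wlab v (3 ^ i) 0 = P`.
`hw_rule` (`t ≤ j`, `dA = d / 3 ^ j % 3`, `dB` satisfies `odd` and `three`):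
 * `d = 3 ^ i`, `i = 0`: `I0` cell. `i ≥ 1`, `b = (i-1)/2`: `t = i`: `(V, blank)` by `newT_top`, `next_top`;
   `b < t < i`: `(V, V)` by `info_succ`, `newA_mid`; left label `F` if `t = i - 1`, else `A`; `t = b`:
   `(P or blank, V)` by `info_bot`, `newA_bot` (`i` odd) or the lane dies (`i` even, then `Lau v i = false`
   by `lau_odd`); `t < b`: `(P, P)` or `(blank, blank)`, all lanes blank.
 * `d > 3 ^ i`, not launched: wires blank, lanes equal; `sB < 0` means `t < j / 2 ≤ κ`: blank; label `F` only for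
   `t = i = j`, `d = 2 * 3 ^ i`, `dA = 2`.
 * launched (`i` odd, `κ ≥ 1`): `ε < 3 ^ κ`: then `j < κ` and the rule for `(child, ε)`; `ε = 3 ^ κ`: `T` column of level
   `κ`, digit 1: `t = κ`: `(T, blank)`, lane `κ` has label `A`; `(κ-1)/2 < t < κ`: `(T, T)`; `t = (κ-1)/2`: `(blank, T)`;
   lower: blank; the left lanes are those of the child at `3 ^ κ - 1` (`lau_clo` gives `acc` for the lane
   `κ - 1`); `ε > 3 ^ κ`: wires blank, lanes `t < κ` blank, lanes `t ≥ κ` pass.
`lane_ok`: for `x < 0` everything is blank; `x = 0` has infinite level for `c = 0`: `(P, P)`, `dA = 1`, `dB = 3`.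
For `x > 0` the level of `x` is the exponent of 3, `dgA`, `dgB` by `colOk_dg`, `odd_iff`, `three_iff`, `dA_delta`.
-/

namespace H96.CK

variable {K G : Type} [DecidableEq G] {M : SM K G} {mn : K} {cs : G} {e : ℕ → ℕ}
  {r : ℕ → ℕ → Prop} {μ : ℕ → ℕ}

def Hx (M : SM K G) (mn : K) (cs : G) (e : ℕ → ℕ) (v : Option ℕ) (x : ℤ) (t : ℕ) : HL M :=
  if x < 0 then .blank else hlab M mn cs e v x.toNat t

def Wx (M : SM K G) (mn : K) (cs : G) (e : ℕ → ℕ) (v : Option ℕ) (x : ℤ) (t : ℕ) : WL M :=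
  if x < 0 then .blank else wlab M mn cs e v x.toNat t

private theorem hx_neg (v : Option ℕ) {x : ℤ} (hx : x < 0) (t : ℕ) :
    Hx M mn cs e v x t = .blank := by
  unfold Hx
  rw [if_pos hx]

private theorem wx_neg (v : Option ℕ) {x : ℤ} (hx : x < 0) (t : ℕ) :
    Wx M mn cs e v x t = .blank := by
  unfold Wx
  rw [if_pos hx]

private theorem hx_nat (v : Option ℕ) (d t : ℕ) : Hx M mn cs e v (d : ℤ) t = hlab M mn cs e v d t := by
  unfold Hx
  rw [if_neg (by omega), Int.toNat_natCast]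

private theorem wx_nat (v : Option ℕ) (d t : ℕ) : Wx M mn cs e v (d : ℤ) t = wlab M mn cs e v d t := by
  unfold Wx
  rw [if_neg (by omega), Int.toNat_natCast]

private theorem hlab_zero (v : Option ℕ) (t : ℕ) : hlab M mn cs e v 0 t = .blank := by
  rw [hlab]
  simp

private theorem wlab_zero (v : Option ℕ) (t : ℕ) : wlab M mn cs e v 0 t = .P := by
  rw [wlab]
  simp

private theorem coh0 : Coh 3 (fun _ => 0) := fun n => by simp

private theorem lv_nat {d i : ℕ} (h : IsLv 3 (fun _ => 0) (d : ℤ) i) : 3 ^ i ∣ d ∧ ¬ 3 ^ (i + 1) ∣ d := by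
  obtain ⟨h1, h2⟩ := h
  rw [sub_zero] at h1 h2
  refine ⟨by exact_mod_cast h1, fun h => h2 ?_⟩
  exact_mod_cast h

private theorem inf_zero {x : ℤ} (h : IsInf 3 (fun _ => 0) x) : x = 0 :=
  h.unique (by norm_num) fun n => by simp

private theorem zero_inf : IsInf 3 (fun _ => 0) 0 := fun n => by simp

private theorem int_cases (x : ℤ) : x < 0 ∨ x = 0 ∨ ∃ d : ℕ, 0 < d ∧ x = (d : ℤ) ∧ x - 1 = ((d - 1 : ℕ) : ℤ) := by
  rcases lt_trichotomy x 0 with h | h | h
  · exact Or.inl h
  · exact Or.inr (Or.inl h)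
  · refine Or.inr (Or.inr ⟨x.toNat, by omega, by omega, by omega⟩)

theorem lane_ok (hT : Tm M mn cs e r μ) (v : Option ℕ) :
    LaneOk M mn cs (fun _ => 0) (dgA fun _ => 0) (dgB fun _ => 0) (Hx M mn cs e v)
      (Wx M mn cs e v) := by
  have hcol := colOk_dg coh0
  refine ⟨?_, ?_, ?_, ?_, ?_⟩
  · intro x t i hx hit
    rcases int_cases x with h | h | ⟨d, hd, hxd, hxd'⟩
    · rw [hx_neg v h, hx_neg v (by omega), wx_neg v h]
      exact ⟨rfl, rfl⟩
    · subst h
      exact absurd zero_inf hx.not_inf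
    · rw [hxd'] 
      rw [hxd] at hx ⊢
      obtain ⟨h1, h2⟩ := lv_nat hx
      rw [hx_nat, hx_nat, wx_nat]
      exact hw_pass hT v hd h1 h2 hit
  · intro x t i hx hit
    rcases int_cases x with h | h | ⟨d, hd, hxd, hxd'⟩
    · rw [hx_neg v h, hx_neg v (by omega), wx_neg v h, wx_neg v h]
      refine ⟨rfl, fun _ => rfl, fun l s hl => ?_⟩
      cases hl
    · subst h
      exact absurd zero_inf hx.not_inf
    · rw [hxd'] 
      rw [hxd] at hx ⊢
      obtain ⟨h1, h2⟩ := lv_nat hx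
      have hA : dgA (fun _ => 0) (d : ℤ) = d / 3 ^ i % 3 := by
        have := hcol.dA_delta (X := 0) (n := i + 1) (d := d) (j := i) (by simp) (Nat.lt_succ_self i) h1 h2
        rwa [zero_add] at this
      rw [hx_nat, hx_nat, wx_nat, wx_nat, hA]
      refine hw_rule hT v hd h1 h2 hit (hcol.odd_iff hx) ?_
      rw [← hA]
      exact hcol.three_iff hx
  · intro x t hx
    have h0 := inf_zero hx
    subst h0
    have hn : ¬ ∃ i, IsLv 3 (fun _ => 0) (0 : ℤ) i := fun ⟨i, hi⟩ => hi.not_inf zero_inf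
    have hA : dgA (fun _ => 0) 0 = 1 := by
      unfold dgA
      rw [dif_neg hn]
    have hB : dgB (fun _ => 0) 0 = 3 := by
      unfold dgB
      rw [dif_neg hn]
    have e1 := hx_nat (M := M) (mn := mn) (cs := cs) (e := e) v 0 t
    have e2 := wx_nat (M := M) (mn := mn) (cs := cs) (e := e) v 0 t
    have e3 := wx_nat (M := M) (mn := mn) (cs := cs) (e := e) v 0 (t + 1)
    rw [Nat.cast_zero] at e1 e2 e3
    rw [e1, e2, e3, hx_neg v (by omega), hlab_zero, wlab_zero, wlab_zero, hA, hB]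
    exact ⟨by norm_num, by norm_num, rfl, rfl, rfl, rfl⟩
  · intro x
    rcases int_cases x with h | h | ⟨d, hd, hxd, hxd'⟩
    · exact Or.inl (wx_neg v h 0)
    · subst h
      have e2 := wx_nat (M := M) (mn := mn) (cs := cs) (e := e) v 0 0
      rw [Nat.cast_zero] at e2
      rw [e2, wlab_zero]
      exact Or.inr (Or.inl rfl)
    · rw [hxd, wx_nat]
      exact (hw_base hT v hd).1
  · intro x
    rcases int_cases x with h | h | ⟨d, hd, hxd, hxd'⟩
    · rw [wx_neg v h, wx_neg v (by omega)]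
      constructor <;> intro h' <;> cases h'
    · subst h
      have e2 := wx_nat (M := M) (mn := mn) (cs := cs) (e := e) v 0 0
      rw [Nat.cast_zero] at e2
      rw [e2, wlab_zero, wx_neg v (by omega)]
      constructor <;> intro h' <;> cases h'
    · rw [hxd', hxd, wx_nat, wx_nat]
      exact (hw_base hT v hd).2

end H96.CK
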