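import Pool.Agent.H96.CK.Chn
import Pool.Agent.H96.CK.LaneC3

/-!
# Module CodU (150 lines): the code is unique; codes inside `oo (some j)`

`agr_ch`: if `Agr X v κ` and `μ m + 1 < κ` then `W (X + 3 ^ (μ m + 1)) (μ m + 1) = wlab v (3 ^ (μ m + 1)) (μ m + 1)
= V (glob v (μ m + 1)) _`, and `(glob ..).ch = (tl v (μ m)).ch v` is true iff `v = some m` (`Tm.ch`, `Tm.mu` injective).
`code_inf_unique`: for both codes and all `m`: `v = some m ↔ v' = some m`.
`code_fin_unique`: `Clo (some m) κ` gives `μ m + 1 < κ` (`Tm.muk`).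
`codes_le`: the lanes of `oo (some j)` are `Hx`, `Wx` with `c = 0`. Corners are at `X ≥ 0` (`Wx = blank` for `X < 0`). Strong induction
on `X.toNat`. `X = 0` has infinite level: its code is `some j` (`code_inf_unique`; `Agr .. 0 (some j) n` holds by
definition of `Hx`, `Wx`). `X > 0` has a finite level `k` (`parent`): the parent `X - 3 ^ k` has code `v1` with `Lau v1 k`, so
`v1 = some m`, `r (chd k) m` (`lau_rel`), `v = some (chd k)`, and `m = j` or `r m j` by induction; transitivity.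
-/

namespace H96.CK

variable {K G : Type} [DecidableEq G] {M : SM K G} {mn : K} {cs : G} {c : ℕ → ℤ}
  {H : ℤ → ℕ → HL M} {W : ℤ → ℕ → WL M} {e : ℕ → ℕ} {r : ℕ → ℕ → Prop} {μ : ℕ → ℕ}

private theorem cu_log (i : ℕ) : Nat.log 3 (3 ^ i) = i := Nat.log_pow (by norm_num) i

private theorem cu_wlab (v : Option ℕ) {i : ℕ} (hi : 1 ≤ i) :
    wlab M mn cs e v (3 ^ i) i = .V (glob M mn cs v i) (info M mn cs v i i) := by
  have h0 : 3 ^ i ≠ 0 := by positivity
  rw [wlab, cu_log, dif_neg h0, if_pos rfl, if_neg (lt_irrefl _), if_neg (by omega),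
    if_pos (by omega)]

theorem agr_ch (hT : Tm M mn cs e r μ) {X : ℤ} {v : Option ℕ} {κ m : ℕ}
    (hA : Agr mn cs e H W X v κ) (hm : μ m + 1 < κ) :
    ∃ g j, W (X + 3 ^ (μ m + 1)) (μ m + 1) = .V g j ∧ (g.ch = true ↔ v = some m) := by
  have h1 : 3 ^ (μ m + 1) < 3 ^ κ := Nat.pow_lt_pow_right (by norm_num) hm
  have h2 := (hA (3 ^ (μ m + 1)) h1).2 (by positivity) (μ m + 1)
  rw [cu_wlab v (by omega)] at h2
  push_cast at h2
  refine ⟨_, _, h2, ?_⟩
  show (tl M mn cs v (μ m + 1 - 1)).ch v = true ↔ v = some m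
  rw [Nat.add_sub_cancel, hT.ch]
  constructor
  · rintro ⟨m', hv, he⟩
    rw [hv, hT.mu.injective he]
  · intro hv
    exact ⟨m, hv, rfl⟩

theorem code_inf_unique (hT : Tm M mn cs e r μ) {X : ℤ} {v v' : Option ℕ}
    (h : ∀ n, Agr mn cs e H W X v n) (h' : ∀ n, Agr mn cs e H W X v' n) : v = v' := by
  have key : ∀ m, v = some m ↔ v' = some m := by
    intro m
    obtain ⟨g, j, h1, h2⟩ := agr_ch hT (h (μ m + 2)) (m := m) (by omega)
    obtain ⟨g', j', h3, h4⟩ := agr_ch hT (h' (μ m + 2)) (m := m) (by omega)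
    rw [h1] at h3
    injection h3 with h5 h6
    rw [← h2, ← h4, h5]
  cases v with
  | none =>
    cases v' with
    | none => rfl
    | some m => exact absurd ((key m).2 rfl) (by simp)
  | some m => exact ((key m).1 rfl).symm

theorem agr_hx (v : Option ℕ) (n : ℕ) :
    Agr mn cs e (Hx M mn cs e v) (Wx M mn cs e v) 0 v n := by
  intro d _
  refine ⟨fun t _ => ?_, fun _ t => ?_⟩
  · unfold Hx
    rw [zero_add, if_neg (by omega), Int.toNat_natCast]
  · unfold Wx
    rw [zero_add, if_neg (by omega), Int.toNat_natCast]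

theorem codes_le (hT : Tm M mn cs e r μ) (htr : ∀ a b c, r a b → r b c → r a c) {j : ℕ} {X : ℤ}
    {v : Option ℕ}
    (h : Cod M mn cs (fun _ => 0) e (Hx M mn cs e (some j)) (Wx M mn cs e (some j)) X v) :
    ∃ m, v = some m ∧ (m = j ∨ r m j) := by
  have h00 : Coh 3 (fun _ => 0) := fun n => by simp
  have hc := colOk_dg h00
  have hL := lane_ok (mn := mn) (cs := cs) hT (some j)
  have hz : IsInf 3 (fun _ => 0) 0 := fun n => by simp
  obtain ⟨n, hn⟩ : ∃ n : ℕ, X.toNat = n := ⟨_, rfl⟩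
  induction n using Nat.strong_induction_on generalizing X v with
  | _ n ih =>
    have hX0 : 0 ≤ X := by
      by_contra hlt
      have h1 := h.1
      unfold Wx at h1
      rw [if_pos (by omega)] at h1
      cases h1
    rcases hX0.eq_or_lt with hX | hX
    · subst hX
      rcases h.2 with ⟨k, hk, -⟩ | ⟨-, hA⟩
      · exact absurd hz hk.not_inf
      · exact ⟨j, code_inf_unique hT hA (fun n => agr_hx (some j) n), Or.inl rfl⟩
    · rcases lv_or 3 (fun _ => 0) X with ⟨k, hk⟩ | hinf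
      · obtain ⟨v1, hC1, hLau, hv, -⟩ := parent hT hc hL hk h
        obtain ⟨m, hm, hr⟩ := hT.lau_rel v1 k hLau
        have h3 : (0 : ℤ) < 3 ^ k := by positivity
        obtain ⟨m', hm', hr'⟩ := ih (X - 3 ^ k).toNat (by omega) hC1 rfl
        rw [hm] at hm'
        obtain rfl := Option.some.inj hm'
        refine ⟨_, hv, Or.inr ?_⟩
        rcases hr' with rfl | hr'
        · exact hr
        · exact htr _ _ _ hr hr'
      · have := hinf.unique (by norm_num) hz
        omega

end H96.CK
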