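import Pool.Agent.H96.CK.TameM

/-!
# Module CountM (150 lines): countably many subsystems; the final statement

`lower_countable`: a lower set `S` of the well-order `r` on `ℕ` is everything or `{j | r j m}` for the least `m ∉ S`
(`IsWellFounded`, trichotomy), so there are countably many.
`subsys_countable`: map `Z` to `({f | ∃ x ∈ Z, Tame x ∧ ty x = f}, (oo none ∈ Z), {j | oo (some j) ∈ Z})`. The third component is a lower set
(`oo_rec`; `Z` is closed and invariant: `Cl (Orb x) ⊆ Z` for `x ∈ Z`, monotonicity of `Cl`). The map is injective: let `Z, Z'` have the same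
image and `x ∈ Z`. `Tame x`: there is a tame `y ∈ Z'` with `ty y = ty x`, so `x ∈ Cl (Orb y) ⊆ Z'`. Not tame, a column of infinite level:
`x ∈ Orb (oo v)`, so `oo v ∈ Z` (inverse translation), `oo v ∈ Z'`, `x ∈ Z'`. Otherwise `cls_chain`: `oo (some (v l)) ∈ Z` for all `l`, hence in `Z'`, and
`x ∈ Cl (..) ⊆ Cl Z' ⊆ Z'`.
`exists_tiles`: `exists_tm hr`, `T = Tile M` for the machine `M : SM K' Γ'` (`Finite K'`: four elements), `H = THor`, `V = TVer`,
`o v = oo (some v)`; `Fintype.ofFinite`.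
-/

namespace H96.CK

theorem lower_countable (r : ℕ → ℕ → Prop) [IsWellOrder ℕ r] :
    {S : Set ℕ | ∀ j v, r j v → v ∈ S → j ∈ S}.Countable := by
  have hsub : {S : Set ℕ | ∀ j v, r j v → v ∈ S → j ∈ S} ⊆
      insert Set.univ (Set.range fun m => {j | r j m}) := by
    intro S hS
    by_cases h : S = Set.univ
    · exact Or.inl h
    · right
      have hne : Sᶜ.Nonempty := Set.nonempty_compl.2 h
      have wf : WellFounded r := IsWellFounded.wf
      have hm := wf.min_mem Sᶜ hne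
      refine ⟨wf.min Sᶜ hne, ?_⟩
      ext j
      simp only [Set.mem_setOf_eq]
      constructor
      · intro hj
        by_contra hjS
        exact wf.not_lt_min Sᶜ hjS hj
      · intro hj
        rcases trichotomous_of r j (wf.min Sᶜ hne) with h1 | h1 | h1
        · exact h1
        · exact absurd (h1 ▸ hj) hm
        · exact absurd (hS _ _ h1 hj) hm
  exact ((Set.countable_range _).insert _).mono hsub

private theorem cl_mono {T : Type} {S S' : Set (ℤ × ℤ → T)} (h : S ⊆ S') : Cl S ⊆ Cl S' := by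
  intro y hy n
  obtain ⟨x, hx, h1⟩ := hy n
  exact ⟨x, h hx, h1⟩

private theorem cl_orb {T : Type} {X Z : Set (ℤ × ℤ → T)} (hZ : Z ∈ SubSys X) {x : ℤ × ℤ → T}
    (hx : x ∈ Z) : Cl (Orb x) ⊆ Z := by
  refine (cl_mono ?_).trans hZ.2.1
  rintro y ⟨p, rfl⟩
  exact hZ.2.2 x hx p

private theorem orb_back {T : Type} {X Z : Set (ℤ × ℤ → T)} (hZ : Z ∈ SubSys X) {x y : ℤ × ℤ → T}
    (hx : x ∈ Z) (h : x ∈ Orb y) : y ∈ Z := by
  obtain ⟨p, rfl⟩ := h
  have h1 := hZ.2.2 _ hx (-p)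
  have h2 : sh (-p) (sh p y) = y := by
    funext q
    simp [sh]
  rwa [h2] at h1

private theorem sub_of {K G : Type} [DecidableEq G] {M : SM K G}
    {mn : K} {cs : G} {e : ℕ → ℕ} {r : ℕ → ℕ → Prop} {μ : ℕ → ℕ} (hT : Tm M mn cs e r μ)
    (hir : ∀ a, ¬ r a a) (htr : ∀ a b c, r a b → r b c → r a c)
    {F : Type} {ty : (ℤ × ℤ → Tile M) → F}
    (hty : ∀ x ∈ TX M mn cs, ∀ y ∈ TX M mn cs, Tame x → Tame y → ty x = ty y → y ∈ Cl (Orb x))
    {Z Z' : Set (ℤ × ℤ → Tile M)} (hZ : Z ∈ SubSys (TX M mn cs)) (hZ' : Z' ∈ SubSys (TX M mn cs))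
    (h1 : {f | ∃ x ∈ Z, Tame x ∧ ty x = f} ⊆ {f | ∃ x ∈ Z', Tame x ∧ ty x = f})
    (h2 : oo M mn cs e none ∈ Z → oo M mn cs e none ∈ Z')
    (h3 : ∀ j, oo M mn cs e (some j) ∈ Z → oo M mn cs e (some j) ∈ Z') : Z ⊆ Z' := by
  intro x hxZ
  have hx : x ∈ TX M mn cs := hZ.1 hxZ
  obtain ⟨c, r0, g⟩ := exists_geo hx
  by_cases ht : Tame x
  · obtain ⟨y, hy, hyt, hyx⟩ := h1 ⟨x, hxZ, ht, rfl⟩
    exact cl_orb hZ' hy (hty y (hZ'.1 hy) x hx hyt ht hyx)
  · by_cases hi : ∃ a0, IsInf 3 c a0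
    · obtain ⟨a0, hi⟩ := hi
      obtain ⟨v, hv⟩ := cls_inf hT hx g ht hi
      have hvZ := orb_back hZ hxZ hv
      have hvZ' : oo M mn cs e v ∈ Z' := by
        cases v with
        | none => exact h2 hvZ
        | some j => exact h3 j hvZ
      obtain ⟨p, rfl⟩ := hv
      exact hZ'.2.2 _ hvZ' p
    · have hi' : ∀ a, ¬ IsInf 3 c a := fun a h => hi ⟨a, h⟩
      obtain ⟨v, hv1, hv2⟩ := cls_chain hT hir htr hx g ht hi'
      apply hZ'.2.1
      refine cl_mono ?_ hv1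
      rintro y ⟨l, p, rfl⟩
      exact hZ'.2.2 _ (h3 _ (cl_orb hZ hxZ (hv2 l))) p

theorem subsys_countable {K G : Type} [Finite K] [Finite G] [DecidableEq G] {M : SM K G}
    {mn : K} {cs : G} {e : ℕ → ℕ} {r : ℕ → ℕ → Prop} {μ : ℕ → ℕ} (hT : Tm M mn cs e r μ)
    [IsWellOrder ℕ r] : (SubSys (TX M mn cs)).Countable := by
  obtain ⟨F, hF, ty, hty⟩ := tame_type M mn cs
  have hir : ∀ a, ¬ r a a := fun a => irrefl_of r a
  have htr : ∀ a b c, r a b → r b c → r a c := fun a b c h h' => _root_.trans h h'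
  have hmaps : Set.MapsTo (fun Z : Set (ℤ × ℤ → Tile M) =>
      (({f | ∃ x ∈ Z, Tame x ∧ ty x = f} : Set F), (oo M mn cs e none ∈ Z),
        ({j | oo M mn cs e (some j) ∈ Z} : Set ℕ)))
      (SubSys (TX M mn cs))
      (Set.univ ×ˢ (Set.univ ×ˢ {S : Set ℕ | ∀ j v, r j v → v ∈ S → j ∈ S})) := by
    intro Z hZ
    refine ⟨Set.mem_univ _, Set.mem_univ _, ?_⟩
    intro j v hjv hv
    exact cl_orb hZ hv (oo_rec hT hjv)
  refine hmaps.countable_of_injOn ?_
    ((Set.to_countable _).prod ((Set.to_countable _).prod (lower_countable r)))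
  intro Z hZ Z' hZ' h
  simp only [Prod.mk.injEq] at h
  obtain ⟨h1, h2, h3⟩ := h
  apply Set.Subset.antisymm
  · exact sub_of hT hir htr hty hZ hZ' h1.subset (fun h => h2 ▸ h)
      (fun j hj => (Set.ext_iff.1 h3 j).1 hj)
  · exact sub_of hT hir htr hty hZ' hZ h1.symm.subset (fun h => h2.symm ▸ h)
      (fun j hj => (Set.ext_iff.1 h3 j).2 hj)

open Turing.PartrecToTM2 in
theorem exists_tiles (r : ℕ → ℕ → Prop) [IsWellOrder ℕ r]
    (hr : ComputablePred fun p : ℕ × ℕ => r p.1 p.2) :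
    ∃ (T : Type) (_ : Fintype T) (H V : T → T → Prop) (o : ℕ → ℤ × ℤ → T),
      (∀ v, o v ∈ {x : ℤ × ℤ → T | ∀ a b, H (x (a, b)) (x (a + 1, b)) ∧
        V (x (a, b)) (x (a, b + 1))}) ∧
      (∀ j v, r j v → o j ∈ Cl (Orb (o v))) ∧
      (∀ v, o v ∉ Cl {y | ∃ j, r j v ∧ y ∈ Orb (o j)}) ∧
      (SubSys {x : ℤ × ℤ → T | ∀ a b, H (x (a, b)) (x (a + 1, b)) ∧
        V (x (a, b)) (x (a, b + 1))}).Countable := by
  obtain ⟨M, μ, hT⟩ := exists_tm hr
  have hir : ∀ a, ¬ r a a := fun a => irrefl_of r a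
  have htr : ∀ a b c, r a b → r b c → r a c := fun a b c h h' => _root_.trans h h'
  have hK : Finite K' := by
    refine Finite.of_injective (β := Fin 4) (fun k => match k with
      | .main => 0
      | .rev => 1
      | .aux => 2
      | .stack => 3) ?_
    intro a b
    cases a <;> cases b <;> simp
  have hTf := tile_finite M
  exact ⟨Tile M, Fintype.ofFinite _, THor M K'.main Γ'.cons, TVer M,
    fun v => oo M K'.main Γ'.cons (enm r) (some v), fun v => oo_mem hT (some v),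
    fun j v h => oo_rec hT h, fun v => oo_sep hT hir htr v, subsys_countable hT⟩

end H96.CK
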