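import Pool.Agent.H96.CK.SkDef

/-!
# Module Cyc (60 lines): cyclic counters

`cyc`: put `u = -D 0`. In both cases `D w = D (w - 1) + 1` modulo `a`, so by induction in both
directions (`Int.induction_on` or `Int.inductionOn'`) `D w = D 0 + w` modulo `a`, and
`D w < a` gives `D w = (w - u) % a` (`Int.emod_emod_of_dvd`, `Int.emod_eq_of_lt`). If `rs w` then
`D w = 0`, so `a ∣ w - u`. If `a ∣ w - u` then `D w = 0`, and `¬ rs w` would give `D w ≥ 1`.

`phase`: one of `w = u + 1`, `w = u + 2` is not congruent to `u'` (they are different mod `a`,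
`a ≥ 3`), and neither is congruent to `u`. The hypothesis at this `w` gives
`(w - u) % a = (w - u') % a`, hence `a ∣ u - u'`.

`cst`: induction from `x1` upwards (`Int.le_induction`).
-/

namespace H96.CK

theorem cyc {a : ℕ} (ha : 2 ≤ a) (D : ℤ → ℕ) (rs : ℤ → Prop) (h1 : ∀ w, D w < a)
    (h2 : ∀ w, rs w → D (w - 1) + 1 = a ∧ D w = 0)
    (h3 : ∀ w, ¬ rs w → D w = D (w - 1) + 1) :
    ∃ u : ℤ, ∀ w, (D w : ℤ) = (w - u) % a ∧ (rs w ↔ (a : ℤ) ∣ w - u) := by
  have hstep : ∀ w : ℤ, (a : ℤ) ∣ (D w : ℤ) - D (w - 1) - 1 := by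
    intro w
    by_cases hw : rs w
    · obtain ⟨e1, e2⟩ := h2 w hw
      refine ⟨-1, ?_⟩
      have e3 : ((D (w - 1) : ℤ)) + 1 = a := by exact_mod_cast e1
      rw [e2]
      push_cast
      linarith
    · have e1 := h3 w hw
      refine ⟨0, ?_⟩
      rw [e1]
      push_cast
      ring
  have hall : ∀ w : ℤ, (a : ℤ) ∣ (D w : ℤ) - D 0 - w := by
    intro w
    induction w using Int.induction_on with
    | zero => simp
    | succ i ih =>
      have := hstep ((i : ℤ) + 1)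
      rw [add_sub_cancel_right] at this
      have h4 := dvd_add this ih
      have e : (D ((i : ℤ) + 1) : ℤ) - D (i : ℤ) - 1 + ((D (i : ℤ) : ℤ) - D 0 - i) =
        (D ((i : ℤ) + 1) : ℤ) - D 0 - (i + 1) := by ring
      rwa [e] at h4
    | pred i ih =>
      have := hstep (-(i : ℤ))
      have h4 := dvd_sub ih this
      have e : (D (-(i : ℤ)) : ℤ) - D 0 - (-(i : ℤ)) - ((D (-(i : ℤ)) : ℤ) - D (-(i : ℤ) - 1) - 1) =
        (D (-(i : ℤ) - 1) : ℤ) - D 0 - (-(i : ℤ) - 1) := by ring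
      rwa [e] at h4
  have hD : ∀ w : ℤ, (D w : ℤ) = (w - (-(D 0 : ℤ))) % a := by
    intro w
    have e1 : (w - (-(D 0 : ℤ))) % (a : ℤ) = (D w : ℤ) % a := by
      have h5 : (w - (-(D 0 : ℤ))) ≡ (D w : ℤ) [ZMOD a] := by
        rw [Int.modEq_iff_dvd]
        have h6 := hall w
        have e : (D w : ℤ) - D 0 - w = (D w : ℤ) - (w - (-(D 0 : ℤ))) := by ring
        rwa [e] at h6
      exact h5
    rw [e1]
    exact (Int.emod_eq_of_lt (by positivity) (by exact_mod_cast h1 w)).symm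
  refine ⟨-(D 0 : ℤ), fun w => ⟨hD w, ?_, ?_⟩⟩
  · intro hw
    have e1 := (h2 w hw).2
    have e2 := hD w
    rw [e1] at e2
    exact Int.dvd_of_emod_eq_zero (by rw [← e2]; simp)
  · intro hd
    by_contra hw
    have e1 := h3 w hw
    have e2 := hD w
    rw [Int.emod_eq_zero_of_dvd hd] at e2
    have e3 : D w = 0 := by exact_mod_cast e2
    omega

theorem phase {a : ℕ} (ha : 3 ≤ a) {u u' : ℤ}
    (h : ∀ w : ℤ, ¬ (a : ℤ) ∣ w - u → ¬ (a : ℤ) ∣ w - u' → (w - u) % a = (w - u') % a) :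
    (a : ℤ) ∣ u - u' := by
  have ha' : (3 : ℤ) ≤ a := by exact_mod_cast ha
  have k1 : ¬ (a : ℤ) ∣ 1 := by
    intro hd
    have := Int.le_of_dvd one_pos hd
    omega
  have k2 : ¬ (a : ℤ) ∣ 2 := by
    intro hd
    have := Int.le_of_dvd two_pos hd
    omega
  have fin : ∀ w : ℤ, ¬ (a : ℤ) ∣ w - u → ¬ (a : ℤ) ∣ w - u' → (a : ℤ) ∣ u - u' := by
    intro w hw hw'
    have h5 : (w - u) ≡ (w - u') [ZMOD a] := h w hw hw'
    have h6 := h5.dvd
    have e : w - u' - (w - u) = u - u' := by ring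
    rwa [e] at h6
  have e1 : (u + 1) - u = 1 := by ring
  have e2 : (u + 2) - u = 2 := by ring
  by_cases c1 : (a : ℤ) ∣ (u + 1) - u'
  · have c2 : ¬ (a : ℤ) ∣ (u + 2) - u' := by
      intro c2
      apply k1
      have h7 := dvd_sub c2 c1
      have e : u + 2 - u' - (u + 1 - u') = 1 := by ring
      rwa [e] at h7
    exact fin (u + 2) (by rw [e2]; exact k2) c2
  · exact fin (u + 1) (by rw [e1]; exact k1) c1

theorem cst (f : ℤ → ℕ) {x1 x2 : ℤ} (h : ∀ x, x1 < x → x < x2 → f x = f (x - 1)) :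
    ∀ x, x1 ≤ x → x < x2 → f x = f x1 := by
  intro x hx
  induction x, hx using Int.le_induction with
  | base => intro _; rfl
  | succ n hn ih =>
    intro hlt
    rw [h (n + 1) (by omega) hlt, add_sub_cancel_right]
    exact ih (by omega)

end H96.CK
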