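import Mathlib

/-!
# Module Enm (200 lines): the enumeration of the pairs

`q ↦ (a, B) = unpair q`, `(j, v) = unpair B`; the pair is valid iff `r j v`. `eV q = v + 1`,
`eJ q = j + 1` for valid pairs and `0` for invalid ones. `enm r (3q) = q + 1`,
`enm r (3q+1) = eV q`, `enm r (3q+2) = eJ q`.
* `enm_computable`: `ComputablePred` gives a decidability instance `D` with
  `Computable fun p => @decide (r p.1 p.2) (D p)`; the value of `if` does not depend on the instance
  (`Subsingleton.elim`, `if_congr`). Compose with `Nat.unpair` (`Primrec.unpair`), use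
  `Computable.cond`/`Computable.ite`, `Primrec.nat_div`, `Primrec.nat_mod`.
* `eV_pos`: `v ≤ B ≤ q` (`Nat.unpair_right_le`, `Nat.unpair_left_le`).
* `enm_inf`: `q = pair N (pair j v) ≥ N`.
* `enm_chain`: let `Q = pair a B'`, `B' = pair v v'` (as `eJ Q = v + 1`, `eV Q = v' + 1`), `M = max a B'`.
  Then `M ^ 2 ≤ Q < (M + 1) ^ 2` (`Nat.pair`), `B = pair j v < B'` because `j < v'`, `v < v'`
  (`pair j v < (max j v + 1) ^ 2 ≤ v' ^ 2 ≤ pair v v'`), so `B ≤ M - 1` and
  `q = pair (M - 1) B = (M-1)^2 + (M-1) + B < M ^ 2 ≤ Q`, `q ≥ M - 1 ≥ N` if `Q ≥ (N + 2) ^ 2`.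
-/

namespace H96.CK

open Classical in
noncomputable def eV (r : ℕ → ℕ → Prop) (q : ℕ) : ℕ :=
  if r (Nat.unpair (Nat.unpair q).2).1 (Nat.unpair (Nat.unpair q).2).2 then
    (Nat.unpair (Nat.unpair q).2).2 + 1 else 0

open Classical in
noncomputable def eJ (r : ℕ → ℕ → Prop) (q : ℕ) : ℕ :=
  if r (Nat.unpair (Nat.unpair q).2).1 (Nat.unpair (Nat.unpair q).2).2 then
    (Nat.unpair (Nat.unpair q).2).1 + 1 else 0

noncomputable def enm (r : ℕ → ℕ → Prop) (n : ℕ) : ℕ :=
  if n % 3 = 0 then n / 3 + 1 else if n % 3 = 1 then eV r (n / 3) else eJ r (n / 3)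

private theorem eV_def {r : ℕ → ℕ → Prop} {q : ℕ}
    (h : r (Nat.unpair (Nat.unpair q).2).1 (Nat.unpair (Nat.unpair q).2).2) :
    eV r q = (Nat.unpair (Nat.unpair q).2).2 + 1 := by
  classical
  unfold eV
  rw [if_pos h]

private theorem eJ_def {r : ℕ → ℕ → Prop} {q : ℕ}
    (h : r (Nat.unpair (Nat.unpair q).2).1 (Nat.unpair (Nat.unpair q).2).2) :
    eJ r q = (Nat.unpair (Nat.unpair q).2).1 + 1 := by
  classical
  unfold eJ
  rw [if_pos h]

private theorem eV_not {r : ℕ → ℕ → Prop} {q : ℕ}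
    (h : ¬ r (Nat.unpair (Nat.unpair q).2).1 (Nat.unpair (Nat.unpair q).2).2) :
    eV r q = 0 := by
  classical
  unfold eV
  rw [if_neg h]

private theorem eJ_not {r : ℕ → ℕ → Prop} {q : ℕ}
    (h : ¬ r (Nat.unpair (Nat.unpair q).2).1 (Nat.unpair (Nat.unpair q).2).2) :
    eJ r q = 0 := by
  classical
  unfold eJ
  rw [if_neg h]

theorem enm_computable {r : ℕ → ℕ → Prop} (hr : ComputablePred fun p : ℕ × ℕ => r p.1 p.2) :
    Computable (enm r) := by
  obtain ⟨D, hD⟩ := hr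
  have h2 : Primrec fun q : ℕ => (Nat.unpair q).2 := Primrec.snd.comp Primrec.unpair
  have hj : Primrec fun q : ℕ => (Nat.unpair (Nat.unpair q).2).1 :=
    (Primrec.fst.comp Primrec.unpair).comp h2
  have hv : Primrec fun q : ℕ => (Nat.unpair (Nat.unpair q).2).2 :=
    (Primrec.snd.comp Primrec.unpair).comp h2
  have hdiv : Primrec fun n : ℕ => n / 3 := Primrec.nat_div.comp Primrec.id (Primrec.const 3)
  have hmod : Primrec fun n : ℕ => n % 3 := Primrec.nat_mod.comp Primrec.id (Primrec.const 3)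
  have c0 : Computable fun n : ℕ => (n % 3 == 0) := (Primrec.beq.comp hmod (Primrec.const 0)).to_comp
  have c1 : Computable fun n : ℕ => (n % 3 == 1) := (Primrec.beq.comp hmod (Primrec.const 1)).to_comp
  have hd : Computable fun n : ℕ => @decide
      (r (Nat.unpair (Nat.unpair (n / 3)).2).1 (Nat.unpair (Nat.unpair (n / 3)).2).2)
      (D ((Nat.unpair (Nat.unpair (n / 3)).2).1, (Nat.unpair (Nat.unpair (n / 3)).2).2)) :=
    hD.comp ((hj.comp hdiv).to_comp.pair (hv.comp hdiv).to_comp)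
  have hmain := Computable.cond c0 (Primrec.succ.comp hdiv).to_comp
    (Computable.cond c1 (Computable.cond hd (Primrec.succ.comp (hv.comp hdiv)).to_comp
      (Computable.const 0)) (Computable.cond hd (Primrec.succ.comp (hj.comp hdiv)).to_comp
      (Computable.const 0)))
  refine hmain.of_eq fun n => ?_
  unfold enm
  by_cases h0 : n % 3 = 0
  · rw [if_pos h0, beq_iff_eq.2 h0]
    rfl
  · rw [if_neg h0, show (n % 3 == 0) = false from beq_eq_false_iff_ne.2 h0]
    by_cases h1 : n % 3 = 1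
    · rw [if_pos h1, beq_iff_eq.2 h1]
      by_cases h : r (Nat.unpair (Nat.unpair (n / 3)).2).1 (Nat.unpair (Nat.unpair (n / 3)).2).2
      · rw [eV_def h, @decide_eq_true _ (D ((Nat.unpair (Nat.unpair (n / 3)).2).1,
          (Nat.unpair (Nat.unpair (n / 3)).2).2)) h]
        rfl
      · rw [eV_not h, @decide_eq_false _ (D ((Nat.unpair (Nat.unpair (n / 3)).2).1,
          (Nat.unpair (Nat.unpair (n / 3)).2).2)) h]
        rfl
    · rw [if_neg h1, show (n % 3 == 1) = false from beq_eq_false_iff_ne.2 h1]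
      by_cases h : r (Nat.unpair (Nat.unpair (n / 3)).2).1 (Nat.unpair (Nat.unpair (n / 3)).2).2
      · rw [eJ_def h, @decide_eq_true _ (D ((Nat.unpair (Nat.unpair (n / 3)).2).1,
          (Nat.unpair (Nat.unpair (n / 3)).2).2)) h]
        rfl
      · rw [eJ_not h, @decide_eq_false _ (D ((Nat.unpair (Nat.unpair (n / 3)).2).1,
          (Nat.unpair (Nat.unpair (n / 3)).2).2)) h]
        rfl

theorem enm0 (r : ℕ → ℕ → Prop) (q : ℕ) : enm r (3 * q) = q + 1 := by
  unfold enm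
  rw [if_pos (by omega), show 3 * q / 3 = q by omega]

theorem enm1 (r : ℕ → ℕ → Prop) (q : ℕ) : enm r (3 * q + 1) = eV r q := by
  unfold enm
  rw [if_neg (by omega), if_pos (by omega), show (3 * q + 1) / 3 = q by omega]

theorem enm2 (r : ℕ → ℕ → Prop) (q : ℕ) : enm r (3 * q + 2) = eJ r q := by
  unfold enm
  rw [if_neg (by omega), if_neg (by omega), show (3 * q + 2) / 3 = q by omega]

private theorem unp_le (q : ℕ) : (Nat.unpair (Nat.unpair q).2).1 ≤ q ∧
    (Nat.unpair (Nat.unpair q).2).2 ≤ q :=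
  ⟨(Nat.unpair_left_le _).trans (Nat.unpair_right_le _),
    (Nat.unpair_right_le _).trans (Nat.unpair_right_le _)⟩

theorem eV_pos {r : ℕ → ℕ → Prop} {q v : ℕ} (h : eV r q = v + 1) :
    ∃ j, eJ r q = j + 1 ∧ r j v ∧ v ≤ q ∧ j ≤ q := by
  by_cases hr : r (Nat.unpair (Nat.unpair q).2).1 (Nat.unpair (Nat.unpair q).2).2
  · rw [eV_def hr] at h
    have hv : (Nat.unpair (Nat.unpair q).2).2 = v := by omega
    have h1 := unp_le q
    rw [hv] at h1 hr
    exact ⟨_, eJ_def (by rw [hv]; exact hr), hr, h1.2, h1.1⟩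
  · rw [eV_not hr] at h
    omega

theorem eJ_pos {r : ℕ → ℕ → Prop} {q j : ℕ} (h : eJ r q = j + 1) :
    ∃ v, eV r q = v + 1 ∧ r j v ∧ v ≤ q ∧ j ≤ q := by
  by_cases hr : r (Nat.unpair (Nat.unpair q).2).1 (Nat.unpair (Nat.unpair q).2).2
  · rw [eJ_def hr] at h
    have hv : (Nat.unpair (Nat.unpair q).2).1 = j := by omega
    have h1 := unp_le q
    rw [hv] at h1 hr
    exact ⟨_, eV_def (by rw [hv]; exact hr), hr, h1.2, h1.1⟩
  · rw [eJ_not hr] at h
    omega

private theorem val {r : ℕ → ℕ → Prop} {j v : ℕ} (h : r j v) (a : ℕ) :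
    eV r (Nat.pair a (Nat.pair j v)) = v + 1 ∧ eJ r (Nat.pair a (Nat.pair j v)) = j + 1 := by
  have h1 : (Nat.unpair (Nat.unpair (Nat.pair a (Nat.pair j v))).2).1 = j := by simp
  have h2 : (Nat.unpair (Nat.unpair (Nat.pair a (Nat.pair j v))).2).2 = v := by simp
  refine ⟨?_, ?_⟩
  · rw [eV_def (by rw [h1, h2]; exact h), h2]
  · rw [eJ_def (by rw [h1, h2]; exact h), h1]

theorem enm_inf {r : ℕ → ℕ → Prop} {j v : ℕ} (h : r j v) (N : ℕ) :
    ∃ q, N ≤ q ∧ eV r q = v + 1 ∧ eJ r q = j + 1 :=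
  ⟨Nat.pair N (Nat.pair j v), Nat.left_le_pair _ _, val h N⟩

theorem enm_chain {r : ℕ → ℕ → Prop} (N : ℕ) : ∀ Q, (N + 2) ^ 2 ≤ Q → ∀ j v v', r j v →
    eJ r Q = v + 1 → eV r Q = v' + 1 → j < v' → v < v' →
    ∃ q, N ≤ q ∧ q < Q ∧ eV r q = v + 1 ∧ eJ r q = j + 1 := by
  intro Q hQ j v v' hr hJ hV hj hv
  by_cases hc : r (Nat.unpair (Nat.unpair Q).2).1 (Nat.unpair (Nat.unpair Q).2).2
  · rw [eJ_def hc] at hJ
    rw [eV_def hc] at hV
    have h1 : (Nat.unpair (Nat.unpair Q).2).1 = v := by omega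
    have h2 : (Nat.unpair (Nat.unpair Q).2).2 = v' := by omega
    have hB' : (Nat.unpair Q).2 = Nat.pair v v' := by
      rw [← Nat.pair_unpair (Nat.unpair Q).2, h1, h2]
    set a := (Nat.unpair Q).1 with ha
    have hQe : Q = Nat.pair a (Nat.pair v v') := by
      rw [← hB', ha, Nat.pair_unpair]
    set B' := Nat.pair v v' with hB'd
    have hB : Nat.pair j v < B' := by
      have e1 : Nat.pair j v < (max j v + 1) ^ 2 := Nat.pair_lt_max_add_one_sq _ _
      have e2 : max j v + 1 ≤ v' := by omega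
      have e3 : (max j v + 1) ^ 2 ≤ v' ^ 2 := Nat.pow_le_pow_left e2 2
      have e4 : B' = v' * v' + v := by
        rw [hB'd, Nat.pair, if_pos hv]
      have e5 : v' ^ 2 = v' * v' := sq v'
      omega
    have hQ1 : max a B' ^ 2 ≤ Q := by
      have := Nat.max_sq_add_min_le_pair a B'
      rw [← hQe] at this
      omega
    have hQ2 : Q < (max a B' + 1) ^ 2 := by
      rw [hQe]
      exact Nat.pair_lt_max_add_one_sq _ _
    obtain ⟨M, hM⟩ : ∃ M, max a B' = M + 1 := ⟨max a B' - 1, by omega⟩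
    rw [hM] at hQ1 hQ2
    have hBM : Nat.pair j v ≤ M := by omega
    have hMN : N ≤ M := by
      have h3 : (N + 2) ^ 2 < (M + 1 + 1) ^ 2 := lt_of_le_of_lt hQ hQ2
      have h4 : N + 2 < M + 1 + 1 := lt_of_pow_lt_pow_left₀ 2 (by omega) h3
      omega
    refine ⟨Nat.pair M (Nat.pair j v), hMN.trans (Nat.left_le_pair _ _), ?_, val hr M⟩
    refine lt_of_lt_of_le ?_ hQ1
    have e1 : Nat.pair M (Nat.pair j v) = M * M + M + Nat.pair j v := by
      conv_lhs => rw [Nat.pair]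
      rw [if_neg (by omega)]
    rw [e1]
    nlinarith
  · rw [eV_not hc] at hV
    omega

end H96.CK
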