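import Pool.Agent.H96.CK.LaneA
import Pool.Agent.H96.CK.LaneB
import Pool.Agent.H96.CK.TimC

/-!
# Module LaneC1 (150 lines; here hw_pass and hw_base): the labels `hlab`, `wlab` obey the rules

Put `i = Nat.log 3 d`, `ε = d - 3 ^ i`, `κ = i / 2`. Strong induction on `d` for all codes `v`. Useful first:
`log 3 (3 ^ i - 1) = i - 1` (`i ≥ 1`) and for `t < (i - 1) / 2`: `hlab v (3 ^ i - 1) t = blank` and
`wlab v (3 ^ i - 1) 0 ≠ P`, because `3 ^ i - 1 - 3 ^ (i-1) = 2 * 3 ^ (i-1) - 1 ≥ 3 ^ ((i-1)/2)`, equality only if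
`i = 1` (and then `Lau v 0 = false`).
`hw_pass` (`j < t`): `d = 3 ^ i` (`j = i`): both sides blank. `d > 3 ^ i`: `log (d - 1) = i`; `t > i`: blank;
`κ ≤ t ≤ i`: the same label; `t < κ`: launched and `ε < 3 ^ κ`: induction for `ε` (same level `j`), `ε = 3 ^ κ` is
excluded since then `j = κ > t`; otherwise both blank. Wires similar.
`hw_base`: cases as above; `wlab v 0 0 = P`, `wlab v 1 0 = I0`; `d = 3 ^ i + 1` launched: `wlab _ 1 0 = I0` and
`wlab v (3 ^ i) 0 = P`.
`hw_rule` (`t ≤ j`, `dA = d / 3 ^ j % 3`, `dB` satisfies `odd` and `three`):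
 * `d = 3 ^ i`, `i = 0`: `I0` cell. `i ≥ 1`, `b = (i-1)/2`: `t = i`: `(V, blank)` by `newT_top`, `next_top`;
   `b < t < i`: `(V, V)` by `info_succ`, `newA_mid`; left label `F` if `t = i - 1`, else `A`; `t = b`:
   `(P or blank, V)` by `info_bot`, `newA_bot` (`i` odd) or the lane dies (`i` even, then `Lau v i = false`
   by `lau_odd`); `t < b`: `(P, P)` or `(blank, blank)`, all lanes blank.
 * `d > 3 ^ i`, not launched: wires blank, lanes equal; `sB < 0` means `t < j / 2 ≤ κ`: blank; label `F` only for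
   `t = i = j`, `d = 2 * 3 ^ i`, `dA = 2`.
 * launched (`i` odd, `κ ≥ 1`): `ε < 3 ^ κ`: then `j < κ` and the rule for `(child, ε)`; `ε = 3 ^ κ`: `T` column of level
   `κ`, digit 1: `t = κ`: `(T, blank)`, lane `κ` has label `A`; `(κ-1)/2 < t < κ`: `(T, T)`; `t = (κ-1)/2`: `(blank, T)`;
   lower: blank; the left lanes are those of the child at `3 ^ κ - 1` (`lau_clo` gives `acc` for the lane
   `κ - 1`); `ε > 3 ^ κ`: wires blank, lanes `t < κ` blank, lanes `t ≥ κ` pass.
`lane_ok`: for `x < 0` everything is blank; `x = 0` has infinite level for `c = 0`: `(P, P)`, `dA = 1`, `dB = 3`.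
For `x > 0` the level of `x` is the exponent of 3, `dgA`, `dgB` by `colOk_dg`, `odd_iff`, `three_iff`, `dA_delta`.
-/

namespace H96.CK

variable {K G : Type} [DecidableEq G] {M : SM K G} {mn : K} {cs : G} {e : ℕ → ℕ}
  {r : ℕ → ℕ → Prop} {μ : ℕ → ℕ}

private theorem lc_h (v : Option ℕ) {d t i : ℕ} (h1 : 3 ^ i ≤ d) (h2 : d < 3 ^ (i + 1)) :
    hlab M mn cs e v d t = if i < t then .blank
      else if i / 2 ≤ t then
        (if t = i then .F ((tl M mn cs v i).lam i t) (tl M mn cs v i).st
          else .A ((tl M mn cs v i).lam i t))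
      else if Lau M mn cs v i = true ∧ d - 3 ^ i < 3 ^ (i / 2) then
        hlab M mn cs e (some (chd M mn cs e i)) (d - 3 ^ i) t
      else .blank := by
  have hl : Nat.log 3 d = i := Nat.log_eq_of_pow_le_of_lt_pow h1 h2
  have h0 : 0 < 3 ^ i := by positivity
  rw [hlab, dif_neg (by omega), hl]

private theorem lc_w (v : Option ℕ) {d t i : ℕ} (h1 : 3 ^ i ≤ d) (h2 : d < 3 ^ (i + 1)) :
    wlab M mn cs e v d t = if d = 3 ^ i then
      (if i < t then .blank
        else if i = 0 then .I0
        else if (i - 1) / 2 < t then .V (glob M mn cs v i) (info M mn cs v i t)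
        else if Lau M mn cs v i = true then .P else .blank)
    else if Lau M mn cs v i = true then
      (if d - 3 ^ i < 3 ^ (i / 2) then
        wlab M mn cs e (some (chd M mn cs e i)) (d - 3 ^ i) t
      else if d - 3 ^ i = 3 ^ (i / 2) then
        (if (i / 2 - 1) / 2 < t ∧ t ≤ i / 2 then .T else .blank)
      else .blank)
    else .blank := by
  have hl : Nat.log 3 d = i := Nat.log_eq_of_pow_le_of_lt_pow h1 h2
  have h0 : 0 < 3 ^ i := by positivity
  rw [wlab, dif_neg (by omega), hl]

private theorem lc_lau0 (v : Option ℕ) : ¬ Lau M mn cs v 0 = true := by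
  unfold Lau
  simp

private theorem lc_loc {d : ℕ} (h0 : 0 < d) : ∃ i, 3 ^ i ≤ d ∧ d < 3 ^ (i + 1) :=
  ⟨Nat.log 3 d, Nat.pow_log_le_self 3 (by omega), Nat.lt_pow_succ_log_self (by norm_num) d⟩

private theorem lc_lev {d i j : ℕ} (h0 : 0 < d) (hd : d < 3 ^ (i + 1)) (h1 : 3 ^ j ∣ d) :
    j ≤ i := by
  have h2 : 3 ^ j ≤ d := Nat.le_of_dvd h0 h1
  have h3 : 3 ^ j < 3 ^ (i + 1) := by omega
  have := (Nat.pow_lt_pow_iff_right (a := 3) (by norm_num)).1 h3
  omega

/-- the column before a power of three is not the start of a sub-corner -/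
private theorem lc_last (v : Option ℕ) {k : ℕ} (hk : 1 ≤ k) :
    wlab M mn cs e v (3 ^ k - 1) 0 ≠ .P := by
  obtain ⟨i, rfl⟩ : ∃ i, k = i + 1 := ⟨k - 1, by omega⟩
  have h0 : 0 < 3 ^ i := by positivity
  have h3 : 3 ^ (i + 1) = 3 * 3 ^ i := by rw [pow_succ]; ring
  have h4 : 3 ^ (i / 2) ≤ 3 ^ i := Nat.pow_le_pow_right (by norm_num) (Nat.div_le_self i 2)
  rw [lc_w v (i := i) (by omega) (by omega), if_neg (by omega)]
  by_cases hL : Lau M mn cs v i = true
  · rw [if_pos hL, if_neg (by omega)]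
    split_ifs <;> simp
  · rw [if_neg hL]
    simp

theorem hw_pass (hT : Tm M mn cs e r μ) (v : Option ℕ) {d j t : ℕ} (h0 : 0 < d)
    (h1 : 3 ^ j ∣ d) (h2 : ¬ 3 ^ (j + 1) ∣ d) (ht : j < t) :
    hlab M mn cs e v d t = hlab M mn cs e v (d - 1) t ∧ wlab M mn cs e v d t = .blank := by
  induction d using Nat.strong_induction_on generalizing v j with
  | _ d ih =>
  obtain ⟨i, hi1, hi2⟩ := lc_loc h0
  have hji : j ≤ i := lc_lev h0 hi2 h1
  have hp : 0 < 3 ^ i := by positivity
  rcases eq_or_lt_of_le hi1 with hd | hd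
  · -- `d = 3 ^ i`
    have hij : i < j + 1 := by
      by_contra hlt
      exact h2 (hd ▸ pow_dvd_pow 3 (by omega))
    refine ⟨?_, ?_⟩
    · rw [lc_h v hi1 hi2, if_pos (by omega)]
      rcases Nat.eq_zero_or_pos (d - 1) with h | h
      · rw [h, hlab, dif_pos rfl]
      · obtain ⟨i', hi1', hi2'⟩ := lc_loc h
        have hle : i' ≤ i := by
          have h3 : 3 ^ i' < 3 ^ (i + 1) := by omega
          have := (Nat.pow_lt_pow_iff_right (a := 3) (by norm_num)).1 h3
          omega
        rw [lc_h v hi1' hi2', if_pos (by omega)]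
    · rw [lc_w v hi1 hi2, if_pos hd.symm, if_pos (by omega)]
  · -- `d > 3 ^ i`
    have hi1' : 3 ^ i ≤ d - 1 := by omega
    have hi2' : d - 1 < 3 ^ (i + 1) := by omega
    -- the case of a small remainder
    have hsm : Lau M mn cs v i = true → d - 3 ^ i < 3 ^ (i / 2) →
        3 ^ j ∣ d - 3 ^ i ∧ ¬ 3 ^ (j + 1) ∣ d - 3 ^ i := by
      intro _ hlt
      have hji' : j + 1 ≤ i := by
        by_contra hlt'
        have hj : j = i := by omega
        subst hj
        have h3 : 3 ^ j ∣ d - 3 ^ j := Nat.dvd_sub h1 (dvd_refl _)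
        have h4 : 3 ^ j ≤ d - 3 ^ j := Nat.le_of_dvd (by omega) h3
        have h5 : 3 ^ (j / 2) ≤ 3 ^ j := Nat.pow_le_pow_right (by norm_num) (Nat.div_le_self j 2)
        omega
      refine ⟨Nat.dvd_sub h1 (pow_dvd_pow 3 hji), fun h3 => h2 ?_⟩
      have h4 := Nat.dvd_add h3 (pow_dvd_pow 3 hji' : 3 ^ (j + 1) ∣ 3 ^ i)
      rwa [Nat.sub_add_cancel hi1] at h4
    have heq : Lau M mn cs v i = true → d - 3 ^ i = 3 ^ (i / 2) → i / 2 ≤ j := by
      intro hL he
      have hi0 : i ≠ 0 := by
        rintro rfl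
        exact lc_lau0 v hL
      by_contra hlt
      apply h2
      have h3 : 3 ^ (j + 1) ∣ 3 ^ (i / 2) := pow_dvd_pow 3 (by omega)
      have h4 : 3 ^ (j + 1) ∣ 3 ^ i := pow_dvd_pow 3 (by omega)
      have h5 := Nat.dvd_add h3 h4
      rwa [← he, Nat.sub_add_cancel hi1] at h5
    refine ⟨?_, ?_⟩
    · rw [lc_h v hi1 hi2, lc_h v hi1' hi2']
      by_cases c1 : i < t
      · rw [if_pos c1, if_pos c1]
      rw [if_neg c1, if_neg c1]
      by_cases c2 : i / 2 ≤ t
      · rw [if_pos c2, if_pos c2]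
      rw [if_neg c2, if_neg c2]
      by_cases hL : Lau M mn cs v i = true
      · by_cases c3 : d - 3 ^ i < 3 ^ (i / 2)
        · rw [if_pos ⟨hL, c3⟩, if_pos ⟨hL, by omega⟩]
          have h5 := (ih (d - 3 ^ i) (by omega) (some (chd M mn cs e i)) (by omega)
            (hsm hL c3).1 (hsm hL c3).2 ht).1
          rw [h5]
          congr 1
          omega
        · rw [if_neg fun h => c3 h.2]
          have c4 : ¬ (d - 1 - 3 ^ i < 3 ^ (i / 2)) := by
            intro h
            have := heq hL (by omega)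
            omega
          rw [if_neg fun h => c4 h.2]
      · rw [if_neg fun h => hL h.1, if_neg fun h => hL h.1]
    · rw [lc_w v hi1 hi2, if_neg (by omega)]
      by_cases hL : Lau M mn cs v i = true
      · rw [if_pos hL]
        by_cases c3 : d - 3 ^ i < 3 ^ (i / 2)
        · rw [if_pos c3]
          exact (ih (d - 3 ^ i) (by omega) (some (chd M mn cs e i)) (by omega)
            (hsm hL c3).1 (hsm hL c3).2 ht).2
        · rw [if_neg c3]
          by_cases c4 : d - 3 ^ i = 3 ^ (i / 2)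
          · rw [if_pos c4, if_neg]
            have := heq hL c4
            omega
          · rw [if_neg c4]
      · rw [if_neg hL]

theorem hw_base (hT : Tm M mn cs e r μ) (v : Option ℕ) {d : ℕ} (h0 : 0 < d) :
    (wlab M mn cs e v d 0 = .blank ∨ wlab M mn cs e v d 0 = .P ∨ wlab M mn cs e v d 0 = .I0) ∧
    (wlab M mn cs e v d 0 = .I0 ↔ wlab M mn cs e v (d - 1) 0 = .P) := by
  induction d using Nat.strong_induction_on generalizing v with
  | _ d ih =>
  obtain ⟨i, hi1, hi2⟩ := lc_loc h0
  have hp : 0 < 3 ^ i := by positivity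
  rcases eq_or_lt_of_le hi1 with hd | hd
  · -- `d = 3 ^ i`
    rcases Nat.eq_zero_or_pos i with hi | hi
    · subst hi
      have hd1 : d = 1 := by rw [← hd]; rfl
      subst hd1
      have h3 : wlab M mn cs e v 1 0 = .I0 := by
        rw [lc_w v hi1 hi2, if_pos hd.symm, if_neg (by omega), if_pos rfl]
      have h4 : wlab M mn cs e v (1 - 1) 0 = .P := by
        rw [wlab, dif_pos rfl]
      exact ⟨Or.inr (Or.inr h3), by rw [h3, h4]; simp⟩
    · have h3 : wlab M mn cs e v d 0 = if Lau M mn cs v i = true then .P else .blank := by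
        rw [lc_w v hi1 hi2, if_pos hd.symm, if_neg (by omega), if_neg (by omega),
          if_neg (by omega)]
      have h4 : wlab M mn cs e v (d - 1) 0 ≠ .P := by
        rw [← hd]
        exact lc_last v hi
      rw [h3]
      by_cases hL : Lau M mn cs v i = true
      · rw [if_pos hL]
        exact ⟨Or.inr (Or.inl rfl), ⟨fun h => by simp at h, fun h => absurd h h4⟩⟩
      · rw [if_neg hL]
        exact ⟨Or.inl rfl, ⟨fun h => by simp at h, fun h => absurd h h4⟩⟩
  · -- `d > 3 ^ i`
    have hi1' : 3 ^ i ≤ d - 1 := by omega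
    have hi2' : d - 1 < 3 ^ (i + 1) := by omega
    have hne : ¬ d = 3 ^ i := by omega
    by_cases hL : Lau M mn cs v i = true
    · obtain ⟨ho, h3i⟩ := hT.lau_odd v i hL
      have hk1 : 1 ≤ i / 2 := by omega
      have hk3 : 3 ^ 1 ≤ 3 ^ (i / 2) := Nat.pow_le_pow_right (by norm_num) hk1
      have hA : d - 3 ^ i < 3 ^ (i / 2) →
          wlab M mn cs e v d 0 = wlab M mn cs e (some (chd M mn cs e i)) (d - 3 ^ i) 0 := by
        intro h
        rw [lc_w v hi1 hi2, if_neg hne, if_pos hL, if_pos h]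
      have hB : ¬ d - 3 ^ i < 3 ^ (i / 2) → wlab M mn cs e v d 0 = .blank := by
        intro h
        rw [lc_w v hi1 hi2, if_neg hne, if_pos hL, if_neg h]
        split_ifs with h5 h6
        · omega
        · rfl
        · rfl
      by_cases c1 : d - 1 = 3 ^ i
      · -- the first column of the child
        have hs : d - 3 ^ i = 1 := by omega
        have h4 : wlab M mn cs e v (d - 1) 0 = .P := by
          rw [lc_w v hi1' hi2', if_pos c1, if_neg (by omega), if_neg (by omega),
            if_neg (by omega), if_pos hL]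
        have h5 : wlab M mn cs e v d 0 = .I0 := by
          rw [hA (by omega), hs, lc_w _ (i := 0) (by norm_num) (by norm_num), if_pos (by norm_num),
            if_neg (by omega), if_pos rfl]
        exact ⟨Or.inr (Or.inr h5), by rw [h4, h5]; simp⟩
      · have hC : d - 1 - 3 ^ i < 3 ^ (i / 2) → wlab M mn cs e v (d - 1) 0 =
            wlab M mn cs e (some (chd M mn cs e i)) (d - 3 ^ i - 1) 0 := by
          intro h
          rw [lc_w v hi1' hi2', if_neg c1, if_pos hL, if_pos h]
          congr 1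
          omega
        by_cases c2 : d - 3 ^ i < 3 ^ (i / 2)
        · rw [hA c2, hC (by omega)]
          exact ih (d - 3 ^ i) (by omega) _ (by omega)
        · rw [hB c2]
          refine ⟨Or.inl rfl, ⟨fun h => by simp at h, fun h => ?_⟩⟩
          exfalso
          by_cases c3 : d - 3 ^ i = 3 ^ (i / 2)
          · rw [hC (by omega), c3] at h
            exact lc_last _ hk1 h
          · rw [lc_w v hi1' hi2', if_neg c1, if_pos hL, if_neg (by omega)] at h
            split_ifs at h
    · have hA : wlab M mn cs e v d 0 = .blank := by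
        rw [lc_w v hi1 hi2, if_neg hne, if_neg hL]
      rw [hA]
      refine ⟨Or.inl rfl, ⟨fun h => by simp at h, fun h => ?_⟩⟩
      exfalso
      rw [lc_w v hi1' hi2', if_neg hL] at h
      split_ifs at h

end H96.CK
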