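import Pool.Agent.H96.CK.LaneA

/-!
# Module LaneD (250 lines): the columns of finite level

`x` is a column of level `i`. Look at the cells `t ≤ i` from the top. Note `W x (i + 1) = blank` (`pass`).
* `nonspec`: the cell `t = i - 1` (`i ≥ 1`) has `sA = -1`; of all cases of `LRule` only `(blank, blank)` is possible:
  `(P, P)` needs `sB = cl (i - 1 - i/2) < 0`, impossible; the `V`, `T` cases need `F` on the left. Then the cells below
  have `wu = blank` and `sA = -2`, so `wd = blank`; the cell `t = i` has `wd = blank` and `wu = blank`. For `i = 0`: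
  `wu = blank`, `wd ≠ I0`, `P` is impossible.
* `spec_zero`: case `(I0, blank)`.
* `spec_any`: `F` at the left of the cell `i - 1` excludes `(blank, blank)` and `(P, P)`, so `W x i` is `V` or `T`
  and by the top cell we are in the first or the second case.
* `spec_V`: go down from the top: `W x t = V g (J t)` for `b < t ≤ i` with one `g` (`b = (i-1)/2`; `Bot` holds only at
  `t = b`, `Mid` only for `b < t < i`, by `odd_iff`), and `W x b` is `P` or `blank` according to `lch`; below it stays so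
  (`(P,P)` or `(blank, blank)`; `(P, P)` needs `sB < 0`, fine; `W x 0` is not `V`). `P` needs `dB = 3`, so `i` odd.
-/

namespace H96.CK

variable {K G : Type} [DecidableEq G] {M : SM K G} {mn : K} {cs : G} {c : ℕ → ℤ}
  {dA dB : ℤ → ℕ} {H : ℤ → ℕ → HL M} {W : ℤ → ℕ → WL M}

private lemma cA0 {t i : ℕ} (h : t ≤ i) : cl ((t : ℤ) - i) = 0 ↔ t = i := by
  unfold cl; omega

private lemma cA1 {t i : ℕ} (h : t ≤ i) : cl ((t : ℤ) - i) = -1 ↔ t + 1 = i := by
  unfold cl; omega

private lemma cA2 {t i : ℕ} (h : t ≤ i) : cl ((t : ℤ) - i) = -2 ↔ t + 2 ≤ i := by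
  unfold cl; omega

private lemma cAn {t i : ℕ} : cl ((t : ℤ) - i) < 0 ↔ t < i := by
  unfold cl; omega

private lemma cBn {t i : ℕ} : cl ((t : ℤ) - (i / 2 : ℕ)) < 0 ↔ t < i / 2 := by
  unfold cl; omega

private lemma cB1 {t i : ℕ} : cl ((t : ℤ) - (i / 2 : ℕ)) = -1 ↔ t + 1 = i / 2 := by
  unfold cl; omega

private lemma bot_iff {t i d : ℕ} (ho : 3 ∣ d ↔ i % 2 = 1) :
    Bot (cl ((t : ℤ) - i)) (cl ((t : ℤ) - (i / 2 : ℕ))) d ↔ t < i ∧ t = (i - 1) / 2 := by
  unfold Bot
  rw [ho]
  unfold cl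
  omega

private lemma mid_iff {t i d : ℕ} (ho : 3 ∣ d ↔ i % 2 = 1) :
    Mid (cl ((t : ℤ) - i)) (cl ((t : ℤ) - (i / 2 : ℕ))) d ↔ t < i ∧ (i - 1) / 2 < t := by
  unfold Mid
  rw [ho]
  unfold cl
  omega

private lemma below_blank (hL : LaneOk M mn cs c dA dB H W) {x : ℤ} {i t : ℕ}
    (hx : IsLv 3 c x i) (ht : t < i) (hu : W x (t + 1) = .blank) :
    W x t = .blank ∧ H x t = H (x - 1) t ∧ (t < i / 2 → H (x - 1) t = .blank) := by
  have h := hL.rule x t i hx ht.le
  rw [hu] at h
  have hne : cl ((t : ℤ) - i) ≠ 0 := fun h' => by rw [cA0 ht.le] at h'; omega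
  cases hw : W x t with
  | blank =>
    rw [hw] at h
    exact ⟨rfl, h.1, fun h' => h.2.1 (cBn.2 h')⟩
  | P => rw [hw] at h; exact h.elim
  | I0 => rw [hw] at h; exact (hne h.1).elim
  | T => rw [hw] at h; exact (hne h.1).elim
  | V g j => rw [hw] at h; exact (hne h.1).elim

private lemma below_P (hL : LaneOk M mn cs c dA dB H W) {x : ℤ} {i t : ℕ}
    (hx : IsLv 3 c x i) (ht : t ≤ i) (hu : W x (t + 1) = .P) :
    W x t = .P ∧ H x t = .blank := by
  have h := hL.rule x t i hx ht
  rw [hu] at h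
  cases hw : W x t with
  | blank => rw [hw] at h; exact h.elim
  | P => rw [hw] at h; exact ⟨rfl, h.2.2.2.2.2⟩
  | I0 => rw [hw] at h; exact h.elim
  | T => rw [hw] at h; exact h.elim
  | V g j => rw [hw] at h; exact h.elim

private lemma below_T (hc : ColOk c dA dB) (hL : LaneOk M mn cs c dA dB H W) {x : ℤ} {i t : ℕ}
    (hx : IsLv 3 c x i) (ht : t < i) (hu : W x (t + 1) = .T) :
    TCell (M := M) (cl ((t : ℤ) - i)) (H (x - 1) t) (H x t) ∧
      ((t = (i - 1) / 2 ∧ W x t = .blank) ∨ ((i - 1) / 2 < t ∧ W x t = .T)) := by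
  have h := hL.rule x t i hx ht.le
  rw [hu] at h
  cases hw : W x t with
  | blank =>
    rw [hw] at h
    exact ⟨h.2.2, Or.inl ⟨((bot_iff (hc.odd_iff hx)).1 h.1).2, rfl⟩⟩
  | P => rw [hw] at h; exact h.elim
  | I0 => rw [hw] at h; exact h.elim
  | T =>
    rw [hw] at h
    exact ⟨h.2.2, Or.inr ⟨((mid_iff (hc.odd_iff hx)).1 h.1).2, rfl⟩⟩
  | V g j => rw [hw] at h; exact h.elim

private lemma below_V (hc : ColOk c dA dB) (hL : LaneOk M mn cs c dA dB H W) {x : ℤ} {i t : ℕ}
    (hx : IsLv 3 c x i) (ht : t < i) {g : Glob M} {j : Info K G} (hu : W x (t + 1) = .V g j) :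
    ∃ ji, VCell M mn cs (cl ((t : ℤ) - i)) (decide (t = (i - 1) / 2 ∧ i % 2 = 0)) (H (x - 1) t)
        (H x t) g ji j ∧
      ((t = (i - 1) / 2 ∧ ji = Info.ini K G ∧ (g.ch = true → g.st.chOK M = true) ∧
        ((W x t = .blank ∧ g.st.lch = false) ∨ (W x t = .P ∧ g.st.lch = true ∧ dB x = 3))) ∨
       ((i - 1) / 2 < t ∧ W x t = .V g ji)) := by
  have h := hL.rule x t i hx ht.le
  rw [hu] at h
  have hd : t = (i - 1) / 2 → decide (cl ((t : ℤ) - (i / 2 : ℕ)) = -1)
      = decide (t = (i - 1) / 2 ∧ i % 2 = 0) := by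
    intro h'
    apply decide_eq_decide.2
    rw [cB1]
    omega
  cases hw : W x t with
  | blank =>
    rw [hw] at h
    have hb := ((bot_iff (hc.odd_iff hx)).1 h.1).2
    have hv := h.2.2.2.2
    rw [hd hb] at hv
    exact ⟨_, hv, Or.inl ⟨hb, rfl, h.2.2.1, Or.inl ⟨rfl, h.2.2.2.1⟩⟩⟩
  | P =>
    rw [hw] at h
    have hb := ((bot_iff (hc.odd_iff hx)).1 h.1).2
    have hv := h.2.2.2.2.2
    rw [hd hb] at hv
    exact ⟨_, hv, Or.inl ⟨hb, rfl, h.2.2.2.1, Or.inr ⟨rfl, h.2.2.2.2.1, h.2.2.1⟩⟩⟩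
  | I0 => rw [hw] at h; exact h.elim
  | T => rw [hw] at h; exact h.elim
  | V g' j' =>
    rw [hw] at h
    obtain ⟨h1, h2, h3, h4⟩ := h
    have hm := ((mid_iff (hc.odd_iff hx)).1 h1).2
    have hf : decide (t = (i - 1) / 2 ∧ i % 2 = 0) = false := decide_eq_false (by omega)
    subst h3
    rw [hf]
    exact ⟨j', h4, Or.inr ⟨hm, rfl⟩⟩

/-- the wire is blank from some cell on downwards -/
private lemma down_blank (hL : LaneOk M mn cs c dA dB H W) {x : ℤ} {i : ℕ}
    (hx : IsLv 3 c x i) (n : ℕ) (hn : n ≤ i) (hu : W x n = .blank) :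
    ∀ t, t ≤ n → W x t = .blank ∧ (t < n → H x t = H (x - 1) t ∧
      (t < i / 2 → H (x - 1) t = .blank)) := by
  induction n with
  | zero =>
    intro t ht
    obtain rfl : t = 0 := by omega
    exact ⟨hu, fun h => absurd h (lt_irrefl _)⟩
  | succ n ih =>
    have h1 := below_blank hL hx (by omega) hu
    have h2 := ih (by omega) h1.1
    intro t ht
    rcases Nat.lt_or_ge t (n + 1) with h3 | h3
    · refine ⟨(h2 t (by omega)).1, fun _ => ?_⟩
      rcases Nat.lt_or_ge t n with h4 | h4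
      · exact (h2 t (by omega)).2 h4
      · obtain rfl : t = n := by omega
        exact h1.2
    · obtain rfl : t = n + 1 := by omega
      exact ⟨hu, fun h => absurd h (lt_irrefl _)⟩

private lemma down_P (hL : LaneOk M mn cs c dA dB H W) {x : ℤ} {i : ℕ}
    (hx : IsLv 3 c x i) (n : ℕ) (hn : n ≤ i) (hu : W x n = .P) :
    ∀ t, t ≤ n → W x t = .P ∧ (t < n → H x t = .blank) := by
  induction n with
  | zero =>
    intro t ht
    obtain rfl : t = 0 := by omega
    exact ⟨hu, fun h => absurd h (lt_irrefl _)⟩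
  | succ n ih =>
    have h1 := below_P hL hx (by omega) hu
    have h2 := ih (by omega) h1.1
    intro t ht
    rcases Nat.lt_or_ge t (n + 1) with h3 | h3
    · refine ⟨(h2 t (by omega)).1, fun _ => ?_⟩
      rcases Nat.lt_or_ge t n with h4 | h4
      · exact (h2 t (by omega)).2 h4
      · obtain rfl : t = n := by omega
        exact h1.2
    · obtain rfl : t = n + 1 := by omega
      exact ⟨hu, fun h => absurd h (lt_irrefl _)⟩

theorem nonspec (hc : ColOk c dA dB) (hL : LaneOk M mn cs c dA dB H W) {x : ℤ} {i : ℕ}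
    (hx : IsLv 3 c x i) (h1 : 1 ≤ i → ∀ l s, H (x - 1) (i - 1) ≠ .F l s)
    (h0 : W x 0 ≠ .I0) : (∀ t, W x t = .blank) ∧ ∀ t, H x t = H (x - 1) t := by
  have htop : W x (i + 1) = .blank := (hL.pass x (i + 1) i hx (by omega)).2
  have hr := hL.rule x i i hx le_rfl
  rw [htop] at hr
  have hWi : W x i = .blank := by
    rcases Nat.eq_zero_or_pos i with rfl | hi
    · rcases hL.base1 x with h | h | h
      · exact h
      · rw [h] at hr; exact hr.elim
      · exact absurd h h0
    · have hcell : ∀ u, W x i = u → W x (i - 1 + 1) = u := fun u hu => by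
        rw [Nat.sub_add_cancel hi]; exact hu
      have hlt : i - 1 < i := by omega
      have hA : cl (((i - 1 : ℕ) : ℤ) - i) = -1 := (cA1 hlt.le).2 (by omega)
      cases hw : W x i with
      | blank => rfl
      | P => rw [hw] at hr; exact hr.elim
      | I0 =>
        have h := hL.rule x (i - 1) i hx hlt.le
        rw [hcell _ hw] at h
        cases hv : W x (i - 1) with
        | blank => rw [hv] at h; exact h.elim
        | P => rw [hv] at h; exact h.elim
        | I0 => rw [hv] at h; exact h.elim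
        | T => rw [hv] at h; exact h.elim
        | V g j => rw [hv] at h; exact h.elim
      | T =>
        obtain ⟨⟨h2, -⟩, -⟩ := below_T hc hL hx hlt (hcell _ hw)
        rcases h2 with ⟨l, h3, -⟩ | ⟨l, s, -, h3, -⟩
        · rw [hA] at h3; omega
        · exact (h1 hi l s h3).elim
      | V g j =>
        obtain ⟨ji, ⟨l, h2, -⟩, -⟩ := below_V hc hL hx hlt (hcell _ hw)
        rcases h2 with ⟨h3, -⟩ | ⟨-, h3, -⟩
        · rw [hA] at h3; omega
        · exact (h1 hi _ _ h3).elim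
  rw [hWi] at hr
  have hd := down_blank hL hx i le_rfl hWi
  refine ⟨fun t => ?_, fun t => ?_⟩
  · rcases Nat.lt_or_ge i t with h | h
    · exact (hL.pass x t i hx h).2
    · exact (hd t h).1
  · rcases Nat.lt_or_ge i t with h | h
    · exact (hL.pass x t i hx h).1
    · rcases Nat.lt_or_ge t i with h2 | h2
      · exact ((hd t h).2 h2).1
      · obtain rfl : t = i := by omega
        exact hr.1

theorem spec_zero (hc : ColOk c dA dB) (hL : LaneOk M mn cs c dA dB H W) {x : ℤ}
    (h0 : W x 0 = .I0) : IsLv 3 c x 0 ∧ dA x = 1 ∧ H (x - 1) 0 = .blank ∧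
      H x 0 = .F (Lam0 K G) (St.init M) ∧ ∀ t, 1 ≤ t → W x t = .blank ∧ H x t = H (x - 1) t := by
  have key : ∀ sA sB, LRule M mn cs sA sB (dA x) (dB x) (H (x - 1) 0) (H x 0) (W x 0) (W x (0 + 1)) →
      sA = 0 ∧ dA x = 1 ∧ H (x - 1) 0 = .blank ∧ H x 0 = .F (Lam0 K G) (St.init M) := by
    intro sA sB h
    rw [h0] at h
    cases hv : W x (0 + 1) with
    | blank => rw [hv] at h; exact h
    | P => rw [hv] at h; exact h.elim
    | I0 => rw [hv] at h; exact h.elim
    | T => rw [hv] at h; exact h.elim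
    | V g j => rw [hv] at h; exact h.elim
  rcases lv_or 3 c x with ⟨i, hi⟩ | hinf
  · obtain ⟨h1, h2, h3, h4⟩ := key _ _ (hL.rule x 0 i hi (Nat.zero_le _))
    have h5 := (cA0 (Nat.zero_le i)).1 h1
    subst h5
    refine ⟨hi, h2, h3, h4, fun t ht => ?_⟩
    have h6 := hL.pass x t 0 hi (by omega)
    exact ⟨h6.2, h6.1⟩
  · obtain ⟨h1, -⟩ := key _ _ (hL.inf x 0 hinf)
    omega

theorem spec_any (hc : ColOk c dA dB) (hL : LaneOk M mn cs c dA dB H W) {x : ℤ} {i : ℕ}
    (hi : 1 ≤ i) (hx : IsLv 3 c x i) {l : Lam K G} {s : St M.Q}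
    (hF : H (x - 1) (i - 1) = .F l s) :
    dA x = 1 ∧
    ((H (x - 1) i = .blank ∧ (∃ l' s', H x i = .F l' s') ∧ (∃ g j, W x i = .V g j)) ∨
     (s.acc = true ∧ (∃ l', H (x - 1) i = .A l' ∧ H x i = .A l') ∧ (∀ t < i, H x t = .blank) ∧
      ∀ t, W x t = if (i - 1) / 2 < t ∧ t ≤ i then .T else .blank)) := by
  have htop : W x (i + 1) = .blank := (hL.pass x (i + 1) i hx (by omega)).2
  have hr := hL.rule x i i hx le_rfl
  rw [htop] at hr
  have hcell : ∀ u, W x i = u → W x (i - 1 + 1) = u := fun u hu => by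
    rw [Nat.sub_add_cancel hi]; exact hu
  have hlt : i - 1 < i := by omega
  have hA : cl (((i - 1 : ℕ) : ℤ) - i) = -1 := (cA1 hlt.le).2 (by omega)
  cases hw : W x i with
  | P => rw [hw] at hr; exact hr.elim
  | blank =>
    have h := hL.rule x (i - 1) i hx hlt.le
    rw [hcell _ hw, hF, hA] at h
    cases hv : W x (i - 1) with
    | blank =>
      rw [hv] at h
      have h2 := (h.2.2 l s rfl).1
      omega
    | P => rw [hv] at h; exact h.elim
    | I0 => rw [hv] at h; have h2 := h.1; omega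
    | T => rw [hv] at h; have h2 := h.1; omega
    | V g j => rw [hv] at h; have h2 := h.1; omega
  | I0 =>
    have h := hL.rule x (i - 1) i hx hlt.le
    rw [hcell _ hw] at h
    cases hv : W x (i - 1) with
    | blank => rw [hv] at h; exact h.elim
    | P => rw [hv] at h; exact h.elim
    | I0 => rw [hv] at h; exact h.elim
    | T => rw [hv] at h; exact h.elim
    | V g j => rw [hv] at h; exact h.elim
  | V g j =>
    rw [hw] at hr
    obtain ⟨-, h2, h3, h4⟩ := hr
    exact ⟨h2, Or.inl ⟨h3, ⟨_, _, h4⟩, g, j, rfl⟩⟩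
  | T =>
    rw [hw] at hr
    obtain ⟨-, h2, h3, l', h4⟩ := hr
    refine ⟨h2, Or.inr ⟨?_, ⟨l', h4, h3.trans h4⟩, ?_⟩⟩
    · obtain ⟨⟨h5, -⟩, -⟩ := below_T hc hL hx hlt (hcell _ hw)
      rcases h5 with ⟨l, h6, -⟩ | ⟨l1, s1, -, h6, h7⟩
      · rw [hA] at h6; omega
      · rw [hF] at h6
        injection h6 with e1 e2
        rw [e2]
        exact h7
    · -- going down
      have hT : ∀ n t, t + n = i → (i - 1) / 2 < t → W x t = .T := by
        intro n
        induction n with
        | zero =>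
          intro t h5 _
          obtain rfl : t = i := by omega
          exact hw
        | succ n ih =>
          intro t h5 h6
          have h7 := ih (t + 1) (by omega) (by omega)
          obtain ⟨-, h8 | h8⟩ := below_T hc hL hx (by omega : t < i) h7
          · omega
          · exact h8.2
      have hT' : ∀ t, (i - 1) / 2 < t → t ≤ i → W x t = .T := fun t h5 h6 =>
        hT (i - t) t (by omega) h5
      have hb : (i - 1) / 2 < i := by omega
      have hbW : W x ((i - 1) / 2) = .blank := by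
        obtain ⟨-, h8 | h8⟩ := below_T hc hL hx hb (hT' _ (by omega) (by omega))
        · exact h8.2
        · omega
      have hd := down_blank hL hx _ hb.le hbW
      refine ⟨fun t ht => ?_, fun t => ?_⟩
      · rcases Nat.lt_or_ge t ((i - 1) / 2) with h5 | h5
        · have h6 := (hd t h5.le).2 h5
          rw [h6.1]
          exact h6.2 (by omega)
        · obtain ⟨⟨-, h6⟩, -⟩ := below_T hc hL hx ht (hT' _ (by omega) (by omega))
          exact h6
      · split_ifs with h5
        · exact hT' t h5.1 h5.2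
        · rcases Nat.lt_or_ge i t with h6 | h6
          · exact (hL.pass x t i hx h6).2
          · exact (hd t (by omega)).1

theorem spec_V (hc : ColOk c dA dB) (hL : LaneOk M mn cs c dA dB H W) {x : ℤ} {i : ℕ}
    (hi : 1 ≤ i) (hx : IsLv 3 c x i) {lam : ℕ → Lam K G} {s : St M.Q}
    (hF : H (x - 1) (i - 1) = .F (lam (i - 1)) s)
    (hA : ∀ t, (i - 1) / 2 ≤ t → t < i - 1 → H (x - 1) t = .A (lam t))
    (h0 : H (x - 1) i = .blank) :
    (s.lch = true → i % 2 = 1) ∧ ∃ (ch : Bool) (J : ℕ → Info K G),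
      (ch = true → s.chOK M = true) ∧ J ((i - 1) / 2) = Info.ini K G ∧
      (∀ t, (i - 1) / 2 ≤ t → t < i →
        J (t + 1) = Info.up mn cs (decide (t = (i - 1) / 2 ∧ i % 2 = 0)) (lam t) (J t)) ∧
      (∀ t, (i - 1) / 2 < t → t ≤ i → W x t = .V ⟨s, lam (i - 1), ch⟩ (J t)) ∧
      (∀ t, t ≤ (i - 1) / 2 → W x t = if s.lch = true then .P else .blank) ∧
      (∀ t, t < (i - 1) / 2 → H x t = .blank) ∧
      (∀ t, (i - 1) / 2 ≤ t → t < i → H x t = if t = (i - 1) / 2 ∧ i % 2 = 0 then .blank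
        else .A (Glob.newA mn ⟨s, lam (i - 1), ch⟩ (lam t) (J t).y1 (J t).y2)) ∧
      H x i = .F (Glob.newT mn ⟨s, lam (i - 1), ch⟩ (J i).y1 (J i).y2)
        (s.next M (lam (i - 1)) ch (J i).e (J i).z) := by
  have htop : W x (i + 1) = .blank := (hL.pass x (i + 1) i hx (by omega)).2
  have hr := hL.rule x i i hx le_rfl
  rw [htop] at hr
  obtain ⟨hd1, h1 | h1⟩ := spec_any hc hL hi hx hF
  swap
  · obtain ⟨-, ⟨l', h2, -⟩, -⟩ := h1
    rw [h0] at h2
    cases h2
  obtain ⟨-, -, g, ji, hw⟩ := h1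
  have hb : (i - 1) / 2 < i := by omega
  -- the wire is `V g _`
  have hV : ∀ n t, t + n = i → (i - 1) / 2 < t → ∃ j, W x t = .V g j := by
    intro n
    induction n with
    | zero =>
      intro t h5 _
      obtain rfl : t = i := by omega
      exact ⟨_, hw⟩
    | succ n ih =>
      intro t h5 h6
      obtain ⟨j, h7⟩ := ih (t + 1) (by omega) (by omega)
      obtain ⟨j', -, h8 | h8⟩ := below_V hc hL hx (by omega : t < i) h7
      · omega
      · exact ⟨j', h8.2⟩
  have hV' : ∀ t, (i - 1) / 2 < t → t ≤ i → ∃ j, W x t = .V g j := fun t h5 h6 =>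
    hV (i - t) t (by omega) h5
  -- the left lanes
  have hLeft : ∀ t, (i - 1) / 2 ≤ t → t < i → ∀ l, LeftV (cl ((t : ℤ) - i)) (H (x - 1) t) l g →
      l = lam t ∧ (t = i - 1 → g.st = s ∧ g.l0 = lam (i - 1)) := by
    intro t h2 h3 l h4
    rcases h4 with ⟨h5, h6⟩ | ⟨h5, h6, h7⟩
    · have h8 := (cA2 h3.le).1 h5
      rw [hA t h2 (by omega)] at h6
      injection h6 with e
      exact ⟨e.symm, fun h => by omega⟩
    · have h8 := (cA1 h3.le).1 h5
      obtain rfl : t = i - 1 := by omega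
      rw [hF] at h6
      injection h6 with e1 e2
      exact ⟨e1.symm, fun _ => ⟨e2.symm, h7 ▸ e1.symm⟩⟩
  have hg : g.st = s ∧ g.l0 = lam (i - 1) := by
    obtain ⟨j, h2⟩ := hV' (i - 1 + 1) (by omega) (by omega)
    obtain ⟨j', ⟨l, h3, -⟩, -⟩ := below_V hc hL hx (by omega : i - 1 < i) h2
    exact (hLeft (i - 1) (by omega) (by omega) l h3).2 rfl
  have hgg : g = ⟨s, lam (i - 1), g.ch⟩ := by
    obtain ⟨a1, a2, a3⟩ := g
    simp only at hg
    rw [hg.1, hg.2]
  let J' : ℕ → Info K G := fun n => Nat.rec (Info.ini K G)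
    (fun m j => Info.up mn cs (decide ((i - 1) / 2 + m = (i - 1) / 2 ∧ i % 2 = 0))
      (lam ((i - 1) / 2 + m)) j) n
  let J : ℕ → Info K G := fun t => J' (t - (i - 1) / 2)
  have hJb : J ((i - 1) / 2) = Info.ini K G := by
    change J' ((i - 1) / 2 - (i - 1) / 2) = _
    rw [Nat.sub_self]
    rfl
  have hJs : ∀ t, (i - 1) / 2 ≤ t →
      J (t + 1) = Info.up mn cs (decide (t = (i - 1) / 2 ∧ i % 2 = 0)) (lam t) (J t) := by
    intro t ht
    obtain ⟨m, rfl⟩ := Nat.exists_eq_add_of_le ht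
    have e1 : (i - 1) / 2 + m + 1 - (i - 1) / 2 = m + 1 := by omega
    have e2 : (i - 1) / 2 + m - (i - 1) / 2 = m := by omega
    change J' ((i - 1) / 2 + m + 1 - (i - 1) / 2) = Info.up mn cs _ _
      (J' ((i - 1) / 2 + m - (i - 1) / 2))
    rw [e1, e2]
  -- the cells with their information
  have hcells : ∀ m, (i - 1) / 2 + m < i → ∀ t, t = (i - 1) / 2 + m →
      W x (t + 1) = .V g (J (t + 1)) ∧
      H x t = (if t = (i - 1) / 2 ∧ i % 2 = 0 then .blank
        else .A (Glob.newA mn g (lam t) (J t).y1 (J t).y2)) := by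
    intro m
    induction m with
    | zero =>
      intro h2 t ht
      obtain rfl : t = (i - 1) / 2 := by omega
      obtain ⟨j, h3⟩ := hV' ((i - 1) / 2 + 1) (by omega) (by omega)
      obtain ⟨j', ⟨l, h4, h5, h6⟩, h7⟩ := below_V hc hL hx hb h3
      have h8 := (hLeft _ le_rfl hb l h4).1
      rcases h7 with ⟨-, h9, -⟩ | ⟨h9, -⟩
      · subst h9 h8
        refine ⟨?_, ?_⟩
        · rw [h3, h5, hJs _ le_rfl, hJb]
        · rw [h6, hJb]
          simp only [decide_eq_true_eq]
      · omega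
    | succ m ih =>
      intro h2 t ht
      have h10 := (ih (by omega) ((i - 1) / 2 + m) rfl).1
      obtain ⟨j, h3⟩ := hV' (t + 1) (by omega) (by omega)
      obtain ⟨j', ⟨l, h4, h5, h6⟩, h7⟩ := below_V hc hL hx (by omega : t < i) h3
      have h8 := (hLeft t (by omega) (by omega) l h4).1
      rcases h7 with ⟨h9, -⟩ | ⟨h9, h11⟩
      · omega
      · have e : (i - 1) / 2 + m + 1 = t := by omega
        rw [e, h11] at h10
        injection h10 with e1 e2
        subst e2 h8
        refine ⟨?_, ?_⟩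
        · rw [h3, h5, hJs _ (by omega)]
        · rw [h6]
          simp only [decide_eq_true_eq]
  -- the bottom cell
  obtain ⟨j1, hj1⟩ := hV' ((i - 1) / 2 + 1) (by omega) (by omega)
  obtain ⟨j2, -, hbot⟩ := below_V hc hL hx hb hj1
  have hbot' : (g.ch = true → g.st.chOK M = true) ∧ ((W x ((i - 1) / 2) = .blank ∧
      g.st.lch = false) ∨ (W x ((i - 1) / 2) = .P ∧ g.st.lch = true ∧ dB x = 3)) := by
    rcases hbot with ⟨-, -, h2, h3⟩ | ⟨h2, -⟩
    · exact ⟨h2, h3⟩
    · omega
  obtain ⟨hch, hbW⟩ := hbot'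
  rw [hg.1] at hch hbW
  have hWi : W x i = .V g (J i) := by
    have h2 := (hcells (i - 1 - (i - 1) / 2) (by omega) (i - 1) (by omega)).1
    rwa [Nat.sub_add_cancel hi] at h2
  rw [hWi] at hr
  refine ⟨fun hl => ?_, g.ch, J, hch, hJb, fun t h2 _ => hJs t h2, ?_, ?_, ?_, ?_, ?_⟩
  · rcases hbW with h2 | h2
    · rw [h2.2] at hl; exact absurd hl (by simp)
    · exact ((hc.three_iff hx).1 h2.2.2).1
  · intro t h2 h3
    have h4 := (hcells (t - 1 - (i - 1) / 2) (by omega) (t - 1) (by omega)).1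
    rw [Nat.sub_add_cancel (by omega : 1 ≤ t)] at h4
    rw [h4, ← hgg]
  · intro t h2
    rcases hbW with h3 | h3
    · rw [h3.2, if_neg (by simp)]
      exact ((down_blank hL hx _ hb.le h3.1) t h2).1
    · rw [h3.2.1, if_pos rfl]
      exact ((down_P hL hx _ hb.le h3.1) t h2).1
  · intro t h2
    rcases hbW with h3 | h3
    · have h4 := ((down_blank hL hx _ hb.le h3.1) t h2.le).2 h2
      rw [h4.1]
      exact h4.2 (by omega)
    · exact ((down_P hL hx _ hb.le h3.1) t h2.le).2 h2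
  · intro t h2 h3
    have h4 := (hcells (t - (i - 1) / 2) (by omega) t (by omega)).2
    rw [h4, ← hgg]
  · obtain ⟨-, -, -, h4⟩ := hr
    rw [h4, ← hgg, ← hg.1, ← hg.2]

end H96.CK
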