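import Pool.Agent.H96.CK.LaneD

/-!
# Module LaneE (300 lines): every activity comes from a corner

A corner is a column `X` with `W X 0 = P`.
* `trace`: induction on `i`. Put `t = i - 1`. The columns strictly between `x - 3 ^ t` and `x` have level `< t`, so
  (`pass`) lane `t` keeps its label `F`; the column `x - 3 ^ t` has level `t` and digit 2 (`two_iff`); its cell `t` has
  `sA = 0` and `hr = F`: only `(blank, blank)` with `hl = F` is possible (`I0`, `V` need digit 1, `T` gives `A`). Again
  `pass`, the column `x - 2 * 3 ^ t` has level `t`, digit 1, `hr = F`: `(blank, blank)` would need digit 2; so it is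
  `I0` (then `t = 0`: `spec_zero` and `base2` give `W (x - 3) 0 = P`; `3 ^ i = 3`) or `V` and then its cell
  `t - 1` has `F` on the left (`LeftV`, `sA = -1`): induction with `x' = x - 2 * 3 ^ t`, `i' = t`, `X = x' - 3 ^ t`.
  (For `t = 0` there is no `V`: `base1`.) Also `spec_any`/`spec_V` for `dA x = 1`, so `3 ^ (i+1) ∣ X - c (i+1)` by
  `one_iff`.
* `corner_up`: from `W X 0 = P` go up: `(P, P)` or `(P, V)`; as `X` has finite level `k` the cells have `sA < 0`, and
  `sB < 0` only for `t < k / 2`, so `V` starts at `t = (k-1)/2 = k/2` (`dB = 3`, `k` odd, `three_iff`), and goes up to the top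
  (`Mid`), where `F` is born.
* `act_H`: go left along lane `t` from `x`: as long as no special column comes the label stays the same (`nonspec`,
  columns of infinite level: `(blank, blank)` or `(P, P)`: blank); a column of level `≥ 2 t + 2` (exists among the next
  `3 ^ (2 t + 2)` columns, `lv_between`) which is not special has blank lane `t` (`sB < 0` in `(blank, blank)`).
  A special column (`F` at `i - 1`, or `I0`) gives a corner by `trace` / `base2`.
* `act_W`: `W x t ≠ blank`: `V`, `T`: the column is special; `I0`: `t = 0` and `base2`; `P`: going down the wire stays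
  `P` (only `(P, P)` has `wu = P`), so `W x 0 = P`.
-/

namespace H96.CK

variable {K G : Type} [DecidableEq G] {M : SM K G} {mn : K} {cs : G} {c : ℕ → ℤ}
  {dA dB : ℤ → ℕ} {H : ℤ → ℕ → HL M} {W : ℤ → ℕ → WL M}

section RuleFacts

variable {sA sB : ℤ} {a b : ℕ} {hl hr : HL M} {wd wu : WL M} {g : Glob M} {j : Info K G}

private theorem wu_I0 (h : LRule M mn cs sA sB a b hl hr wd .I0) : False := by
  cases wd <;> exact h

private theorem wu_P (h : LRule M mn cs sA sB a b hl hr wd .P) :
    wd = .P ∧ sA < 0 ∧ sB < 0 ∧ a = 1 ∧ b = 3 ∧ hl = .blank ∧ hr = .blank := by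
  cases wd
  case P => exact ⟨rfl, h⟩
  all_goals exact (h : False).elim

private theorem wu_V (h : LRule M mn cs sA sB a b hl hr wd (.V g j)) :
    sA < 0 ∧ a = 1 ∧ ∃ l, LeftV sA hl l g := by
  cases wd
  case blank =>
    obtain ⟨h1, h2, -, -, l, h3, -⟩ := h
    exact ⟨h1.1, h2, l, h3⟩
  case P =>
    obtain ⟨h1, h2, -, -, -, l, h3, -⟩ := h
    exact ⟨h1.1, h2, l, h3⟩
  case V g' j' =>
    obtain ⟨h1, h2, h4, l, h3, -⟩ := h
    rw [← h4] at h3
    exact ⟨h1.1, h2, l, h3⟩
  all_goals exact (h : False).elim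

private theorem wu_T (h : LRule M mn cs sA sB a b hl hr wd .T) :
    sA < 0 ∧ a = 1 ∧ TCell sA hl hr := by
  cases wd
  case blank => exact ⟨h.1.1, h.2.1, h.2.2⟩
  case T => exact ⟨h.1.1, h.2.1, h.2.2⟩
  all_goals exact (h : False).elim

private theorem wd_V (h : LRule M mn cs sA sB a b hl hr (.V g j) wu) (hs : sA < 0) :
    ∃ j', wu = .V g j' := by
  cases wu
  case blank => exact absurd h.1 (by omega)
  case V g' j' => exact ⟨j', by rw [h.2.2.1]⟩
  all_goals exact (h : False).elim

private theorem wd_T (h : LRule M mn cs sA sB a b hl hr .T wu) (hs : sA < 0) : wu = .T := by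
  cases wu
  case blank => exact absurd h.1 (by omega)
  case T => rfl
  all_goals exact (h : False).elim

private theorem wd_P (h : LRule M mn cs sA sB a b hl hr .P wu) :
    (wu = .P ∧ sA < 0 ∧ sB < 0 ∧ a = 1 ∧ b = 3 ∧ hl = .blank ∧ hr = .blank) ∨
    (∃ g j, wu = .V g j ∧ Bot sA sB b ∧ a = 1 ∧ b = 3 ∧ g.st.lch = true ∧
      VCell M mn cs sA (decide (sB = -1)) hl hr g (Info.ini K G) j) := by
  cases wu
  case P => exact Or.inl ⟨rfl, h⟩
  case V g j => exact Or.inr ⟨g, j, rfl, h.1, h.2.1, h.2.2.1, h.2.2.2.2.1, h.2.2.2.2.2⟩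
  all_goals exact (h : False).elim

/-- the cell below the top has a new lane on the left if a wire goes up -/
private theorem left_F (h : LRule M mn cs (-1) sB a b hl hr wd wu)
    (hw : (∃ g j, wu = .V g j) ∨ wu = .T) : ∃ l s, hl = .F l s := by
  rcases hw with ⟨g, j, rfl⟩ | rfl
  · obtain ⟨-, -, l, h1 | h1⟩ := wu_V h
    · exact absurd h1.1 (by norm_num)
    · exact ⟨l, g.st, h1.2.1⟩
  · obtain ⟨-, -, h1 | h1, -⟩ := wu_T h
    · obtain ⟨l, h2, -⟩ := h1
      exact absurd h2 (by norm_num)
    · obtain ⟨l, s, -, h2, -⟩ := h1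
      exact ⟨l, s, h2⟩

end RuleFacts

private theorem pass_chain (hc : ColOk c dA dB) (hL : LaneOk M mn cs c dA dB H W) {X : ℤ} {n : ℕ}
    (hX : (3 : ℤ) ^ n ∣ X - c n) (d : ℕ) (hd : d < 3 ^ n) : H (X + d) n = H X n := by
  induction d with
  | zero => simp
  | succ d ih =>
    obtain ⟨j, h1, -, -, h2⟩ := lv_delta hc.coh hX (Nat.succ_pos d) hd
    have h3 := (hL.pass _ n j h2 h1).1
    rw [h3, ← ih (by omega)]
    congr 1
    push_cast
    ring

private theorem pass_chain' (hc : ColOk c dA dB) (hL : LaneOk M mn cs c dA dB H W) {x : ℤ} {n : ℕ}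
    (hX : (3 : ℤ) ^ n ∣ x - 3 ^ n - c n) : H (x - 1) n = H (x - 3 ^ n) n := by
  have h1 : 1 ≤ 3 ^ n := Nat.one_le_pow _ _ (by norm_num)
  have h2 := pass_chain hc hL hX (3 ^ n - 1) (by omega)
  rw [← h2]
  congr 1
  push_cast [h1]
  ring

theorem trace (hc : ColOk c dA dB) (hL : LaneOk M mn cs c dA dB H W) {x : ℤ} {i : ℕ}
    (hi : 1 ≤ i) (hx : IsLv 3 c x i) {l : Lam K G} {s : St M.Q}
    (hF : H (x - 1) (i - 1) = .F l s) :
    W (x - 3 ^ i) 0 = .P ∧ (3 : ℤ) ^ (i + 1) ∣ x - 3 ^ i - c (i + 1) ∧
      ∀ j < i, ∃ l' s', H (x - 3 ^ i + 3 ^ j) j = .F l' s' := by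
  have hone := (hc.one_iff hx).1 (spec_any hc hL hi hx hF).1
  induction i generalizing x l s with
  | zero => omega
  | succ t ih =>
    simp only [Nat.add_sub_cancel] at hF
    have hx0 : (3 : ℤ) ^ (t + 1) ∣ x - c (t + 1) := hx.1
    have hx1 : (3 : ℤ) ^ t ∣ x - c t := (hx.dvd hc.coh).2 (by omega)
    have hpd : ¬ (3 : ℤ) ^ (t + 1) ∣ 3 ^ t := by
      intro h
      have h1 : 3 ^ (t + 1) ∣ 3 ^ t := by exact_mod_cast h
      have h2 := (Nat.pow_dvd_pow_iff_le_right (by norm_num : 1 < 3)).1 h1
      omega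
    have hpd2 : ¬ (3 : ℤ) ^ (t + 1) ∣ 2 * 3 ^ t := by
      intro h
      apply hpd
      have h1 : (3 : ℤ) ^ t = 3 ^ (t + 1) - 2 * 3 ^ t := by ring
      rw [h1]
      exact dvd_sub (dvd_refl _) h
    -- the column `y`
    have hy : IsLv 3 c (x - 3 ^ t) t := by
      have := lv_add (z := -(3 : ℤ) ^ t) hc.coh hx0 (Nat.lt_succ_self t) (by simp) (by simpa using hpd)
      rwa [← sub_eq_add_neg] at this
    have hy2 : dA (x - 3 ^ t) = 2 := (hc.two_iff hy).2 (by rwa [sub_add_cancel])
    have hFy : H (x - 3 ^ t) t = .F l s := by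
      rw [← pass_chain' hc hL, hF]
      have h1 : x - 3 ^ t - c t = (x - c t) - 3 ^ t := by ring
      rw [h1]
      exact dvd_sub hx1 (dvd_refl _)
    have hcl : cl ((t : ℤ) - (t : ℤ)) = 0 := by
      rw [sub_self]
      rfl
    have hFy' : H (x - 3 ^ t - 1) t = .F l s := by
      have hr := hL.rule _ t t hy le_rfl
      rw [hcl, hy2] at hr
      rw [← hFy]
      revert hr
      generalize W (x - 3 ^ t) t = wd
      generalize W (x - 3 ^ t) (t + 1) = wu
      intro hr
      cases wd <;> cases wu
      case blank.blank => exact hr.1.symm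
      case P.P => exact absurd hr.1 (by norm_num)
      case I0.blank => exact absurd hr.2.1 (by norm_num)
      case blank.V => exact absurd hr.2.1 (by norm_num)
      case P.V => exact absurd hr.2.1 (by norm_num)
      case V.V => exact absurd hr.2.1 (by norm_num)
      case V.blank => exact absurd hr.2.1 (by norm_num)
      case blank.T => exact absurd hr.2.1 (by norm_num)
      case T.T => exact absurd hr.2.1 (by norm_num)
      case T.blank => exact absurd hr.2.1 (by norm_num)
      all_goals exact (hr : False).elim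
    -- the column `z`
    set z : ℤ := x - 2 * 3 ^ t with hz
    have hzy : x - 3 ^ t - 3 ^ t = z := by
      rw [hz]
      ring
    have hzt : z - 3 ^ t = x - 3 ^ (t + 1) := by
      rw [hz]
      ring
    have hzl : IsLv 3 c z t := by
      have := lv_add (z := -(2 * (3 : ℤ) ^ t)) hc.coh hx0 (Nat.lt_succ_self t)
        (by simp) (by simpa using hpd2)
      rwa [← sub_eq_add_neg] at this
    have hz1 : dA z = 1 := by
      refine (hc.one_iff hzl).2 ?_
      rw [hzt]
      have h1 : x - 3 ^ (t + 1) - c (t + 1) = (x - c (t + 1)) - 3 ^ (t + 1) := by ring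
      rw [h1]
      exact dvd_sub hx0 (dvd_refl _)
    have hFz : H z t = .F l s := by
      rw [← hzy, ← pass_chain' hc hL, hFy']
      rw [hzy]
      have h1 : z - c t = (x - c t) - 2 * 3 ^ t := by
        rw [hz]
        ring
      rw [h1]
      exact dvd_sub hx1 (Dvd.intro_left _ rfl)
    have hxt : x - 3 ^ (t + 1) + 3 ^ t = z := by
      rw [hz]
      ring
    have hr := hL.rule _ t t hzl le_rfl
    rw [hcl, hz1, hFz] at hr
    -- the two cases
    have key : (t = 0 ∧ W z 0 = .I0) ∨ (1 ≤ t ∧ ∃ g j, W z t = .V g j) := by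
      generalize hwd : W z t = wd at hr
      generalize W z (t + 1) = wu at hr
      cases wd <;> cases wu
      case blank.blank =>
        obtain ⟨h1, -, h2⟩ := hr
        exact absurd (h2 l s h1.symm).2 (by norm_num)
      case P.P => exact absurd hr.1 (by norm_num)
      case I0.blank =>
        left
        rcases Nat.eq_zero_or_pos t with h0 | h0
        · subst h0
          exact ⟨rfl, hwd⟩
        · exfalso
          obtain ⟨u, rfl⟩ := Nat.exists_eq_succ_of_ne_zero h0.ne'
          have h1 := hL.rule z u (u + 1) hzl (by omega)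
          rw [Nat.succ_eq_add_one] at hwd
          rw [hwd] at h1
          exact wu_I0 h1
      case blank.V => exact absurd hr.1.1 (by norm_num)
      case P.V => exact absurd hr.1.1 (by norm_num)
      case V.V => exact absurd hr.1.1 (by norm_num)
      case V.blank g j =>
        right
        refine ⟨?_, g, j, rfl⟩
        rcases Nat.eq_zero_or_pos t with h0 | h0
        · subst h0
          rcases hL.base1 z with h1 | h1 | h1 <;> rw [h1] at hwd <;> cases hwd
        · exact h0
      case blank.T => exact absurd hr.1.1 (by norm_num)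
      case T.T => exact absurd hr.1.1 (by norm_num)
      case T.blank =>
        obtain ⟨-, -, h1, l', h2⟩ := hr
        rw [← h1] at h2
        cases h2
      all_goals exact (hr : False).elim
    rcases key with ⟨rfl, h0⟩ | ⟨h1, g, j, h2⟩
    · have h3 := (hL.base2 z).1 h0
      have h4 : z - 1 = x - 3 ^ (0 + 1) := by
        rw [← hzt]
        norm_num
      rw [h4] at h3
      refine ⟨h3, hone, fun j hj => ?_⟩
      obtain rfl : j = 0 := by omega
      exact ⟨l, s, by rw [hxt]; exact hFz⟩
    · obtain ⟨u, rfl⟩ := Nat.exists_eq_succ_of_ne_zero (by omega : t ≠ 0)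
      have h3 := hL.rule z u (u + 1) hzl (by omega)
      rw [Nat.succ_eq_add_one] at h2
      have hcl' : cl ((u : ℤ) - ((u + 1 : ℕ) : ℤ)) = -1 := by
        have : (u : ℤ) - ((u + 1 : ℕ) : ℤ) = -1 := by push_cast; ring
        rw [this]
        rfl
      rw [h2, hcl'] at h3
      obtain ⟨l', s', h4⟩ := left_F h3 (Or.inl ⟨g, j, rfl⟩)
      have h5 := ih (x := z) (l := l') (s := s') (by omega) hzl (by simpa using h4)
        ((hc.one_iff hzl).1 hz1)
      rw [Nat.succ_eq_add_one, hzt] at h5
      refine ⟨h5.1, hone, fun j hj => ?_⟩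
      rcases Nat.lt_succ_iff_lt_or_eq.1 hj with h6 | rfl
      · exact h5.2.2 j h6
      · exact ⟨l, s, by rw [hxt]; exact hFz⟩

private theorem cl_neg {t i : ℕ} (h : t < i) : cl ((t : ℤ) - (i : ℤ)) < 0 := by
  unfold cl
  omega

private theorem cl_m1 {i : ℕ} (h : 1 ≤ i) : cl (((i - 1 : ℕ) : ℤ) - (i : ℤ)) = -1 := by
  unfold cl
  omega

/-- a wire `V` or `T` comes from a new lane on the left of the cell below the top -/
private theorem wire_F (hL : LaneOk M mn cs c dA dB H W) {x : ℤ} {i t : ℕ}
    (hx : IsLv 3 c x i) (ht : t ≤ i) (hw : (∃ g j, W x t = .V g j) ∨ W x t = .T) :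
    1 ≤ i ∧ ∃ l s, H (x - 1) (i - 1) = .F l s := by
  have hup : ∀ n, t + n ≤ i → (∃ g j, W x (t + n) = .V g j) ∨ W x (t + n) = .T := by
    intro n
    induction n with
    | zero => exact fun _ => hw
    | succ n ih =>
      intro hn
      have hr := hL.rule x (t + n) i hx (by omega)
      have hs : cl (((t + n : ℕ) : ℤ) - (i : ℤ)) < 0 := cl_neg (by omega)
      rcases ih (by omega) with ⟨g, j, h1⟩ | h1
      · rw [h1] at hr
        obtain ⟨j', h2⟩ := wd_V hr hs
        exact Or.inl ⟨g, j', h2⟩
      · rw [h1] at hr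
        exact Or.inr (wd_T hr hs)
  have htop := hup (i - t) (by omega)
  rw [Nat.add_sub_cancel' ht] at htop
  have hi : 1 ≤ i := by
    rcases Nat.eq_zero_or_pos i with h0 | h0
    · exfalso
      subst h0
      rcases htop with ⟨g, j, h1⟩ | h1 <;> rcases hL.base1 x with h2 | h2 | h2 <;>
        rw [h2] at h1 <;> cases h1
    · exact h0
  refine ⟨hi, ?_⟩
  have hr := hL.rule x (i - 1) i hx (by omega)
  rw [cl_m1 hi, Nat.sub_add_cancel hi] at hr
  exact left_F hr htop

theorem corner_up (hc : ColOk c dA dB) (hL : LaneOk M mn cs c dA dB H W) {X : ℤ} {k : ℕ}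
    (hX : W X 0 = .P) (hk : IsLv 3 c X k) :
    k % 2 = 1 ∧ dA X = 1 ∧ (∀ t < k / 2, H X t = .blank) ∧ (∃ l, H X (k / 2) = .A l) ∧
      (∃ l s, H (X - 1) (k - 1) = .F l s ∧ s.lch = true) ∧ (∃ g j, W X k = .V g j) ∧
      (∀ t ≤ k / 2, W X t = .P) ∧ W (X - 3 ^ k) 0 = .P := by
  classical
  have hex : ∃ t, W X (t + 1) ≠ .P := by
    refine ⟨k, fun h => ?_⟩
    have hr := hL.rule X k k hk le_rfl
    rw [h] at hr
    have h1 := (wu_P hr).2.1
    unfold cl at h1
    omega
  set t0 := Nat.find hex with ht0
  have hs := Nat.find_spec hex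
  rw [← ht0] at hs
  have hP : ∀ t ≤ t0, W X t = .P := by
    intro t ht
    rcases Nat.eq_zero_or_pos t with h0 | h0
    · rw [h0]
      exact hX
    · obtain ⟨u, rfl⟩ := Nat.exists_eq_succ_of_ne_zero h0.ne'
      exact not_not.1 (Nat.find_min hex (m := u) (by omega))
  have ht0k : t0 ≤ k := by
    by_contra h
    have h1 := hP (k + 1) (by omega)
    rw [(hL.pass X (k + 1) k hk (by omega)).2] at h1
    cases h1
  have hr := hL.rule X t0 k hk ht0k
  rw [hP t0 le_rfl] at hr
  rcases wd_P hr with h1 | ⟨g, j, h1, h2, h3, h4, h5, h6⟩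
  · exact absurd h1.1 hs
  have hodd := ((hc.three_iff hk).1 h4).1
  have h3d : 3 ∣ dB X := (hc.odd_iff hk).2 hodd
  have ht0' : t0 = k / 2 := by
    obtain ⟨-, h7 | h7⟩ := h2
    · exact absurd h3d h7.2
    · have h8 := h7.1
      unfold cl at h8
      omega
  have hlt : t0 < k := by
    have h7 := h2.1
    unfold cl at h7
    omega
  have hup : ∀ n, t0 + 1 + n ≤ k → ∃ j, W X (t0 + 1 + n) = .V g j := by
    intro n
    induction n with
    | zero => exact fun _ => ⟨j, h1⟩
    | succ n ih =>
      intro hn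
      obtain ⟨j', h7⟩ := ih (by omega)
      have hr' := hL.rule X (t0 + 1 + n) k hk (by omega)
      rw [h7] at hr'
      exact wd_V hr' (cl_neg (by omega))
  obtain ⟨jt, htop⟩ := hup (k - (t0 + 1)) (by omega)
  rw [Nat.add_sub_cancel' (by omega)] at htop
  have hrF := hL.rule X (k - 1) k hk (by omega)
  rw [cl_m1 (by omega), Nat.sub_add_cancel (by omega), htop] at hrF
  obtain ⟨-, -, l, h7⟩ := wu_V hrF
  have hF : H (X - 1) (k - 1) = .F l g.st := by
    rcases h7 with h7 | h7
    · exact absurd h7.1 (by norm_num)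
    · exact h7.2.1
  refine ⟨hodd, h3, fun t ht => ?_, ?_, ⟨l, g.st, hF, h5⟩, ⟨g, jt, htop⟩, ?_, ?_⟩
  · have hr' := hL.rule X t k hk (by omega)
    rw [hP t (by omega), hP (t + 1) (by omega)] at hr'
    exact (wu_P hr').2.2.2.2.2.2
  · obtain ⟨l', -, -, h8⟩ := h6
    rw [← ht0']
    have h9 : cl ((t0 : ℤ) - ((k / 2 : ℕ) : ℤ)) ≠ -1 := by
      rw [ht0', sub_self]
      decide
    rw [if_neg (by simpa using h9)] at h8
    exact ⟨_, h8⟩
  · intro t ht
    exact hP t (by omega)
  · exact (trace hc hL (by omega) hk hF).1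

theorem corner_inf (hL : LaneOk M mn cs c dA dB H W) {X : ℤ}
    (hX : W X 0 = .P) (hk : IsInf 3 c X) :
    dA X = 1 ∧ dB X = 3 ∧ ∀ t, W X t = .P ∧ H X t = .blank ∧ H (X - 1) t = .blank := by
  have hstep : ∀ t, W X t = .P → W X (t + 1) = .P ∧ dA X = 1 ∧ dB X = 3 ∧ H (X - 1) t = .blank ∧
      H X t = .blank := by
    intro t ht
    have hr := hL.inf X t hk
    rw [ht] at hr
    rcases wd_P hr with h | ⟨g, j, -, h, -⟩
    · exact ⟨h.1, h.2.2.2.1, h.2.2.2.2.1, h.2.2.2.2.2.1, h.2.2.2.2.2.2⟩
    · obtain ⟨-, h1 | h1⟩ := h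
      · exact absurd h1.1 (by norm_num)
      · exact absurd h1.1 (by norm_num)
  have hall : ∀ t, W X t = .P := by
    intro t
    induction t with
    | zero => exact hX
    | succ t ih => exact (hstep t ih).1
  exact ⟨(hstep 0 hX).2.1, (hstep 0 hX).2.2.1, fun t => ⟨hall t, (hstep t (hall t)).2.2.2.2,
    (hstep t (hall t)).2.2.2.1⟩⟩

theorem act_W (hc : ColOk c dA dB) (hL : LaneOk M mn cs c dA dB H W) {x : ℤ} {t : ℕ}
    (h : W x t ≠ .blank) : ∃ X, X ≤ x ∧ W X 0 = .P := by
  rcases lv_or 3 c x with ⟨i, hi⟩ | hinf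
  · have hti : t ≤ i := by
      by_contra hlt
      exact h (hL.pass x t i hi (by omega)).2
    have hVT : ((∃ g j, W x t = .V g j) ∨ W x t = .T) → ∃ X, X ≤ x ∧ W X 0 = .P := by
      intro hw
      obtain ⟨h1, l, s, h2⟩ := wire_F hL hi hti hw
      have h3 := (trace hc hL h1 hi h2).1
      have h4 : (0 : ℤ) < 3 ^ i := by positivity
      exact ⟨x - 3 ^ i, by omega, h3⟩
    cases hW : W x t with
    | blank => exact absurd hW h
    | P =>
      have hdown : ∀ n ≤ t, W x (t - n) = .P := by
        intro n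
        induction n with
        | zero => exact fun _ => hW
        | succ n ih =>
          intro hn
          have hr := hL.rule x (t - (n + 1)) i hi (by omega)
          have he : t - (n + 1) + 1 = t - n := by omega
          rw [he, ih (by omega)] at hr
          exact (wu_P hr).1
      have h0 := hdown t le_rfl
      rw [Nat.sub_self] at h0
      exact ⟨x, le_rfl, h0⟩
    | I0 =>
      rcases Nat.eq_zero_or_pos t with h0 | h0
      · subst h0
        exact ⟨x - 1, by omega, (hL.base2 x).1 hW⟩
      · exfalso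
        have hr := hL.rule x (t - 1) i hi (by omega)
        rw [Nat.sub_add_cancel h0, hW] at hr
        exact wu_I0 hr
    | T => exact hVT (Or.inr hW)
    | V g j => exact hVT (Or.inl ⟨g, j, hW⟩)
  · have hstep : ∀ u, W x (u + 1) ≠ .blank → W x u = .P := by
      intro u hu
      have hr := hL.inf x u hinf
      revert hr hu
      generalize W x u = wd
      generalize W x (u + 1) = wu
      intro hu hr
      cases wu
      case blank => exact absurd rfl hu
      case P => exact (wu_P hr).1
      case I0 => exact (wu_I0 hr).elim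
      case T =>
        cases wd
        case blank =>
          obtain ⟨⟨-, h1 | h1⟩, -⟩ := hr
          · exact absurd h1.1 (by norm_num)
          · exact absurd h1.1 (by norm_num)
        case T =>
          obtain ⟨⟨-, h1 | h1⟩, -⟩ := hr
          · exact absurd h1.1 (by norm_num)
          · exact absurd h1.1 (by norm_num)
        all_goals exact (hr : False).elim
      case V =>
        cases wd
        case blank =>
          obtain ⟨⟨-, h1 | h1⟩, -⟩ := hr
          · exact absurd h1.1 (by norm_num)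
          · exact absurd h1.1 (by norm_num)
        case P => rfl
        case V =>
          obtain ⟨⟨-, h1 | h1⟩, -⟩ := hr
          · exact absurd h1.1 (by norm_num)
          · exact absurd h1.1 (by norm_num)
        all_goals exact (hr : False).elim
    have h0 : ∀ u, W x u ≠ .blank → W x 0 = .P := by
      intro u
      induction u with
      | zero =>
        intro hu
        rcases hL.base1 x with h1 | h1 | h1
        · exact absurd h1 hu
        · exact h1
        · exfalso
          have hr := hL.inf x 0 hinf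
          rw [h1] at hr
          revert hr
          generalize W x (0 + 1) = wu
          intro hr
          cases wu
          case blank => exact absurd hr.1 (by norm_num)
          all_goals exact (hr : False).elim
      | succ u ih =>
        intro hu
        apply ih
        rw [hstep u hu]
        intro h1
        cases h1
    exact ⟨x, le_rfl, h0 t h⟩

theorem act_H (hc : ColOk c dA dB) (hL : LaneOk M mn cs c dA dB H W) {x : ℤ} {t : ℕ}
    (h : H x t ≠ .blank) : ∃ X, X ≤ x ∧ W X 0 = .P := by
  by_contra hno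
  have hW : ∀ y ≤ x, ∀ u, W y u = .blank := by
    intro y hy u
    by_contra hu
    obtain ⟨X, h1, h2⟩ := act_W hc hL hu
    exact hno ⟨X, h1.trans hy, h2⟩
  have hstep : ∀ y ≤ x, H y t = H (y - 1) t := by
    intro y hy
    rcases lv_or 3 c y with ⟨i, hi⟩ | hinf
    · rcases Nat.lt_or_ge i t with h1 | h1
      · exact (hL.pass y t i hi h1).1
      · have hr := hL.rule y t i hi h1
        rw [hW y hy t, hW y hy (t + 1)] at hr
        exact hr.1
    · have hr := hL.inf y t hinf
      rw [hW y hy t, hW y hy (t + 1)] at hr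
      exact hr.1
  have hconst : ∀ n : ℕ, H (x - n) t = H x t := by
    intro n
    induction n with
    | zero => simp
    | succ n ih =>
      rw [← ih, hstep (x - n) (by omega)]
      congr 1
      push_cast
      ring
  obtain ⟨y, h1, h2, h3⟩ := lv_between (a := 3) (c := c) (by norm_num) (2 * t + 2)
    (x - 3 ^ (2 * t + 2) - 1)
  have hyx : y ≤ x := by
    have h4 : y ≤ x - 3 ^ (2 * t + 2) - 1 + (3 : ℤ) ^ (2 * t + 2) := by exact_mod_cast h2
    omega
  have hbl : H (y - 1) t = .blank := by
    rcases lv_or 3 c y with ⟨i, hi⟩ | hinf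
    · have hi2 : 2 * t + 2 ≤ i := (hi.dvd hc.coh).1 (by exact_mod_cast h3)
      have hr := hL.rule y t i hi (by omega)
      rw [hW y hyx t, hW y hyx (t + 1)] at hr
      refine hr.2.1 (cl_neg ?_)
      omega
    · have hr := hL.inf y t hinf
      rw [hW y hyx t, hW y hyx (t + 1)] at hr
      exact hr.2.1 (by norm_num)
  apply h
  rw [← hconst (x - (y - 1)).toNat, Int.toNat_of_nonneg (by omega)]
  have h5 : x - (x - (y - 1)) = y - 1 := by ring
  rw [h5, hbl]

end H96.CK
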