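import Pool.Agent.H96.CK.LaneE
import Pool.Agent.H96.CK.LaneB
import Pool.Agent.H96.CK.TimC

/-!
# Module LaneF1 (120 lines; here exists_mk and close): the patch of a corner is unique

`Mk W μ X v n`: `v` is the marked time of the corner `X` (as far as visible in time `< n`).
`exists_mk_fin`, `exists_mk_inf`: `v = some` of the least `m` (with `μ m + 1 < n`) such that `W (X + 3 ^ (μ m + 1)) (μ m + 1)`
is `V g j` with `g.ch = true`; `none` if there is no such `m`.
`close`: if the labels in `0 < δ < 3 ^ κ` are those of the code `v`, and lane `κ ≥ 1` is alive (`A`) at `X`, then column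
`X + 3 ^ κ` (level `κ`, `IsLv`; at its left lane `κ - 1` has `hlab v (3 ^ κ - 1) (κ - 1) = F _ (tl v (κ-1)).st`, lane `κ` has
passed from `X`, because the columns between have level `< κ`) is of the second kind of `spec_any`; so `Clo v κ`.
`uniq`: strong induction on `κ` (for all `X`, `v`), inside induction on `δ` (`i = log 3 δ`, `ε = δ - 3 ^ i`).
 * `δ = 0`: `hlab v 0 t = blank`.
 * `δ = 1`: column `X + 1` has `W = I0` (`base2`), `spec_zero`; `hlab v 1 0 = F Lam0 init`, (`(tl v 0).lam 0 0 = Lam0`).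
 * `δ = 3 ^ i`, `1 ≤ i < κ`: level `i`, left labels by induction: `F` at `i - 1`, `A` for `(i-1)/2 ≤ t < i - 1`, `blank` at
   `i` and for `t < (i-1)/2`. `spec_V` with `lam t = (tl v (i-1)).lam (i-1) t`, `s = (tl v (i-1)).st`. The choice:
   `ch = true` needs `chOK s`, so `i - 1 = μ m` with `m ≤ m'` if `v = some m'` (`Tm.chOK`); then `Mk` says `ch = true ↔ v = some m`,
   that is `ch = (tl v (i-1)).ch v` (`Tm.ch`); if `ch = false` the same argument excludes `(tl v (i-1)).ch v = true`.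
   So the new labels are those of `LaneB` (the sequence `J` is `info`, by induction from `info_bot`, `info_succ`).
   Lanes `t > i`: `pass` from `X + δ - 1` : blank.
 * `δ > 3 ^ i`, level `j` of `X + δ`: not launched (`Lau v i = false`) or `ε > 3 ^ (i/2)`: left lanes `t < i/2` are blank, and
   `F` only on lane `i`; `j - 1 ≠ i` so the column is not special (`I0` would need `W (x-1) 0 = P`, which is not the case by
   `wlab`), `nonspec`.
   Launched, `X' = X + 3 ^ i` is a corner (`W X' 0 = wlab v (3 ^ i) 0 = P`) with room `κ' = i / 2 < κ` (`H X' t = blank` for `t < κ'` by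
   the previous item); take `v'` with `Mk W μ X' v' κ'` and the induction hypothesis for `κ'`: labels of `X' + ε`, `ε < 3 ^ κ'`.
   `close` for `X'` (lane `κ'` of `X'` has label `A`, it is `hlab v (3 ^ i) κ'`): `Clo v' κ'`, so `v' = some (chd i)`
   (`Tm.clo_uniq`). For `ε < 3 ^ κ'` lanes `t < κ'` are given by this, lanes `t ≥ κ'` pass (levels `< κ'`). For `ε = 3 ^ κ'`:
   second case of `spec_any`. 
 Wires in the same way (for all `t`: above the level they are blank by `pass` and `hw_pass`-type facts, see `wlab`).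
`3 ^ κ ∣ X - c κ` gives levels (`lv_delta`) and digits (`dA_delta`); for `close` one needs `3 ^ (κ+1) ∣ X - c (κ+1)`; for `X'`
this holds because `i ≥ i / 2 + 1`.
-/

namespace H96.CK

variable {K G : Type} [DecidableEq G] {M : SM K G} {mn : K} {cs : G} {c : ℕ → ℤ}
  {dA dB : ℤ → ℕ} {H : ℤ → ℕ → HL M} {W : ℤ → ℕ → WL M} {e : ℕ → ℕ}
  {r : ℕ → ℕ → Prop} {μ : ℕ → ℕ}

def Mk (W : ℤ → ℕ → WL M) (μ : ℕ → ℕ) (X : ℤ) (v : Option ℕ) (n : ℕ) : Prop :=
  ∀ m, μ m + 1 < n → (∀ m', v = some m' → m ≤ m') →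
    ∀ g j, W (X + 3 ^ (μ m + 1)) (μ m + 1) = .V g j → (g.ch = true ↔ v = some m)

theorem exists_mk_fin (W : ℤ → ℕ → WL M) (μ : ℕ → ℕ) (X : ℤ) (n : ℕ) : ∃ v, Mk W μ X v n := by
  classical
  by_cases h : ∃ m, μ m + 1 < n ∧ ∃ g j, W (X + 3 ^ (μ m + 1)) (μ m + 1) = .V g j ∧ g.ch = true
  · refine ⟨some (Nat.find h), ?_⟩
    intro m hm hle g j hW
    have hle' := hle (Nat.find h) rfl
    constructor
    · intro hg
      have h1 := Nat.find_min' h ⟨hm, g, j, hW, hg⟩
      rw [le_antisymm hle' h1]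
    · intro hv
      have hv' : Nat.find h = m := Option.some.inj hv
      obtain ⟨-, g', j', hW', hg'⟩ := Nat.find_spec h
      rw [hv', hW] at hW'
      injection hW' with h1 h2
      rw [h1]
      exact hg'
  · refine ⟨none, ?_⟩
    intro m hm hle g j hW
    constructor
    · intro hg
      exact absurd ⟨m, hm, g, j, hW, hg⟩ h
    · intro hv
      exact absurd hv (by simp)

theorem exists_mk_inf (W : ℤ → ℕ → WL M) (μ : ℕ → ℕ) (X : ℤ) : ∃ v, ∀ n, Mk W μ X v n := by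
  classical
  by_cases h : ∃ m, ∃ g j, W (X + 3 ^ (μ m + 1)) (μ m + 1) = .V g j ∧ g.ch = true
  · refine ⟨some (Nat.find h), ?_⟩
    intro n m hm hle g j hW
    have hle' := hle (Nat.find h) rfl
    constructor
    · intro hg
      have h1 := Nat.find_min' h ⟨g, j, hW, hg⟩
      rw [le_antisymm hle' h1]
    · intro hv
      have hv' : Nat.find h = m := Option.some.inj hv
      obtain ⟨g', j', hW', hg'⟩ := Nat.find_spec h
      rw [hv', hW] at hW'
      injection hW' with h1 h2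
      rw [h1]
      exact hg'
  · refine ⟨none, ?_⟩
    intro n m hm hle g j hW
    constructor
    · intro hg
      exact absurd ⟨m, g, j, hW, hg⟩ h
    · intro hv
      exact absurd hv (by simp)

/-- the labels to the right of `X` up to distance `3 ^ κ`, below lane `κ`, are those of code `v` -/
def Agr (mn : K) (cs : G) (e : ℕ → ℕ) (H : ℤ → ℕ → HL M) (W : ℤ → ℕ → WL M) (X : ℤ)
    (v : Option ℕ) (κ : ℕ) : Prop :=
  ∀ d : ℕ, d < 3 ^ κ → (∀ t < κ, H (X + d) t = hlab M mn cs e v d t) ∧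
    (0 < d → ∀ t, W (X + d) t = wlab M mn cs e v d t)

private theorem lf1_log {κ : ℕ} (hκ : 1 ≤ κ) : Nat.log 3 (3 ^ κ - 1) = κ - 1 := by
  obtain ⟨k, rfl⟩ := Nat.exists_eq_succ_of_ne_zero (by omega : κ ≠ 0)
  have h0 : 0 < 3 ^ k := by positivity
  rw [Nat.succ_eq_add_one, Nat.add_sub_cancel]
  refine Nat.log_eq_of_pow_le_of_lt_pow ?_ ?_
  · rw [pow_succ]
    omega
  · omega

private theorem lf1_hlab (v : Option ℕ) {κ : ℕ} (hκ : 1 ≤ κ) :
    hlab M mn cs e v (3 ^ κ - 1) (κ - 1) =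
      .F ((tl M mn cs v (κ - 1)).lam (κ - 1) (κ - 1)) (tl M mn cs v (κ - 1)).st := by
  have h3 : 3 ^ 1 ≤ 3 ^ κ := Nat.pow_le_pow_right (by norm_num) hκ
  rw [hlab, lf1_log hκ, dif_neg (by omega), if_neg (by omega), if_pos (by omega), if_pos rfl]

private theorem lf1_pass (hc : ColOk c dA dB) (hL : LaneOk M mn cs c dA dB H W) {X : ℤ} {κ : ℕ}
    (hX : (3 : ℤ) ^ κ ∣ X - c κ) : ∀ d : ℕ, d < 3 ^ κ → H (X + d) κ = H X κ := by
  intro d
  induction d with
  | zero =>
    intro _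
    simp
  | succ d ih =>
    intro hd
    obtain ⟨j, hj, -, -, hlv⟩ := lv_delta hc.coh hX (Nat.succ_pos d) hd
    rw [(hL.pass _ κ j hlv hj).1, ← ih (by omega)]
    congr 1
    push_cast
    ring

theorem close (hc : ColOk c dA dB) (hL : LaneOk M mn cs c dA dB H W) {X : ℤ} {κ : ℕ}
    {v : Option ℕ} (hκ : 1 ≤ κ) (hX : (3 : ℤ) ^ (κ + 1) ∣ X - c (κ + 1))
    (hA : Agr mn cs e H W X v κ) {l : Lam K G} (hl : H X κ = .A l) :
    Clo M mn cs v κ = true ∧ (∀ t < κ, H (X + 3 ^ κ) t = .blank) ∧ H (X + 3 ^ κ) κ = .A l ∧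
      ∀ t, W (X + 3 ^ κ) t = if (κ - 1) / 2 < t ∧ t ≤ κ then .T else .blank := by
  have h3 : 3 ^ 1 ≤ 3 ^ κ := Nat.pow_le_pow_right (by norm_num) hκ
  have hXk : (3 : ℤ) ^ κ ∣ X - c κ := by
    have h1 : (3 : ℤ) ^ κ ∣ X - c (κ + 1) := (pow_dvd_pow _ (Nat.le_succ κ)).trans hX
    have h2 : (3 : ℤ) ^ κ ∣ c (κ + 1) - c κ := hc.coh κ
    have h4 := dvd_add h1 h2
    rwa [sub_add_sub_cancel] at h4
  have hlv : IsLv 3 c (X + 3 ^ κ) κ := by
    refine lv_add hc.coh hX (Nat.lt_succ_self κ) (dvd_refl ((3 : ℤ) ^ κ)) ?_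
    intro h
    have h1 : 3 ^ (κ + 1) ∣ 3 ^ κ := by exact_mod_cast h
    have h2 := (Nat.pow_dvd_pow_iff_le_right (by norm_num : 1 < 3)).1 h1
    omega
  have hx : X + 3 ^ κ - 1 = X + ((3 ^ κ - 1 : ℕ) : ℤ) := by
    rw [Nat.cast_sub (by omega)]
    push_cast
    ring
  have hF : H (X + 3 ^ κ - 1) (κ - 1) =
      .F ((tl M mn cs v (κ - 1)).lam (κ - 1) (κ - 1)) (tl M mn cs v (κ - 1)).st := by
    rw [hx, (hA (3 ^ κ - 1) (by omega)).1 (κ - 1) (by omega), lf1_hlab v hκ]
  have hl' : H (X + 3 ^ κ - 1) κ = .A l := by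
    rw [hx, lf1_pass hc hL hXk _ (by omega), hl]
  obtain ⟨-, h | ⟨hacc, ⟨l', h1, h2⟩, h4, h5⟩⟩ := spec_any hc hL hκ hlv hF
  · rw [hl'] at h
    exact absurd h.1 (by simp)
  · refine ⟨?_, h4, ?_, h5⟩
    · unfold Clo
      rw [hacc]
      simpa using hκ
    · rw [h2, ← h1, hl']

end H96.CK
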