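import Pool.Agent.H96.CK.LaneF1
import Pool.Agent.H96.CK.LaneC1

/-!
# Module LaneF2 (400 lines; here uniq): the patch of a corner is unique

`Mk W μ X v n`: `v` is the marked time of the corner `X` (as far as visible in time `< n`).
`exists_mk_fin`, `exists_mk_inf`: `v = some` of the least `m` (with `μ m + 1 < n`) such that `W (X + 3 ^ (μ m + 1)) (μ m + 1)`
is `V g j` with `g.ch = true`; `none` if there is no such `m`.
`close`: if the labels in `0 < δ < 3 ^ κ` are those of the code `v`, and lane `κ ≥ 1` is alive (`A`) at `X`, then column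
`X + 3 ^ κ` (level `κ`, `IsLv`; at its left lane `κ - 1` has `hlab v (3 ^ κ - 1) (κ - 1) = F _ (tl v (κ-1)).st`, lane `κ` has
passed from `X`, because the columns between have level `< κ`) is of the second kind of `spec_any`; so `Clo v κ`.
`uniq`: strong induction on `κ` (for all `X`, `v`), inside induction on `δ` (`i = log 3 δ`, `ε = δ - 3 ^ i`).
 * `δ = 0`: `hlab v 0 t = blank`.
 * `δ = 1`: column `X + 1` has `W = I0` (`base2`), `spec_zero`; `hlab v 1 0 = F Lam0 init`, (`(tl v 0).lam 0 0 = Lam0`).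
 * `δ = 3 ^ i`, `1 ≤ i < κ`: level `i`, left labels by induction: `F` at `i - 1`, `A` for `(i-1)/2 ≤ t < i - 1`, `blank` at
   `i` and for `t < (i-1)/2`. `spec_V` with `lam t = (tl v (i-1)).lam (i-1) t`, `s = (tl v (i-1)).st`. The choice:
   `ch = true` needs `chOK s`, so `i - 1 = μ m` with `m ≤ m'` if `v = some m'` (`Tm.chOK`); then `Mk` says `ch = true ↔ v = some m`,
   that is `ch = (tl v (i-1)).ch v` (`Tm.ch`); if `ch = false` the same argument excludes `(tl v (i-1)).ch v = true`.
   So the new labels are those of `LaneB` (the sequence `J` is `info`, by induction from `info_bot`, `info_succ`).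
   Lanes `t > i`: `pass` from `X + δ - 1` : blank.
 * `δ > 3 ^ i`, level `j` of `X + δ`: not launched (`Lau v i = false`) or `ε > 3 ^ (i/2)`: left lanes `t < i/2` are blank, and
   `F` only on lane `i`; `j - 1 ≠ i` so the column is not special (`I0` would need `W (x-1) 0 = P`, which is not the case by
   `wlab`), `nonspec`.
   Launched, `X' = X + 3 ^ i` is a corner (`W X' 0 = wlab v (3 ^ i) 0 = P`) with room `κ' = i / 2 < κ` (`H X' t = blank` for `t < κ'` by
   the previous item); take `v'` with `Mk W μ X' v' κ'` and the induction hypothesis for `κ'`: labels of `X' + ε`, `ε < 3 ^ κ'`.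
   `close` for `X'` (lane `κ'` of `X'` has label `A`, it is `hlab v (3 ^ i) κ'`): `Clo v' κ'`, so `v' = some (chd i)`
   (`Tm.clo_uniq`). For `ε < 3 ^ κ'` lanes `t < κ'` are given by this, lanes `t ≥ κ'` pass (levels `< κ'`). For `ε = 3 ^ κ'`:
   second case of `spec_any`. 
 Wires in the same way (for all `t`: above the level they are blank by `pass` and `hw_pass`-type facts, see `wlab`).
`3 ^ κ ∣ X - c κ` gives levels (`lv_delta`) and digits (`dA_delta`); for `close` one needs `3 ^ (κ+1) ∣ X - c (κ+1)`; for `X'`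
this holds because `i ≥ i / 2 + 1`.
-/

namespace H96.CK

variable {K G : Type} [DecidableEq G] {M : SM K G} {mn : K} {cs : G} {c : ℕ → ℤ}
  {dA dB : ℤ → ℕ} {H : ℤ → ℕ → HL M} {W : ℤ → ℕ → WL M} {e : ℕ → ℕ}
  {r : ℕ → ℕ → Prop} {μ : ℕ → ℕ}

private theorem lf2_h (v : Option ℕ) {d t i : ℕ} (h1 : 3 ^ i ≤ d) (h2 : d < 3 ^ (i + 1)) :
    hlab M mn cs e v d t = if i < t then .blank
      else if i / 2 ≤ t then
        (if t = i then .F ((tl M mn cs v i).lam i t) (tl M mn cs v i).st
          else .A ((tl M mn cs v i).lam i t))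
      else if Lau M mn cs v i = true ∧ d - 3 ^ i < 3 ^ (i / 2) then
        hlab M mn cs e (some (chd M mn cs e i)) (d - 3 ^ i) t
      else .blank := by
  have hl : Nat.log 3 d = i := Nat.log_eq_of_pow_le_of_lt_pow h1 h2
  have h0 : 0 < 3 ^ i := by positivity
  rw [hlab, dif_neg (by omega), hl]

private theorem lf2_w (v : Option ℕ) {d t i : ℕ} (h1 : 3 ^ i ≤ d) (h2 : d < 3 ^ (i + 1)) :
    wlab M mn cs e v d t = if d = 3 ^ i then
      (if i < t then .blank
        else if i = 0 then .I0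
        else if (i - 1) / 2 < t then .V (glob M mn cs v i) (info M mn cs v i t)
        else if Lau M mn cs v i = true then .P else .blank)
    else if Lau M mn cs v i = true then
      (if d - 3 ^ i < 3 ^ (i / 2) then
        wlab M mn cs e (some (chd M mn cs e i)) (d - 3 ^ i) t
      else if d - 3 ^ i = 3 ^ (i / 2) then
        (if (i / 2 - 1) / 2 < t ∧ t ≤ i / 2 then .T else .blank)
      else .blank)
    else .blank := by
  have hl : Nat.log 3 d = i := Nat.log_eq_of_pow_le_of_lt_pow h1 h2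
  have h0 : 0 < 3 ^ i := by positivity
  rw [wlab, dif_neg (by omega), hl]

private theorem lf2_h0 (v : Option ℕ) (t : ℕ) : hlab M mn cs e v 0 t = .blank := by
  rw [hlab, dif_pos rfl]

private theorem lf2_cast (X : ℤ) {d : ℕ} (h0 : 0 < d) : X + d - 1 = X + ((d - 1 : ℕ) : ℤ) := by
  rw [Nat.cast_sub h0]
  push_cast
  ring

private theorem lf2_dvd (hc : ColOk c dA dB) {X : ℤ} {κ n : ℕ} (hX : (3 : ℤ) ^ κ ∣ X - c κ)
    (hn : n ≤ κ) : (3 : ℤ) ^ n ∣ X - c n := by
  have h1 : (3 : ℤ) ^ n ∣ X - c κ := (pow_dvd_pow _ hn).trans hX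
  have h2 : (3 : ℤ) ^ n ∣ c κ - c n := by exact_mod_cast coh_le hc.coh hn
  have h3 := dvd_add h1 h2
  rwa [sub_add_sub_cancel] at h3

/-- above the level of the column -/
private theorem lf2_up (hT : Tm M mn cs e r μ) (hL : LaneOk M mn cs c dA dB H W)
    {X : ℤ} {κ : ℕ} {v : Option ℕ} {d j : ℕ} (h0 : 0 < d) (hlv : IsLv 3 c (X + d) j)
    (h1 : 3 ^ j ∣ d) (h2 : ¬ 3 ^ (j + 1) ∣ d)
    (hprev : ∀ t < κ, H (X + ((d - 1 : ℕ) : ℤ)) t = hlab M mn cs e v (d - 1) t) (t : ℕ)
    (ht : j < t) : (t < κ → H (X + d) t = hlab M mn cs e v d t) ∧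
      W (X + d) t = wlab M mn cs e v d t := by
  obtain ⟨p1, p2⟩ := hL.pass _ t j hlv ht
  obtain ⟨q1, q2⟩ := hw_pass hT v h0 h1 h2 ht
  refine ⟨fun htk => ?_, by rw [p2, q2]⟩
  rw [p1, q1, lf2_cast X h0, hprev t htk]

/-- the column at distance 1 -/
private theorem lf2_one (hc : ColOk c dA dB) (hL : LaneOk M mn cs c dA dB H W) {X : ℤ}
    (v : Option ℕ) (hP : W X 0 = .P) :
    H (X + (1 : ℕ)) 0 = hlab M mn cs e v 1 0 ∧ W (X + (1 : ℕ)) 0 = wlab M mn cs e v 1 0 := by
  have hI : W (X + (1 : ℕ)) 0 = .I0 := by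
    refine (hL.base2 _).2 ?_
    rw [Nat.cast_one, add_sub_cancel_right]
    exact hP
  obtain ⟨-, -, -, h4, -⟩ := spec_zero hc hL hI
  have e1 : 3 ^ 0 ≤ 1 := by norm_num
  have e2 : 1 < 3 ^ (0 + 1) := by norm_num
  refine ⟨?_, ?_⟩
  · rw [h4, lf2_h v e1 e2, if_neg (by omega), if_pos (by omega), if_pos rfl]
    unfold tl MS.init MS.lam Lam0
    simp
  · rw [hI, lf2_w v e1 e2, if_pos (by norm_num), if_neg (by omega), if_pos rfl]

/-- the wires of a special column are those of the time line -/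
private theorem lf2_J (v : Option ℕ) {i : ℕ} (hi : 1 ≤ i) {J : ℕ → Info K G}
    (hJ0 : J ((i - 1) / 2) = Info.ini K G)
    (hJ : ∀ t, (i - 1) / 2 ≤ t → t < i →
      J (t + 1) = Info.up mn cs (decide (t = (i - 1) / 2 ∧ i % 2 = 0))
        ((tl M mn cs v (i - 1)).lam (i - 1) t) (J t)) (t : ℕ) (h1 : (i - 1) / 2 < t)
    (h2 : t ≤ i) : J t = info M mn cs v i t := by
  induction t with
  | zero => omega
  | succ t ih =>
    rcases Nat.lt_or_ge ((i - 1) / 2) t with h | h
    · rw [hJ t h.le (by omega), ih h (by omega), info_succ v h (by omega),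
        decide_eq_false (fun h' => by omega)]
    · obtain rfl : t = (i - 1) / 2 := by omega
      rw [hJ _ le_rfl (by omega), hJ0, info_bot v hi]
      congr 1
      simp

/-- the special column at distance `3 ^ i` -/
private theorem lf2_pow (hT : Tm M mn cs e r μ) (hc : ColOk c dA dB)
    (hL : LaneOk M mn cs c dA dB H W) {X : ℤ} {κ i : ℕ} {v : Option ℕ}
    (hX : (3 : ℤ) ^ κ ∣ X - c κ) (hM : Mk W μ X v κ) (hi : 1 ≤ i) (hiκ : i < κ)
    (hprev : ∀ t < κ, H (X + ((3 ^ i - 1 : ℕ) : ℤ)) t = hlab M mn cs e v (3 ^ i - 1) t) (t : ℕ)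
    (ht : t ≤ i) : H (X + ((3 ^ i : ℕ) : ℤ)) t = hlab M mn cs e v (3 ^ i) t ∧
      W (X + ((3 ^ i : ℕ) : ℤ)) t = wlab M mn cs e v (3 ^ i) t := by
  obtain ⟨i', rfl⟩ : ∃ i', i = i' + 1 := ⟨i - 1, by omega⟩
  have hp : 0 < 3 ^ i' := by positivity
  have h3 : 3 ^ (i' + 1) = 3 * 3 ^ i' := by rw [pow_succ]; ring
  have hlv : IsLv 3 c (X + ((3 ^ (i' + 1) : ℕ) : ℤ)) (i' + 1) := by
    refine lv_add hc.coh (by exact_mod_cast hX) hiκ (by push_cast; exact dvd_refl _) ?_
    intro h
    have h1 : 3 ^ (i' + 1 + 1) ∣ 3 ^ (i' + 1) := by exact_mod_cast h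
    have h2 := (Nat.pow_dvd_pow_iff_le_right (by norm_num : 1 < 3)).1 h1
    omega
  have hx : X + ((3 ^ (i' + 1) : ℕ) : ℤ) - 1 = X + ((3 ^ (i' + 1) - 1 : ℕ) : ℤ) :=
    lf2_cast X (by positivity)
  have a1 : 3 ^ i' ≤ 3 ^ (i' + 1) - 1 := by omega
  have a2 : 3 ^ (i' + 1) - 1 < 3 ^ (i' + 1) := by omega
  have hF : H (X + ((3 ^ (i' + 1) : ℕ) : ℤ) - 1) (i' + 1 - 1) =
      .F ((tl M mn cs v (i' + 1 - 1)).lam (i' + 1 - 1) (i' + 1 - 1)) (tl M mn cs v i').st := by
    rw [hx, hprev _ (by omega), Nat.add_sub_cancel, lf2_h v a1 a2, if_neg (lt_irrefl _),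
      if_pos (by omega), if_pos rfl]
  have hA : ∀ t, (i' + 1 - 1) / 2 ≤ t → t < i' + 1 - 1 →
      H (X + ((3 ^ (i' + 1) : ℕ) : ℤ) - 1) t =
        .A ((tl M mn cs v (i' + 1 - 1)).lam (i' + 1 - 1) t) := by
    intro t h1 h2
    rw [Nat.add_sub_cancel] at h1 h2 ⊢
    rw [hx, hprev _ (by omega), lf2_h v a1 a2, if_neg (by omega),
      if_pos h1, if_neg (by omega)]
  have h0 : H (X + ((3 ^ (i' + 1) : ℕ) : ℤ) - 1) (i' + 1) = .blank := by
    rw [hx, hprev _ (by omega), lf2_h v a1 a2, if_pos (by omega)]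
  obtain ⟨-, ch, J, hch, hJ0, hJ, hV, hlow, hbl, hmid, htop⟩ :=
    spec_V hc hL (lam := fun t => (tl M mn cs v (i' + 1 - 1)).lam (i' + 1 - 1) t) hi hlv hF hA h0
  -- the choice
  have hch' : (tl M mn cs v i').ch v = ch := by
    have key : ∀ m, i' = μ m → (∀ m', v = some m' → m ≤ m') → (ch = true ↔ v = some m) := by
      intro m hm hle
      have hW := hV (i' + 1) (by omega) le_rfl
      refine hM m (by omega) hle ⟨(tl M mn cs v i').st, (tl M mn cs v i').lam i' i', ch⟩
        (J (i' + 1)) ?_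
      rw [← hm]
      have : X + ((3 ^ (i' + 1) : ℕ) : ℤ) = X + 3 ^ (i' + 1) := by push_cast; ring
      rw [this] at hW
      exact hW
    by_cases hct : ch = true
    · rw [hct]
      obtain ⟨m, hm, hle⟩ := (hT.chOK v i').1 (hch hct)
      exact (hT.ch v i').2 ⟨m, (key m hm hle).1 hct, hm⟩
    · have hcf : ch = false := by simpa using hct
      rw [hcf]
      by_contra hne
      have h1 : (tl M mn cs v i').ch v = true := by simpa using hne
      obtain ⟨m, hv, hm⟩ := (hT.ch v i').1 h1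
      exact hct ((key m hm (fun m' h' => by
        rw [hv] at h'
        exact (Option.some.inj h').le)).2 hv)
  have hglob : (⟨(tl M mn cs v i').st, (tl M mn cs v i').lam i' i', ch⟩ : Glob M) =
      glob M mn cs v (i' + 1) := by
    rw [← hch']
    rfl
  have hinfo := lf2_J (M := M) (mn := mn) (cs := cs) v hi hJ0 hJ
  have b1 : 3 ^ (i' + 1) < 3 ^ (i' + 1 + 1) := Nat.pow_lt_pow_right (by norm_num) (by omega)
  refine ⟨?_, ?_⟩
  · rw [lf2_h v le_rfl b1, if_neg (by omega)]
    rcases Nat.lt_or_ge t (i' / 2) with c1 | c1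
    · rw [hbl t c1, if_neg (by omega)]
      split_ifs
      · rw [Nat.sub_self, lf2_h0]
      · rfl
    · rcases eq_or_lt_of_le ht with c2 | c2
      · subst c2
        rw [if_pos (by omega), if_pos rfl, htop, hinfo _ (by omega) le_rfl]
        have e1 := newT_top (M := M) (mn := mn) (cs := cs) v hi
        have e2 := next_top (M := M) (mn := mn) (cs := cs) v hi
        rw [← e1, ← e2, ← hglob]
        rfl
      · rw [hmid t c1 c2]
        rcases eq_or_lt_of_le c1 with c3 | c3
        · subst c3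
          by_cases c4 : (i' + 1) % 2 = 0
          · rw [if_pos ⟨rfl, c4⟩, if_neg (by omega)]
            split_ifs
            · rw [Nat.sub_self, lf2_h0]
            · rfl
          · rw [if_neg (fun h => c4 h.2), if_pos (by omega), if_neg (by omega)]
            have e1 := newA_bot (M := M) (mn := mn) (cs := cs) v (i := i' + 1) (by omega)
            have hJ0' : J (i' / 2) = Info.ini K G := hJ0
            rw [hJ0']
            have e3 : (glob M mn cs v (i' + 1)).newA mn ((tl M mn cs v i').lam i' (i' / 2))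
              (Lam0 K G) (Lam0 K G) = (tl M mn cs v (i' + 1)).lam (i' + 1) (i' / 2) := e1
            rw [← e3, ← hglob]
            rfl
        · rw [if_neg (fun h => by
            have := h.1
            rw [Nat.add_sub_cancel] at this
            omega), if_pos (by omega), if_neg (by omega)]
          have e1 := newA_mid (M := M) (mn := mn) (cs := cs) v (i := i' + 1) (t := t)
            (by rw [Nat.add_sub_cancel]; exact c3) c2
          rw [hinfo t (by rw [Nat.add_sub_cancel]; exact c3) ht, ← e1, ← hglob]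
          rfl
  · rw [lf2_w v le_rfl b1, if_pos rfl, if_neg (by omega), if_neg (by omega)]
    rcases Nat.lt_or_ge ((i' + 1 - 1) / 2) t with c1 | c1
    · rw [if_pos c1, hV t c1 ht, hinfo t c1 ht, ← hglob]
      rfl
    · rw [if_neg (by omega), hlow t c1]
      have e1 : Lau M mn cs v (i' + 1) = (tl M mn cs v i').st.lch := by
        unfold Lau
        simp
      rw [e1]

/-- the child of a launched corner -/
private theorem lf2_child (hT : Tm M mn cs e r μ) (hc : ColOk c dA dB)
    (hL : LaneOk M mn cs c dA dB H W) {X : ℤ} {κ i : ℕ} {v : Option ℕ}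
    (IH : ∀ m < κ, ∀ (X : ℤ) (v : Option ℕ), W X 0 = .P → (∀ t < m, H X t = .blank) →
      (3 : ℤ) ^ m ∣ X - c m → Mk W μ X v m → Agr mn cs e H W X v m)
    (hX : (3 : ℤ) ^ κ ∣ X - c κ) (hiκ : i < κ) (hLau : Lau M mn cs v i = true)
    (hH : ∀ t < κ, H (X + ((3 ^ i : ℕ) : ℤ)) t = hlab M mn cs e v (3 ^ i) t)
    (hW : W (X + ((3 ^ i : ℕ) : ℤ)) 0 = wlab M mn cs e v (3 ^ i) 0) :
    Agr mn cs e H W (X + ((3 ^ i : ℕ) : ℤ)) (some (chd M mn cs e i)) (i / 2) ∧
      (∀ t < i / 2, H (X + ((3 ^ i : ℕ) : ℤ) + 3 ^ (i / 2)) t = .blank) ∧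
      H (X + ((3 ^ i : ℕ) : ℤ) + 3 ^ (i / 2)) (i / 2) = .A ((tl M mn cs v i).lam i (i / 2)) ∧
      ∀ t, W (X + ((3 ^ i : ℕ) : ℤ) + 3 ^ (i / 2)) t =
        if (i / 2 - 1) / 2 < t ∧ t ≤ i / 2 then .T else .blank := by
  obtain ⟨ho, hi3⟩ := hT.lau_odd v i hLau
  have b1 : 3 ^ i < 3 ^ (i + 1) := Nat.pow_lt_pow_right (by norm_num) (by omega)
  have hP : W (X + ((3 ^ i : ℕ) : ℤ)) 0 = .P := by
    rw [hW, lf2_w v le_rfl b1, if_pos rfl, if_neg (by omega), if_neg (by omega),
      if_neg (by omega), if_pos hLau]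
  have hb : ∀ t < i / 2, H (X + ((3 ^ i : ℕ) : ℤ)) t = .blank := by
    intro t ht
    rw [hH t (by omega), lf2_h v le_rfl b1, if_neg (by omega), if_neg (by omega)]
    split_ifs
    · rw [Nat.sub_self, lf2_h0]
    · rfl
  have hdv : ∀ n, n ≤ i → (3 : ℤ) ^ n ∣ X + ((3 ^ i : ℕ) : ℤ) - c n := by
    intro n hn
    have h1 := lf2_dvd hc hX (show n ≤ κ by omega)
    have h2 : (3 : ℤ) ^ n ∣ ((3 ^ i : ℕ) : ℤ) := by
      push_cast
      exact pow_dvd_pow _ hn
    have h3 := dvd_add h1 h2
    have h4 : X - c n + ((3 ^ i : ℕ) : ℤ) = X + ((3 ^ i : ℕ) : ℤ) - c n := by ring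
    rwa [h4] at h3
  obtain ⟨v', hv'⟩ := exists_mk_fin W μ (X + ((3 ^ i : ℕ) : ℤ)) (i / 2)
  have hA := IH (i / 2) (by omega) _ v' hP hb (hdv _ (by omega)) hv'
  have hl : H (X + ((3 ^ i : ℕ) : ℤ)) (i / 2) = .A ((tl M mn cs v i).lam i (i / 2)) := by
    rw [hH _ (by omega), lf2_h v le_rfl b1, if_neg (by omega), if_pos le_rfl, if_neg (by omega)]
  obtain ⟨c1, c2, c3, c4⟩ := close hc hL (show 1 ≤ i / 2 by omega) (hdv _ (by omega)) hA hl
  have hv := hT.clo_uniq v v' i hLau c1
  rw [hv] at hA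
  exact ⟨hA, c2, c3, c4⟩

/-- a column which is not special -/
private theorem lf2_non (hc : ColOk c dA dB) (hL : LaneOk M mn cs c dA dB H W) {X : ℤ}
    {κ d j : ℕ} {v : Option ℕ} (h0 : 0 < d) (hlv : IsLv 3 c (X + d) j) (hjκ : j ≤ κ)
    (hprev : ∀ t < κ, H (X + ((d - 1 : ℕ) : ℤ)) t = hlab M mn cs e v (d - 1) t)
    (hWp : W (X + ((d - 1 : ℕ) : ℤ)) 0 ≠ .P)
    (hF : 1 ≤ j → ∀ l s, hlab M mn cs e v (d - 1) (j - 1) ≠ .F l s)
    (hh : ∀ t, hlab M mn cs e v d t = hlab M mn cs e v (d - 1) t)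
    (hw : ∀ t, wlab M mn cs e v d t = .blank) :
    (∀ t < κ, H (X + d) t = hlab M mn cs e v d t) ∧
      ∀ t, W (X + d) t = wlab M mn cs e v d t := by
  obtain ⟨n1, n2⟩ := nonspec hc hL hlv (fun hj l s => by
    rw [lf2_cast X h0, hprev _ (by omega)]
    exact hF hj l s) (fun h => hWp (by
      have := (hL.base2 _).1 h
      rwa [lf2_cast X h0] at this))
  refine ⟨fun t ht => ?_, fun t => by rw [n1 t, hw t]⟩
  rw [n2 t, lf2_cast X h0, hprev t ht, hh t]

theorem uniq (hT : Tm M mn cs e r μ) (hc : ColOk c dA dB) (hL : LaneOk M mn cs c dA dB H W)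
    (κ : ℕ) : ∀ (X : ℤ) (v : Option ℕ), W X 0 = .P → (∀ t < κ, H X t = .blank) →
      (3 : ℤ) ^ κ ∣ X - c κ → Mk W μ X v κ → Agr mn cs e H W X v κ := by
  induction κ using Nat.strong_induction_on with
  | _ κ IH =>
  intro X v hP hbl hX hM d
  induction d using Nat.strong_induction_on with
  | _ d ih =>
  intro hd
  rcases Nat.eq_zero_or_pos d with h0 | h0
  · subst h0
    refine ⟨fun t ht => ?_, fun h => absurd h (lt_irrefl _)⟩
    rw [lf2_h0, Nat.cast_zero, add_zero]
    exact hbl t ht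
  obtain ⟨j, hjκ, hj1, hj2, hlv⟩ := lv_delta hc.coh hX h0 hd
  have hprev := (ih (d - 1) (by omega) (by omega)).1
  have hup := lf2_up hT hL h0 hlv hj1 hj2 hprev
  obtain ⟨i, hi1, hi2⟩ : ∃ i, 3 ^ i ≤ d ∧ d < 3 ^ (i + 1) :=
    ⟨Nat.log 3 d, Nat.pow_log_le_self 3 (by omega), Nat.lt_pow_succ_log_self (by norm_num) d⟩
  have hp : 0 < 3 ^ i := by positivity
  have hiκ : i < κ := by
    have h3 : 3 ^ i < 3 ^ κ := by omega
    exact (Nat.pow_lt_pow_iff_right (a := 3) (by norm_num)).1 h3
  have hji : j ≤ i := by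
    have h2 : 3 ^ j ≤ d := Nat.le_of_dvd h0 hj1
    have h3 : 3 ^ j < 3 ^ (i + 1) := by omega
    have := (Nat.pow_lt_pow_iff_right (a := 3) (by norm_num)).1 h3
    omega
  -- it is enough to look at the cells up to the level
  suffices hsuf : ∀ t ≤ j, (t < κ → H (X + d) t = hlab M mn cs e v d t) ∧
      W (X + d) t = wlab M mn cs e v d t by
    refine ⟨fun t ht => ?_, fun _ t => ?_⟩
    · rcases Nat.lt_or_ge j t with h | h
      · exact (hup t h).1 ht
      · exact (hsuf t h).1 ht
    · rcases Nat.lt_or_ge j t with h | h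
      · exact (hup t h).2
      · exact (hsuf t h).2
  rcases eq_or_lt_of_le hi1 with hdi | hdi
  · -- `d = 3 ^ i`
    subst hdi
    rcases Nat.eq_zero_or_pos i with hi | hi
    · subst hi
      obtain rfl : j = 0 := by omega
      intro t ht
      obtain rfl : t = 0 := by omega
      have := lf2_one (e := e) hc hL v hP
      exact ⟨fun _ => this.1, this.2⟩
    · intro t ht
      have := lf2_pow hT hc hL hX hM hi hiκ hprev t (by omega)
      exact ⟨fun _ => this.1, this.2⟩
  · -- `d > 3 ^ i`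
    have hi1' : 3 ^ i ≤ d - 1 := by omega
    have hi2' : d - 1 < 3 ^ (i + 1) := by omega
    have hne : ¬ d = 3 ^ i := by omega
    have b1 : 3 ^ i < 3 ^ (i + 1) := Nat.pow_lt_pow_right (by norm_num) (by omega)
    have hWprev := (ih (d - 1) (by omega) (by omega)).2 (by omega) 0
    by_cases hLau : Lau M mn cs v i = true
    · obtain ⟨ho, hi3⟩ := hT.lau_odd v i hLau
      have hk1 : 1 ≤ i / 2 := by omega
      obtain ⟨r1, r2⟩ := ih (3 ^ i) hdi (by omega)
      obtain ⟨c1, c2, c3, c4⟩ := lf2_child hT hc hL IH hX hiκ hLau r1 (r2 hp 0)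
      have hXd : X + (d : ℤ) = X + ((3 ^ i : ℕ) : ℤ) + ((d - 3 ^ i : ℕ) : ℤ) := by
        rw [Nat.cast_sub hi1]
        ring
      rcases Nat.lt_trichotomy (d - 3 ^ i) (3 ^ (i / 2)) with hε | hε | hε
      · -- inside the child
        have hjk : j < i / 2 := by
          have hji' : j < i := by
            by_contra hlt
            obtain rfl : j = i := by omega
            have h3 : 3 ^ j ∣ d - 3 ^ j := Nat.dvd_sub hj1 (dvd_refl _)
            have h4 : 3 ^ j ≤ d - 3 ^ j := Nat.le_of_dvd (by omega) h3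
            have h5 : 3 ^ (j / 2) ≤ 3 ^ j := Nat.pow_le_pow_right (by norm_num) (Nat.div_le_self j 2)
            omega
          have h3 : 3 ^ j ∣ d - 3 ^ i := Nat.dvd_sub hj1 (pow_dvd_pow 3 hji'.le)
          have h4 : 3 ^ j ≤ d - 3 ^ i := Nat.le_of_dvd (by omega) h3
          have h5 : 3 ^ j < 3 ^ (i / 2) := by omega
          exact (Nat.pow_lt_pow_iff_right (a := 3) (by norm_num)).1 h5
        obtain ⟨s1, s2⟩ := c1 (d - 3 ^ i) hε
        intro t ht
        refine ⟨fun _ => ?_, ?_⟩
        · rw [hXd, s1 t (by omega), lf2_h v hi1 hi2, if_neg (by omega), if_neg (by omega),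
            if_pos ⟨hLau, hε⟩]
        · rw [hXd, s2 (by omega) t, lf2_w v hi1 hi2, if_neg hne, if_pos hLau, if_pos hε]
      · -- the right boundary of the child
        have hXd' : X + (d : ℤ) = X + ((3 ^ i : ℕ) : ℤ) + 3 ^ (i / 2) := by
          rw [hXd, hε]
          push_cast
          ring
        have hjk : j ≤ i / 2 := by
          by_contra hlt
          have h4 : 3 ^ (i / 2 + 1) ∣ d := (pow_dvd_pow 3 (by omega)).trans hj1
          have h5 : 3 ^ (i / 2 + 1) ∣ 3 ^ i := pow_dvd_pow 3 (by omega)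
          have h6 := Nat.dvd_sub h4 h5
          rw [hε] at h6
          have h7 := (Nat.pow_dvd_pow_iff_le_right (by norm_num : 1 < 3)).1 h6
          omega
        intro t ht
        refine ⟨fun _ => ?_, ?_⟩
        · rw [hXd', lf2_h v hi1 hi2, if_neg (by omega)]
          rcases Nat.lt_or_ge t (i / 2) with h | h
          · rw [c2 t h, if_neg (by omega), if_neg (by omega)]
          · obtain rfl : t = i / 2 := by omega
            rw [c3, if_pos le_rfl, if_neg (by omega)]
        · rw [hXd', c4 t, lf2_w v hi1 hi2, if_neg hne, if_pos hLau,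
            if_neg (show ¬ (d - 3 ^ i < 3 ^ (i / 2)) by omega), if_pos hε]
      · -- to the right of the child
        have hq : 0 < 3 ^ (i / 2) := by positivity
        have hno := lf2_non hc hL h0 hlv hjκ.le hprev
          (by
            rw [hWprev, lf2_w v hi1' hi2', if_neg (by omega), if_pos hLau, if_neg (by omega)]
            split_ifs with h5 h6
            · omega
            · simp
            · simp)
          (by
            intro hj l s
            rw [lf2_h v hi1' hi2', if_neg (by omega)]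
            rcases Nat.lt_or_ge (j - 1) (i / 2) with h | h
            · rw [if_neg (by omega), if_neg (by omega)]
              simp
            · rw [if_pos h, if_neg (by omega)]
              simp)
          (by
            intro t
            rw [lf2_h v hi1 hi2, lf2_h v hi1' hi2']
            by_cases h4 : i < t
            · rw [if_pos h4, if_pos h4]
            rw [if_neg h4, if_neg h4]
            by_cases h5 : i / 2 ≤ t
            · rw [if_pos h5, if_pos h5]
            · rw [if_neg h5, if_neg h5, if_neg (by omega), if_neg (by omega)])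
          (by
            intro t
            rw [lf2_w v hi1 hi2, if_neg hne, if_pos hLau, if_neg (by omega), if_neg (by omega)])
        exact fun t _ => ⟨hno.1 t, hno.2 t⟩
    · -- nothing is launched
      have hno := lf2_non hc hL h0 hlv hjκ.le hprev
        (by
          rw [hWprev, lf2_w v hi1' hi2', if_neg hLau]
          split_ifs with h5 h6 h7
          · simp
          · simp
          · omega
          · simp
          · simp)
        (by
          intro hj l s
          rw [lf2_h v hi1' hi2', if_neg (by omega)]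
          rcases Nat.lt_or_ge (j - 1) (i / 2) with h | h
          · rw [if_neg (by omega), if_neg (fun h' => hLau h'.1)]
            simp
          · rw [if_pos h, if_neg (by omega)]
            simp)
        (by
          intro t
          rw [lf2_h v hi1 hi2, lf2_h v hi1' hi2']
          by_cases h4 : i < t
          · rw [if_pos h4, if_pos h4]
          rw [if_neg h4, if_neg h4]
          by_cases h5 : i / 2 ≤ t
          · rw [if_pos h5, if_pos h5]
          · rw [if_neg h5, if_neg h5, if_neg (fun h' => hLau h'.1), if_neg (fun h' => hLau h'.1)])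
        (by
          intro t
          rw [lf2_w v hi1 hi2, if_neg hne, if_neg hLau])
      exact fun t _ => ⟨hno.1 t, hno.2 t⟩

end H96.CK
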