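import Pool.Agent.H96.CK.LaneF2

/-!
# Module LaneG (250 lines): corners and their codes

* `corner_fin`: `X` a corner of finite level `k`; `corner_up`: `k` odd, `κ = k / 2`, `X1 = X - 3 ^ k` is a corner, and
  `trace` (with `x = X`): `3 ^ (k+1) ∣ X1 - c (k+1)`, so the level of `X1` is `> k` or infinite, and
  `H (X1 + 3 ^ j) j` is an `F` for all `j ≤ k` (for `j = k` by `corner_up`/`spec_any`).
  Parent of infinite level: take `n = k + 2`; `uniq` for `X1` with `κ := n` (all lanes at `X1` are blank, `corner_inf`).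
  Parent of finite level `k1 > k`: `k1` odd, `κ1 = k1 / 2`, lanes `< κ1` blank at `X1`, lane `κ1` is `A`: `uniq` with `κ1` (code
  `v1` from `exists_mk_fin`) and `close`: column `X1 + 3 ^ κ1` has `H _ κ1 = A`; if `κ1 ≤ k` this contradicts
  `H (X1 + 3 ^ κ1) κ1 = F`. So `k < κ1`.
  In both cases the labels at `X = X1 + 3 ^ k` and at `X - 1` are those of `v1`: the label
  `H (X - 1) (k - 1) = F _ s`, `s.lch = true` of `corner_up` is `hlab v1 (3 ^ k - 1) (k - 1)`, so `s = (tl v1 (k-1)).st` and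
  `Lau v1 k = true`. For `X` itself: `uniq` with `κ`, `v` from `exists_mk_fin`, `close` (needs `κ ≥ 1`: `Tm.lau_odd`), so
  `Clo v κ`, `v = some (chd k)`.
* `corner_inf_code`: `exists_mk_inf` and `uniq` for all `κ`.
* `par`: the same code `v1`: for a parent of finite level `k1` it is `some (chd k1)`, for a parent of infinite level the
  code of `corner_inf_code`; uniqueness of the code: if `Agr .. X1 v1 κ1` and `Agr .. X1 v1' κ1` with `k < κ1` and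
  `Lau v1 k`: the label `hlab v (3 ^ k - 1) (k - 1)` shows `(tl v (k-1)).st`, so `Lau v1' k = true`.
-/

namespace H96.CK

variable {K G : Type} [DecidableEq G] {M : SM K G} {mn : K} {cs : G} {c : ℕ → ℤ}
  {dA dB : ℤ → ℕ} {H : ℤ → ℕ → HL M} {W : ℤ → ℕ → WL M} {e : ℕ → ℕ}
  {r : ℕ → ℕ → Prop} {μ : ℕ → ℕ}

/-- a corner `X` of infinite level has code `v`, one of finite level `k` has code `chd k` -/
def Cod (M : SM K G) (mn : K) (cs : G) (c : ℕ → ℤ) (e : ℕ → ℕ) (H : ℤ → ℕ → HL M)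
    (W : ℤ → ℕ → WL M) (X : ℤ) (v : Option ℕ) : Prop :=
  W X 0 = .P ∧ ((∃ k, IsLv 3 c X k ∧ k % 2 = 1 ∧ 3 ≤ k ∧ v = some (chd M mn cs e k) ∧
      (3 : ℤ) ^ k ∣ X - c k ∧ Agr mn cs e H W X v (k / 2) ∧ Clo M mn cs v (k / 2) = true) ∨
    (IsInf 3 c X ∧ ∀ n, Agr mn cs e H W X v n))

private theorem log_pred {k : ℕ} (hk : 1 ≤ k) : Nat.log 3 (3 ^ k - 1) = k - 1 := by
  obtain ⟨j, rfl⟩ : ∃ j, k = j + 1 := ⟨k - 1, by omega⟩
  have h1 : 0 < 3 ^ j := by positivity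
  rw [Nat.add_sub_cancel, Nat.log_eq_iff (Or.inr ⟨by norm_num, by rw [pow_succ]; omega⟩)]
  rw [pow_succ]
  omega

private theorem up (hc : ColOk c dA dB) (hL : LaneOk M mn cs c dA dB H W) {X : ℤ} {k : ℕ}
    (hX : W X 0 = .P) (hk : IsLv 3 c X k) :
    k % 2 = 1 ∧ W (X - 3 ^ k) 0 = .P ∧ (3 : ℤ) ^ (k + 1) ∣ X - 3 ^ k - c (k + 1) ∧
      (∀ j ≤ k, ∃ l s, H (X - 3 ^ k + 3 ^ j) j = .F l s) ∧
      ∃ l s, H (X - 1) (k - 1) = .F l s ∧ s.lch = true := by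
  obtain ⟨h1, h2, h3, h4, ⟨l, s, h5, h6⟩, ⟨g, j, h7⟩, h8, h9⟩ := corner_up hc hL hX hk
  have hk1 : 1 ≤ k := by omega
  obtain ⟨a1, a2, a3⟩ := trace hc hL hk1 hk h5
  refine ⟨h1, h9, a2, ?_, l, s, h5, h6⟩
  intro i hi
  rcases Nat.lt_or_ge i k with hik | hik
  · exact a3 i hik
  · obtain rfl : i = k := by omega
    rw [sub_add_cancel]
    obtain ⟨-, hb⟩ := spec_any hc hL hk1 hk h5
    rcases hb with ⟨-, hb, -⟩ | ⟨-, -, -, hb⟩
    · exact hb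
    · exfalso
      have h10 := hb i
      rw [h7, if_pos ⟨by omega, le_rfl⟩] at h10
      cases h10

private theorem fin_agr (hT : Tm M mn cs e r μ) (hc : ColOk c dA dB)
    (hL : LaneOk M mn cs c dA dB H W) {X : ℤ} {k : ℕ} (hX : W X 0 = .P) (hk : IsLv 3 c X k)
    (h3 : 3 ≤ k) : ∃ v, Agr mn cs e H W X v (k / 2) ∧ Clo M mn cs v (k / 2) = true ∧
      ∃ l, H (X + 3 ^ (k / 2)) (k / 2) = .A l := by
  obtain ⟨h1, h2, hb, ⟨l, hl⟩, -⟩ := corner_up hc hL hX hk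
  obtain ⟨v, hv⟩ := exists_mk_fin W μ X (k / 2)
  have hA := uniq hT hc hL (k / 2) X v hX hb ((hk.dvd hc.coh).2 (by omega)) hv
  obtain ⟨c1, -, c2, -⟩ := close hc hL (by omega) ((hk.dvd hc.coh).2 (by omega)) hA hl
  exact ⟨v, hA, c1, l, c2⟩

private theorem inf_agr (hT : Tm M mn cs e r μ) (hc : ColOk c dA dB)
    (hL : LaneOk M mn cs c dA dB H W) {X : ℤ} (hX : W X 0 = .P) (hk : IsInf 3 c X) :
    ∃ v, ∀ n, Agr mn cs e H W X v n := by
  obtain ⟨-, -, h⟩ := corner_inf hL hX hk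
  obtain ⟨v, hv⟩ := exists_mk_inf W μ X
  exact ⟨v, fun n => uniq hT hc hL n X v hX (fun t _ => (h t).2.1) (hk n) (hv n)⟩

private theorem lau_of {X : ℤ} {k n : ℕ} {v : Option ℕ}
    (hA : Agr mn cs e H W (X - 3 ^ k) v n) (hkn : k < n) (hk : 1 ≤ k) {l : Lam K G} {s : St M.Q}
    (hF : H (X - 1) (k - 1) = .F l s) (hs : s.lch = true) : Lau M mn cs v k = true := by
  have h0 : 1 ≤ 3 ^ k := Nat.one_le_pow _ _ (by norm_num)
  have h1 : 3 ^ k - 1 < 3 ^ n := by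
    have : 3 ^ k < 3 ^ n := Nat.pow_lt_pow_right (by norm_num) hkn
    omega
  have h2 := (hA (3 ^ k - 1) h1).1 (k - 1) (by omega)
  have h3 : X - 3 ^ k + ((3 ^ k - 1 : ℕ) : ℤ) = X - 1 := by
    push_cast [h0]
    ring
  rw [h3, hF] at h2
  have hd : ¬ (3 ^ k - 1 = 0) := by
    have : 3 ^ 1 ≤ 3 ^ k := Nat.pow_le_pow_right (by norm_num) hk
    omega
  have h4 : hlab M mn cs e v (3 ^ k - 1) (k - 1) =
      .F ((tl M mn cs v (k - 1)).lam (k - 1) (k - 1)) (tl M mn cs v (k - 1)).st := by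
    rw [hlab, dif_neg hd, log_pred hk, if_neg (lt_irrefl _), if_pos (by omega), if_pos rfl]
  rw [h4] at h2
  have h5 : s = (tl M mn cs v (k - 1)).st := by injection h2
  unfold Lau
  rw [← h5, hs]
  simp [hk]

private theorem lev (hT : Tm M mn cs e r μ) (hc : ColOk c dA dB)
    (hL : LaneOk M mn cs c dA dB H W) {X : ℤ} {k k1 : ℕ} (hX : W X 0 = .P) (hk : IsLv 3 c X k)
    (hk1 : IsLv 3 c (X - 3 ^ k) k1) : k < k1 / 2 := by
  obtain ⟨h1, h2, h3, h4, -⟩ := up hc hL hX hk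
  have h5 : k + 1 ≤ k1 := (hk1.dvd hc.coh).1 h3
  obtain ⟨h6, -⟩ := corner_up hc hL h2 hk1
  obtain ⟨v, -, -, l, hl⟩ := fin_agr hT hc hL h2 hk1 (by omega)
  by_contra hlt
  obtain ⟨l', s', hF⟩ := h4 (k1 / 2) (by omega)
  rw [hF] at hl
  cases hl

private theorem lau_par (hT : Tm M mn cs e r μ) (hc : ColOk c dA dB)
    (hL : LaneOk M mn cs c dA dB H W) {X : ℤ} {k : ℕ} (hX : W X 0 = .P) (hk : IsLv 3 c X k) :
    ∃ v1, Lau M mn cs v1 k = true := by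
  obtain ⟨h1, h2, h3, h4, l, s, h5, h6⟩ := up hc hL hX hk
  rcases lv_or 3 c (X - 3 ^ k) with ⟨k1, hk1⟩ | hinf
  · have h7 := lev hT hc hL hX hk hk1
    obtain ⟨v1, hA, -⟩ := fin_agr hT hc hL h2 hk1 (by omega)
    exact ⟨v1, lau_of hA h7 (by omega) h5 h6⟩
  · obtain ⟨v1, hA⟩ := inf_agr hT hc hL h2 hinf
    exact ⟨v1, lau_of (hA (k + 1)) (by omega) (by omega) h5 h6⟩

theorem corner_code (hT : Tm M mn cs e r μ) (hc : ColOk c dA dB)
    (hL : LaneOk M mn cs c dA dB H W) {X : ℤ} (hX : W X 0 = .P) :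
    ∃ v, Cod M mn cs c e H W X v := by
  rcases lv_or 3 c X with ⟨k, hk⟩ | hinf
  · obtain ⟨v1, hv1⟩ := lau_par hT hc hL hX hk
    obtain ⟨h1, h3⟩ := hT.lau_odd v1 k hv1
    obtain ⟨v, hA, hC, -⟩ := fin_agr hT hc hL hX hk h3
    exact ⟨v, hX, Or.inl ⟨k, hk, h1, h3, hT.clo_uniq v1 v k hv1 hC, hk.1, hA, hC⟩⟩
  · obtain ⟨v, hv⟩ := inf_agr hT hc hL hX hinf
    exact ⟨v, hX, Or.inr ⟨hinf, hv⟩⟩

/-- the parent of a corner of finite level -/
theorem parent (hT : Tm M mn cs e r μ) (hc : ColOk c dA dB)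
    (hL : LaneOk M mn cs c dA dB H W) {X : ℤ} {k : ℕ} {v : Option ℕ} (hk : IsLv 3 c X k)
    (hX : Cod M mn cs c e H W X v) :
    ∃ v1, Cod M mn cs c e H W (X - 3 ^ k) v1 ∧ Lau M mn cs v1 k = true ∧
      v = some (chd M mn cs e k) ∧
      (∀ k1, IsLv 3 c (X - 3 ^ k) k1 → k < k1 / 2) := by
  obtain ⟨hP, hv⟩ := hX
  obtain ⟨h1, h2, h3, h4, l, s, h5, h6⟩ := up hc hL hP hk
  obtain ⟨v1, hv1⟩ := corner_code hT hc hL h2
  refine ⟨v1, hv1, ?_, ?_, fun k1 hk1 => lev hT hc hL hP hk hk1⟩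
  · obtain ⟨-, ⟨k1, hk1, -, -, -, -, hA, -⟩ | ⟨-, hA⟩⟩ := hv1
    · exact lau_of hA (lev hT hc hL hP hk hk1) (by omega) h5 h6
    · exact lau_of (hA (k + 1)) (by omega) (by omega) h5 h6
  · rcases hv with ⟨k', hk', -, -, hv, -⟩ | ⟨hinf, -⟩
    · rw [hv, hk'.unique hc.coh hk]
    · exact absurd hinf hk.not_inf

end H96.CK
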