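import Pool.Agent.H96.CK.SkDef

/-!
# Module LvA (150 lines): arithmetic of levels and digits

All statements are elementary divisibility. `LvT a n z i` (definition in `SkDef`): `i ≤ n`,
`a ^ i ∣ z` and, if `i < n`, `¬ a ^ (i+1) ∣ z`.
* `LvT.exists`: `i` = the largest `i ≤ n` with `a ^ i ∣ z` (`Nat.findGreatest`).
* `LvT.unique`: if `i < j` then `a ^ (i+1) ∣ a ^ j ∣ z`.
* `LvT.up`: change of the residue: if `a ^ n ∣ d` then the levels `< n` of `z` and `z + d` agree.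
* `dig_eq`: `z = a ^ n * w`, then `dig a n z = (w % a).toNat`.
* `dig_congr`: `dig a i z` depends on `z` modulo `a ^ (i + 1)` only:
  `z / a ^ i % a = (z % a ^ (i+1)) / a ^ i` (`Int.emod_emod_of_dvd`, or write
  `z' = z + a^(i+1) * t`, `Int.add_mul_ediv_left`).
* `dig_pos`: if `a ^ i ∣ z` and `¬ a ^ (i+1) ∣ z` then `1 ≤ dig a i z`.
* `dig_step_lt`, `dig_step_eq`, `dig_step_gt`: the digit at position `k` of `z` and `z - 1` if the
  level of `z` is `< k`, `= k`, `> k`: write `z = a ^ k * q + s`, `0 ≤ s < a ^ k`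
  (`Int.emod_add_mul_ediv`). If `a ^ k` does not divide `z` then `s ≥ 1` and
  `z - 1 = a ^ k * q + (s - 1)`: same digit. If `s = 0`: `z - 1 = a ^ k * (q - 1) + (a ^ k - 1)`,
  so the digit goes from `(q - 1) % a` to `q % a`.
-/

namespace H96.CK

private lemma ediv_of {A z q s : ℤ} (hz : z = s + A * q) (h0 : 0 ≤ s) (h1 : s < A) : z / A = q := by
  have hA : A ≠ 0 := by omega
  rw [hz, Int.add_mul_ediv_left _ _ hA, Int.ediv_eq_zero_of_lt h0 h1, zero_add]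

private lemma emod_of {A z q s : ℤ} (hz : z = s + A * q) (h0 : 0 ≤ s) (h1 : s < A) : z % A = s := by
  rw [hz, Int.add_mul_emod_self_left, Int.emod_eq_of_lt h0 h1]

private lemma powpos {a : ℕ} (ha : 1 ≤ a) (k : ℕ) : (0 : ℤ) < (a : ℤ) ^ k :=
  pow_pos (by exact_mod_cast ha) k

theorem LvT.exists (a n : ℕ) (z : ℤ) : ∃ i, LvT a n z i := by
  classical
  set P : ℕ → Prop := fun i => (a : ℤ) ^ i ∣ z with hP
  have h0 : P 0 := by simp [hP]
  refine ⟨Nat.findGreatest P n, Nat.findGreatest_le n, Nat.findGreatest_spec (Nat.zero_le n) h0, fun h => ?_⟩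
  exact Nat.findGreatest_is_greatest (P := P) (Nat.lt_succ_self _) h

theorem LvT.unique {a n : ℕ} {z : ℤ} {i j : ℕ} (hi : LvT a n z i) (hj : LvT a n z j) : i = j := by
  rcases lt_trichotomy i j with h | h | h
  · exact absurd ((pow_dvd_pow (a : ℤ) h).trans hj.2.1) (hi.2.2 (h.trans_le hj.1))
  · exact h
  · exact absurd ((pow_dvd_pow (a : ℤ) h).trans hi.2.1) (hj.2.2 (h.trans_le hi.1))

theorem LvT.up {a n : ℕ} {z d : ℤ} {i : ℕ} (hd : (a : ℤ) ^ n ∣ d) (hi : LvT a n z i) :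
    LvT a n (z + d) i := by
  refine ⟨hi.1, dvd_add hi.2.1 ((pow_dvd_pow (a : ℤ) hi.1).trans hd), fun h hc => hi.2.2 h ?_⟩
  have h1 : (a : ℤ) ^ (i + 1) ∣ d := (pow_dvd_pow (a : ℤ) h).trans hd
  exact (dvd_add_left h1).1 hc

/-- levels below `n` do not change when the truncation level is increased -/
theorem LvT.succ {a n : ℕ} {z : ℤ} {i : ℕ} (hi : i < n) : LvT a (n + 1) z i ↔ LvT a n z i := by
  constructor
  · rintro ⟨_, h2, h3⟩
    exact ⟨hi.le, h2, fun _ => h3 (by omega)⟩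
  · rintro ⟨_, h2, h3⟩
    exact ⟨by omega, h2, fun _ => h3 hi⟩

theorem dig_lt {a : ℕ} (ha : 1 ≤ a) (i : ℕ) (z : ℤ) : dig a i z < a := by
  have ha' : (0 : ℤ) < a := by exact_mod_cast ha
  have h0 := Int.emod_nonneg (z / (a : ℤ) ^ i) ha'.ne'
  have h1 := Int.emod_lt_of_pos (z / (a : ℤ) ^ i) ha'
  unfold dig
  omega

theorem dig_cast {a : ℕ} (ha : 1 ≤ a) (i : ℕ) (z : ℤ) : (dig a i z : ℤ) = z / (a : ℤ) ^ i % a := by
  have ha' : (0 : ℤ) < a := by exact_mod_cast ha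
  unfold dig
  exact Int.toNat_of_nonneg (Int.emod_nonneg _ ha'.ne')

theorem dig_eq {a : ℕ} (ha : 1 ≤ a) (n : ℕ) (w : ℤ) :
    (dig a n ((a : ℤ) ^ n * w) : ℤ) = w % a := by
  rw [dig_cast ha, Int.mul_ediv_cancel_left w (powpos ha n).ne']

theorem dig_congr {a : ℕ} (ha : 1 ≤ a) {i : ℕ} {z z' : ℤ} (h : (a : ℤ) ^ (i + 1) ∣ z - z') :
    dig a i z = dig a i z' := by
  obtain ⟨t, ht⟩ := h
  have hz : z = z' + (a : ℤ) ^ i * (a * t) := by
    rw [pow_succ] at ht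
    linarith
  have h1 : (dig a i z : ℤ) = dig a i z' := by
    rw [dig_cast ha, dig_cast ha, hz, Int.add_mul_ediv_left _ _ (powpos ha i).ne',
      Int.add_mul_emod_self_left]
  exact_mod_cast h1

theorem dig_pos {a : ℕ} (ha : 1 ≤ a) {i : ℕ} {z : ℤ} (h : (a : ℤ) ^ i ∣ z)
    (h' : ¬ (a : ℤ) ^ (i + 1) ∣ z) : 1 ≤ dig a i z := by
  have ha' : (0 : ℤ) < a := by exact_mod_cast ha
  obtain ⟨w, rfl⟩ := h
  have h1 : (dig a i ((a : ℤ) ^ i * w) : ℤ) = w % a := dig_eq ha i w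
  have h2 : ¬ (a : ℤ) ∣ w := by
    intro hw
    apply h'
    rw [pow_succ]
    exact mul_dvd_mul_left _ hw
  have h3 : w % (a : ℤ) ≠ 0 := fun h0 => h2 (Int.dvd_of_emod_eq_zero h0)
  have h4 := Int.emod_nonneg w ha'.ne'
  omega

theorem dig_zero {a : ℕ} (ha : 1 ≤ a) {i : ℕ} {z : ℤ} (h : (a : ℤ) ^ (i + 1) ∣ z) :
    dig a i z = 0 := by
  obtain ⟨t, rfl⟩ := h
  have h1 : (dig a i ((a : ℤ) ^ i * (a * t)) : ℤ) = (a * t) % a := dig_eq ha i _
  rw [Int.mul_emod_right] at h1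
  rw [pow_succ, mul_assoc]
  exact_mod_cast h1

theorem dig_step_lt {a : ℕ} (ha : 1 ≤ a) {k : ℕ} {z : ℤ} (h : ¬ (a : ℤ) ^ k ∣ z) :
    dig a k z = dig a k (z - 1) := by
  have hA := powpos ha k
  have h0 := Int.emod_nonneg z hA.ne'
  have h1 := Int.emod_lt_of_pos z hA
  have h2 : z % (a : ℤ) ^ k ≠ 0 := fun h3 => h (Int.dvd_of_emod_eq_zero h3)
  have h3 := Int.emod_add_mul_ediv z ((a : ℤ) ^ k)
  have h4 : (z - 1) / (a : ℤ) ^ k = z / (a : ℤ) ^ k :=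
    ediv_of (s := z % (a : ℤ) ^ k - 1) (by linarith) (by omega) (by omega)
  unfold dig
  rw [h4]

theorem dig_step_eq {a : ℕ} (ha : 1 ≤ a) {k : ℕ} {z : ℤ} (h : (a : ℤ) ^ k ∣ z)
    (h' : ¬ (a : ℤ) ^ (k + 1) ∣ z) : dig a k z = dig a k (z - 1) + 1 := by
  have ha' : (0 : ℤ) < a := by exact_mod_cast ha
  have hA := powpos ha k
  obtain ⟨w, rfl⟩ := h
  have h1 : (dig a k ((a : ℤ) ^ k * w) : ℤ) = w % a := dig_eq ha k w
  have h2 : ¬ (a : ℤ) ∣ w := by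
    intro hw
    apply h'
    rw [pow_succ]
    exact mul_dvd_mul_left _ hw
  have h3 : w % (a : ℤ) ≠ 0 := fun h0 => h2 (Int.dvd_of_emod_eq_zero h0)
  have h4 := Int.emod_nonneg w ha'.ne'
  have h5 := Int.emod_lt_of_pos w ha'
  have h6 := Int.emod_add_mul_ediv w (a : ℤ)
  have h7 : ((a : ℤ) ^ k * w - 1) / (a : ℤ) ^ k = w - 1 :=
    ediv_of (s := (a : ℤ) ^ k - 1) (by ring) (by omega) (by omega)
  have h8 : (w - 1) % (a : ℤ) = w % a - 1 :=
    emod_of (q := w / a) (by linarith) (by omega) (by omega)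
  have h9 : (dig a k ((a : ℤ) ^ k * w - 1) : ℤ) = w % a - 1 := by
    rw [dig_cast ha, h7, h8]
  omega

theorem dig_step_gt {a : ℕ} (ha : 1 ≤ a) {k : ℕ} {z : ℤ} (h : (a : ℤ) ^ (k + 1) ∣ z) :
    dig a k (z - 1) + 1 = a ∧ dig a k z = 0 := by
  refine ⟨?_, dig_zero ha h⟩
  have ha' : (0 : ℤ) < a := by exact_mod_cast ha
  have hA := powpos ha k
  obtain ⟨t, rfl⟩ := h
  have h7 : ((a : ℤ) ^ (k + 1) * t - 1) / (a : ℤ) ^ k = a * t - 1 :=
    ediv_of (s := (a : ℤ) ^ k - 1) (by rw [pow_succ]; ring) (by omega) (by omega)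
  have h8 : ((a : ℤ) * t - 1) % (a : ℤ) = a - 1 :=
    emod_of (q := t - 1) (by ring) (by omega) (by omega)
  have h9 : (dig a k ((a : ℤ) ^ (k + 1) * t - 1) : ℤ) = a - 1 := by
    rw [dig_cast ha, h7, h8]
  omega

end H96.CK
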