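import Mathlib

/-!
# Stack machines (definitions)

A stack machine `M` has a finite set of states; in one step it looks at the tops of all stacks,
changes its state and performs on every stack one of the operations keep, push, pop.
States with `ev` are events (the machine has finished one round); after an event the state is
changed by `rs` and the stacks are kept.
`M.Prog mn cs e`: the `n`-th event happens at step `evs n`, and the first word (up to the separator
`cs`) of the stack `mn` at the `n`-th event encodes the number `e n`.
-/

namespace H96.CK

inductive Op (G : Type) where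
  | keep : Op G
  | push (g : G) : Op G
  | pop : Op G

def Op.app {G : Type} : Op G → List G → List G
  | .keep, l => l
  | .push a, l => a :: l
  | .pop, l => l.tail

structure SM (K G : Type) where
  Q : Type
  fin : Fintype Q
  q0 : Q
  ev : Q → Bool
  rs : Q → Q
  act : Q → (K → Option G) → Q × (K → Op G)

variable {K G : Type}

/-- one proper step -/
def SM.stp (M : SM K G) (c : M.Q × (K → List G)) : M.Q × (K → List G) :=
  ((M.act c.1 fun k => (c.2 k).head?).1,
    fun k => ((M.act c.1 fun k => (c.2 k).head?).2 k).app (c.2 k))

/-- the run from empty stacks, with restarts at the events -/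
def SM.run (M : SM K G) : ℕ → M.Q × (K → List G)
  | 0 => (M.q0, fun _ => [])
  | n + 1 => if M.ev (M.run n).1 = true then (M.rs (M.run n).1, (M.run n).2) else M.stp (M.run n)

/-- the first words (up to and including the separator `cs`) of two stacks are equal -/
def eqw [DecidableEq G] (cs : G) : List G → List G → Bool
  | [], _ => false
  | _ :: _, [] => false
  | a :: l, b :: l' => decide (a = b) && (decide (a = cs) || eqw cs l l')

def SM.Prog [DecidableEq G] (M : SM K G) (mn : K) (cs : G) (e : ℕ → ℕ) : Prop :=
  ∃ evs : ℕ → ℕ, StrictMono evs ∧ (∀ s, M.ev (M.run s).1 = true ↔ ∃ n, s = evs n) ∧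
    ∀ m n, eqw cs ((M.run (evs m)).2 mn) ((M.run (evs n)).2 mn) = decide (e m = e n)

end H96.CK
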