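import Pool.Agent.H96.CK.Mach

/-!
# Module MachA (300 lines): Mathlib's TM2 program of a code as a stack machine

`c : Turing.ToPartrec.Code`. Mathlib gives (`Turing.PartrecToTM2.tr_eval`)
`StateTransition.eval (TM2.step tr) (init c v) = halt <$> c.eval v`, and `tr_supports c Cont'.halt`:
only the labels of the finite set `codeSupp c Cont'.halt` occur.
The machine: states `Q = {s : Option Stmt' // s ∈ TM2.stmts tr (codeSupp c Cont'.halt)} × Option Γ'`
(a statement and the local variable; finite: `Finset` subtype, `Γ'` is a `Fintype`). `act` performs ONE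
statement constructor:
`push k f q`: push `f v` on `k`, state `(q, v)`; `peek k f q`: state `(q, f v top_k)`;
`pop k f q`: pop `k`, state `(q, f v top_k)`; `load f q`: `(q, f v)`;
`branch f q1 q2`: `(if f v then q1 else q2, v)`; `goto f`: `(tr (f v), v)`; `halt`: anything.
`ev (s, v) = true` iff `s = some halt`; `rs _ = st := (some (tr (trNormal c Cont'.halt)), none)`,
`q0 = st`. Membership of the next statement: `TM2.stmts_trans`, `TM2.stmts_supportsStmt`, and
`tr l ∈ stmts` for `l ∈ codeSupp`; simplest: define the next state with a test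
`if h : s' ∈ stmts then ⟨s', h⟩ else default` and prove membership separately.
Simulation: induction on the statement `q`: if `TM2.stepAux q v S = ⟨some l, v', S'⟩` then some
positive number of steps of the machine leads from `(q, v, S)` to `(tr l, v', S')` with no event on
the way (before the end); if it is `⟨none, v', S'⟩` the steps lead to `(halt, v', S')`.
From `w ∈ c.eval v`: `halt w ∈ eval (TM2.step tr) (init c v)`, so `init c v` reaches `halt w`
(`StateTransition.mem_eval`), chain the simulations along `Relation.ReflTransGen`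
(head induction; the last one ends in `halt`).
`K'.elim` is the function with the four given stacks (main, rev, aux, stack).
-/

namespace H96.CK

open Turing.PartrecToTM2

section priv

open Turing
open scoped Classical

private abbrev Stm := TM2.Stmt (fun _ : K' => Γ') Λ' (Option Γ')

private noncomputable def XS (c : ToPartrec.Code) : Finset Stm :=
  insert TM2.Stmt.halt ((codeSupp c Cont'.halt).biUnion fun l => TM2.stmts₁ (tr l))

private theorem XS_halt (c : ToPartrec.Code) : TM2.Stmt.halt ∈ XS c := Finset.mem_insert_self _ _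

private theorem XS_tr {c : ToPartrec.Code} {l : Λ'} (hl : l ∈ codeSupp c Cont'.halt) : tr l ∈ XS c := by
  unfold XS
  exact Finset.mem_insert_of_mem (Finset.mem_biUnion.2 ⟨l, hl, TM2.stmts₁_self⟩)

private theorem XS_sub {c : ToPartrec.Code} {q q' : Stm} (hq : q ∈ XS c) (h : q' ∈ TM2.stmts₁ q) :
    q' ∈ XS c := by
  unfold XS at *
  rw [Finset.mem_insert] at hq
  rcases hq with rfl | hq
  · simp only [TM2.stmts₁, Finset.mem_singleton] at h
    subst h
    exact Finset.mem_insert_self _ _
  · rw [Finset.mem_biUnion] at hq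
    obtain ⟨l, hl, hq⟩ := hq
    exact Finset.mem_insert_of_mem (Finset.mem_biUnion.2 ⟨l, hl, TM2.stmts₁_trans hq h⟩)

private theorem XS_supp {c : ToPartrec.Code} {q : Stm} (hq : q ∈ XS c) :
    TM2.SupportsStmt (codeSupp c Cont'.halt) q := by
  unfold XS at hq
  rw [Finset.mem_insert] at hq
  rcases hq with rfl | hq
  · trivial
  · rw [Finset.mem_biUnion] at hq
    obtain ⟨l, hl, hq⟩ := hq
    exact TM2.stmts₁_supportsStmt_mono hq ((tr_supports c Cont'.halt).2 l hl)

private abbrev QS (c : ToPartrec.Code) : Type := {s : Stm // s ∈ XS c} × Option Γ'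

private noncomputable def mkQ (c : ToPartrec.Code) (q : Stm) (v : Option Γ') : QS c :=
  if h : q ∈ XS c then (⟨q, h⟩, v) else (⟨TM2.Stmt.halt, XS_halt c⟩, v)

private theorem mkQ_mem {c : ToPartrec.Code} {q : Stm} (h : q ∈ XS c) (v : Option Γ') :
    mkQ c q v = (⟨q, h⟩, v) := by
  unfold mkQ
  rw [dif_pos h]

private noncomputable def nxt (c : ToPartrec.Code) :
    Stm → Option Γ' → (K' → Option Γ') → QS c × (K' → Op Γ')
  | .push k f q, v, _ => (mkQ c q v, fun k' => if k' = k then .push (f v) else .keep)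
  | .peek k f q, v, t => (mkQ c q (f v (t k)), fun _ => .keep)
  | .pop k f q, v, t => (mkQ c q (f v (t k)), fun k' => if k' = k then .pop else .keep)
  | .load f q, v, _ => (mkQ c q (f v), fun _ => .keep)
  | .branch f q1 q2, v, _ => (mkQ c (cond (f v) q1 q2) v, fun _ => .keep)
  | .goto f, v, _ => (mkQ c (tr (f v)) v, fun _ => .keep)
  | .halt, v, _ => (mkQ c .halt v, fun _ => .keep)

private def isH : Stm → Bool
  | .halt => true
  | _ => false

private noncomputable def stQ (c : ToPartrec.Code) : QS c := mkQ c (tr (trNormal c Cont'.halt)) none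

private noncomputable def MS (c : ToPartrec.Code) : SM K' Γ' where
  Q := QS c
  fin := inferInstance
  q0 := stQ c
  ev q := isH q.1.1
  rs _ := stQ c
  act q t := nxt c q.1.1 q.2 t

private noncomputable def cf (c : ToPartrec.Code) (q : Stm) (v : Option Γ') (S : K' → List Γ') :
    (MS c).Q × (K' → List Γ') := (mkQ c q v, S)

private theorem cf_ev {c : ToPartrec.Code} {q : Stm} (h : q ∈ XS c) (v : Option Γ')
    (S : K' → List Γ') : (MS c).ev (cf c q v S).1 = isH q := by
  unfold cf
  simp only
  rw [mkQ_mem h v]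
  rfl

private theorem cf_stp {c : ToPartrec.Code} {q : Stm} (h : q ∈ XS c) (v : Option Γ')
    (S : K' → List Γ') : (MS c).stp (cf c q v S) =
      ((nxt c q v fun k => (S k).head?).1, fun k => ((nxt c q v fun k => (S k).head?).2 k).app (S k)) := by
  unfold cf SM.stp
  simp only
  rw [mkQ_mem h v]
  rfl

private noncomputable def cv (c : ToPartrec.Code) : TM2.Cfg (fun _ : K' => Γ') Λ' (Option Γ') →
    (MS c).Q × (K' → List Γ')
  | ⟨some l, v, S⟩ => cf c (tr l) v S
  | ⟨none, v, S⟩ => cf c TM2.Stmt.halt v S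

private theorem glue {c : ToPartrec.Code} {x y z : (MS c).Q × (K' → List Γ')}
    (h0 : (MS c).ev x.1 = false) (h1 : (MS c).stp x = y)
    (h2 : ∃ n, (∀ m < n, (MS c).ev ((MS c).stp^[m] y).1 = false) ∧ (MS c).stp^[n] y = z) :
    ∃ n, (∀ m < n, (MS c).ev ((MS c).stp^[m] x).1 = false) ∧ (MS c).stp^[n] x = z := by
  obtain ⟨n, hn1, hn2⟩ := h2
  refine ⟨n + 1, ?_, ?_⟩
  · intro m hm
    cases m with
    | zero => exact h0
    | succ m =>
      rw [Function.iterate_succ_apply, h1]
      exact hn1 m (by omega)
  · rw [Function.iterate_succ_apply, h1]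
    exact hn2

private theorem sim (c : ToPartrec.Code) (q : Stm) : ∀ (_ : q ∈ XS c) (v : Option Γ') (S : K' → List Γ'),
    ∃ n, (∀ m < n, (MS c).ev ((MS c).stp^[m] (cf c q v S)).1 = false) ∧
      (MS c).stp^[n] (cf c q v S) = cv c (TM2.stepAux q v S) := by
  induction q with
  | push k f q ih =>
    intro hq v S
    have hq' : q ∈ XS c := XS_sub hq (Finset.mem_insert_of_mem TM2.stmts₁_self)
    refine glue (cf_ev hq v S) ?_ (ih hq' v (Function.update S k (f v :: S k)))
    rw [cf_stp hq]
    refine Prod.ext rfl ?_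
    funext k'
    by_cases hk : k' = k
    · subst hk
      simp [nxt, cf, Op.app]
    · simp [nxt, cf, Op.app, hk]
  | peek k f q ih =>
    intro hq v S
    have hq' : q ∈ XS c := XS_sub hq (Finset.mem_insert_of_mem TM2.stmts₁_self)
    refine glue (cf_ev hq v S) ?_ (ih hq' (f v (S k).head?) S)
    rw [cf_stp hq]
    rfl
  | pop k f q ih =>
    intro hq v S
    have hq' : q ∈ XS c := XS_sub hq (Finset.mem_insert_of_mem TM2.stmts₁_self)
    refine glue (cf_ev hq v S) ?_ (ih hq' (f v (S k).head?) (Function.update S k (S k).tail))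
    rw [cf_stp hq]
    refine Prod.ext rfl ?_
    funext k'
    by_cases hk : k' = k
    · subst hk
      simp [nxt, cf, Op.app]
    · simp [nxt, cf, Op.app, hk]
  | load f q ih =>
    intro hq v S
    have hq' : q ∈ XS c := XS_sub hq (Finset.mem_insert_of_mem TM2.stmts₁_self)
    refine glue (cf_ev hq v S) ?_ (ih hq' (f v) S)
    rw [cf_stp hq]
    rfl
  | branch f q1 q2 ih1 ih2 =>
    intro hq v S
    have h1 : q1 ∈ XS c := XS_sub hq (Finset.mem_insert_of_mem (Finset.mem_union_left _ TM2.stmts₁_self))
    have h2 : q2 ∈ XS c := XS_sub hq (Finset.mem_insert_of_mem (Finset.mem_union_right _ TM2.stmts₁_self))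
    by_cases hf : f v = true
    · have e : TM2.stepAux (TM2.Stmt.branch f q1 q2) v S = TM2.stepAux q1 v S := by
        rw [TM2.stepAux, hf]
        rfl
      rw [e]
      refine glue (cf_ev hq v S) ?_ (ih1 h1 v S)
      have e2 : (nxt c (TM2.Stmt.branch f q1 q2) v fun k => (S k).head?) =
          (mkQ c (cond (f v) q1 q2) v, fun _ => .keep) := rfl
      rw [cf_stp hq, e2, hf]
      rfl
    · have hf' : f v = false := by simpa using hf
      have e : TM2.stepAux (TM2.Stmt.branch f q1 q2) v S = TM2.stepAux q2 v S := by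
        rw [TM2.stepAux, hf']
        rfl
      rw [e]
      refine glue (cf_ev hq v S) ?_ (ih2 h2 v S)
      have e2 : (nxt c (TM2.Stmt.branch f q1 q2) v fun k => (S k).head?) =
          (mkQ c (cond (f v) q1 q2) v, fun _ => .keep) := rfl
      rw [cf_stp hq, e2, hf']
      rfl
  | goto f =>
    intro hq v S
    refine glue (cf_ev hq v S) ?_ ⟨0, by intro m hm; omega, rfl⟩
    rw [cf_stp hq]
    rfl
  | halt =>
    intro hq v S
    exact ⟨0, by intro m hm; omega, rfl⟩

private theorem glue2 {c : ToPartrec.Code} {x y z : (MS c).Q × (K' → List Γ')}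
    (h1 : ∃ n, (∀ m < n, (MS c).ev ((MS c).stp^[m] x).1 = false) ∧ (MS c).stp^[n] x = y)
    (h2 : ∃ n, (∀ m < n, (MS c).ev ((MS c).stp^[m] y).1 = false) ∧ (MS c).stp^[n] y = z) :
    ∃ n, (∀ m < n, (MS c).ev ((MS c).stp^[m] x).1 = false) ∧ (MS c).stp^[n] x = z := by
  obtain ⟨n1, a1, b1⟩ := h1
  obtain ⟨n2, a2, b2⟩ := h2
  refine ⟨n2 + n1, ?_, ?_⟩
  · intro m hm
    by_cases hm1 : m < n1
    · exact a1 m hm1
    · obtain ⟨t, rfl⟩ : ∃ t, m = t + n1 := ⟨m - n1, by omega⟩
      rw [Function.iterate_add_apply, b1]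
      exact a2 t (by omega)
  · rw [Function.iterate_add_apply, b1, b2]

private theorem chain (c : ToPartrec.Code) {x z : TM2.Cfg (fun _ : K' => Γ') Λ' (Option Γ')}
    (h : StateTransition.Reaches (TM2.step tr) x z) :
    x.l ∈ Finset.insertNone (codeSupp c Cont'.halt) →
    ∃ n, (∀ m < n, (MS c).ev ((MS c).stp^[m] (cv c x)).1 = false) ∧ (MS c).stp^[n] (cv c x) = cv c z := by
  unfold StateTransition.Reaches at h
  induction h using Relation.ReflTransGen.head_induction_on with
  | refl => exact fun _ => ⟨0, by intro m hm; omega, rfl⟩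
  | head h1 h2 ih =>
    rename_i x y
    intro hx
    have hy := @TM2.step_supports K' (fun _ => Γ') Λ' (Option Γ') ⟨trNormal c Cont'.halt⟩ _ tr _
      (tr_supports c Cont'.halt) x y h1 hx
    refine glue2 ?_ (ih hy)
    obtain ⟨l, v, S⟩ := x
    cases l with
    | none => exact absurd h1 (by simp [TM2.step])
    | some l =>
      have hl : l ∈ codeSupp c Cont'.halt := by simpa using hx
      have e : y = TM2.stepAux (tr l) v S := by
        have h3 : TM2.step tr ⟨some l, v, S⟩ = some y := h1
        rw [TM2.step] at h3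
        exact (Option.some.inj h3).symm
      rw [e]
      exact sim c (tr l) (XS_tr hl) v S

end priv

theorem exists_block (c : Turing.ToPartrec.Code) :
    ∃ (M : SM K' Γ') (st : M.Q), (∀ q, M.ev q = true → M.rs q = st) ∧
      ∀ v w : List ℕ, w ∈ c.eval v → ∃ n,
        (∀ m < n, M.ev (M.stp^[m] (st, K'.elim (trList v) [] [] [])).1 = false) ∧
        M.ev (M.stp^[n] (st, K'.elim (trList v) [] [] [])).1 = true ∧
        (M.stp^[n] (st, K'.elim (trList v) [] [] [])).2 = K'.elim (trList w) [] [] [] := by
  refine ⟨MS c, stQ c, fun _ _ => rfl, ?_⟩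
  intro v w hw
  have h1 : halt w ∈ StateTransition.eval (Turing.TM2.step tr) (init c v) := by
    rw [tr_eval]
    exact Part.mem_map_iff _ |>.2 ⟨w, hw, rfl⟩
  obtain ⟨h2, h3⟩ := StateTransition.mem_eval.1 h1
  obtain ⟨n, hn1, hn2⟩ := chain c h2 (by
    have := (tr_supports c Cont'.halt).1
    exact Finset.some_mem_insertNone.2 this)
  refine ⟨n, hn1, ?_, ?_⟩
  · have h4 := congrArg Prod.fst hn2
    have h5 := cf_ev (XS_halt c) none (K'.elim (trList w) [] [] [])
    exact (congrArg (MS c).ev h4).trans h5
  · exact congrArg Prod.snd hn2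

end H96.CK
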