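import Pool.Agent.H96.CK.OvA
import Pool.Agent.H96.CK.LaneC3
import Pool.Agent.H96.CK.BusA

/-!
# Module OvB (250 lines): `o v` is a legal configuration

`o v = oT (Hx v) (Wx v)`. `ot_l : OkL`: by cases `b = 0` (base row: states 2; wires `W a 0` by `base1`, `base2` of `lane_ok`; below the base row
`w = blank`, `u = false`) and `b ≠ 0`. For `b ≠ 0`: `ur`: `stA > 0` means `a ≠ 0`, `lv3 b > lv3 a`, and
`u` above is `0 ≤ b < 3 ^ (lv3 a + 1)`: for `b > 0` we have `b ≥ 3 ^ lv3 b ≥ 3 ^ (lv3 a + 1)`. `uc`: `lv3 b ≤ lv3 a` (or `a = 0`): `0 ≤ b ↔ 0 ≤ b - 1`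
as `b ≠ 0`, and `b < 3 ^ (lv3 a + 1) ↔ b - 1 < 3 ^ (lv3 a + 1)` as `b ≠ 3 ^ (lv3 a + 1)`. `roE`: `lv3 a = lv3 b = j`: `∃ t, b = 3 ^ t` iff
`0 ≤ b - 1 < 3 ^ (j+1)` and the digit `lastA b = 1`. `wd`, `wu`: `W a t = blank` for `t > lv3 a` (`pass`) and `b ≥ 3 ^ (lv3 a + 1)` means
`log 3 b + 1 > lv3 a + 1`. `wr`, `we`: the same (`W a t` with `t = log 3 (b-1) + 1 > lv3 a` ...: if `ro = false` and `lv3 b = lv3 a = j`, `b > 0`: then
`b ≥ 2 * 3 ^ j`, so `b - 1 ≥ 3 ^ j` and `log 3 (b-1) + 1 ≥ j + 1`). `wc`: `b` not a power of 3: `log 3 b = log 3 (b-1)` for `b ≥ 2`;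
for `b < 0` blank. `lane`: `b = 3 ^ t`: the wire below is `W a t` (`log 3 (3 ^ t - 1) + 1 = t`, `t ≥ 1`; for `t = 0`: `b - 1 = 0`, `W a 0`), above `W a (t+1)`;
`lane_ok.rule`/`inf`.
`o_mem`: `OvA` and `ot_l`. `o_geo`, `o_base`, `o_hw`: unfold (`Geo` with `c = r = 0`).
-/

set_option linter.unusedSectionVars false

namespace H96.CK

variable {K G : Type} [DecidableEq G] {M : SM K G} {mn : K} {cs : G} {e : ℕ → ℕ}
  {r : ℕ → ℕ → Prop} {μ : ℕ → ℕ}

/-- the configuration with one corner of infinite level, with code `v` -/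
noncomputable def oo (M : SM K G) (mn : K) (cs : G) (e : ℕ → ℕ) (v : Option ℕ) :
    ℤ × ℤ → Tile M := oT (Hx M mn cs e v) (Wx M mn cs e v)

private theorem lv3_dvd {a : ℤ} (ha : a ≠ 0) : (3 : ℤ) ^ lv3 a ∣ a ∧ ¬ (3 : ℤ) ^ (lv3 a + 1) ∣ a := by
  obtain ⟨h1, h2⟩ := lv3_isLv ha
  rw [sub_zero] at h1 h2
  exact ⟨by exact_mod_cast h1, fun h => h2 (by exact_mod_cast h)⟩

private theorem isInf0 {x : ℤ} : IsInf 3 (fun _ => 0) x ↔ x = 0 := by
  constructor
  · intro h
    exact h.unique (by norm_num) fun n => by simp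
  · rintro rfl
    exact fun n => by simp

private theorem coh00 : Coh 3 (fun _ => 0) := fun n => by simp

private theorem isLv0 {x : ℤ} {i : ℕ} (h : IsLv 3 (fun _ => 0) x i) : x ≠ 0 ∧ lv3 x = i := by
  have hx : x ≠ 0 := by
    rintro rfl
    exact h.not_inf (isInf0.2 rfl)
  exact ⟨hx, IsLv.unique coh00 (lv3_isLv hx) h⟩

private theorem lv3_le {b : ℤ} (hb : 0 < b) : (3 : ℤ) ^ lv3 b ≤ b :=
  Int.le_of_dvd hb (lv3_dvd hb.ne').1

private theorem lv3_pow (t : ℕ) : lv3 ((3 : ℤ) ^ t) = t := by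
  have h0 : (3 : ℤ) ^ t ≠ 0 := by positivity
  have h : IsLv 3 (fun _ => 0) ((3 : ℤ) ^ t) t := by
    constructor
    · simp
    · rw [sub_zero]
      intro h
      have h1 : 3 ^ (t + 1) ∣ 3 ^ t := by exact_mod_cast h
      have h2 := (Nat.pow_dvd_pow_iff_le_right (by norm_num : 1 < 3)).1 h1
      omega
  exact (isLv0 h).2

private theorem cl_pos {z : ℤ} : 0 < cl z ↔ 0 < z := by
  unfold cl
  omega

private theorem cl_zero {z : ℤ} : cl z = 0 ↔ z = 0 := by
  unfold cl
  omega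

/-- the wire above row `b` -/
private def wf (W : ℤ → ℕ → WL M) (a b : ℤ) : WL M :=
  if b < 0 then .blank else if b = 0 then W a 0 else W a (Nat.log 3 b.toNat + 1)

private theorem ve_w (W : ℤ → ℕ → WL M) (a b : ℤ) : (veO W a b).w = wf W a b := by
  unfold veO wf
  split_ifs <;> rfl

private theorem wf_neg (W : ℤ → ℕ → WL M) (a : ℤ) {b : ℤ} (h : b < 0) : wf W a b = .blank := by
  unfold wf
  rw [if_pos h]

private theorem wf_zero (W : ℤ → ℕ → WL M) (a : ℤ) : wf W a 0 = W a 0 := by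
  unfold wf
  simp

private theorem wf_pos (W : ℤ → ℕ → WL M) (a : ℤ) {b : ℤ} (h : 0 < b) :
    wf W a b = W a (Nat.log 3 b.toNat + 1) := by
  unfold wf
  rw [if_neg (by omega), if_neg (by omega)]

private theorem ve_u0 (W : ℤ → ℕ → WL M) (b : ℤ) : (veO W 0 b).u = true ↔ 0 ≤ b := by
  simp [veO]

private theorem ve_u (W : ℤ → ℕ → WL M) {a : ℤ} (ha : a ≠ 0) (b : ℤ) :
    (veO W a b).u = true ↔ 0 ≤ b ∧ b < 3 ^ (lv3 a + 1) := by
  simp [veO, ha]

private theorem he_be (H : ℤ → ℕ → HL M) (W : ℤ → ℕ → WL M) (a b : ℤ) :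
    (heO H W a b).be = true ↔ b = 0 := by
  unfold heO
  split_ifs with h <;> simp [h]

private theorem he_ro (H : ℤ → ℕ → HL M) (W : ℤ → ℕ → WL M) (a b : ℤ) :
    (heO H W a b).ro = true ↔ ∃ t : ℕ, b = 3 ^ t := by
  unfold heO
  by_cases h : b = 0
  · rw [if_pos h]
    subst h
    constructor
    · intro h
      exact absurd h (by simp)
    · rintro ⟨t, ht⟩
      have : (0 : ℤ) < 3 ^ t := by positivity
      omega
  · rw [if_neg h]
    classical
    exact decide_eq_true_iff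

private theorem he_h (H : ℤ → ℕ → HL M) (W : ℤ → ℕ → WL M) (a : ℤ) (t : ℕ) :
    (heO H W a (3 ^ t)).h = H a t := by
  have h0 : (3 : ℤ) ^ t ≠ 0 := by positivity
  unfold heO
  rw [if_neg h0]
  simp only
  rw [if_pos ⟨t, rfl⟩, lv3_pow]

private theorem he_h' (H : ℤ → ℕ → HL M) (W : ℤ → ℕ → WL M) (a b : ℤ)
    (h : ¬ ∃ t : ℕ, b = 3 ^ t) : (heO H W a b).h = .blank := by
  unfold heO
  by_cases h0 : b = 0
  · rw [if_pos h0]
  · rw [if_neg h0]
    simp only
    rw [if_neg h]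

private theorem he_dy (H : ℤ → ℕ → HL M) (W : ℤ → ℕ → WL M) (a : ℤ) {b : ℤ} (hb : b ≠ 0) :
    ((heO H W a b).dy : ℕ) = dig 3 (lv3 b) b := by
  unfold heO
  rw [if_neg hb]
  simp only [Fin.ofNat, lastA]
  exact Nat.mod_eq_of_lt (dig_lt (by norm_num) _ _)

private theorem log_ge {b : ℤ} {n : ℕ} (h : (3 : ℤ) ^ n ≤ b) : n ≤ Nat.log 3 b.toNat := by
  have hp : (0 : ℤ) < 3 ^ n := by positivity
  have h1 : 3 ^ n ≤ b.toNat := by
    have : ((3 ^ n : ℕ) : ℤ) ≤ (b.toNat : ℤ) := by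
      rw [Int.toNat_of_nonneg (by omega)]
      exact_mod_cast h
    exact_mod_cast this
  exact Nat.le_log_of_pow_le (by norm_num) h1

private theorem log_pow (t : ℕ) : Nat.log 3 ((3 : ℤ) ^ t).toNat = t := by
  have : ((3 : ℤ) ^ t).toNat = 3 ^ t := by
    have : ((3 ^ t : ℕ) : ℤ) = (3 : ℤ) ^ t := by push_cast; rfl
    rw [← this, Int.toNat_natCast]
  rw [this]
  exact Nat.log_pow (by norm_num) t

private theorem wf_pow (W : ℤ → ℕ → WL M) (a : ℤ) (t : ℕ) : wf W a ((3 : ℤ) ^ t) = W a (t + 1) := by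
  rw [wf_pos W a (by positivity), log_pow]

private theorem wf_pow_pred (W : ℤ → ℕ → WL M) (a : ℤ) (t : ℕ) :
    wf W a ((3 : ℤ) ^ t - 1) = W a t := by
  rcases Nat.eq_zero_or_pos t with h | h
  · subst h
    rw [pow_zero, sub_self, wf_zero]
  · have h3 : 3 ^ 1 ≤ 3 ^ t := Nat.pow_le_pow_right (by norm_num) h
    have e : (3 : ℤ) ^ t - 1 = ((3 ^ t - 1 : ℕ) : ℤ) := by
      rw [Nat.cast_sub (by omega)]
      push_cast
      rfl
    rw [wf_pos W a (by rw [e]; omega), e, Int.toNat_natCast]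
    have h4 : Nat.log 3 (3 ^ t - 1) = t - 1 := by
      obtain ⟨s, rfl⟩ : ∃ s, t = s + 1 := ⟨t - 1, by omega⟩
      rw [Nat.add_sub_cancel]
      have h5 : 0 < 3 ^ s := by positivity
      rw [Nat.log_eq_iff (Or.inr ⟨by norm_num, by omega⟩)]
      rw [pow_succ] at h3 ⊢
      omega
    rw [h4, Nat.sub_add_cancel h]

/-- wires are blank above the level of the column -/
private theorem wf_blank {H : ℤ → ℕ → HL M} {W : ℤ → ℕ → WL M}
    (L : LaneOk M mn cs (fun _ => 0) (dgA fun _ => 0) (dgB fun _ => 0) H W) {a : ℤ} (ha : a ≠ 0)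
    {b : ℤ} (hb : b < 0 ∨ (3 : ℤ) ^ lv3 a ≤ b ) : wf W a b = .blank := by
  rcases hb with hb | hb
  · exact wf_neg W a hb
  · have hp : (0 : ℤ) < 3 ^ lv3 a := by positivity
    rw [wf_pos W a (by omega)]
    have h1 := log_ge hb
    exact (L.pass a _ (lv3 a) (lv3_isLv ha) (by omega)).2

private theorem dgA_eq {a : ℤ} (ha : a ≠ 0) : dgA (fun _ => 0) a = dig 3 (lv3 a) a := by
  have h := (colOk_dg coh00).A a _ (lv3_isLv ha)
  rwa [sub_zero] at h

private theorem dgB_eq {a : ℤ} (ha : a ≠ 0) : dgB (fun _ => 0) a = dig 9 (lv3 a / 2) a := by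
  have h := (colOk_dg coh00).B a _ (lv3_isLv ha)
  rwa [sub_zero] at h

private theorem dg_zero : dgA (fun _ => 0) 0 = 1 ∧ dgB (fun _ => 0) 0 = 3 := by
  have hn : ¬ ∃ i, IsLv 3 (fun _ => 0) (0 : ℤ) i := fun ⟨i, hi⟩ => hi.not_inf (isInf0.2 rfl)
  constructor
  · unfold dgA
    rw [dif_neg hn]
  · unfold dgB
    rw [dif_neg hn]

private theorem st_pos {a b : ℤ} (hb : b ≠ 0) : 0 < stA a b ↔ a ≠ 0 ∧ lv3 a < lv3 b := by
  unfold stA
  rw [if_neg hb]
  split_ifs with h
  · simp [h]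
  · rw [cl_pos]
    constructor
    · intro h1
      exact ⟨h, by omega⟩
    · intro h1
      have := h1.2
      omega

private theorem st_zero {a b : ℤ} : stA a b = 0 ↔ b ≠ 0 ∧ a ≠ 0 ∧ lv3 a = lv3 b := by
  unfold stA
  split_ifs with h h'
  · simp [h]
  · simp [h']
  · rw [cl_zero]
    constructor
    · intro h1
      exact ⟨h, h', by omega⟩
    · rintro ⟨-, -, h1⟩
      omega

/-- a power of 3 that is not `b` -/
private theorem two_le {b : ℤ} (hb : 0 < b) (h : ¬ ∃ t : ℕ, b = 3 ^ t) : 2 * 3 ^ lv3 b ≤ b := by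
  obtain ⟨w, hw⟩ := (lv3_dvd hb.ne').1
  have hp : (0 : ℤ) < 3 ^ lv3 b := by positivity
  have hw0 : 0 < w := by
    by_contra h0
    have : (3 : ℤ) ^ lv3 b * w ≤ 0 := by nlinarith
    rw [← hw] at this
    omega
  have hw1 : w ≠ 1 := by
    rintro rfl
    exact h ⟨lv3 b, by rw [mul_one] at hw; exact hw⟩
  have hw2 : 2 ≤ w := by omega
  have h5 : (3 : ℤ) ^ lv3 b * 2 ≤ 3 ^ lv3 b * w := mul_le_mul_of_nonneg_left hw2 hp.le
  rw [← hw] at h5
  linarith

theorem ot_l {H : ℤ → ℕ → HL M} {W : ℤ → ℕ → WL M}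
    (L : LaneOk M mn cs (fun _ => 0) (dgA fun _ => 0) (dgB fun _ => 0) H W) (a b : ℤ) :
    (oT H W (a, b)).OkL M mn cs := by
  classical
  have htA := (ot_tA H W a b).1
  have htB := (ot_tA H W a b).2
  have el : (oT H W (a, b)).l = heO H W (a - 1) b := rfl
  have er : (oT H W (a, b)).r = heO H W a b := rfl
  have ed : (oT H W (a, b)).d = veO W a (b - 1) := rfl
  have eu : (oT H W (a, b)).u = veO W a b := rfl
  have hbe : (oT H W (a, b)).l.be = false → b ≠ 0 := by
    intro h h0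
    have := (he_be H W (a - 1) b).2 h0
    rw [el] at h
    rw [h] at this
    cases this
  have hro : (oT H W (a, b)).l.ro = false → ¬ ∃ t : ℕ, b = 3 ^ t := by
    intro h h0
    have := (he_ro H W (a - 1) b).2 h0
    rw [el] at h
    rw [h] at this
    cases this
  refine ⟨?_, ?_, ?_, ?_, ?_, ?_, ?_, ?_, ?_, ?_, ?_, ?_, ?_⟩
  · -- base
    intro h
    rw [el, he_be] at h
    subst h
    rw [htA, htB, el, er, ed, eu, ve_w, ve_w, wf_zero, wf_neg W a (by norm_num)]
    refine ⟨by simp [stA], by simp [stB], by simp [heO], by simp [heO], by simp [heO],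
      by intro k; simp [heO], ?_, ?_, rfl, by simp [heO], by simp [heO], L.base1 a, ?_, ?_⟩
    · rcases eq_or_ne a 0 with h | h
      · subst h
        have := (ve_u0 W (0 - 1)).not.2 (by norm_num)
        simpa using this
      · have := (ve_u W h (0 - 1)).not.2 (by norm_num)
        simpa using this
    · rcases eq_or_ne a 0 with h | h
      · subst h
        exact (ve_u0 W 0).2 le_rfl
      · exact (ve_u W h 0).2 ⟨le_rfl, by positivity⟩
    · simp [heO]
    · rw [L.base2 a]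
      simp [heO]
  · -- nini
    intro h
    have hb := hbe h
    rw [el, er]
    simp [heO, hb]
  · -- ur
    intro h hp
    have hb := hbe h
    rw [htA, st_pos hb] at hp
    rw [eu]
    have := (ve_u W hp.1 b).not.2 (by
      rintro ⟨h1, h2⟩
      have h3 := lv3_le (lt_of_le_of_ne h1 hb.symm)
      have h4 : (3 : ℤ) ^ (lv3 a + 1) ≤ 3 ^ lv3 b :=
        pow_le_pow_right₀ (by norm_num) hp.2
      omega)
    simpa using this
  · -- uc
    intro h hp
    have hb := hbe h
    rw [htA] at hp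
    rw [eu, ed, Bool.eq_iff_iff]
    rcases eq_or_ne a 0 with ha | ha
    · subst ha
      rw [ve_u0, ve_u0]
      omega
    · rw [ve_u W ha, ve_u W ha]
      have h1 : ¬ (a ≠ 0 ∧ lv3 a < lv3 b) := fun h => by
        have := (st_pos hb).2 h
        omega
      have h2 : b ≠ 3 ^ (lv3 a + 1) := by
        intro h2
        apply h1
        refine ⟨ha, ?_⟩
        rw [h2, lv3_pow]
        omega
      omega
  · -- roE
    intro h
    rw [htA, st_zero] at h
    obtain ⟨hb, ha, hj⟩ := h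
    rw [el, ed, he_ro, ve_u W ha]
    have hdy : (heO H W (a - 1) b).dy = 1 ↔ dig 3 (lv3 b) b = 1 := by
      rw [← he_dy H W (a - 1) hb, Fin.ext_iff]
      rfl
    rw [hdy, hj]
    constructor
    · rintro ⟨t, ht⟩
      subst ht
      rw [lv3_pow]
      have hp : (0 : ℤ) < 3 ^ t := by positivity
      refine ⟨⟨by omega, by rw [pow_succ]; omega⟩, ?_⟩
      have := dig_eq (a := 3) (by norm_num) t 1
      rw [mul_one] at this
      push_cast at this
      norm_num at this
      exact this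
    · rintro ⟨⟨h1, h2⟩, h3⟩
      have hb0 : 0 < b := by omega
      by_contra hno
      have h4 := two_le hb0 hno
      obtain ⟨w, hw⟩ := (lv3_dvd hb).1
      have hp : (0 : ℤ) < 3 ^ lv3 b := by positivity
      have h5 := dig_eq (a := 3) (by norm_num) (lv3 b) w
      push_cast at h5
      rw [← hw, h3] at h5
      rw [pow_succ] at h2
      have h6 : w ≤ 3 := by
        by_contra h7
        have : (3 : ℤ) ^ lv3 b * 4 ≤ 3 ^ lv3 b * w := by nlinarith
        rw [← hw] at this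
        omega
      have h7 : 2 ≤ w := by
        by_contra h8
        have : (3 : ℤ) ^ lv3 b * w ≤ 3 ^ lv3 b * 1 := by nlinarith
        rw [← hw] at this
        omega
      have h8 : w = 2 ∨ w = 3 := by omega
      rcases h8 with h8 | h8 <;> subst h8 <;> norm_num at h5
  · -- wd
    intro h
    rw [ed] at h ⊢
    rw [ve_w]
    rcases eq_or_ne a 0 with ha | ha
    · subst ha
      apply wf_neg
      by_contra h0
      have := (ve_u0 W (b - 1)).2 (by omega)
      rw [h] at this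
      cases this
    · apply wf_blank L ha
      by_contra h0
      have := (ve_u W ha (b - 1)).2 (by
        have hp : (0 : ℤ) < 3 ^ lv3 a := by positivity
        rw [pow_succ]
        omega)
      rw [h] at this
      cases this
  · -- wu
    intro h
    rw [eu] at h ⊢
    rw [ve_w]
    rcases eq_or_ne a 0 with ha | ha
    · subst ha
      apply wf_neg
      by_contra h0
      have := (ve_u0 W b).2 (by omega)
      rw [h] at this
      cases this
    · apply wf_blank L ha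
      by_contra h0
      have := (ve_u W ha b).2 (by
        have hp : (0 : ℤ) < 3 ^ lv3 a := by positivity
        rw [pow_succ]
        omega)
      rw [h] at this
      cases this
  · -- wr
    intro h hp
    have hb := hbe h
    rw [htA, st_pos hb] at hp
    rw [ed, ve_w]
    apply wf_blank L hp.1
    rcases lt_or_ge (b - 1) 0 with h1 | h1
    · exact Or.inl h1
    · right
      have h3 := lv3_le (b := b) (by omega)
      have h4 : (3 : ℤ) ^ (lv3 a + 1) ≤ 3 ^ lv3 b :=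
        pow_le_pow_right₀ (by norm_num) hp.2
      have hp' : (0 : ℤ) < 3 ^ lv3 a := by positivity
      rw [pow_succ] at h4
      omega
  · -- h0
    intro h
    have hn := hro h
    rw [el, er]
    exact ⟨he_h' H W _ _ hn, he_h' H W _ _ hn⟩
  · -- we
    intro h h1
    have hn := hro h
    rw [htA, st_zero] at h1
    obtain ⟨hb, ha, hj⟩ := h1
    rw [ed, eu, ve_w, ve_w]
    have hp' : (0 : ℤ) < 3 ^ lv3 a := by positivity
    rcases lt_or_ge b 0 with h2 | h2
    · exact ⟨wf_neg W a (by omega), wf_neg W a h2⟩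
    · have h3 := two_le (lt_of_le_of_ne h2 hb.symm) hn
      rw [← hj] at h3
      exact ⟨wf_blank L ha (Or.inr (by omega)), wf_blank L ha (Or.inr (by omega))⟩
  · -- wc
    intro h h1
    have hn := hro h
    rw [htA] at h1
    have hb : b ≠ 0 := by
      rintro rfl
      simp [stA] at h1
    rw [ed, eu, ve_w, ve_w]
    rcases lt_or_ge b 0 with h2 | h2
    · rw [wf_neg W a h2, wf_neg W a (by omega)]
    · have hb1 : b ≠ 1 := fun h => hn ⟨0, by simpa using h⟩
      rw [wf_pos W a (by omega), wf_pos W a (by omega)]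
      congr 2
      obtain ⟨n, rfl⟩ : ∃ n : ℕ, b = (n : ℤ) := ⟨b.toNat, by omega⟩
      have e1 : ((n : ℤ) - 1).toNat = n - 1 := by omega
      rw [Int.toNat_natCast, e1]
      symm
      rw [Nat.log_eq_iff (Or.inr ⟨by norm_num, by omega⟩)]
      have h5 : 3 ^ Nat.log 3 n ≤ n := Nat.pow_log_le_self 3 (by omega)
      have h6 : n < 3 ^ (Nat.log 3 n + 1) := Nat.lt_pow_succ_log_self (by norm_num) n
      have h7 : n ≠ 3 ^ Nat.log 3 n := fun h => hn ⟨Nat.log 3 n, by exact_mod_cast h⟩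
      omega
  · -- hr
    intro h h1
    rw [el, he_ro] at h
    obtain ⟨t, rfl⟩ := h
    have hb : (3 : ℤ) ^ t ≠ 0 := by positivity
    rw [htA, st_pos hb, lv3_pow] at h1
    rw [el, er, he_h, he_h]
    exact (L.pass a t (lv3 a) (lv3_isLv h1.1) h1.2).1
  · -- lane
    intro h h1
    rw [el, he_ro] at h
    obtain ⟨t, rfl⟩ := h
    have hb : (3 : ℤ) ^ t ≠ 0 := by positivity
    rw [htA] at h1
    rw [htA, htB, el, er, ed, eu, he_h, he_h, ve_w, ve_w, wf_pow, wf_pow_pred]
    rcases eq_or_ne a 0 with ha | ha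
    · subst ha
      have h2 := L.inf 0 t (isInf0.2 rfl)
      rw [dg_zero.1, dg_zero.2] at h2
      have e1 : stA 0 ((3 : ℤ) ^ t) = -2 := by
        unfold stA
        rw [if_neg hb, if_pos rfl]
      have e2 : stB 0 ((3 : ℤ) ^ t) = -2 := by
        unfold stB
        rw [if_neg hb, if_pos rfl]
      have e3 : ((veO W 0 ((3 : ℤ) ^ t - 1)).dA : ℕ) = 1 := by
        simp [veO]
      have e4 : ((veO W 0 ((3 : ℤ) ^ t - 1)).dB : ℕ) = 3 := by
        simp [veO]
      rw [e1, e2, e3, e4]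
      exact h2
    · have hle : t ≤ lv3 a := by
        by_contra h2
        have := (st_pos (a := a) hb).2 ⟨ha, by rw [lv3_pow]; omega⟩
        omega
      have h2 := L.rule a t (lv3 a) (lv3_isLv ha) hle
      rw [dgA_eq ha, dgB_eq ha] at h2
      have e1 : stA a ((3 : ℤ) ^ t) = cl (t - lv3 a) := by
        unfold stA
        rw [if_neg hb, if_neg ha, lv3_pow]
      have e2 : stB a ((3 : ℤ) ^ t) = cl (t - (lv3 a / 2 : ℕ)) := by
        unfold stB
        rw [if_neg hb, if_neg ha, lv3_pow]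
      have e3 : ((veO W a ((3 : ℤ) ^ t - 1)).dA : ℕ) = dig 3 (lv3 a) a := by
        unfold veO
        rw [if_neg ha]
        simp only [Fin.ofNat, lastA]
        exact Nat.mod_eq_of_lt (dig_lt (by norm_num) _ _)
      have e4 : ((veO W a ((3 : ℤ) ^ t - 1)).dB : ℕ) = dig 9 (lv3 a / 2) a := by
        unfold veO
        rw [if_neg ha]
        simp only [Fin.ofNat, lastB]
        exact Nat.mod_eq_of_lt (dig_lt (by norm_num) _ _)
      rw [e1, e2, e3, e4]
      exact h2

theorem oo_mem (hT : Tm M mn cs e r μ) (v : Option ℕ) : oo M mn cs e v ∈ TX M mn cs := by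
  have L := lane_ok hT v
  have hok : ∀ a b, (oo M mn cs e v (a, b)).Ok M mn cs := fun a b =>
    ⟨ot_c _ _ a b, ot_s _ _ a b, ot_l L a b⟩
  intro a b
  obtain ⟨h1, h2, h3⟩ := ot_hor (Hx M mn cs e v) (Wx M mn cs e v) a b
  exact ⟨⟨hok a b, hok (a + 1) b, h1, h2, h3⟩, ot_ver _ _ a b⟩

private theorem fin_dig {n : ℕ} [NeZero n] (hn : 1 ≤ n) (q : ℕ) (a : ℤ) :
    ((Fin.ofNat n (dig n q a) : Fin n) : ℕ) = dig n q a := by
  simp only [Fin.ofNat]
  exact Nat.mod_eq_of_lt (dig_lt hn _ _)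

private theorem dig0 {n : ℕ} (hn : 1 ≤ n) (a : ℤ) : (dig n 0 a : ℤ) = a % n := by
  rw [dig_cast hn, pow_zero, Int.ediv_one]

theorem oo_geo (v : Option ℕ) : Geo (oo M mn cs e v) (fun _ => 0) (fun _ => 0) := by
  classical
  have hA : ∀ a b, (oo M mn cs e v (a, b)).tA = stA a b := fun a b => (ot_tA _ _ a b).1
  have hB : ∀ a b, (oo M mn cs e v (a, b)).tB = stB a b := fun a b => (ot_tA _ _ a b).2
  have ev : ∀ a b, ve (oo M mn cs e v) a b = veO (Wx M mn cs e v) a b := fun _ _ => rfl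
  have eh : ∀ a b, he (oo M mn cs e v) a b = heO (Hx M mn cs e v) (Wx M mn cs e v) a b :=
    fun _ _ => rfl
  refine ⟨coh00, coh00, ?_, ?_, ?_, ?_, ?_, ?_, ?_, ?_, ?_, ?_, ?_, ?_, ?_, ?_, ?_, ?_, ?_, ?_, ?_,
    ?_, ?_, ?_⟩
  · intro a b i j hi hj
    obtain ⟨ha, rfl⟩ := isLv0 hi
    obtain ⟨hb, rfl⟩ := isLv0 hj
    rw [hA]
    unfold stA
    rw [if_neg hb, if_neg ha]
  · intro a b i hi hb
    rw [hA, isInf0.1 hb]
    simp [stA]
  · intro a b j ha hj
    obtain ⟨hb, rfl⟩ := isLv0 hj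
    rw [hA, isInf0.1 ha]
    simp [stA, hb]
  · intro a b i j hi hj
    obtain ⟨ha, rfl⟩ := isLv0 hi
    obtain ⟨hb, rfl⟩ := isLv0 hj
    rw [hB]
    unfold stB
    rw [if_neg hb, if_neg ha]
  · intro a b i hi hb
    rw [hB, isInf0.1 hb]
    simp [stB]
  · intro a b j ha hj
    obtain ⟨hb, rfl⟩ := isLv0 hj
    rw [hB, isInf0.1 ha]
    simp [stB, hb]
  · intro a b
    rw [ev, sub_zero]
    unfold veO
    by_cases h : a = 0
    · rw [if_pos h]
      subst h
      simp
    · rw [if_neg h]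
      have h1 := fin_dig (n := 3) (by norm_num) 0 a
      have h2 := dig0 (n := 3) (by norm_num) a
      rw [← h1] at h2
      exact_mod_cast h2
  · intro a b
    rw [ev, sub_zero]
    unfold veO
    by_cases h : a = 0
    · rw [if_pos h]
      subst h
      simp
    · rw [if_neg h]
      have h1 := fin_dig (n := 9) (by norm_num) 0 a
      have h2 := dig0 (n := 9) (by norm_num) a
      rw [← h1] at h2
      exact_mod_cast h2
  · intro a b
    rw [eh, sub_zero]
    unfold heO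
    by_cases h : b = 0
    · rw [if_pos h]
      subst h
      simp
    · rw [if_neg h]
      have h1 := fin_dig (n := 3) (by norm_num) 0 b
      have h2 := dig0 (n := 3) (by norm_num) b
      rw [← h1] at h2
      exact_mod_cast h2
  · intro a b i hi
    obtain ⟨ha, rfl⟩ := isLv0 hi
    rw [ev, sub_zero]
    unfold veO
    rw [if_neg ha]
    exact fin_dig (n := 3) (by norm_num) _ a
  · intro a b i hi
    obtain ⟨ha, rfl⟩ := isLv0 hi
    rw [ev, sub_zero]
    unfold veO
    rw [if_neg ha]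
    exact fin_dig (n := 9) (by norm_num) _ a
  · intro a b j hj
    obtain ⟨hb, rfl⟩ := isLv0 hj
    rw [eh, sub_zero]
    exact he_dy _ _ a hb
  · intro a b j k q hj hq
    obtain ⟨hb, rfl⟩ := isLv0 hj
    rw [eh, sub_zero]
    unfold heO
    rw [if_neg hb]
    simp only
    rw [if_neg (by omega), show lv3 b + (k : ℕ) - 1 = q by omega]
    exact fin_dig (n := 3) (by norm_num) _ a
  · intro a b j k q hj hq
    obtain ⟨hb, rfl⟩ := isLv0 hj
    rw [eh, sub_zero]
    unfold heO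
    rw [if_neg hb]
    simp only
    rw [if_neg (by omega), show lv3 b + (k : ℕ) - 1 = q by omega]
    exact fin_dig (n := 9) (by norm_num) _ a
  · intro a b hj
    obtain ⟨hb, h0⟩ := isLv0 hj
    rw [eh]
    unfold heO
    rw [if_neg hb]
    simp only
    rw [if_pos (by rw [h0]; rfl)]
  · intro a b hj
    obtain ⟨hb, h0⟩ := isLv0 hj
    rw [eh]
    unfold heO
    rw [if_neg hb]
    simp only
    rw [if_pos (by rw [h0]; rfl)]
  · intro a b i k hb hi
    rw [eh, eh, isInf0.1 hb]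
    simp [heO]
  · intro a b i k q hi hq
    obtain ⟨ha, rfl⟩ := isLv0 hi
    rw [ev, sub_zero]
    unfold veO
    rw [if_neg ha]
    simp only
    rw [if_neg (by omega), show lv3 a + (k : ℕ) - 1 = q by omega]
    exact fin_dig (n := 3) (by norm_num) _ b
  · intro a b i k q hi hq
    obtain ⟨ha, rfl⟩ := isLv0 hi
    rw [ev, sub_zero]
    unfold veO
    rw [if_neg ha]
    simp only
    rw [if_neg (by omega), show lv3 a / 2 + (k : ℕ) - 1 = q by omega]
    exact fin_dig (n := 3) (by norm_num) _ b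
  · intro a b hi
    obtain ⟨ha, h0⟩ := isLv0 hi
    rw [ev]
    unfold veO
    rw [if_neg ha]
    simp only
    rw [if_pos (by rw [h0]; rfl)]
  · intro a b i hi h2
    obtain ⟨ha, h0⟩ := isLv0 hi
    rw [ev]
    unfold veO
    rw [if_neg ha]
    simp only
    rw [if_pos (by
      have : lv3 a / 2 = 0 := by omega
      rw [this]
      rfl)]
  · intro a b j k ha hj
    obtain ⟨hb, -⟩ := isLv0 hj
    rw [ev, ev, isInf0.1 ha]
    unfold veO
    rw [if_pos rfl, if_pos rfl]
    simp only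
    have h1 : (0 ≤ b - 1) ↔ 0 ≤ b := by omega
    simp only [h1, and_self]

theorem oo_base (v : Option ℕ) : BaseG (oo M mn cs e v) (fun _ => 0) (fun _ => 0) 0 := by
  classical
  have ev : ∀ a b, ve (oo M mn cs e v) a b = veO (Wx M mn cs e v) a b := fun _ _ => rfl
  have eh : ∀ a b, he (oo M mn cs e v) a b = heO (Hx M mn cs e v) (Wx M mn cs e v) a b :=
    fun _ _ => rfl
  refine ⟨isInf0.2 rfl, fun a b => ?_, fun a b i hi => ?_, fun a b ha => ?_, fun a b => ?_,
    fun a => ?_, fun a b hb => ?_⟩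
  · rw [eh, he_be]
  · obtain ⟨ha, rfl⟩ := isLv0 hi
    rw [ev, ve_u _ ha, zero_add]
  · rw [ev, isInf0.1 ha, ve_u0]
  · rw [eh, he_ro]
    simp only [zero_add]
  · rw [eh, ev, ve_w, wf_zero]
    refine ⟨by simp [heO], by simp [heO], by simp [heO], by simp [heO], by simp [heO],
      by simp [heO]⟩
  · rw [eh]
    refine ⟨by simp [heO, hb], fun h => ?_⟩
    apply he_h'
    intro h0
    have := (he_ro (Hx M mn cs e v) (Wx M mn cs e v) a b).2 h0
    rw [h] at this
    cases this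

theorem oo_hw (hT : Tm M mn cs e r μ) (v : Option ℕ) (a : ℤ) (t : ℕ) :
    Hf (oo M mn cs e v) 0 a t = Hx M mn cs e v a t ∧
    Wf (oo M mn cs e v) 0 a t = Wx M mn cs e v a t ∧ cA (oo M mn cs e v) 0 = 1 ∧
    cB (oo M mn cs e v) 0 = 3 := by
  have ev : ∀ a b, ve (oo M mn cs e v) a b = veO (Wx M mn cs e v) a b := fun _ _ => rfl
  have eh : ∀ a b, he (oo M mn cs e v) a b = heO (Hx M mn cs e v) (Wx M mn cs e v) a b :=
    fun _ _ => rfl
  refine ⟨?_, ?_, ?_, ?_⟩
  · unfold Hf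
    rw [eh, zero_add, he_h]
  · unfold Wf
    rw [ev, zero_add, ve_w]
    rcases Nat.eq_zero_or_pos t with h | h
    · subst h
      rw [if_pos rfl, wf_zero]
    · rw [if_neg (by omega), wf_pow, Nat.sub_add_cancel h]
  · unfold cA
    rw [ev]
    simp [veO]
  · unfold cB
    rw [ev]
    simp [veO]

end H96.CK
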