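import Pool.Agent.H96.CK.TileSk

/-!
# Module Win (200 lines): when two configurations agree on a window

A tile is determined by its four edges and its states; by `TX.eqs` it is enough to compare `he` at `(a - 1, b)`, `(a, b)`,
`ve` at `(a, b - 1)`, `(a, b)` and the states. Put `m = M' + 1`.
* A column `a` (`|a| ≤ N + 1`) which is low (`¬ 3 ^ m ∣ a - c m`) has the same finite level `i ≤ M'` for `c` and `c'` (the residues of
  `c` and `c'` agree mod `3 ^ R`, `R ≥ m`; `coh_le`). `Geo.mA, mB, dA, dB, eA, eB, eA0, eB0` for `x` and `y` give equal values by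
  `dig_congr` (all digits used have positions `≤ 2 M' + 5 < R` in base 3: base 9 position `q ≤ i/2 + 1`; rows: `r`, `r'` agree mod
  `3 ^ R`). `u`, `w` are given by `Lcol`. So `ve x a b = ve y a b`. High columns: `Hcol`.
* In the same way `he x a b = he y a b` (low rows: `n, dy, pA, pB, pA0, pB0`; base 9 digit at position `q ≤ j + 1 ≤ M' + 1`
  needs the residue mod `9 ^ (q+1) = 3 ^ (2 q + 2)`, `2 q + 2 ≤ 2 M' + 4`; `be, ro, ini, h` by `Lrow`).
* States: column low (level `i ≤ M'`), row low (level `j`): `A_fin`, `B_fin` for both. Column low, row high (`3 ^ R ∣ b - r R`, also for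
  `r'`): the row has level `≥ R ≥ i + 2` or infinite level, for both: `cl = 2` or `A_ri`. Column high, row low: `-2` (`i / 2 ≥ R / 2 ≥ j + 2`).
  Both high: `Hx`.
-/

namespace H96.CK

variable {K G : Type} [DecidableEq G] {M : SM K G} {mn : K} {cs : G}

private theorem cong3 {c c' : ℕ → ℤ} (hc : Coh 3 c) (hc' : Coh 3 c') {R : ℕ} (h : (3 : ℤ) ^ R ∣ c R - c' R)
    {n : ℕ} (hn : n ≤ R) : (3 : ℤ) ^ n ∣ c n - c' n := by
  have h1 : (3 : ℤ) ^ n ∣ c R - c n := by exact_mod_cast coh_le hc hn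
  have h2 : (3 : ℤ) ^ n ∣ c' R - c' n := by exact_mod_cast coh_le hc' hn
  have h3 := (pow_dvd_pow (3 : ℤ) hn).trans h
  have h4 := dvd_add (dvd_sub h3 h1) h2
  have e : c R - c' R - (c R - c n) + (c' R - c' n) = c n - c' n := by ring
  rwa [e] at h4

private theorem lv_tr {c c' : ℕ → ℤ} {x : ℤ} {i : ℕ} (h : ∀ n, n ≤ i + 1 → (3 : ℤ) ^ n ∣ c n - c' n)
    (hi : IsLv 3 c x i) : IsLv 3 c' x i := by
  obtain ⟨h1, h2⟩ := hi
  have h1' : (3 : ℤ) ^ i ∣ x - c i := by exact_mod_cast h1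
  have h2' : ¬ (3 : ℤ) ^ (i + 1) ∣ x - c (i + 1) := by exact_mod_cast h2
  have h3 : (3 : ℤ) ^ i ∣ x - c' i := by
    have h4 := dvd_add h1' (h i (by omega))
    rwa [sub_add_sub_cancel] at h4
  have h5 : ¬ (3 : ℤ) ^ (i + 1) ∣ x - c' (i + 1) := fun h6 => by
    have h7 := dvd_sub h6 (h (i + 1) le_rfl)
    have e : x - c' (i + 1) - (c (i + 1) - c' (i + 1)) = x - c (i + 1) := by ring
    rw [e] at h7
    exact h2' h7
  exact ⟨by exact_mod_cast h3, by exact_mod_cast h5⟩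

private theorem low {c : ℕ → ℤ} (hc : Coh 3 c) {x : ℤ} {m : ℕ} (h : ¬ (3 : ℤ) ^ m ∣ x - c m) :
    ∃ i, IsLv 3 c x i ∧ i < m := by
  rcases lv_or 3 c x with ⟨i, hi⟩ | hi
  · refine ⟨i, hi, ?_⟩
    by_contra hcon
    apply h
    exact_mod_cast (hi.dvd hc).2 (by omega : m ≤ i)
  · exfalso
    apply h
    exact_mod_cast hi m

private theorem high {c : ℕ → ℤ} (hc : Coh 3 c) {x : ℤ} {m : ℕ} (h : (3 : ℤ) ^ m ∣ x - c m) :
    (∃ i, IsLv 3 c x i ∧ m ≤ i) ∨ IsInf 3 c x := by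
  rcases lv_or 3 c x with ⟨i, hi⟩ | hi
  · exact Or.inl ⟨i, hi, (hi.dvd hc).1 (by exact_mod_cast h)⟩
  · exact Or.inr hi

private theorem nine_pow (n : ℕ) : (9 : ℤ) ^ n = 3 ^ (2 * n) := by
  rw [pow_mul]
  norm_num

private theorem dig3 {c c' : ℕ → ℤ} {x : ℤ} {q : ℕ} (h : (3 : ℤ) ^ (q + 1) ∣ c (q + 1) - c' (q + 1)) :
    dig 3 q (x - c (q + 1)) = dig 3 q (x - c' (q + 1)) := by
  apply dig_congr (by norm_num)
  have e : x - c (q + 1) - (x - c' (q + 1)) = -(c (q + 1) - c' (q + 1)) := by ring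
  rw [e]
  exact_mod_cast (dvd_neg (α := ℤ)).2 h

private theorem dig9 {c c' : ℕ → ℤ} {x : ℤ} {q : ℕ} (h : (3 : ℤ) ^ (2 * q + 2) ∣ c (2 * q + 2) - c' (2 * q + 2)) :
    dig 9 q (x - c (2 * q + 2)) = dig 9 q (x - c' (2 * q + 2)) := by
  apply dig_congr (by norm_num)
  have e : x - c (2 * q + 2) - (x - c' (2 * q + 2)) = -(c (2 * q + 2) - c' (2 * q + 2)) := by ring
  rw [e]
  have h1 : (9 : ℤ) ^ (q + 1) = 3 ^ (2 * q + 2) := by rw [nine_pow]; congr 1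
  have h2 : (9 : ℤ) ^ (q + 1) ∣ -(c (2 * q + 2) - c' (2 * q + 2)) := by
    rw [h1]
    exact (dvd_neg (α := ℤ)).2 h
  exact_mod_cast h2

private theorem mod_congr {z c c' a : ℤ} (h : a ∣ c - c') : (z - c) % a = (z - c') % a := by
  have h1 : (z - c) ≡ (z - c') [ZMOD a] := by
    rw [Int.modEq_iff_dvd]
    have e : z - c' - (z - c) = c - c' := by ring
    rwa [e]
  exact h1

omit [DecidableEq G] in
private theorem VE_ext {v w : VE M} (h1 : v.mA = w.mA) (h2 : v.mB = w.mB) (h3 : v.dA = w.dA) (h4 : v.dB = w.dB)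
    (h5 : v.eA = w.eA) (h6 : v.eB = w.eB) (h7 : v.u = w.u) (h8 : v.w = w.w) : v = w := by
  obtain ⟨a1, a2, a3, a4, a5, a6, a7, a8⟩ := v
  obtain ⟨b1, b2, b3, b4, b5, b6, b7, b8⟩ := w
  simp only at h1 h2 h3 h4 h5 h6 h7 h8
  subst h1 h2 h3 h4 h5 h6 h7 h8
  rfl

omit [DecidableEq G] in
private theorem HE_ext {v w : HE M} (h1 : v.n = w.n) (h2 : v.dy = w.dy) (h3 : v.be = w.be) (h4 : v.ro = w.ro)
    (h5 : v.ini = w.ini) (h6 : v.pA = w.pA) (h7 : v.pB = w.pB) (h8 : v.h = w.h) : v = w := by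
  obtain ⟨a1, a2, a3, a4, a5, a6, a7, a8⟩ := v
  obtain ⟨b1, b2, b3, b4, b5, b6, b7, b8⟩ := w
  simp only at h1 h2 h3 h4 h5 h6 h7 h8
  subst h1 h2 h3 h4 h5 h6 h7 h8
  rfl

omit [DecidableEq G] in
private theorem Tile_ext {v w : Tile M} (h1 : v.l = w.l) (h2 : v.r = w.r) (h3 : v.d = w.d) (h4 : v.u = w.u)
    (h5 : v.sA = w.sA) (h6 : v.sB = w.sB) : v = w := by
  obtain ⟨a1, a2, a3, a4, a5, a6⟩ := v
  obtain ⟨b1, b2, b3, b4, b5, b6⟩ := w
  simp only at h1 h2 h3 h4 h5 h6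
  subst h1 h2 h3 h4 h5 h6
  rfl

omit [DecidableEq G] in
private theorem ve_low {x y : ℤ × ℤ → Tile M} {c r c' r' : ℕ → ℤ} (gx : Geo x c r) (gy : Geo y c' r')
    {R i : ℕ} (hR : i + 2 ≤ R) (hc : ∀ n, n ≤ R → (3 : ℤ) ^ n ∣ c n - c' n)
    (hr : ∀ n, n ≤ R → (3 : ℤ) ^ n ∣ r n - r' n) {a b : ℤ} (hi : IsLv 3 c a i)
    (hu : (ve x a b).u = (ve y a b).u) (hw : (ve x a b).w = (ve y a b).w) : ve x a b = ve y a b := by
  have hi' : IsLv 3 c' a i := lv_tr (fun n hn => hc n (by omega)) hi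
  have e1 : (ve x a b).mA = (ve y a b).mA := by
    have h1 := gx.mA a b
    have h2 := gy.mA a b
    have h3 : (3 : ℤ) ∣ c 1 - c' 1 := by simpa using hc 1 (by omega)
    rw [mod_congr h3, ← h2] at h1
    exact Fin.ext (by exact_mod_cast h1)
  have e2 : (ve x a b).mB = (ve y a b).mB := by
    have h1 := gx.mB a b
    have h2 := gy.mB a b
    have h3 : (9 : ℤ) ∣ c 2 - c' 2 := by
      have := hc 2 (by omega)
      norm_num at this
      exact this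
    rw [mod_congr h3, ← h2] at h1
    exact Fin.ext (by exact_mod_cast h1)
  have e3 : (ve x a b).dA = (ve y a b).dA := by
    apply Fin.ext
    rw [gx.dA a b i hi, gy.dA a b i hi']
    exact dig3 (hc _ (by omega))
  have e4 : (ve x a b).dB = (ve y a b).dB := by
    apply Fin.ext
    rw [gx.dB a b i hi, gy.dB a b i hi']
    exact dig9 (hc _ (by omega))
  have e5 : (ve x a b).eA = (ve y a b).eA := by
    funext k
    have hk := k.isLt
    rcases Nat.eq_zero_or_pos (i + (k : ℕ)) with h0 | h0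
    · have hi0 : i = 0 := by omega
      have hk0 : k = 0 := Fin.ext (by simp; omega)
      subst hi0 hk0
      rw [gx.eA0 a b hi, gy.eA0 a b hi']
    · obtain ⟨q, hq⟩ : ∃ q, q + 1 = i + (k : ℕ) := ⟨i + k - 1, by omega⟩
      apply Fin.ext
      rw [gx.eA a b i k q hi hq, gy.eA a b i k q hi' hq]
      exact dig3 (hr _ (by omega))
  have e6 : (ve x a b).eB = (ve y a b).eB := by
    funext k
    have hk := k.isLt
    rcases Nat.eq_zero_or_pos (i / 2 + (k : ℕ)) with h0 | h0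
    · have hi0 : i < 2 := by omega
      have hk0 : k = 0 := Fin.ext (by simp; omega)
      subst hk0
      rw [gx.eB0 a b i hi hi0, gy.eB0 a b i hi' hi0]
    · obtain ⟨q, hq⟩ : ∃ q, q + 1 = i / 2 + (k : ℕ) := ⟨i / 2 + k - 1, by omega⟩
      apply Fin.ext
      rw [gx.eB a b i k q hi hq, gy.eB a b i k q hi' hq]
      exact dig3 (hr _ (by omega))
  exact VE_ext e1 e2 e3 e4 e5 e6 hu hw

omit [DecidableEq G] in
private theorem he_low {x y : ℤ × ℤ → Tile M} {c r c' r' : ℕ → ℤ} (gx : Geo x c r) (gy : Geo y c' r')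
    {R j : ℕ} (hR : 2 * j + 4 ≤ R) (hc : ∀ n, n ≤ R → (3 : ℤ) ^ n ∣ c n - c' n)
    (hr : ∀ n, n ≤ R → (3 : ℤ) ^ n ∣ r n - r' n) {a b : ℤ} (hj : IsLv 3 r b j)
    (h1 : (he x a b).be = (he y a b).be) (h2 : (he x a b).ro = (he y a b).ro)
    (h3 : (he x a b).ini = (he y a b).ini) (h4 : (he x a b).h = (he y a b).h) : he x a b = he y a b := by
  have hj' : IsLv 3 r' b j := lv_tr (fun n hn => hr n (by omega)) hj
  have e1 : (he x a b).n = (he y a b).n := by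
    have h1 := gx.n a b
    have h2 := gy.n a b
    have h3 : (3 : ℤ) ∣ r 1 - r' 1 := by simpa using hr 1 (by omega)
    rw [mod_congr h3, ← h2] at h1
    exact Fin.ext (by exact_mod_cast h1)
  have e2 : (he x a b).dy = (he y a b).dy := by
    apply Fin.ext
    rw [gx.dy a b j hj, gy.dy a b j hj']
    exact dig3 (hr _ (by omega))
  have e3 : (he x a b).pA = (he y a b).pA := by
    funext k
    have hk := k.isLt
    rcases Nat.eq_zero_or_pos (j + (k : ℕ)) with h0 | h0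
    · have hj0 : j = 0 := by omega
      have hk0 : k = 0 := Fin.ext (by simp; omega)
      subst hj0 hk0
      rw [gx.pA0 a b hj, gy.pA0 a b hj']
    · obtain ⟨q, hq⟩ : ∃ q, q + 1 = j + (k : ℕ) := ⟨j + k - 1, by omega⟩
      apply Fin.ext
      rw [gx.pA a b j k q hj hq, gy.pA a b j k q hj' hq]
      exact dig3 (hc _ (by omega))
  have e4 : (he x a b).pB = (he y a b).pB := by
    funext k
    have hk := k.isLt
    rcases Nat.eq_zero_or_pos (j + (k : ℕ)) with h0 | h0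
    · have hj0 : j = 0 := by omega
      have hk0 : k = 0 := Fin.ext (by simp; omega)
      subst hj0 hk0
      rw [gx.pB0 a b hj, gy.pB0 a b hj']
    · obtain ⟨q, hq⟩ : ∃ q, q + 1 = j + (k : ℕ) := ⟨j + k - 1, by omega⟩
      apply Fin.ext
      rw [gx.pB a b j k q hj hq, gy.pB a b j k q hj' hq]
      exact dig9 (hc _ (by omega))
  exact HE_ext e1 e2 h1 h2 h3 e3 e4 h4

omit [DecidableEq G] in
private theorem row_high {x : ℤ × ℤ → Tile M} {c r : ℕ → ℤ} (gx : Geo x c r) {R i : ℕ} (hR : i + 2 ≤ R)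
    {a b : ℤ} (hi : IsLv 3 c a i) (hb : (3 : ℤ) ^ R ∣ b - r R) : (x (a, b)).tA = 2 ∧ (x (a, b)).tB = 2 := by
  rcases high gx.cohr hb with ⟨j, hj, hj2⟩ | hinf
  · rw [gx.A_fin a b i j hi hj, gx.B_fin a b i j hi hj]
    unfold cl
    constructor <;> omega
  · exact ⟨gx.A_ri a b i hi hinf, gx.B_ri a b i hi hinf⟩

omit [DecidableEq G] in
private theorem col_high {x : ℤ × ℤ → Tile M} {c r : ℕ → ℤ} (gx : Geo x c r) {R j : ℕ} (hR : 2 * j + 4 ≤ R)
    {a b : ℤ} (hj : IsLv 3 r b j) (ha : (3 : ℤ) ^ R ∣ a - c R) : (x (a, b)).tA = -2 ∧ (x (a, b)).tB = -2 := by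
  rcases high gx.cohc ha with ⟨i, hi, hi2⟩ | hinf
  · rw [gx.A_fin a b i j hi hj, gx.B_fin a b i j hi hj]
    unfold cl
    constructor <;> omega
  · exact ⟨gx.A_ci a b j hinf hj, gx.B_ci a b j hinf hj⟩

omit [DecidableEq G] in
private theorem of_t {v w : Tile M} (h : v.tA = w.tA ∧ v.tB = w.tB) : v.sA = w.sA ∧ v.sB = w.sB := by
  obtain ⟨h1, h2⟩ := h
  unfold Tile.tA at h1
  unfold Tile.tB at h2
  exact ⟨Fin.ext (by omega), Fin.ext (by omega)⟩

theorem window_eq {x y : ℤ × ℤ → Tile M} (hx : x ∈ TX M mn cs) (hy : y ∈ TX M mn cs)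
    {c r c' r' : ℕ → ℤ} (gx : Geo x c r) (gy : Geo y c' r') {N M' R : ℕ} (hR : 2 * M' + 6 ≤ R)
    (hc : (3 : ℤ) ^ R ∣ c R - c' R) (hr : (3 : ℤ) ^ R ∣ r R - r' R)
    (hcol : ∀ a : ℤ, |a| ≤ N + 1 → (3 : ℤ) ^ (M' + 1) ∣ a - c (M' + 1) → (3 : ℤ) ^ R ∣ a - c R)
    (hrow : ∀ b : ℤ, |b| ≤ N + 1 → (3 : ℤ) ^ (M' + 1) ∣ b - r (M' + 1) → (3 : ℤ) ^ R ∣ b - r R)
    (Hcol : ∀ a b : ℤ, |a| ≤ N + 1 → |b| ≤ N + 1 → (3 : ℤ) ^ R ∣ a - c R → ve x a b = ve y a b)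
    (Hrow : ∀ a b : ℤ, |a| ≤ N + 1 → |b| ≤ N + 1 → (3 : ℤ) ^ R ∣ b - r R → he x a b = he y a b)
    (Hx : ∀ a b : ℤ, |a| ≤ N → |b| ≤ N → (3 : ℤ) ^ R ∣ a - c R → (3 : ℤ) ^ R ∣ b - r R →
      (x (a, b)).sA = (y (a, b)).sA ∧ (x (a, b)).sB = (y (a, b)).sB)
    (Lrow : ∀ a b : ℤ, |a| ≤ N + 1 → |b| ≤ N + 1 → ¬ (3 : ℤ) ^ (M' + 1) ∣ b - r (M' + 1) →
      (he x a b).be = (he y a b).be ∧ (he x a b).ro = (he y a b).ro ∧
      (he x a b).ini = (he y a b).ini ∧ (he x a b).h = (he y a b).h)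
    (Lcol : ∀ a b : ℤ, |a| ≤ N + 1 → |b| ≤ N + 1 → ¬ (3 : ℤ) ^ (M' + 1) ∣ a - c (M' + 1) →
      (ve x a b).u = (ve y a b).u ∧ (ve x a b).w = (ve y a b).w) :
    ∀ a b : ℤ, |a| ≤ N → |b| ≤ N → x (a, b) = y (a, b) := by
  have hc' : ∀ n, n ≤ R → (3 : ℤ) ^ n ∣ c n - c' n := fun n hn => cong3 gx.cohc gy.cohc hc hn
  have hr' : ∀ n, n ≤ R → (3 : ℤ) ^ n ∣ r n - r' n := fun n hn => cong3 gx.cohr gy.cohr hr hn
  have V : ∀ a b : ℤ, |a| ≤ N + 1 → |b| ≤ N + 1 → ve x a b = ve y a b := by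
    intro a b ha hb
    by_cases h : (3 : ℤ) ^ (M' + 1) ∣ a - c (M' + 1)
    · exact Hcol a b ha hb (hcol a ha h)
    · obtain ⟨i, hi, him⟩ := low gx.cohc h
      obtain ⟨hu, hw⟩ := Lcol a b ha hb h
      exact ve_low gx gy (by omega) hc' hr' hi hu hw
  have H : ∀ a b : ℤ, |a| ≤ N + 1 → |b| ≤ N + 1 → he x a b = he y a b := by
    intro a b ha hb
    by_cases h : (3 : ℤ) ^ (M' + 1) ∣ b - r (M' + 1)
    · exact Hrow a b ha hb (hrow b hb h)
    · obtain ⟨j, hj, hjm⟩ := low gx.cohr h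
      obtain ⟨h1, h2, h3, h4⟩ := Lrow a b ha hb h
      exact he_low gx gy (by omega) hc' hr' hj h1 h2 h3 h4
  intro a b ha hb
  have ha1 : |a| ≤ (N : ℤ) + 1 := by omega
  have hb1 : |b| ≤ (N : ℤ) + 1 := by omega
  have ha2 : |a - 1| ≤ (N : ℤ) + 1 := by
    rw [abs_le] at ha ⊢
    omega
  have hb2 : |b - 1| ≤ (N : ℤ) + 1 := by
    rw [abs_le] at hb ⊢
    omega
  have S : (x (a, b)).sA = (y (a, b)).sA ∧ (x (a, b)).sB = (y (a, b)).sB := by
    by_cases h : (3 : ℤ) ^ (M' + 1) ∣ a - c (M' + 1)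
    · have hA := hcol a ha1 h
      by_cases h' : (3 : ℤ) ^ (M' + 1) ∣ b - r (M' + 1)
      · exact Hx a b ha hb hA (hrow b hb1 h')
      · obtain ⟨j, hj, hjm⟩ := low gx.cohr h'
        have hj' : IsLv 3 r' b j := lv_tr (fun n hn => hr' n (by omega)) hj
        have hA' : (3 : ℤ) ^ R ∣ a - c' R := by
          have := dvd_add hA hc
          rwa [sub_add_sub_cancel] at this
        have h1 := col_high gx (by omega) hj hA
        have h2 := col_high gy (by omega) hj' hA'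
        exact of_t ⟨by rw [h1.1, h2.1], by rw [h1.2, h2.2]⟩
    · obtain ⟨i, hi, him⟩ := low gx.cohc h
      have hi' : IsLv 3 c' a i := lv_tr (fun n hn => hc' n (by omega)) hi
      by_cases h' : (3 : ℤ) ^ (M' + 1) ∣ b - r (M' + 1)
      · have hB := hrow b hb1 h'
        have hB' : (3 : ℤ) ^ R ∣ b - r' R := by
          have := dvd_add hB hr
          rwa [sub_add_sub_cancel] at this
        have h1 := row_high gx (by omega) hi hB
        have h2 := row_high gy (by omega) hi' hB'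
        exact of_t ⟨by rw [h1.1, h2.1], by rw [h1.2, h2.2]⟩
      · obtain ⟨j, hj, hjm⟩ := low gx.cohr h'
        have hj' : IsLv 3 r' b j := lv_tr (fun n hn => hr' n (by omega)) hj
        exact of_t ⟨by rw [gx.A_fin a b i j hi hj, gy.A_fin a b i j hi' hj'],
          by rw [gx.B_fin a b i j hi hj, gy.B_fin a b i j hi' hj']⟩
  obtain ⟨-, x1, x2, x3, x4⟩ := TX.eqs hx a b
  obtain ⟨-, y1, y2, y3, y4⟩ := TX.eqs hy a b
  refine Tile_ext ?_ ?_ ?_ ?_ S.1 S.2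
  · rw [x1, y1]
    exact H _ _ ha2 hb1
  · rw [x2, y2]
    exact H _ _ ha1 hb1
  · rw [x3, y3]
    exact V _ _ ha1 hb2
  · rw [x4, y4]
    exact V _ _ ha1 hb1

end H96.CK
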