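import Pool.Agent.H96.CK.BusB
import Pool.Agent.H96.CK.Win
import Pool.Agent.H96.CK.OvB

/-!
# Module Near (200 lines): around a corner of high level we see `oo v`

`near_corner`: `n0 = 2 N + 8`. Apply `window_eq` to `sh (X, b0) x` (geometry `c n - X`, `r n - b0`: `geo_sh`, `baseG_sh`, base row `0`)
and `oo v` (`oo_geo`, `oo_base`, `oo_hw`), with `M' = N + 1`, `R = 2 N + 8`. Because `3 ^ n0 ∣ X - c n0`: a column `a`, `|a| ≤ N + 1`, with
`3 ^ (N+2) ∣ a` is `a = 0` (`N + 1 < 3 ^ (N + 2)`), the same for rows (`b0` has infinite level).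
* `Hcol` (`a = 0`): `high_col` for `x` (`|b| ≤ N + 1 < 3 ^ (n0 / 2 - 1)`) and for `oo v`; `dA = 1`, `dB = 3` (`cA`, `cB` are the labels at
  height 0; `TX.colc`); wires: `wire`: `blank` below, `Wf X 0 = P`, `Wf X (t + 1) = P` for `3 ^ t ≤ b`, `t + 1 ≤ N + 2 < n0`; for `oo v`:
  `Wx v 0 t = wlab v 0 t = P`. Structure equality by the fields.
* `Hrow` (`b = 0`): `BaseG.row0` for both, `be` true, `ro` false (`BaseG.ro`, `b0 ≠ b0 + 3 ^ t`), `ini` from `Wf _ 0` (equal by `Agr`, `hW`, `hleft`).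
* `Lrow`: `be`, `ro` from `BaseG`; `h`: `b = 3 ^ t` with `t ≤ N + 1 < n0`: `Agr` for `a ≥ 0`, `hleft` and `Hx = blank` for `a < 0`; other rows
  blank (`rows`). `Lcol`: `u` from `u_fin` (same level), `w` from `wire` and `Agr` / `hleft` (indices `≤ N + 2`).
* `Hx` (the cell `(0, 0)`): `OkL.base`: both states are `2`, so `sA = sB = 4`.

`deep`: the same with `sh (p, q) x` and `sh (p - X, q - b0) (oo v)`; no column is high; the only high row is the base row. The lanes `t` which
occur satisfy `3 ^ t = q + b - b0 < 3 ^ κ`.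
-/

set_option linter.unusedSectionVars false

namespace H96.CK

variable {K G : Type} [DecidableEq G] {M : SM K G} {mn : K} {cs : G} {e : ℕ → ℕ}
  {r : ℕ → ℕ → Prop} {μ : ℕ → ℕ}

section Aux

variable {x y : ℤ × ℤ → Tile M} {c s c' s' : ℕ → ℤ} {b0 b0' : ℤ}

private theorem ve_ext {v w : VE M} (h1 : v.mA = w.mA) (h2 : v.mB = w.mB) (h3 : v.dA = w.dA) (h4 : v.dB = w.dB)
    (h5 : v.eA = w.eA) (h6 : v.eB = w.eB) (h7 : v.u = w.u) (h8 : v.w = w.w) : v = w := by
  obtain ⟨a1, a2, a3, a4, a5, a6, a7, a8⟩ := v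
  obtain ⟨b1, b2, b3, b4, b5, b6, b7, b8⟩ := w
  simp only at h1 h2 h3 h4 h5 h6 h7 h8
  subst h1 h2 h3 h4 h5 h6 h7 h8
  rfl

private theorem he_ext {v w : HE M} (h1 : v.n = w.n) (h2 : v.dy = w.dy) (h3 : v.be = w.be) (h4 : v.ro = w.ro)
    (h5 : v.ini = w.ini) (h6 : v.pA = w.pA) (h7 : v.pB = w.pB) (h8 : v.h = w.h) : v = w := by
  obtain ⟨a1, a2, a3, a4, a5, a6, a7, a8⟩ := v
  obtain ⟨b1, b2, b3, b4, b5, b6, b7, b8⟩ := w
  simp only at h1 h2 h3 h4 h5 h6 h7 h8
  subst h1 h2 h3 h4 h5 h6 h7 h8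
  rfl

private theorem wf0 (x : ℤ × ℤ → Tile M) (b0 a : ℤ) : Wf x b0 a 0 = (ve x a b0).w := by
  unfold Wf
  rw [if_pos rfl, add_zero]

private theorem no_pow {t : ℕ} {b : ℤ} : b ≠ b + 3 ^ t := by
  have : (0 : ℤ) < 3 ^ t := by positivity
  omega

private theorem base_row (B : BaseG x c s b0) (B' : BaseG y c' s' b0') {a a' : ℤ}
    (h : Wf x b0 a 0 = Wf y b0' a' 0) : he x a b0 = he y a' b0' := by
  obtain ⟨p1, p2, p3, p4, p5, p6⟩ := B.row0 a
  obtain ⟨q1, q2, q3, q4, q5, q6⟩ := B'.row0 a'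
  rw [wf0, wf0] at h
  refine he_ext (p1.trans q1.symm) (p2.trans q2.symm) ?_ ?_ ?_ ?_ ?_ (p5.trans q5.symm)
  · rw [(B.be a b0).2 rfl, (B'.be a' b0').2 rfl]
  · rw [Bool.eq_iff_iff, B.ro, B'.ro]
    constructor
    · rintro ⟨t, ht⟩
      exact absurd ht no_pow
    · rintro ⟨t, ht⟩
      exact absurd ht no_pow
  · rw [Bool.eq_iff_iff, p6, q6, h]
  · funext k
    rw [p3, q3]
  · funext k
    rw [p4, q4]

private theorem low_row (B : BaseG x c s b0) (B' : BaseG y c' s' b0') {a a' β : ℤ} (hβ : β ≠ 0)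
    (h : ∀ t : ℕ, β = 3 ^ t → Hf x b0 a t = Hf y b0' a' t) :
    (he x a (b0 + β)).be = (he y a' (b0' + β)).be ∧ (he x a (b0 + β)).ro = (he y a' (b0' + β)).ro ∧
    (he x a (b0 + β)).ini = (he y a' (b0' + β)).ini ∧ (he x a (b0 + β)).h = (he y a' (b0' + β)).h := by
  have hb : b0 + β ≠ b0 := by omega
  have hb' : b0' + β ≠ b0' := by omega
  obtain ⟨p1, p2⟩ := B.rows a _ hb
  obtain ⟨q1, q2⟩ := B'.rows a' _ hb'
  have hro : (he x a (b0 + β)).ro = (he y a' (b0' + β)).ro := by
    rw [Bool.eq_iff_iff, B.ro, B'.ro]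
    constructor
    · rintro ⟨t, ht⟩
      exact ⟨t, by omega⟩
    · rintro ⟨t, ht⟩
      exact ⟨t, by omega⟩
  refine ⟨?_, hro, p1.trans q1.symm, ?_⟩
  · rw [Bool.eq_iff_iff, B.be, B'.be]
    constructor
    · intro h1
      exact absurd h1 hb
    · intro h1
      exact absurd h1 hb'
  · by_cases h1 : (he x a (b0 + β)).ro = true
    · obtain ⟨t, ht⟩ := (B.ro a _).1 h1
      have hβt : β = 3 ^ t := by omega
      have h2 := h t hβt
      unfold Hf at h2
      rw [← hβt] at h2
      exact h2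
    · have h2 : (he x a (b0 + β)).ro = false := by simpa using h1
      have h3 : (he y a' (b0' + β)).ro = false := by rw [← hro]; exact h2
      rw [p2 h2, q2 h3]

private theorem low_w (hx : x ∈ TX M mn cs) (hy : y ∈ TX M mn cs) (g : Geo x c s) (g' : Geo y c' s')
    (B : BaseG x c s b0) (B' : BaseG y c' s' b0') {a a' β : ℤ}
    (h0 : β = 0 → Wf x b0 a 0 = Wf y b0' a' 0)
    (h1 : ∀ t : ℕ, (3 : ℤ) ^ t ≤ β → β < 3 ^ (t + 1) → Wf x b0 a (t + 1) = Wf y b0' a' (t + 1)) :
    (ve x a (b0 + β)).w = (ve y a' (b0' + β)).w := by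
  obtain ⟨p1, p2, p3⟩ := wire hx g B a (b0 + β)
  obtain ⟨q1, q2, q3⟩ := wire hy g' B' a' (b0' + β)
  rcases lt_trichotomy β 0 with hb | hb | hb
  · rw [p1 (by omega), q1 (by omega)]
  · rw [p2 (by omega), q2 (by omega), h0 hb]
  · have hne : β.toNat ≠ 0 := by omega
    have e1 := Nat.pow_log_le_self 3 hne
    have e2 := Nat.lt_pow_succ_log_self (b := 3) (by norm_num) β.toNat
    have e3 : (3 : ℤ) ^ Nat.log 3 β.toNat ≤ β := by
      have : ((3 ^ Nat.log 3 β.toNat : ℕ) : ℤ) ≤ (β.toNat : ℤ) := by exact_mod_cast e1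
      push_cast at this
      omega
    have e4 : β < (3 : ℤ) ^ (Nat.log 3 β.toNat + 1) := by
      have : (β.toNat : ℤ) < ((3 ^ (Nat.log 3 β.toNat + 1) : ℕ) : ℤ) := by exact_mod_cast e2
      push_cast at this
      omega
    rw [p3 (Nat.log 3 β.toNat) (by omega) (by omega), q3 (Nat.log 3 β.toNat) (by omega) (by omega),
      h1 _ e3 e4]

private theorem low_u (B : BaseG x c s b0) (B' : BaseG y c' s' b0') {a a' β : ℤ} {i : ℕ}
    (hi : IsLv 3 c a i) (hi' : IsLv 3 c' a' i) :
    (ve x a (b0 + β)).u = (ve y a' (b0' + β)).u := by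
  rw [Bool.eq_iff_iff, B.u_fin a _ i hi, B'.u_fin a' _ i hi']
  constructor
  · rintro ⟨h1, h2⟩
    exact ⟨by omega, by omega⟩
  · rintro ⟨h1, h2⟩
    exact ⟨by omega, by omega⟩

private theorem down {X : ℤ} {R n : ℕ} (hc : Coh 3 c) (hX : (3 : ℤ) ^ R ∣ X - c R) (hn : n ≤ R) :
    (3 : ℤ) ^ n ∣ X - c n := by
  have h1 : (3 : ℤ) ^ n ∣ c R - c n := by exact_mod_cast coh_le hc hn
  have h2 := (pow_dvd_pow (3 : ℤ) hn).trans hX
  have h3 := dvd_add h2 h1
  rwa [sub_add_sub_cancel] at h3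

private theorem lv_move {z X : ℤ} {i R : ℕ} (hc : Coh 3 c) (hX : (3 : ℤ) ^ R ∣ X - c R)
    (hiR : i + 1 ≤ R) (h : IsLv 3 c z i) : IsLv 3 (fun _ => 0) (z - X) i := by
  obtain ⟨h1, h2⟩ := h
  have h1' : (3 : ℤ) ^ i ∣ z - c i := by exact_mod_cast h1
  have h2' : ¬ (3 : ℤ) ^ (i + 1) ∣ z - c (i + 1) := by exact_mod_cast h2
  have h3 : (3 : ℤ) ^ i ∣ z - X - 0 := by
    have := dvd_sub h1' (down hc hX (by omega : i ≤ R))
    rw [sub_sub_sub_cancel_right] at this
    rwa [sub_zero]
  have h4 : ¬ (3 : ℤ) ^ (i + 1) ∣ z - X - 0 := by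
    intro h5
    rw [sub_zero] at h5
    have := dvd_add h5 (down hc hX hiR)
    rw [sub_add_sub_cancel] at this
    exact h2' this
  exact ⟨by exact_mod_cast h3, by exact_mod_cast h4⟩

private theorem low' (hc : Coh 3 c) {z : ℤ} {m : ℕ} (h : ¬ (3 : ℤ) ^ m ∣ z - c m) :
    ∃ i, IsLv 3 c z i ∧ i < m := by
  rcases lv_or 3 c z with ⟨i, hi⟩ | hi
  · refine ⟨i, hi, ?_⟩
    by_contra hcon
    apply h
    exact_mod_cast (hi.dvd hc).2 (by omega : m ≤ i)
  · exfalso
    apply h
    exact_mod_cast hi m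

private theorem small_zero {N : ℕ} {a : ℤ} (ha : |a| ≤ (N : ℤ) + 1) (h : (3 : ℤ) ^ (N + 2) ∣ a) : a = 0 := by
  by_contra hne
  have h1 : (3 : ℤ) ^ (N + 2) ≤ |a| := Int.le_of_dvd (abs_pos.2 hne) ((dvd_abs _ _).2 h)
  have h2 : N + 2 < 3 ^ (N + 2) := Nat.lt_pow_self (by norm_num)
  have h3 : ((N : ℤ) + 2) < 3 ^ (N + 2) := by exact_mod_cast h2
  omega

private theorem base_st (hx : x ∈ TX M mn cs) (B : BaseG x c s b0) (a : ℤ) :
    (x (a, b0)).tA = 2 ∧ (x (a, b0)).tB = 2 := by
  obtain ⟨hok, hl, -, -, -⟩ := TX.eqs hx a b0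
  have h2 : (x (a, b0)).l.be = true := by
    rw [hl]
    exact (B.be (a - 1) b0).2 rfl
  obtain ⟨h3, h4, -⟩ := hok.l.base h2
  exact ⟨h3, h4⟩

private theorem wf_oo (hT : Tm M mn cs e r μ) (v : Option ℕ) (a : ℤ) (t : ℕ) :
    Wf (oo M mn cs e v) 0 a t = Wx M mn cs e v a t := (oo_hw hT v a t).2.1

private theorem hf_oo (hT : Tm M mn cs e r μ) (v : Option ℕ) (a : ℤ) (t : ℕ) :
    Hf (oo M mn cs e v) 0 a t = Hx M mn cs e v a t := (oo_hw hT v a t).1

private theorem hx_nat' (v : Option ℕ) {a : ℤ} {d : ℕ} (h : a = d) (t : ℕ) :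
    Hx M mn cs e v a t = hlab M mn cs e v d t := by
  unfold Hx
  rw [if_neg (by omega), h, Int.toNat_natCast]

private theorem wx_nat' (v : Option ℕ) {a : ℤ} {d : ℕ} (h : a = d) (t : ℕ) :
    Wx M mn cs e v a t = wlab M mn cs e v d t := by
  unfold Wx
  rw [if_neg (by omega), h, Int.toNat_natCast]

private theorem wlab0 (v : Option ℕ) (t : ℕ) : wlab M mn cs e v 0 t = .P := by
  rw [wlab]
  simp

private theorem pow_small {t N : ℕ} {β : ℤ} (h : (3 : ℤ) ^ t ≤ β) (hβ : |β| ≤ (N : ℤ) + 1) : t ≤ N := by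
  have h2 : t < 3 ^ t := Nat.lt_pow_self (by norm_num)
  have h3 : (t : ℤ) < 3 ^ t := by exact_mod_cast h2
  have h4 := (abs_le.1 hβ).2
  omega

end Aux

theorem near_corner (hT : Tm M mn cs e r μ) (N : ℕ) {x : ℤ × ℤ → Tile M}
    (hx : x ∈ TX M mn cs) {c r0 : ℕ → ℤ} (g : Geo x c r0) {b0 : ℤ} (B : BaseG x c r0 b0)
    {X : ℤ} {v : Option ℕ} (hX : (3 : ℤ) ^ (2 * N + 8) ∣ X - c (2 * N + 8))
    (hA : cA x X = 1) (hB : cB x X = 3) (hW : ∀ t < 2 * N + 8, Wf x b0 X t = .P)
    (hag : ∀ d : ℕ, d < 3 ^ (2 * N + 8) → (∀ t < 2 * N + 8, Hf x b0 (X + d) t =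
      hlab M mn cs e v d t) ∧ (0 < d → ∀ t, Wf x b0 (X + d) t = wlab M mn cs e v d t))
    (hleft : ∀ d : ℕ, 1 ≤ d → d ≤ N + 2 → ∀ t ≤ N + 2,
      Hf x b0 (X - d) t = .blank ∧ Wf x b0 (X - d) t = .blank) :
    ∀ a b : ℤ, |a| ≤ N → |b| ≤ N → x (X + a, b0 + b) = oo M mn cs e v (a, b) := by
  have hy := oo_mem hT v (M := M) (mn := mn) (cs := cs) (e := e)
  have gy := oo_geo (M := M) (mn := mn) (cs := cs) (e := e) v
  have By := oo_base (M := M) (mn := mn) (cs := cs) (e := e) v
  have hbig : (N : ℤ) + 2 < 3 ^ (2 * N + 8) := by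
    have h1 : 2 * N + 8 < 3 ^ (2 * N + 8) := Nat.lt_pow_self (by norm_num)
    have h2 : ((2 * N + 8 : ℕ) : ℤ) < 3 ^ (2 * N + 8) := by exact_mod_cast h1
    push_cast at h2
    omega
  -- agreement of the labels
  have hWag : ∀ a : ℤ, |a| ≤ (N : ℤ) + 1 → ∀ t ≤ N + 2, Wf x b0 (X + a) t = Wx M mn cs e v a t := by
    intro a ha t ht
    obtain ⟨ha1, ha2⟩ := abs_le.1 ha
    rcases lt_trichotomy a 0 with h | h | h
    · have h1 := (hleft (-a).toNat (by omega) (by omega) t ht).2
      have h2 : X - ((-a).toNat : ℤ) = X + a := by omega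
      rw [h2] at h1
      rw [h1]
      unfold Wx
      rw [if_pos h]
    · rw [h, add_zero, hW t (by omega), wx_nat' v (d := 0) (by simp) t, wlab0]
    · have h2 : X + a = X + (a.toNat : ℤ) := by omega
      rw [h2, (hag a.toNat (by zify; rw [Int.toNat_of_nonneg (by omega)]; omega)).2 (by omega) t, wx_nat' v (d := a.toNat) (by omega)]
  have hHag : ∀ a : ℤ, |a| ≤ (N : ℤ) + 1 → ∀ t ≤ N + 2, Hf x b0 (X + a) t = Hx M mn cs e v a t := by
    intro a ha t ht
    obtain ⟨ha1, ha2⟩ := abs_le.1 ha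
    rcases lt_or_ge a 0 with h | h
    · have h1 := (hleft (-a).toNat (by omega) (by omega) t ht).1
      have h2 : X - ((-a).toNat : ℤ) = X + a := by omega
      rw [h2] at h1
      rw [h1]
      unfold Hx
      rw [if_pos h]
    · have h2 : X + a = X + (a.toNat : ℤ) := by omega
      rw [h2, (hag a.toNat (by zify; rw [Int.toNat_of_nonneg (by omega)]; omega)).1 t (by omega), hx_nat' v (d := a.toNat) (by omega)]
  have cz : ∀ a : ℤ, |a| ≤ (N : ℤ) + 1 → (3 : ℤ) ^ (N + 2) ∣ a - (c (N + 2) - X) → a = 0 := by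
    intro a ha h
    have h1 := down g.cohc hX (by omega : N + 2 ≤ 2 * N + 8)
    apply small_zero ha
    have h2 := dvd_sub h h1
    have h3 : a - (c (N + 2) - X) - (X - c (N + 2)) = a := by ring
    rwa [h3] at h2
  have rz : ∀ b : ℤ, |b| ≤ (N : ℤ) + 1 → (3 : ℤ) ^ (N + 2) ∣ b - (r0 (N + 2) - b0) → b = 0 := by
    intro b hb h
    have h1 : (3 : ℤ) ^ (N + 2) ∣ b0 - r0 (N + 2) := by exact_mod_cast B.inf (N + 2)
    apply small_zero hb
    have h2 := dvd_sub h h1
    have h3 : b - (r0 (N + 2) - b0) - (b0 - r0 (N + 2)) = b := by ring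
    rwa [h3] at h2
  have cR : ∀ a : ℤ, (3 : ℤ) ^ (2 * N + 8) ∣ a - (c (2 * N + 8) - X) → (3 : ℤ) ^ (N + 2) ∣ a - (c (N + 2) - X) := by
    intro a h
    have h1 := down (geo_sh g X b0).cohc (X := a) (R := 2 * N + 8) (n := N + 2) h (by omega)
    exact h1
  have rR : ∀ b : ℤ, (3 : ℤ) ^ (2 * N + 8) ∣ b - (r0 (2 * N + 8) - b0) → (3 : ℤ) ^ (N + 2) ∣ b - (r0 (N + 2) - b0) := by
    intro b h
    have h1 := down (geo_sh g X b0).cohr (X := b) (R := 2 * N + 8) (n := N + 2) h (by omega)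
    exact h1
  have main := window_eq (N := N) (M' := N + 1) (R := 2 * N + 8) (TX_sh hx (X, b0)) hy (geo_sh g X b0) gy
    (by omega)
    (by
      have := (dvd_neg (α := ℤ)).2 hX
      have e1 : c (2 * N + 8) - X - 0 = -(X - c (2 * N + 8)) := by ring
      rwa [← e1] at this)
    (by
      have h1 : (3 : ℤ) ^ (2 * N + 8) ∣ b0 - r0 (2 * N + 8) := by exact_mod_cast B.inf (2 * N + 8)
      have := (dvd_neg (α := ℤ)).2 h1
      have e1 : r0 (2 * N + 8) - b0 - 0 = -(b0 - r0 (2 * N + 8)) := by ring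
      rwa [← e1] at this)
    (by
      intro a ha h
      have h1 := cz a ha h
      subst h1
      have := hX
      have e1 : (0 : ℤ) - (c (2 * N + 8) - X) = X - c (2 * N + 8) := by ring
      rwa [← e1] at this)
    (by
      intro b hb h
      have h1 := rz b hb h
      subst h1
      have h2 : (3 : ℤ) ^ (2 * N + 8) ∣ b0 - r0 (2 * N + 8) := by exact_mod_cast B.inf (2 * N + 8)
      have e1 : (0 : ℤ) - (r0 (2 * N + 8) - b0) = b0 - r0 (2 * N + 8) := by ring
      rwa [← e1] at h2)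
    (by
      -- Hcol
      intro a b ha hb h
      have h1 := cz a ha (cR a h)
      subst h1
      have hxe : ve (sh (X, b0) x) 0 b = ve x X (b0 + b) := by
        show ve x (0 + X) (b + b0) = _
        rw [zero_add, add_comm]
      rw [hxe]
      have hlt : |b| < (3 : ℤ) ^ ((2 * N + 8) / 2 - 1) := by
        have h2 : (2 * N + 8) / 2 - 1 = N + 3 := by omega
        rw [h2]
        have h3 : N + 3 < 3 ^ (N + 3) := Nat.lt_pow_self (by norm_num)
        have h4 : ((N : ℤ) + 3) < 3 ^ (N + 3) := by exact_mod_cast h3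
        omega
      obtain ⟨p1, p2, p3, p4, p5⟩ := high_col hx g B (n := 2 * N + 8) (by omega) (a := X) (b := b0 + b) hX
        (by rw [add_sub_cancel_left]; exact hlt)
      obtain ⟨q1, q2, q3, q4, q5⟩ := high_col hy gy By (n := 2 * N + 8) (by omega) (a := 0) (b := b)
        (by simp) (by rw [sub_zero]; exact hlt)
      obtain ⟨-, -, s3, s4⟩ := TX.colc hx X (b0 + b) 0
      obtain ⟨-, -, t3, t4⟩ := TX.colc hy 0 b 0
      obtain ⟨-, -, u3, u4⟩ := oo_hw hT v 0 0
      unfold cA at hA u3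
      unfold cB at hB u4
      have hiff : b0 ≤ b0 + b ↔ 0 ≤ b := by omega
      refine ve_ext (p1.trans q1.symm) (p2.trans q2.symm) ?_ ?_ ?_ ?_ ?_ ?_
      · rw [s3, t3]
        apply Fin.ext
        rw [hA, u3]
      · rw [s4, t4]
        apply Fin.ext
        rw [hB, u4]
      · funext k
        rw [p3, q3]
        simp only [hiff]
      · funext k
        rw [p4, q4]
        simp only [hiff]
      · rw [Bool.eq_iff_iff, p5, q5]
        exact hiff
      · have h5 := low_w hx hy g gy B By (a := X) (a' := 0) (β := b) ?_ ?_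
        · rwa [zero_add] at h5
        · intro _
          rw [wf_oo hT]
          have := hWag 0 (by simp; omega) 0 (by omega)
          rwa [add_zero] at this
        · intro t ht1 ht2
          rw [wf_oo hT]
          have ht3 := pow_small ht1 hb
          have := hWag 0 (by simp; omega) (t + 1) (by omega)
          rwa [add_zero] at this)
    (by
      -- Hrow
      intro a b ha hb h
      have h1 := rz b hb (rR b h)
      subst h1
      have hxe : he (sh (X, b0) x) a 0 = he x (X + a) b0 := by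
        show he x (a + X) (0 + b0) = _
        rw [zero_add, add_comm]
      rw [hxe]
      apply base_row B By
      rw [wf_oo hT]
      exact hWag a ha 0 (by omega))
    (by
      -- Hx
      intro a b ha hb h h'
      have h1 := cz a (by omega) (cR a h)
      have h2 := rz b (by omega) (rR b h')
      subst h1
      subst h2
      have hxe : sh (X, b0) x (0, 0) = x (X, b0) := by
        show x (0 + X, 0 + b0) = _
        rw [zero_add, zero_add]
      rw [hxe]
      obtain ⟨p1, p2⟩ := base_st hx B X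
      obtain ⟨q1, q2⟩ := base_st hy By 0
      unfold Tile.tA at p1 q1
      unfold Tile.tB at p2 q2
      exact ⟨Fin.ext (by omega), Fin.ext (by omega)⟩)
    (by
      -- Lrow
      intro a b ha hb h
      have hxe : he (sh (X, b0) x) a b = he x (X + a) (b0 + b) := by
        show he x (a + X) (b + b0) = _
        rw [add_comm, add_comm b]
      rw [hxe]
      have hb0 : b ≠ 0 := by
        rintro rfl
        apply h
        have h2 : (3 : ℤ) ^ (N + 1 + 1) ∣ b0 - r0 (N + 1 + 1) := by exact_mod_cast B.inf (N + 1 + 1)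
        have e1 : (0 : ℤ) - (r0 (N + 1 + 1) - b0) = b0 - r0 (N + 1 + 1) := by ring
        rwa [← e1] at h2
      have h5 := low_row B By (a := X + a) (a' := a) hb0 ?_
      · rwa [zero_add] at h5
      · intro t ht
        rw [hf_oo hT]
        exact hHag a ha t (by have := pow_small ht.ge hb; omega))
    (by
      -- Lcol
      intro a b ha hb h
      have hxe : ve (sh (X, b0) x) a b = ve x (X + a) (b0 + b) := by
        show ve x (a + X) (b + b0) = _
        rw [add_comm, add_comm b]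
      rw [hxe]
      obtain ⟨i, hi, him⟩ := low' (geo_sh g X b0).cohc (z := a) (m := N + 1 + 1) h
      have hi2 : IsLv 3 c (X + a) i := by
        have := isLv_sh.1 hi
        rwa [add_comm] at this
      have hi3 : IsLv 3 (fun _ => 0) a i := by
        have := lv_move g.cohc hX (by omega) hi2
        rwa [add_sub_cancel_left] at this
      constructor
      · have := low_u B By (β := b) hi2 hi3
        rwa [zero_add] at this
      · have h5 := low_w hx hy g gy B By (a := X + a) (a' := a) (β := b) ?_ ?_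
        · rwa [zero_add] at h5
        · intro _
          rw [wf_oo hT]
          exact hWag a ha 0 (by omega)
        · intro t ht1 ht2
          rw [wf_oo hT]
          have ht3 := pow_small ht1 hb
          exact hWag a ha (t + 1) (by omega))
  intro a b ha hb
  have := main a b ha hb
  rw [← this]
  show x (X + a, b0 + b) = x (a + X, b + b0)
  rw [add_comm, add_comm b]

theorem deep (hT : Tm M mn cs e r μ) {x : ℤ × ℤ → Tile M}
    (hx : x ∈ TX M mn cs) {c r0 : ℕ → ℤ} (g : Geo x c r0) {b0 : ℤ} (B : BaseG x c r0 b0)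
    {X : ℤ} {v : Option ℕ} {κ N M' R : ℕ} {p q : ℤ} (hR : 2 * M' + 6 ≤ R)
    (hX : (3 : ℤ) ^ R ∣ X - c R)
    (hag : ∀ d : ℕ, d < 3 ^ κ → (∀ t < κ, Hf x b0 (X + d) t =
      hlab M mn cs e v d t) ∧ (0 < d → ∀ t, Wf x b0 (X + d) t = wlab M mn cs e v d t))
    (hcol : ∀ a : ℤ, |a| ≤ N + 1 → X < p + a ∧ p + a < X + 3 ^ κ ∧
      ¬ (3 : ℤ) ^ (M' + 1) ∣ p + a - c (M' + 1))
    (hrow : ∀ b : ℤ, |b| ≤ N + 1 → q + b - b0 < 3 ^ κ ∧
      (q + b ≠ b0 → ¬ (3 : ℤ) ^ (M' + 1) ∣ q + b - b0)) :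
    ∀ a b : ℤ, |a| ≤ N → |b| ≤ N →
      x (p + a, q + b) = oo M mn cs e v (p + a - X, q + b - b0) := by
  have hy := oo_mem hT v (M := M) (mn := mn) (cs := cs) (e := e)
  have gy := oo_geo (M := M) (mn := mn) (cs := cs) (e := e) v
  have By := oo_base (M := M) (mn := mn) (cs := cs) (e := e) v
  have hcR : ∀ a : ℤ, |a| ≤ (N : ℤ) + 1 → ¬ (3 : ℤ) ^ R ∣ a - (c R - p) := by
    intro a ha h
    apply (hcol a ha).2.2
    have h1 := down (geo_sh g p q).cohc (X := a) (R := R) (n := M' + 1) h (by omega)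
    have e1 : p + a - c (M' + 1) = a - (c (M' + 1) - p) := by ring
    rw [e1]
    exact h1
  have hrR : ∀ b : ℤ, |b| ≤ (N : ℤ) + 1 → (3 : ℤ) ^ (M' + 1) ∣ b - (r0 (M' + 1) - q) → q + b = b0 := by
    intro b hb h
    by_contra hne
    apply (hrow b hb).2 hne
    have h1 : (3 : ℤ) ^ (M' + 1) ∣ b0 - r0 (M' + 1) := by exact_mod_cast B.inf (M' + 1)
    have h2 := dvd_sub h h1
    have e1 : b - (r0 (M' + 1) - q) - (b0 - r0 (M' + 1)) = q + b - b0 := by ring
    rwa [e1] at h2
  have hWag : ∀ a : ℤ, |a| ≤ (N : ℤ) + 1 → ∀ t, Wf x b0 (p + a) t = Wx M mn cs e v (p + a - X) t := by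
    intro a ha t
    obtain ⟨h1, h2, -⟩ := hcol a ha
    have h3 : p + a = X + ((p + a - X).toNat : ℤ) := by omega
    have h4 : (p + a - X).toNat < 3 ^ κ := by
      zify
      rw [Int.toNat_of_nonneg (by omega)]
      omega
    have h5 := (hag _ h4).2 (by omega) t
    rw [← h3] at h5
    rw [h5, wx_nat' v (d := (p + a - X).toNat) (by omega)]
  have hHag : ∀ a : ℤ, |a| ≤ (N : ℤ) + 1 → ∀ t < κ, Hf x b0 (p + a) t = Hx M mn cs e v (p + a - X) t := by
    intro a ha t ht
    obtain ⟨h1, h2, -⟩ := hcol a ha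
    have h3 : p + a = X + ((p + a - X).toNat : ℤ) := by omega
    have h4 : (p + a - X).toNat < 3 ^ κ := by
      zify
      rw [Int.toNat_of_nonneg (by omega)]
      omega
    have h5 := (hag _ h4).1 t ht
    rw [← h3] at h5
    rw [h5, hx_nat' v (d := (p + a - X).toNat) (by omega)]
  have main := window_eq (N := N) (M' := M') (R := R) (TX_sh hx (p, q)) (TX_sh hy (p - X, q - b0))
    (geo_sh g p q) (geo_sh gy (p - X) (q - b0)) hR
    (by
      have := (dvd_neg (α := ℤ)).2 hX
      have e1 : c R - p - (0 - (p - X)) = -(X - c R) := by ring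
      rwa [← e1] at this)
    (by
      have h1 : (3 : ℤ) ^ R ∣ b0 - r0 R := by exact_mod_cast B.inf R
      have := (dvd_neg (α := ℤ)).2 h1
      have e1 : r0 R - q - (0 - (q - b0)) = -(b0 - r0 R) := by ring
      rwa [← e1] at this)
    (by
      intro a ha h
      exfalso
      apply (hcol a ha).2.2
      have e1 : p + a - c (M' + 1) = a - (c (M' + 1) - p) := by ring
      rw [e1]
      exact h)
    (by
      intro b hb h
      have h1 := hrR b hb h
      have h2 : (3 : ℤ) ^ R ∣ b0 - r0 R := by exact_mod_cast B.inf R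
      have e1 : b - (r0 R - q) = b0 - r0 R := by omega
      show (3 : ℤ) ^ R ∣ b - (r0 R - q)
      rw [e1]
      exact h2)
    (by
      intro a b ha hb h
      exact absurd h (hcR a ha))
    (by
      -- Hrow
      intro a b ha hb h
      have h1 : q + b = b0 := hrR b hb (down (geo_sh g p q).cohr (X := b) (R := R) (n := M' + 1) h (by omega))
      have hxe : he (sh (p, q) x) a b = he x (p + a) b0 := by
        show he x (a + p) (b + q) = _
        rw [add_comm a, add_comm b, h1]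
      have hye : he (sh (p - X, q - b0) (oo M mn cs e v)) a b = he (oo M mn cs e v) (p + a - X) 0 := by
        show he (oo M mn cs e v) (a + (p - X)) (b + (q - b0)) = _
        have e1 : a + (p - X) = p + a - X := by ring
        have e2 : b + (q - b0) = 0 := by omega
        rw [e1, e2]
      rw [hxe, hye]
      apply base_row B By
      rw [wf_oo hT]
      exact hWag a ha 0)
    (by
      intro a b ha hb h h'
      exact absurd h (hcR a (by omega)))
    (by
      -- Lrow
      intro a b ha hb h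
      have hxe : he (sh (p, q) x) a b = he x (p + a) (b0 + (q + b - b0)) := by
        show he x (a + p) (b + q) = _
        have e1 : b0 + (q + b - b0) = b + q := by ring
        rw [e1, add_comm a]
      have hye : he (sh (p - X, q - b0) (oo M mn cs e v)) a b =
          he (oo M mn cs e v) (p + a - X) (0 + (q + b - b0)) := by
        show he (oo M mn cs e v) (a + (p - X)) (b + (q - b0)) = _
        have e1 : a + (p - X) = p + a - X := by ring
        have e2 : b + (q - b0) = 0 + (q + b - b0) := by ring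
        rw [e1, e2]
      have hb0 : q + b - b0 ≠ 0 := by
        intro h0
        apply h
        have h2 : (3 : ℤ) ^ (M' + 1) ∣ b0 - r0 (M' + 1) := by exact_mod_cast B.inf (M' + 1)
        have e1 : b - (r0 (M' + 1) - q) = b0 - r0 (M' + 1) := by omega
        show (3 : ℤ) ^ (M' + 1) ∣ b - (r0 (M' + 1) - q)
        rw [e1]
        exact h2
      rw [hxe, hye]
      apply low_row B By hb0
      intro t ht
      rw [hf_oo hT]
      apply hHag a ha
      have h3 : (3 : ℤ) ^ t < 3 ^ κ := by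
        rw [← ht]
        exact (hrow b hb).1
      exact (pow_lt_pow_iff_right₀ (by norm_num : (1 : ℤ) < 3)).1 h3)
    (by
      -- Lcol
      intro a b ha hb h
      have hxe : ve (sh (p, q) x) a b = ve x (p + a) (b0 + (q + b - b0)) := by
        show ve x (a + p) (b + q) = _
        have e1 : b0 + (q + b - b0) = b + q := by ring
        rw [e1, add_comm a]
      have hye : ve (sh (p - X, q - b0) (oo M mn cs e v)) a b =
          ve (oo M mn cs e v) (p + a - X) (0 + (q + b - b0)) := by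
        show ve (oo M mn cs e v) (a + (p - X)) (b + (q - b0)) = _
        have e1 : a + (p - X) = p + a - X := by ring
        have e2 : b + (q - b0) = 0 + (q + b - b0) := by ring
        rw [e1, e2]
      obtain ⟨i, hi, him⟩ := low' (geo_sh g p q).cohc (z := a) (m := M' + 1) h
      have hi2 : IsLv 3 c (p + a) i := by
        have := isLv_sh.1 hi
        rwa [add_comm] at this
      have hi3 : IsLv 3 (fun _ => 0) (p + a - X) i := lv_move g.cohc hX (by omega) hi2
      rw [hxe, hye]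
      refine ⟨low_u B By hi2 hi3, low_w hx hy g gy B By ?_ ?_⟩
      · intro _
        rw [wf_oo hT]
        exact hWag a ha 0
      · intro t ht1 ht2
        rw [wf_oo hT]
        exact hWag a ha (t + 1))
  intro a b ha hb
  have h1 := main a b ha hb
  have e1 : sh (p, q) x (a, b) = x (p + a, q + b) := by
    show x (a + p, b + q) = _
    rw [add_comm, add_comm b]
  have e2 : sh (p - X, q - b0) (oo M mn cs e v) (a, b) = oo M mn cs e v (p + a - X, q + b - b0) := by
    show oo M mn cs e v (a + (p - X), b + (q - b0)) = _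
    have e3 : a + (p - X) = p + a - X := by ring
    have e4 : b + (q - b0) = q + b - b0 := by ring
    rw [e3, e4]
  rw [← e1, ← e2]
  exact h1

end H96.CK
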