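import Pool.Agent.H96.CK.OvDef
import Pool.Agent.H96.CK.LaneA

/-!
# Module OvA (200 lines): the skeleton rules for `oT`

Arithmetic of `lv3`: for `a ≠ 0`: `3 ^ lv3 a ∣ a`, `¬ 3 ^ (lv3 a + 1) ∣ a` (`padicValInt_dvd_iff`), so
`IsLv 3 (fun _ => 0) a (lv3 a)`; the constant sequence `0` is coherent; `IsInf 3 (fun _ => 0) a ↔ a = 0`.
`ot_tA`: `(oT H W (a, b)).tA = stA a b` because `-2 ≤ stA ≤ 2`.
`ot_c : OkC`: the components do not depend on `a` resp. `b`; `tie`: `a = 0`: `1 = 3 / 3`; else `lv3 a = 2 m` or `2 m + 1` as in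
`odd_iff`, `three_iff` of `LaneA` (apply `colOk_dg` or redo: `a = 9 ^ m * W`, `W % 9`).
`ot_s : OkS`: for `b ≠ 0` the row signals are digits of `a`; passing from `a - 1` to `a` they change by `dig_step_lt`, `dig_step_eq`,
`dig_step_gt` (levels: `lv3 a` against `q = lv3 b + k - 1`; in base 9: `9 ^ q ∣ a ↔ 2 q ≤ lv3 a ↔ q ≤ lv3 a / 2`), and `stA` against
`k - 1`: `-cl (lv3 b - lv3 a) < k - 1 ↔ lv3 a < lv3 b + k - 1` since `|k - 1| ≤ 1`. For `b = 0`: all signals `0`, state `2`: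
unchanged. Column signals: the same with rows and columns exchanged; column `0`: state `-2`, unchanged for `b ≠ 0`, and at `b = 0`
(state `2 > k - 1`): from `2` to `0`. For `a ≠ 0`, `b = 0`: state `2`, digits of `b = 0` are `0`, of `b - 1 = -1` are `2`
(`dig_step_gt`).
`ot_hor`, `ot_ver`: `mA (a + 1) = mA a + 1` for `dig 3 0 a = a % 3` (also for `a = 0`, `a = -1`).
-/

namespace H96.CK

variable {K G : Type} {M : SM K G}

private lemma dvd3 {a : ℤ} (ha : a ≠ 0) (n : ℕ) : ((3 : ℕ) : ℤ) ^ n ∣ a ↔ n ≤ lv3 a := by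
  have : Fact (Nat.Prime 3) := ⟨Nat.prime_three⟩
  rw [padicValInt_dvd_iff]
  constructor
  · rintro (h | h)
    · exact absurd h ha
    · exact h
  · exact fun h => Or.inr h

private lemma dvd9 {a : ℤ} (ha : a ≠ 0) (n : ℕ) : ((9 : ℕ) : ℤ) ^ n ∣ a ↔ n ≤ lv3 a / 2 := by
  have e : ((9 : ℕ) : ℤ) ^ n = ((3 : ℕ) : ℤ) ^ (2 * n) := by
    rw [pow_mul]
    norm_num
  rw [e, dvd3 ha]
  omega

private lemma fac3 {a : ℤ} (ha : a ≠ 0) :
    ∃ w : ℤ, a = ((3 : ℕ) : ℤ) ^ lv3 a * w ∧ ¬ (3 : ℤ) ∣ w := by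
  obtain ⟨w, hw⟩ := (dvd3 ha (lv3 a)).2 le_rfl
  refine ⟨w, hw, ?_⟩
  rintro ⟨v, rfl⟩
  have h2 : ((3 : ℕ) : ℤ) ^ (lv3 a + 1) ∣ a := by
    rw [pow_succ]
    refine ⟨v, ?_⟩
    conv_lhs => rw [hw]
    push_cast
    ring
  have h1 := (dvd3 ha (lv3 a + 1)).1 h2
  omega

private lemma stp_core {A : ℕ} (hA : 1 ≤ A) {z : ℤ} {L q : ℕ} {u k : ℤ}
    (hL : ∀ n, (A : ℤ) ^ n ∣ z ↔ n ≤ L) (h1 : u < k → L < q) (h2 : u = k → L = q)
    (h3 : k < u → q < L) : Stp A u k (dig A q (z - 1)) (dig A q z) (dig A L z) := by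
  refine ⟨fun h => ?_, fun h => ?_, fun h => ?_⟩
  · exact dig_step_lt hA (fun hd => by
      have h4 := (hL q).1 hd
      have h5 := h1 h
      omega)
  · have e := h2 h
    subst e
    exact ⟨dig_step_eq hA ((hL L).2 le_rfl) (fun hd => by
      have h4 := (hL (L + 1)).1 hd
      omega), rfl⟩
  · exact dig_step_gt hA ((hL (q + 1)).2 (h3 h))

private lemma stp_zero {A : ℕ} (hA : 1 ≤ A) {q : ℕ} {u k : ℤ} {d : ℕ} (h : k < u) :
    Stp A u k (dig A q (-1)) (dig A q 0) d := by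
  have h0 := dig_step_gt hA (k := q) (z := 0) (dvd_zero _)
  rw [zero_sub] at h0
  exact ⟨fun h' => by omega, fun h' => by omega, fun _ => h0⟩

private lemma dig30 (b : ℤ) : (dig 3 0 b : ℤ) = b % 3 := by
  have h := dig_cast (a := 3) (by norm_num) 0 b
  push_cast at h
  simpa using h

private lemma dig90 (b : ℤ) : (dig 9 0 b : ℤ) = b % 9 := by
  have h := dig_cast (a := 9) (by norm_num) 0 b
  push_cast at h
  simpa using h

private lemma ofn3 (x : ℕ) (h : x < 3) : ((Fin.ofNat 3 x : Fin 3) : ℕ) = x := by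
  show x % 3 = x
  omega

private lemma ofn9 (x : ℕ) (h : x < 9) : ((Fin.ofNat 9 x : Fin 9) : ℕ) = x := by
  show x % 9 = x
  omega

private lemma d3 (i : ℕ) (z : ℤ) : dig 3 i z < 3 := dig_lt (by norm_num) i z
private lemma d9 (i : ℕ) (z : ℤ) : dig 9 i z < 9 := dig_lt (by norm_num) i z

private lemma he_n (H : ℤ → ℕ → HL M) (W : ℤ → ℕ → WL M) (a b : ℤ) :
    ((heO H W a b).n : ℕ) = dig 3 0 b := by
  unfold heO
  by_cases h : b = 0
  · rw [if_pos h, h]
    simp [dig]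
  · rw [if_neg h]
    exact ofn3 _ (d3 _ _)

private lemma he_dy (H : ℤ → ℕ → HL M) (W : ℤ → ℕ → WL M) (a : ℤ) {b : ℤ} (hb : b ≠ 0) :
    ((heO H W a b).dy : ℕ) = lastA b := by
  unfold heO
  rw [if_neg hb]
  exact ofn3 _ (d3 _ _)

private lemma he_pA (H : ℤ → ℕ → HL M) (W : ℤ → ℕ → WL M) (a : ℤ) {b : ℤ} (hb : b ≠ 0) (k : Fin 3)
    (h : lv3 b + (k : ℕ) ≠ 0) :
    ((heO H W a b).pA k : ℕ) = dig 3 (lv3 b + (k : ℕ) - 1) a := by
  unfold heO
  rw [if_neg hb]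
  show ((if lv3 b + (k : ℕ) = 0 then (0 : Fin 3) else Fin.ofNat 3 (dig 3 (lv3 b + (k : ℕ) - 1) a) : Fin 3) : ℕ) = _
  rw [if_neg h]
  exact ofn3 _ (d3 _ _)

private lemma he_pB (H : ℤ → ℕ → HL M) (W : ℤ → ℕ → WL M) (a : ℤ) {b : ℤ} (hb : b ≠ 0) (k : Fin 3)
    (h : lv3 b + (k : ℕ) ≠ 0) :
    ((heO H W a b).pB k : ℕ) = dig 9 (lv3 b + (k : ℕ) - 1) a := by
  unfold heO
  rw [if_neg hb]
  show ((if lv3 b + (k : ℕ) = 0 then (0 : Fin 9) else Fin.ofNat 9 (dig 9 (lv3 b + (k : ℕ) - 1) a) : Fin 9) : ℕ) = _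
  rw [if_neg h]
  exact ofn9 _ (d9 _ _)

private lemma he_p0 (H : ℤ → ℕ → HL M) (W : ℤ → ℕ → WL M) (a : ℤ) (k : Fin 3) :
    (heO H W a 0).pA k = 0 ∧ (heO H W a 0).pB k = 0 := by
  unfold heO
  rw [if_pos rfl]
  exact ⟨rfl, rfl⟩

private lemma he_pz (H : ℤ → ℕ → HL M) (W : ℤ → ℕ → WL M) (a : ℤ) {b : ℤ} (hb : b ≠ 0)
    (h : lv3 b = 0) : (heO H W a b).pA 0 = 0 ∧ (heO H W a b).pB 0 = 0 := by
  unfold heO
  rw [if_neg hb]
  have h0 : lv3 b + ((0 : Fin 3) : ℕ) = 0 := by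
    rw [h]
    rfl
  refine ⟨?_, ?_⟩
  · show (if lv3 b + ((0 : Fin 3) : ℕ) = 0 then (0 : Fin 3) else _) = 0
    rw [if_pos h0]
  · show (if lv3 b + ((0 : Fin 3) : ℕ) = 0 then (0 : Fin 9) else _) = 0
    rw [if_pos h0]

private lemma ve_mA (W : ℤ → ℕ → WL M) (a b : ℤ) : ((veO W a b).mA : ℕ) = dig 3 0 a := by
  unfold veO
  by_cases h : a = 0
  · rw [if_pos h, h]
    simp [dig]
  · rw [if_neg h]
    exact ofn3 _ (d3 _ _)

private lemma ve_mB (W : ℤ → ℕ → WL M) (a b : ℤ) : ((veO W a b).mB : ℕ) = dig 9 0 a := by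
  unfold veO
  by_cases h : a = 0
  · rw [if_pos h, h]
    simp [dig]
  · rw [if_neg h]
    exact ofn9 _ (d9 _ _)

private lemma ve_dA (W : ℤ → ℕ → WL M) {a : ℤ} (ha : a ≠ 0) (b : ℤ) :
    ((veO W a b).dA : ℕ) = lastA a := by
  unfold veO
  rw [if_neg ha]
  exact ofn3 _ (d3 _ _)

private lemma ve_dB (W : ℤ → ℕ → WL M) {a : ℤ} (ha : a ≠ 0) (b : ℤ) :
    ((veO W a b).dB : ℕ) = lastB a := by
  unfold veO
  rw [if_neg ha]
  exact ofn9 _ (d9 _ _)

private lemma ve_d0 (W : ℤ → ℕ → WL M) (b : ℤ) :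
    ((veO W 0 b).dA : ℕ) = 1 ∧ ((veO W 0 b).dB : ℕ) = 3 := by
  unfold veO
  rw [if_pos rfl]
  exact ⟨rfl, rfl⟩

private lemma ve_eA (W : ℤ → ℕ → WL M) {a : ℤ} (ha : a ≠ 0) (b : ℤ) (k : Fin 3)
    (h : lv3 a + (k : ℕ) ≠ 0) :
    ((veO W a b).eA k : ℕ) = dig 3 (lv3 a + (k : ℕ) - 1) b := by
  unfold veO
  rw [if_neg ha]
  show ((if lv3 a + (k : ℕ) = 0 then (0 : Fin 3) else Fin.ofNat 3 (dig 3 (lv3 a + (k : ℕ) - 1) b) : Fin 3) : ℕ) = _
  rw [if_neg h]
  exact ofn3 _ (d3 _ _)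

private lemma ve_eB (W : ℤ → ℕ → WL M) {a : ℤ} (ha : a ≠ 0) (b : ℤ) (k : Fin 3)
    (h : lv3 a / 2 + (k : ℕ) ≠ 0) :
    ((veO W a b).eB k : ℕ) = dig 3 (lv3 a / 2 + (k : ℕ) - 1) b := by
  unfold veO
  rw [if_neg ha]
  show ((if lv3 a / 2 + (k : ℕ) = 0 then (0 : Fin 3) else Fin.ofNat 3 (dig 3 (lv3 a / 2 + (k : ℕ) - 1) b) : Fin 3) : ℕ) = _
  rw [if_neg h]
  exact ofn3 _ (d3 _ _)

private lemma ve_e0 (W : ℤ → ℕ → WL M) (b : ℤ) (k : Fin 3) :
    ((veO W 0 b).eA k : ℕ) = (if 0 ≤ b then 0 else 2) ∧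
      ((veO W 0 b).eB k : ℕ) = (if 0 ≤ b then 0 else 2) := by
  unfold veO
  rw [if_pos rfl]
  refine ⟨?_, ?_⟩
  · show ((if 0 ≤ b then (0 : Fin 3) else 2 : Fin 3) : ℕ) = _
    split_ifs <;> rfl
  · show ((if 0 ≤ b then (0 : Fin 3) else 2 : Fin 3) : ℕ) = _
    split_ifs <;> rfl

private lemma ve_ez (W : ℤ → ℕ → WL M) {a : ℤ} (ha : a ≠ 0) (b : ℤ) :
    (lv3 a = 0 → (veO W a b).eA 0 = 0) ∧ (lv3 a / 2 = 0 → (veO W a b).eB 0 = 0) := by
  unfold veO
  rw [if_neg ha]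
  refine ⟨fun h => ?_, fun h => ?_⟩
  · show (if lv3 a + ((0 : Fin 3) : ℕ) = 0 then (0 : Fin 3) else _) = 0
    rw [if_pos (by rw [h]; rfl)]
  · show (if lv3 a / 2 + ((0 : Fin 3) : ℕ) = 0 then (0 : Fin 3) else _) = 0
    rw [if_pos (by rw [h]; rfl)]

/-- a residue which is not zero: level zero -/
private lemma lv_zero {a : ℤ} (h : dig 3 0 a ≠ 0) : a ≠ 0 ∧ lv3 a = 0 := by
  have h1 := dig30 a
  have ha : a ≠ 0 := by
    rintro rfl
    omega
  refine ⟨ha, ?_⟩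
  by_contra h2
  have h3 := (dvd3 ha 1).2 (by omega)
  rw [pow_one] at h3
  push_cast at h3
  omega

private lemma lv_pos {a : ℤ} (ha : a ≠ 0) (h : dig 3 0 a = 0) : 1 ≤ lv3 a := by
  have h1 := dig30 a
  refine (dvd3 ha 1).1 ?_
  rw [pow_one]
  push_cast
  omega

private lemma lv_zero9 {a : ℤ} (h : dig 9 0 a ≠ 0) : a ≠ 0 ∧ lv3 a / 2 = 0 := by
  have h1 := dig90 a
  have ha : a ≠ 0 := by
    rintro rfl
    omega
  refine ⟨ha, ?_⟩
  by_contra h2
  have h3 := (dvd9 ha 1).2 (by omega)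
  rw [pow_one] at h3
  push_cast at h3
  omega

private lemma lv_pos9 {a : ℤ} (ha : a ≠ 0) (h : dig 9 0 a = 0) : 1 ≤ lv3 a / 2 := by
  have h1 := dig90 a
  refine (dvd9 ha 1).1 ?_
  rw [pow_one]
  push_cast
  omega

private lemma stA_zero (a : ℤ) : stA a 0 = 2 ∧ stB a 0 = 2 := by
  unfold stA stB
  rw [if_pos rfl, if_pos rfl]
  exact ⟨rfl, rfl⟩

private lemma stA_inf {b : ℤ} (hb : b ≠ 0) : stA 0 b = -2 ∧ stB 0 b = -2 := by
  unfold stA stB
  rw [if_neg hb, if_neg hb, if_pos rfl, if_pos rfl]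
  exact ⟨rfl, rfl⟩

private lemma stA_fin {a b : ℤ} (ha : a ≠ 0) (hb : b ≠ 0) :
    stA a b = cl (lv3 b - lv3 a) ∧ stB a b = cl (lv3 b - (lv3 a / 2 : ℕ)) := by
  unfold stA stB
  rw [if_neg hb, if_neg hb, if_neg ha, if_neg ha]
  exact ⟨rfl, rfl⟩

theorem lv3_isLv {a : ℤ} (ha : a ≠ 0) : IsLv 3 (fun _ => 0) a (lv3 a) := by
  refine ⟨?_, fun h => ?_⟩
  · rw [sub_zero]
    exact (dvd3 ha _).2 le_rfl
  · rw [sub_zero] at h
    have := (dvd3 ha _).1 h
    omega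

theorem ot_tA (H : ℤ → ℕ → HL M) (W : ℤ → ℕ → WL M) (a b : ℤ) :
    (oT H W (a, b)).tA = stA a b ∧ (oT H W (a, b)).tB = stB a b := by
  have key : ∀ z : ℤ, -2 ≤ z → z ≤ 2 → (((Fin.ofNat 5 (z + 2).toNat : Fin 5) : ℕ) : ℤ) - 2 = z := by
    intro z h1 h2
    have e : ((Fin.ofNat 5 (z + 2).toNat : Fin 5) : ℕ) = (z + 2).toNat % 5 := rfl
    rw [e]
    omega
  have hA : -2 ≤ stA a b ∧ stA a b ≤ 2 := by
    unfold stA cl
    split_ifs <;> omega
  have hB : -2 ≤ stB a b ∧ stB a b ≤ 2 := by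
    unfold stB cl
    split_ifs <;> omega
  exact ⟨key _ hA.1 hA.2, key _ hB.1 hB.2⟩

theorem ot_c (H : ℤ → ℕ → HL M) (W : ℤ → ℕ → WL M) (a b : ℤ) : (oT H W (a, b)).OkC M := by
  have hn : ∀ x, (heO H W x b).n = (heO H W a b).n := fun x => by
    unfold heO; split_ifs <;> rfl
  have hdy : ∀ x, (heO H W x b).dy = (heO H W a b).dy := fun x => by
    unfold heO; split_ifs <;> rfl
  have hbe : ∀ x, (heO H W x b).be = (heO H W a b).be := fun x => by
    unfold heO; split_ifs <;> rfl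
  have hro : ∀ x, (heO H W x b).ro = (heO H W a b).ro := fun x => by
    unfold heO; split_ifs <;> rfl
  have hmA : ∀ y, (veO W a y).mA = (veO W a b).mA := fun y => by
    unfold veO; split_ifs <;> rfl
  have hmB : ∀ y, (veO W a y).mB = (veO W a b).mB := fun y => by
    unfold veO; split_ifs <;> rfl
  have hdA : ∀ y, (veO W a y).dA = (veO W a b).dA := fun y => by
    unfold veO; split_ifs <;> rfl
  have hdB : ∀ y, (veO W a y).dB = (veO W a b).dB := fun y => by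
    unfold veO; split_ifs <;> rfl
  refine ⟨(hn _).symm, (hdy _).symm, (hbe _).symm, (hro _).symm, (hmA _).symm, (hmB _).symm,
    (hdA _).symm, (hdB _).symm, ?_⟩
  show ((veO W a (b - 1)).dA : ℕ) = if 3 ∣ ((veO W a (b - 1)).dB : ℕ) then
    ((veO W a (b - 1)).dB : ℕ) / 3 else ((veO W a (b - 1)).dB : ℕ) % 3
  by_cases ha : a = 0
  · subst ha
    rw [(ve_d0 W (b - 1)).1, (ve_d0 W (b - 1)).2]
    rfl
  · rw [ve_dA W ha, ve_dB W ha]
    have h9 : ∀ m : ℕ, (9 : ℤ) ^ m = 3 ^ (2 * m) := by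
      intro m
      rw [pow_mul]
      norm_num
    unfold lastA lastB
    rcases Nat.even_or_odd' (lv3 a) with ⟨m, hm | hm⟩
    · have e2 : lv3 a / 2 = m := by omega
      obtain ⟨w, hw, hw3⟩ := fac3 ha
      have hA : (dig 3 (lv3 a) a : ℤ) = w % 3 := by
        have h1 := dig_eq (a := 3) (by norm_num) (lv3 a) w
        rw [← hw] at h1
        exact_mod_cast h1
      have hB : (dig 9 (lv3 a / 2) a : ℤ) = w % 9 := by
        have h1 := dig_eq (a := 9) (by norm_num) (lv3 a / 2) w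
        have h2 : ((9 : ℕ) : ℤ) ^ (lv3 a / 2) * w = a := by
          rw [e2]
          push_cast
          rw [h9, ← hm]
          exact_mod_cast hw.symm
        rw [h2] at h1
        exact_mod_cast h1
      split_ifs with h <;> omega
    · have e2 : lv3 a / 2 = m := by omega
      obtain ⟨w, hw, hw3⟩ := fac3 ha
      have hA : (dig 3 (lv3 a) a : ℤ) = w % 3 := by
        have h1 := dig_eq (a := 3) (by norm_num) (lv3 a) w
        rw [← hw] at h1
        exact_mod_cast h1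
      have hB : (dig 9 (lv3 a / 2) a : ℤ) = (3 * w) % 9 := by
        have h1 := dig_eq (a := 9) (by norm_num) (lv3 a / 2) (3 * w)
        have h2 : ((9 : ℕ) : ℤ) ^ (lv3 a / 2) * (3 * w) = a := by
          rw [e2]
          push_cast
          have h3 : (3 : ℤ) ^ (lv3 a) * w = a := by exact_mod_cast hw.symm
          rw [h9, ← h3, hm]
          ring
        rw [h2] at h1
        exact_mod_cast h1
      split_ifs with h <;> omega

theorem ot_s (H : ℤ → ℕ → HL M) (W : ℤ → ℕ → WL M) (a b : ℤ) : (oT H W (a, b)).OkS M := by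
  have hTA := (ot_tA H W a b).1
  have hTB := (ot_tA H W a b).2
  have hmA : ∀ y, (((veO W a y).mA ≠ 0) ↔ dig 3 0 a ≠ 0) := fun y => by
    rw [← ve_mA W a y, Ne, Ne, Fin.ext_iff]
    rfl
  have hmB : ∀ y, (((veO W a y).mB ≠ 0) ↔ dig 9 0 a ≠ 0) := fun y => by
    rw [← ve_mB W a y, Ne, Ne, Fin.ext_iff]
    rfl
  have hn : ∀ x, (((heO H W x b).n ≠ 0) ↔ dig 3 0 b ≠ 0) := fun x => by
    rw [← he_n H W x b, Ne, Ne, Fin.ext_iff]
    rfl
  have hmA0 : ∀ y, (((veO W a y).mA = 0) ↔ dig 3 0 a = 0) := fun y => by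
    rw [← ve_mA W a y, Fin.ext_iff]
    rfl
  have hmB0 : ∀ y, (((veO W a y).mB = 0) ↔ dig 9 0 a = 0) := fun y => by
    rw [← ve_mB W a y, Fin.ext_iff]
    rfl
  have hn0 : ∀ x, (((heO H W x b).n = 0) ↔ dig 3 0 b = 0) := fun x => by
    rw [← he_n H W x b, Fin.ext_iff]
    rfl
  refine { dAm := ?_, dBm := ?_, dyn := ?_, a00 := ?_, a01 := ?_, a10 := ?_, b00 := ?_, b01 := ?_,
           b10 := ?_, rowA := ?_, rowB := ?_, rowA0 := ?_, rowB0 := ?_, colA := ?_, colB := ?_,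
           colA0 := ?_, colB0 := ?_ }
  · intro h
    have h' : dig 3 0 a ≠ 0 := (hmA (b - 1)).1 h
    obtain ⟨ha, hl⟩ := lv_zero h'
    show (veO W a (b - 1)).dA = (veO W a (b - 1)).mA
    apply Fin.ext
    rw [ve_dA W ha, ve_mA]
    unfold lastA
    rw [hl]
  · intro h
    have h' : dig 9 0 a ≠ 0 := (hmB (b - 1)).1 h
    obtain ⟨ha, hl⟩ := lv_zero9 h'
    show (veO W a (b - 1)).dB = (veO W a (b - 1)).mB
    apply Fin.ext
    rw [ve_dB W ha, ve_mB]
    unfold lastB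
    rw [hl]
  · intro h
    have h' : dig 3 0 b ≠ 0 := (hn (a - 1)).1 h
    obtain ⟨hb, hl⟩ := lv_zero h'
    show (heO H W (a - 1) b).dy = (heO H W (a - 1) b).n
    apply Fin.ext
    rw [he_dy H W _ hb, he_n]
    unfold lastA
    rw [hl]
  · intro h1 h2
    obtain ⟨ha, hla⟩ := lv_zero ((hmA (b - 1)).1 h1)
    obtain ⟨hb, hlb⟩ := lv_zero ((hn (a - 1)).1 h2)
    rw [hTA, (stA_fin ha hb).1, hla, hlb]
    rfl
  · intro h1 h2
    obtain ⟨ha, hla⟩ := lv_zero ((hmA (b - 1)).1 h1)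
    have h2' : dig 3 0 b = 0 := (hn0 (a - 1)).1 h2
    rw [hTA]
    by_cases hb : b = 0
    · subst hb
      rw [(stA_zero a).1]
      norm_num
    · have := lv_pos hb h2'
      rw [(stA_fin ha hb).1]
      unfold cl
      omega
  · intro h1 h2
    have h1' : dig 3 0 a = 0 := (hmA0 (b - 1)).1 h1
    obtain ⟨hb, hlb⟩ := lv_zero ((hn (a - 1)).1 h2)
    rw [hTA]
    by_cases ha : a = 0
    · subst ha
      rw [(stA_inf hb).1]
      norm_num
    · have := lv_pos ha h1'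
      rw [(stA_fin ha hb).1]
      unfold cl
      omega
  · intro h1 h2
    obtain ⟨ha, hla⟩ := lv_zero9 ((hmB (b - 1)).1 h1)
    obtain ⟨hb, hlb⟩ := lv_zero ((hn (a - 1)).1 h2)
    rw [hTB, (stA_fin ha hb).2, hla, hlb]
    rfl
  · intro h1 h2
    obtain ⟨ha, hla⟩ := lv_zero9 ((hmB (b - 1)).1 h1)
    have h2' : dig 3 0 b = 0 := (hn0 (a - 1)).1 h2
    rw [hTB]
    by_cases hb : b = 0
    · subst hb
      rw [(stA_zero a).2]
      norm_num
    · have := lv_pos hb h2'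
      rw [(stA_fin ha hb).2]
      unfold cl
      omega
  · intro h1 h2
    have h1' : dig 9 0 a = 0 := (hmB0 (b - 1)).1 h1
    obtain ⟨hb, hlb⟩ := lv_zero ((hn (a - 1)).1 h2)
    rw [hTB]
    by_cases ha : a = 0
    · subst ha
      rw [(stA_inf hb).2]
      norm_num
    · have := lv_pos9 ha h1'
      rw [(stA_fin ha hb).2]
      unfold cl
      omega
  · intro k hk
    rw [hTA]
    have hk3 : (k : ℕ) < 3 := k.2
    show Stp 3 (-stA a b) ((k : ℤ) - 1) ((heO H W (a - 1) b).pA k : ℕ) ((heO H W a b).pA k : ℕ)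
      ((veO W a (b - 1)).dA : ℕ)
    by_cases hb : b = 0
    · subst hb
      rw [(he_p0 H W (a - 1) k).1, (he_p0 H W a k).1, (stA_zero a).1]
      exact ⟨fun _ => rfl, fun h => by omega, fun h => by omega⟩
    · have hq : lv3 b + (k : ℕ) ≠ 0 := by
        intro h0
        have hk0 : k = 0 := Fin.ext (by show (k : ℕ) = 0; omega)
        have := lv_pos hb ((hn0 (a - 1)).1 (hk hk0))
        omega
      rw [he_pA H W _ hb k hq, he_pA H W _ hb k hq]
      by_cases ha : a = 0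
      · subst ha
        rw [(stA_inf hb).1, zero_sub]
        exact stp_zero (by norm_num) (by omega)
      · rw [ve_dA W ha]
        have := (stA_fin ha hb).1
        unfold cl at this
        exact stp_core (by norm_num) (fun n => dvd3 ha n) (fun h => by omega) (fun h => by omega)
          (fun h => by omega)
  · intro k hk
    rw [hTB]
    have hk3 : (k : ℕ) < 3 := k.2
    show Stp 9 (-stB a b) ((k : ℤ) - 1) ((heO H W (a - 1) b).pB k : ℕ) ((heO H W a b).pB k : ℕ)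
      ((veO W a (b - 1)).dB : ℕ)
    by_cases hb : b = 0
    · subst hb
      rw [(he_p0 H W (a - 1) k).2, (he_p0 H W a k).2, (stA_zero a).2]
      exact ⟨fun _ => rfl, fun h => by omega, fun h => by omega⟩
    · have hq : lv3 b + (k : ℕ) ≠ 0 := by
        intro h0
        have hk0 : k = 0 := Fin.ext (by show (k : ℕ) = 0; omega)
        have := lv_pos hb ((hn0 (a - 1)).1 (hk hk0))
        omega
      rw [he_pB H W _ hb k hq, he_pB H W _ hb k hq]
      by_cases ha : a = 0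
      · subst ha
        rw [(stA_inf hb).2, zero_sub]
        exact stp_zero (by norm_num) (by omega)
      · rw [ve_dB W ha]
        have := (stA_fin ha hb).2
        unfold cl at this
        exact stp_core (by norm_num) (fun n => dvd9 ha n) (fun h => by omega) (fun h => by omega)
          (fun h => by omega)
  · intro h
    obtain ⟨hb, hlb⟩ := lv_zero ((hn (a - 1)).1 h)
    exact (he_pz H W a hb hlb).1
  · intro h
    obtain ⟨hb, hlb⟩ := lv_zero ((hn (a - 1)).1 h)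
    exact (he_pz H W a hb hlb).2
  · intro k hk
    rw [hTA]
    have hk3 : (k : ℕ) < 3 := k.2
    show Stp 3 (stA a b) ((k : ℤ) - 1) ((veO W a (b - 1)).eA k : ℕ) ((veO W a b).eA k : ℕ)
      ((heO H W (a - 1) b).dy : ℕ)
    by_cases ha : a = 0
    · subst ha
      rw [(ve_e0 W _ k).1, (ve_e0 W _ k).1]
      by_cases hb : b = 0
      · subst hb
        rw [(stA_zero 0).1]
        exact ⟨fun h => by omega, fun h => by omega, fun _ => ⟨by norm_num, by norm_num⟩⟩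
      · rw [(stA_inf hb).1]
        refine ⟨fun _ => ?_, fun h => by omega, fun h => by omega⟩
        split_ifs <;> omega
    · have hq : lv3 a + (k : ℕ) ≠ 0 := by
        intro h0
        have hk0 : k = 0 := Fin.ext (by show (k : ℕ) = 0; omega)
        have := lv_pos ha ((hmA0 (b - 1)).1 (hk hk0))
        omega
      rw [ve_eA W ha _ k hq, ve_eA W ha _ k hq]
      by_cases hb : b = 0
      · subst hb
        rw [(stA_zero a).1, zero_sub]
        exact stp_zero (by norm_num) (by omega)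
      · rw [he_dy H W _ hb]
        have := (stA_fin ha hb).1
        unfold cl at this
        exact stp_core (by norm_num) (fun n => dvd3 hb n) (fun h => by omega) (fun h => by omega)
          (fun h => by omega)
  · intro k hk
    rw [hTB]
    have hk3 : (k : ℕ) < 3 := k.2
    show Stp 3 (stB a b) ((k : ℤ) - 1) ((veO W a (b - 1)).eB k : ℕ) ((veO W a b).eB k : ℕ)
      ((heO H W (a - 1) b).dy : ℕ)
    by_cases ha : a = 0
    · subst ha
      rw [(ve_e0 W _ k).2, (ve_e0 W _ k).2]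
      by_cases hb : b = 0
      · subst hb
        rw [(stA_zero 0).2]
        exact ⟨fun h => by omega, fun h => by omega, fun _ => ⟨by norm_num, by norm_num⟩⟩
      · rw [(stA_inf hb).2]
        refine ⟨fun _ => ?_, fun h => by omega, fun h => by omega⟩
        split_ifs <;> omega
    · have hq : lv3 a / 2 + (k : ℕ) ≠ 0 := by
        intro h0
        have hk0 : k = 0 := Fin.ext (by show (k : ℕ) = 0; omega)
        have := lv_pos9 ha ((hmB0 (b - 1)).1 (hk hk0))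
        omega
      rw [ve_eB W ha _ k hq, ve_eB W ha _ k hq]
      by_cases hb : b = 0
      · subst hb
        rw [(stA_zero a).2, zero_sub]
        exact stp_zero (by norm_num) (by omega)
      · rw [he_dy H W _ hb]
        have := (stA_fin ha hb).2
        unfold cl at this
        exact stp_core (by norm_num) (fun n => dvd3 hb n) (fun h => by omega) (fun h => by omega)
          (fun h => by omega)
  · intro h
    obtain ⟨ha, hla⟩ := lv_zero ((hmA (b - 1)).1 h)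
    exact (ve_ez W ha b).1 hla
  · intro h
    obtain ⟨ha, hla⟩ := lv_zero9 ((hmB (b - 1)).1 h)
    exact (ve_ez W ha b).2 hla

private lemma he_n_succ (H : ℤ → ℕ → HL M) (W : ℤ → ℕ → WL M) (a b : ℤ) :
    (heO H W a (b + 1)).n = (heO H W a b).n + 1 := by
  apply Fin.ext
  rw [he_n, Fin.val_add, he_n]
  have h1 := dig30 (b + 1)
  have h2 := dig30 b
  show dig 3 0 (b + 1) = (dig 3 0 b + 1) % 3
  omega

private lemma ve_mA_succ (W : ℤ → ℕ → WL M) (a b b' : ℤ) :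
    (veO W (a + 1) b').mA = (veO W a b).mA + 1 := by
  apply Fin.ext
  rw [ve_mA, Fin.val_add, ve_mA]
  have h1 := dig30 (a + 1)
  have h2 := dig30 a
  show dig 3 0 (a + 1) = (dig 3 0 a + 1) % 3
  omega

private lemma ve_mB_succ (W : ℤ → ℕ → WL M) (a b b' : ℤ) :
    (veO W (a + 1) b').mB = (veO W a b).mB + 1 := by
  apply Fin.ext
  rw [ve_mB, Fin.val_add, ve_mB]
  have h1 := dig90 (a + 1)
  have h2 := dig90 a
  show dig 9 0 (a + 1) = (dig 9 0 a + 1) % 9
  omega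

theorem ot_hor (H : ℤ → ℕ → HL M) (W : ℤ → ℕ → WL M) (a b : ℤ) :
    (oT H W (a, b)).r = (oT H W (a + 1, b)).l ∧
    (oT H W (a + 1, b)).d.mA = (oT H W (a, b)).d.mA + 1 ∧
    (oT H W (a + 1, b)).d.mB = (oT H W (a, b)).d.mB + 1 := by
  refine ⟨?_, ve_mA_succ W a _ _, ve_mB_succ W a _ _⟩
  show heO H W a b = heO H W (a + 1 - 1) b
  rw [add_sub_cancel_right]

theorem ot_ver (H : ℤ → ℕ → HL M) (W : ℤ → ℕ → WL M) (a b : ℤ) :
    TVer M (oT H W (a, b)) (oT H W (a, b + 1)) := by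
  refine ⟨?_, he_n_succ H W (a - 1) b⟩
  show veO W a b = veO W a (b + 1 - 1)
  rw [add_sub_cancel_right]

end H96.CK
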