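import Pool.Agent.H96.CK.Tile

/-!
# The configuration with one corner (definitions)

`lv3 a`: exponent of 3 in `a` (`0` for `a = 0`). `oT H W`: columns and rows have their 3-adic levels (`c = 0`, `r = 0`), the base
row is row `0`, the companion rows are the rows `3 ^ t`, with lane labels `H a t` and wires `W a t`; column `0` has infinite level,
digits 1 and 3.
-/

namespace H96.CK

variable {K G : Type} {M : SM K G}

def lv3 (a : ℤ) : ℕ := padicValInt 3 a

/-- the digit of `a` at its level in base 3 -/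
def lastA (a : ℤ) : ℕ := dig 3 (lv3 a) a

def lastB (a : ℤ) : ℕ := dig 9 (lv3 a / 2) a

open Classical in
noncomputable def heO (H : ℤ → ℕ → HL M) (W : ℤ → ℕ → WL M) (a b : ℤ) : HE M :=
  if b = 0 then
    { n := 0, dy := 1, be := true, ro := false, ini := decide (W a 0 = .P),
      pA := fun _ => 0, pB := fun _ => 0, h := .blank }
  else
    { n := Fin.ofNat 3 (dig 3 0 b)
      dy := Fin.ofNat 3 (lastA b)
      be := false
      ro := decide (∃ t : ℕ, b = 3 ^ t)
      ini := false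
      pA := fun k => if lv3 b + (k : ℕ) = 0 then 0 else
        Fin.ofNat 3 (dig 3 (lv3 b + (k : ℕ) - 1) a)
      pB := fun k => if lv3 b + (k : ℕ) = 0 then 0 else
        Fin.ofNat 9 (dig 9 (lv3 b + (k : ℕ) - 1) a)
      h := if ∃ t : ℕ, b = 3 ^ t then H a (lv3 b) else .blank }

open Classical in
noncomputable def veO (W : ℤ → ℕ → WL M) (a b : ℤ) : VE M :=
  if a = 0 then
    { mA := 0, mB := 0, dA := 1, dB := 3, eA := fun _ => if 0 ≤ b then 0 else 2,
      eB := fun _ => if 0 ≤ b then 0 else 2, u := decide (0 ≤ b),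
      w := if b < 0 then .blank else if b = 0 then W a 0 else W a (Nat.log 3 b.toNat + 1) }
  else
    { mA := Fin.ofNat 3 (dig 3 0 a)
      mB := Fin.ofNat 9 (dig 9 0 a)
      dA := Fin.ofNat 3 (lastA a)
      dB := Fin.ofNat 9 (lastB a)
      eA := fun k => if lv3 a + (k : ℕ) = 0 then 0 else
        Fin.ofNat 3 (dig 3 (lv3 a + (k : ℕ) - 1) b)
      eB := fun k => if lv3 a / 2 + (k : ℕ) = 0 then 0 else
        Fin.ofNat 3 (dig 3 (lv3 a / 2 + (k : ℕ) - 1) b)
      u := decide (0 ≤ b ∧ b < 3 ^ (lv3 a + 1))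
      w := if b < 0 then .blank else if b = 0 then W a 0 else W a (Nat.log 3 b.toNat + 1) }

def stA (a b : ℤ) : ℤ :=
  if b = 0 then 2 else if a = 0 then -2 else cl (lv3 b - lv3 a)

def stB (a b : ℤ) : ℤ :=
  if b = 0 then 2 else if a = 0 then -2 else cl (lv3 b - (lv3 a / 2 : ℕ))

noncomputable def oT (H : ℤ → ℕ → HL M) (W : ℤ → ℕ → WL M) : ℤ × ℤ → Tile M := fun p =>
  { l := heO H W (p.1 - 1) p.2
    r := heO H W p.1 p.2
    d := veO W p.1 (p.2 - 1)
    u := veO W p.1 p.2
    sA := Fin.ofNat 5 (stA p.1 p.2 + 2).toNat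
    sB := Fin.ofNat 5 (stB p.1 p.2 + 2).toNat }

end H96.CK
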