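import Pool.Agent.H96.CK.Near
import Pool.Agent.H96.CK.CodU

/-!
# Module Recu (250 lines): recurrence and separation

`sub_window`: `X` corner of finite level `k ≥ n1 := 4 N + 40` with code `some j`. Use `near_corner N`: `3 ^ (2N+8) ∣ X - c _` since
`2 N + 8 ≤ k`; `corner_up` (for `lane_of`): `cA x X = 1`, wires `P` up to `k / 2 ≥ 2 N + 8`; `cB x X = 3` by `three_iff`; `hag`: `Agr X _ (k / 2)` from
`Cod` (`IsLv.unique`) restricted to `2 N + 8 ≤ k / 2`; `hleft`: `parent`: `X = X1 + 3 ^ k`, `Agr X1 v1 κ1` with `k < κ1` (`κ1 = k1 / 2`, or any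
number if `X1` has infinite level), so the labels at `X - d = X1 + (3 ^ k - d)` are `hlab v1 (3 ^ k - d) t = blank` (`hw_left`,
`d ≤ N + 2 ≤ 3 ^ (k-1)`, `t ≤ N + 2 < (k-1)/2`).
`inf_conf`: `X = a0` of infinite level with code `v`: `near_corner` for every `N` (`corner_inf`, `left_inf`, `Cod`), so
`x (a0 + a, b0 + b) = oo v (a, b)` for all `a, b`.
`oo_rec`: given `n` take `k ≥ 4 n + 40` with `Lau (some v) k`, `chd k = j` (`Tm.recur`); `X = 3 ^ k` has level `k` in `oo (some v)`,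
`Wx (some v) X 0 = P` (definition of `wlab`, `Lau`), its code is `some (chd k)` (`corner_code`; the first alternative of `Cod`, levels are
unique); `sub_window`.
`oo_sep`: suppose `oo (some v)` is in the closure; take `n = 3 ^ (μ v + 2) + 1`; so for some `j` with `r j v` and some `(p, q)`:
`oo (some j) (a + p, b + q) = oo (some v) (a, b)` for `|a|, |b| ≤ n`. The cell `(0, 0)`: `be = true`, so `q = 0` (`oo_base.be`). Then
`Wf` and `Hf` of both agree in this window: in particular `Wx (some j) p 0 = Wx (some v) 0 0 = P`: `p` is a corner of `oo (some j)`, with code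
`w` (`corner_code`) and `w = some m`, `m = j ∨ r m j` (`codes_le`). Put `i = μ v + 1`. In `oo (some v)`: `W (3 ^ i) i = V g _` with `g.ch = true` (`agr_ch`) and
`H (3 ^ s) s` is an `F` for `s ≤ i`. If `p` has a finite level `k`, `κ = k / 2`: by `close` (with `H p κ = A`, `corner_up`; `3 ^ (κ+1) ∣ p - c _`)
`H (p + 3 ^ κ) κ = A`; so `κ ≤ i` is impossible; hence `i < κ`. So `agr_ch` for `p` (`Agr p w κ`): `w = some v`. So `m = v`, and
`m = j ∨ r m j` with `r j v` contradicts irreflexivity / transitivity. For `p` of infinite level the same with any `κ`.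
-/

namespace H96.CK

variable {K G : Type} [DecidableEq G] {M : SM K G} {mn : K} {cs : G} {e : ℕ → ℕ}
  {r : ℕ → ℕ → Prop} {μ : ℕ → ℕ}

private theorem rc_coh0 : Coh 3 (fun _ => 0) := fun n => by simp

private theorem rc_pow {m n : ℕ} (h : m ≤ n) : 3 ^ m ≤ 3 ^ n := Nat.pow_le_pow_right (by norm_num) h

private theorem rc_lt (n : ℕ) : n < 3 ^ n := Nat.lt_pow_self (by norm_num)

theorem sub_window (hT : Tm M mn cs e r μ) (N : ℕ) {x : ℤ × ℤ → Tile M}
    (hx : x ∈ TX M mn cs) {c r0 : ℕ → ℤ} (g : Geo x c r0) {b0 : ℤ} (B : BaseG x c r0 b0)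
    {X : ℤ} {v : Option ℕ} {k : ℕ} (hk : IsLv 3 c X k) (hn : 4 * N + 40 ≤ k)
    (hC : Cod M mn cs c e (Hf x b0) (Wf x b0) X v) :
    ∀ a b : ℤ, |a| ≤ N → |b| ≤ N → x (X + a, b0 + b) = oo M mn cs e v (a, b) := by
  have hc := colOk_of (M := M) g
  have hL := lane_of hx g B
  obtain ⟨h1, h2, h3, -, -, -, h4, -⟩ := corner_up hc hL hC.1 hk
  have hA : Agr mn cs e (Hf x b0) (Wf x b0) X v (k / 2) := by
    rcases hC.2 with ⟨k', hk', -, -, -, -, hA, -⟩ | ⟨hi, -⟩
    · rw [IsLv.unique g.cohc hk hk']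
      exact hA
    · exact absurd hi hk.not_inf
  obtain ⟨v1, hC1, hlau, -, hlev⟩ := parent hT hc hL hk hC
  obtain ⟨κ1, hκ1, hA1⟩ : ∃ κ1, k < κ1 ∧ Agr mn cs e (Hf x b0) (Wf x b0) (X - 3 ^ k) v1 κ1 := by
    rcases hC1.2 with ⟨k', hk', -, -, -, -, hA, -⟩ | ⟨-, hA⟩
    · exact ⟨k' / 2, hlev k' hk', hA⟩
    · exact ⟨k + 1, Nat.lt_succ_self k, hA (k + 1)⟩
  refine near_corner hT N hx g B ?_ h2 ((hc.three_iff hk).2 ⟨h1, h2⟩) ?_ ?_ ?_
  · exact (hk.dvd g.cohc).2 (by omega)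
  · intro t ht
    exact h4 t (by omega)
  · intro d hd
    have hd' : d < 3 ^ (k / 2) := lt_of_lt_of_le hd (rc_pow (by omega))
    exact ⟨fun t ht => (hA d hd').1 t (by omega), (hA d hd').2⟩
  · intro d hd1 hd2 t ht
    have hp : 3 ^ k = 3 * 3 ^ (k - 1) := by
      rw [← pow_succ']
      congr 1
      omega
    have hN : N + 2 ≤ 3 ^ (k - 1) := by
      have h5 := rc_lt (k - 1)
      omega
    have hdk : d ≤ 3 ^ (k - 1) := by omega
    have hlt : 3 ^ k - d < 3 ^ κ1 := by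
      have h5 := rc_pow hκ1.le
      omega
    have hpos : 0 < 3 ^ k - d := by omega
    have he : X - 3 ^ k + ((3 ^ k - d : ℕ) : ℤ) = X - d := by
      rw [Nat.cast_sub (by omega)]
      push_cast
      ring
    have h6 := hw_left (M := M) (mn := mn) (cs := cs) (e := e) v1 (k := k) (d := d) (t := t)
      (by omega) hd1 hdk (by omega)
    have h7 := hA1 (3 ^ k - d) hlt
    rw [he] at h7
    exact ⟨(h7.1 t (by omega)).trans h6.1, (h7.2 hpos t).trans h6.2⟩

theorem inf_conf (hT : Tm M mn cs e r μ) {x : ℤ × ℤ → Tile M}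
    (hx : x ∈ TX M mn cs) {c r0 : ℕ → ℤ} (g : Geo x c r0) {b0 : ℤ} (B : BaseG x c r0 b0)
    {X : ℤ} {v : Option ℕ} (hi : IsInf 3 c X)
    (hC : Cod M mn cs c e (Hf x b0) (Wf x b0) X v) :
    ∀ a b : ℤ, x (X + a, b0 + b) = oo M mn cs e v (a, b) := by
  have hc := colOk_of (M := M) g
  have hL := lane_of hx g B
  obtain ⟨h1, h2, h3⟩ := corner_inf hL hC.1 hi
  have hA : ∀ n, Agr mn cs e (Hf x b0) (Wf x b0) X v n := by
    rcases hC.2 with ⟨k', hk', -⟩ | ⟨-, hA⟩
    · exact absurd hi hk'.not_inf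
    · exact hA
  intro a b
  refine near_corner hT (a.natAbs + b.natAbs) hx g B ?_ h1 h2 ?_ ?_ ?_ a b ?_ ?_
  · exact hi _
  · intro t _
    exact (h3 t).1
  · exact hA _
  · intro d hd1 _ t _
    exact left_inf hT hc hL hi (by omega) t
  · push_cast
    have := abs_nonneg b
    omega
  · push_cast
    have := abs_nonneg a
    omega

private theorem rc_lv (k : ℕ) : IsLv 3 (fun _ => 0) ((3 : ℤ) ^ k) k := by
  constructor
  · simp
  · rw [sub_zero]
    intro h
    have h1 : 3 ^ (k + 1) ∣ 3 ^ k := by exact_mod_cast h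
    have h2 := (Nat.pow_dvd_pow_iff_le_right (by norm_num : 1 < 3)).1 h1
    omega

private theorem rc_hf (hT : Tm M mn cs e r μ) (v : Option ℕ) :
    Hf (oo M mn cs e v) 0 = Hx M mn cs e v := by
  funext a t
  exact (oo_hw hT v a t).1

private theorem rc_wf (hT : Tm M mn cs e r μ) (v : Option ℕ) :
    Wf (oo M mn cs e v) 0 = Wx M mn cs e v := by
  funext a t
  exact (oo_hw hT v a t).2.1

private theorem rc_hx (v : Option ℕ) (s : ℕ) :
    ∃ l st, Hx M mn cs e v (3 ^ s) s = .F l st := by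
  have h0 : ¬ ((3 : ℤ) ^ s < 0) := by
    have : (0 : ℤ) < 3 ^ s := by positivity
    omega
  have h1 : ((3 : ℤ) ^ s).toNat = 3 ^ s := by
    rw [show ((3 : ℤ) ^ s) = ((3 ^ s : ℕ) : ℤ) by push_cast; rfl]
    exact Int.toNat_natCast _
  have h2 : Nat.log 3 (3 ^ s) = s := Nat.log_pow (by norm_num) s
  have h3 : 0 < 3 ^ s := by positivity
  refine ⟨(tl M mn cs v s).lam s s, (tl M mn cs v s).st, ?_⟩
  unfold Hx
  rw [if_neg h0, h1, hlab, h2, dif_neg (by omega), if_neg (by omega), if_pos (by omega),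
    if_pos rfl]

private theorem rc_wx0 (v : Option ℕ) : Wx M mn cs e v 0 0 = .P := by
  unfold Wx
  rw [if_neg (by norm_num), Int.toNat_zero, wlab, dif_pos rfl]

theorem oo_rec (hT : Tm M mn cs e r μ) {j v : ℕ} (h : r j v) :
    oo M mn cs e (some j) ∈ Cl (Orb (oo M mn cs e (some v))) := by
  intro n
  obtain ⟨k, hk, hlau, hchd⟩ := hT.recur j v h (4 * n + 40)
  refine ⟨sh (3 ^ k, 0) (oo M mn cs e (some v)), ⟨_, rfl⟩, ?_⟩
  have hx := oo_mem hT (some v)
  have g := oo_geo (M := M) (mn := mn) (cs := cs) (e := e) (some v)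
  have B := oo_base (M := M) (mn := mn) (cs := cs) (e := e) (some v)
  have hc := colOk_of (M := M) g
  have hL := lane_of hx g B
  have hP : Wf (oo M mn cs e (some v)) 0 (3 ^ k) 0 = .P := by
    rw [rc_wf hT]
    have h0 : ¬ ((3 : ℤ) ^ k < 0) := by
      have : (0 : ℤ) < 3 ^ k := by positivity
      omega
    have h1 : ((3 : ℤ) ^ k).toNat = 3 ^ k := by
      rw [show ((3 : ℤ) ^ k) = ((3 ^ k : ℕ) : ℤ) by push_cast; rfl]
      exact Int.toNat_natCast _
    have h2 : Nat.log 3 (3 ^ k) = k := Nat.log_pow (by norm_num) k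
    have h3 : 0 < 3 ^ k := by positivity
    unfold Wx
    rw [if_neg h0, h1, wlab, h2, dif_neg (by omega), if_pos rfl, if_neg (by omega),
      if_neg (by omega), if_neg (by omega), if_pos hlau]
  obtain ⟨w, hC⟩ := corner_code hT hc hL hP
  have hw : w = some j := by
    rcases hC.2 with ⟨k', hk', -, -, hw, -⟩ | ⟨hi, -⟩
    · rw [IsLv.unique rc_coh0 hk' (rc_lv k), hchd] at hw
      exact hw
    · exact absurd hi (rc_lv k).not_inf
  rw [hw] at hC
  intro a b ha hb
  have h1 := sub_window hT n hx g B (rc_lv k) hk hC a b ha hb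
  rw [← h1]
  show oo M mn cs e (some v) (a + 3 ^ k, b + 0) = _
  rw [add_comm a, add_comm b]

theorem oo_sep (hT : Tm M mn cs e r μ) (hir : ∀ a, ¬ r a a)
    (htr : ∀ a b c, r a b → r b c → r a c) (v : ℕ) :
    oo M mn cs e (some v) ∉ Cl {y | ∃ j, r j v ∧ y ∈ Orb (oo M mn cs e (some j))} := by
  intro hcl
  obtain ⟨y, ⟨j, hjv, ⟨p, q⟩, rfl⟩, hy⟩ := hcl (3 ^ (μ v + 2) + 1)
  have hn0 : (0 : ℤ) ≤ ((3 ^ (μ v + 2) + 1 : ℕ) : ℤ) := Int.natCast_nonneg _
  -- the base row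
  have hq : q = 0 := by
    have h1 := hy 0 0 (by simpa using hn0) (by simpa using hn0)
    have h2 := (oo_base (M := M) (mn := mn) (cs := cs) (e := e) (some v)).be 0 0
    have h3 := (oo_base (M := M) (mn := mn) (cs := cs) (e := e) (some j)).be (0 + p) (0 + q)
    have h4 : (he (oo M mn cs e (some j)) (0 + p) (0 + q)).be = true := by
      show (sh (p, q) (oo M mn cs e (some j)) (0, 0)).r.be = true
      rw [h1]
      exact h2.2 rfl
    have h5 := h3.1 h4
    omega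
  subst hq
  have hwin : ∀ a b : ℤ, |a| ≤ ((3 ^ (μ v + 2) + 1 : ℕ) : ℤ) →
      |b| ≤ ((3 ^ (μ v + 2) + 1 : ℕ) : ℤ) →
      oo M mn cs e (some j) (p + a, 0 + b) = oo M mn cs e (some v) (0 + a, 0 + b) := by
    intro a b ha hb
    have h1 := hy a b ha hb
    have h2 : sh (p, 0) (oo M mn cs e (some j)) (a, b) = oo M mn cs e (some j) (a + p, b + 0) := rfl
    rw [h2] at h1
    rw [add_comm p a, zero_add, zero_add, ← h1, add_zero]
  have hpow : ∀ s : ℕ, s ≤ μ v + 2 → |(3 : ℤ) ^ s| ≤ ((3 ^ (μ v + 2) + 1 : ℕ) : ℤ) := by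
    intro s hs
    have h1 : (0 : ℤ) < 3 ^ s := by positivity
    have h2 := rc_pow hs
    rw [abs_of_pos h1]
    have h3 : ((3 ^ s : ℕ) : ℤ) ≤ ((3 ^ (μ v + 2) + 1 : ℕ) : ℤ) := by
      exact_mod_cast h2.trans (Nat.le_succ _)
    push_cast at h3 ⊢
    exact h3
  have hH : ∀ s : ℕ, s ≤ μ v + 2 →
      Hx M mn cs e (some j) (p + 3 ^ s) s = Hx M mn cs e (some v) (0 + 3 ^ s) s := by
    intro s hs
    rw [← rc_hf hT, ← rc_hf hT]
    show (oo M mn cs e (some j) (p + 3 ^ s, 0 + 3 ^ s)).r.h =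
      (oo M mn cs e (some v) (0 + 3 ^ s, 0 + 3 ^ s)).r.h
    rw [hwin _ _ (hpow s hs) (hpow s hs)]
  have hW : Wx M mn cs e (some j) (p + 3 ^ (μ v + 1)) (μ v + 1) =
      Wx M mn cs e (some v) (0 + 3 ^ (μ v + 1)) (μ v + 1) := by
    rw [← rc_wf hT, ← rc_wf hT]
    show (oo M mn cs e (some j) (p + 3 ^ (μ v + 1), 0 + if μ v + 1 = 0 then 0 else
        3 ^ (μ v + 1 - 1))).u.w =
      (oo M mn cs e (some v) (0 + 3 ^ (μ v + 1), 0 + if μ v + 1 = 0 then 0 else
        3 ^ (μ v + 1 - 1))).u.w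
    rw [if_neg (Nat.succ_ne_zero _), hwin _ _ (hpow _ (by omega)) (hpow _ (by omega))]
  have hP : Wx M mn cs e (some j) p 0 = .P := by
    have h1 : Wx M mn cs e (some j) p 0 = Wx M mn cs e (some v) 0 0 := by
      rw [← rc_wf hT, ← rc_wf hT]
      show (oo M mn cs e (some j) (p, 0 + if 0 = 0 then 0 else 3 ^ (0 - 1))).u.w =
        (oo M mn cs e (some v) (0, 0 + if 0 = 0 then 0 else 3 ^ (0 - 1))).u.w
      have h2 := hwin 0 0 (by simpa using hn0) (by simpa using hn0)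
      rw [add_zero, add_zero] at h2
      rw [if_pos rfl, add_zero, h2]
    rw [h1]
    exact rc_wx0 _
  have hc := colOk_dg rc_coh0
  have hL := lane_ok hT (some j)
  obtain ⟨w, hC⟩ := corner_code hT hc hL hP
  obtain ⟨m, hwm, hm⟩ := codes_le hT htr hC
  -- the mark of `v`
  obtain ⟨g, j', hg, hgc⟩ := agr_ch hT (agr_hx (M := M) (mn := mn) (cs := cs) (e := e) (some v)
    (μ v + 2)) (m := v) (by omega)
  have key : ∀ κ, μ v + 1 < κ → Agr mn cs e (Hx M mn cs e (some j)) (Wx M mn cs e (some j)) p w κ →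
      False := by
    intro κ hκ hA
    obtain ⟨g', j'', hg', hgc'⟩ := agr_ch hT hA (m := v) hκ
    rw [hW, hg] at hg'
    have h1 : g = g' := by
      injection hg'
    have h2 : w = some v := hgc'.1 (by rw [← h1]; exact hgc.2 rfl)
    have h3 : m = v := by
      rw [hwm] at h2
      exact Option.some.inj h2
    subst h3
    rcases hm with rfl | hm
    · exact hir _ hjv
    · exact hir _ (htr _ _ _ hm hjv)
  rcases hC.2 with ⟨k, hk, hk1, hk3, -, -, hA, -⟩ | ⟨-, hA⟩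
  · by_cases hlt : μ v + 1 < k / 2
    · exact key _ hlt hA
    · obtain ⟨-, -, -, ⟨l, hl⟩, -⟩ := corner_up hc hL hP hk
      obtain ⟨-, -, h5, -⟩ := close hc hL (by omega) ((hk.dvd rc_coh0).2 (by omega)) hA hl
      rw [hH (k / 2) (by omega), zero_add] at h5
      obtain ⟨l', st, h6⟩ := rc_hx (M := M) (mn := mn) (cs := cs) (e := e) (some v) (k / 2)
      rw [h6] at h5
      cases h5
  · exact key (μ v + 2) (by omega) (hA _)

end H96.CK
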