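import Pool.Agent.H96.CK.SigRow
import Pool.Agent.H96.CK.LvA

/-!
# Module RowA (120 lines): the rows of level `n - 1` see one phase of columns

Let `y` be a row of level `n - 1` (`LvT b n (y - r) (n - 1)`). For a column `x` of level `i < n`
`hi.cc` gives `s x y = cl (n - 1 - i) ≥ 0`, for `a ^ n ∣ x - c` `hi.nc` gives
`s x y ≤ cl (n - 1 - n) = -1`. So `sigRow` with `k = 1`, `N = n` gives a phase `u_y`: at
`x_w = c + a ^ n * w` the state is `< -1`, so `-2` (`h.s_lo`), iff `a ∣ w - u_y`, and otherwise it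
is `-1` and `dx x_w = (w - u_y) % a`.
The phases of two such rows agree by `phase` (both equal `dx x_w` when `w` is in neither class).
Rows of level `n - 1` exist (`y0 = r + b ^ (n-1)`, `b ≥ 2`); take `u = u_{y0}`; for another row
`a ∣ u_y - u` and the statement for `u_y` is the statement for `u`
(`Int.emod_emod_of_dvd`, `Int.ModEq`).
-/

namespace H96.CK

/-- at the columns `c + a ^ n * w` the rows of level `n - 1` see the phase `u` -/
def Sk.RA (S : Sk) (a b n : ℕ) (c r u : ℤ) : Prop :=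
  ∀ y, LvT b n (y - r) (n - 1) → ∀ w : ℤ,
    ((a : ℤ) ∣ w - u → S.s (c + (a : ℤ) ^ n * w) y = -2) ∧
    (¬ (a : ℤ) ∣ w - u → S.s (c + (a : ℤ) ^ n * w) y = -1 ∧
      (S.dx (c + (a : ℤ) ^ n * w) : ℤ) = (w - u) % a)

private theorem rowA_one {a b : ℕ} {S : Sk} (h : S.Ok a b) (ha : 3 ≤ a) {n : ℕ}
    (hn : 1 ≤ n) {c r : ℤ} (hi : S.Inv a b n c r) {y : ℤ} (hy : LvT b n (y - r) (n - 1)) :
    ∃ u : ℤ, ∀ w : ℤ,
      ((a : ℤ) ∣ w - u → S.s (c + (a : ℤ) ^ n * w) y = -2) ∧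
      (¬ (a : ℤ) ∣ w - u → S.s (c + (a : ℤ) ^ n * w) y = -1 ∧
        (S.dx (c + (a : ℤ) ^ n * w) : ℤ) = (w - u) % a) := by
  obtain ⟨u, hu⟩ := sigRow (S := S) h (by omega) (k := 1) (y := y) (N := n) (c := c)
    (by norm_num) le_rfl (by norm_num)
    (by
      intro x hx
      obtain ⟨i, hxi⟩ := LvT.exists a n (x - c)
      have hin : i < n := by
        rcases lt_or_eq_of_le hxi.1 with h1 | h1
        · exact h1
        · subst h1
          exact absurd hxi.2.1 hx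
      have h2 := hi.cc x y i (n - 1) hxi hy hin (by omega)
      rw [h2]
      unfold cl
      omega)
    (by
      intro x hx
      have h2 := hi.nc x y (n - 1) hx hy (by omega)
      unfold cl at h2
      omega)
  refine ⟨u, fun w => ⟨fun hw => ?_, fun hw => ?_⟩⟩
  · have h1 := (hu w).1 hw
    have h2 := h.s_lo (c + (a : ℤ) ^ n * w) y
    omega
  · obtain ⟨h1, h2⟩ := (hu w).2.1 hw
    exact ⟨by omega, h2⟩

theorem Sk.Ok.rowA {a b : ℕ} {S : Sk} (h : S.Ok a b) (ha : 3 ≤ a) (hb : 2 ≤ b) {n : ℕ}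
    (hn : 1 ≤ n) {c r : ℤ} (hi : S.Inv a b n c r) : ∃ u, S.RA a b n c r u := by
  have hy0 : LvT b n (r + (b : ℤ) ^ (n - 1) - r) (n - 1) := by
    refine ⟨by omega, ?_, fun _ => ?_⟩
    · rw [add_sub_cancel_left]
    · rw [add_sub_cancel_left, pow_succ]
      intro hd
      have hb0 : (b : ℤ) ^ (n - 1) ≠ 0 := pow_ne_zero _ (by omega)
      have h1 : (b : ℤ) ∣ 1 := by
        have h2 : (b : ℤ) ^ (n - 1) * b ∣ (b : ℤ) ^ (n - 1) * 1 := by rwa [mul_one]
        exact (mul_dvd_mul_iff_left hb0).1 h2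
      have h2 := Int.le_of_dvd one_pos h1
      omega
  obtain ⟨u, hu⟩ := rowA_one h ha hn hi hy0
  refine ⟨u, fun y hy => ?_⟩
  obtain ⟨v, hv⟩ := rowA_one h ha hn hi hy
  have hd : (a : ℤ) ∣ v - u := by
    refine phase ha fun w hw hw' => ?_
    rw [← ((hv w).2 hw).2, ← ((hu w).2 hw').2]
  have hmod : ∀ w : ℤ, (w - v) % (a : ℤ) = (w - u) % a := by
    intro w
    have h1 : (w - u) - (w - v) = v - u := by ring
    exact (Int.ModEq.symm ((Int.modEq_iff_dvd).2 (by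
      have h2 : (w - v) - (w - u) = -(v - u) := by ring
      rw [h2]
      exact (dvd_neg.2 hd))))
  intro w
  have hiff : (a : ℤ) ∣ w - v ↔ (a : ℤ) ∣ w - u := by
    rw [Int.dvd_iff_emod_eq_zero, Int.dvd_iff_emod_eq_zero, hmod]
  refine ⟨fun hw => (hv w).1 (hiff.2 hw), fun hw => ?_⟩
  have h1 := (hv w).2 (fun h2 => hw (hiff.1 h2))
  rw [hmod] at h1
  exact h1

end H96.CK
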