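import Pool.Agent.H96.CK.RowA

/-!
# Module RowB (180 lines): the rows of level `n`

Let `y = r + b ^ n * w` with `¬ b ∣ w - v` (a row of level exactly `n` for the new residue).
(1) States at columns of level `i < n`: for `i + 2 ≤ n` `hi.cn` gives `cl (n - i) = 2 ≤ s`, so
`s = 2` (`h.s_hi`); for `i = n - 1` `hv` (which is `RA` of the transposed skeleton) gives `s = 1`.
(2) `n y = 0` (`hi.nz`: `b ∣ y - r` as `n ≥ 1`).
(3) Claim: `s (c + a ^ n * w') y ≤ 0`. Look at the signal `k = -1` (`h.row (-1)`): columns of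
level `≤ n - 2` have `-s = -2 < -1`: unchanged. The column `x' = x_w' - a ^ (n-1)` has level
`n - 1` and digit `a - 1` (`hi.gx`: `dx x' = dig a (n-1) (x' - c)`, `x' - c = a ^ (n-1) * (a * w' - 1)`,
`dig_eq`), and there `-s = -1`, so `p (-1) x' y = dx x' = a - 1`; by `cst` also
`p (-1) (x_w' - 1) y = a - 1`. The column `x'' = x_w' + a ^ (n-1)` has digit `1`, so
`p (-1) x'' y = 1 = p (-1) (x'' - 1) y + 1`, by `cst` `p (-1) x_w' y = 0`. (Columns strictly between
`x'`, `x_w'`, `x''` have level `< n - 1`.) So at `x_w'` the signal goes from `a - 1` to `0`; if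
`-s < -1` it would not change, if `-s = -1` it would be `a - 1 + 1`; so `-s > -1`, `s ≤ 0`.
(4) `sigRow` with `k = 0`, `N = n`: a phase `u'` with `s = 0` and `dx x_w' = (w' - u') % a` off the
phase, `s < 0` on it. `phase` with `hu` (any row of level `n - 1`, e.g. `r + b ^ (n-1)`) gives
`a ∣ u - u'`.
-/

namespace H96.CK

private theorem not_dvd_between {M q z : ℤ} (hM : 0 < M) (h1 : M * q < z) (h2 : z < M * (q + 1)) :
    ¬ M ∣ z := by
  rintro ⟨k, rfl⟩
  have h3 : q < k := lt_of_mul_lt_mul_left h1 hM.le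
  have h4 : k < q + 1 := lt_of_mul_lt_mul_left h2 hM.le
  omega

theorem Sk.Ok.rowB {a b : ℕ} {S : Sk} (h : S.Ok a b) (ha : 3 ≤ a) (hb : 3 ≤ b) {n : ℕ}
    (hn : 1 ≤ n) {c r : ℤ} (hi : S.Inv a b n c r) {u v : ℤ} (hu : S.RA a b n c r u)
    (hv : S.tr.RA b a n r c v) :
    ∀ w : ℤ, ¬ (b : ℤ) ∣ w - v → ∀ w' : ℤ,
      (¬ (a : ℤ) ∣ w' - u → S.s (c + (a : ℤ) ^ n * w') (r + (b : ℤ) ^ n * w) = 0) ∧
      ((a : ℤ) ∣ w' - u → S.s (c + (a : ℤ) ^ n * w') (r + (b : ℤ) ^ n * w) ≤ -1) := by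
  intro w hw
  set y : ℤ := r + (b : ℤ) ^ n * w with hy
  have haz : (0 : ℤ) < a := by exact_mod_cast (by omega : 0 < a)
  have hbz : (0 : ℤ) < b := by exact_mod_cast (by omega : 0 < b)
  obtain ⟨m, rfl⟩ : ∃ m, n = m + 1 := ⟨n - 1, by omega⟩
  have hMpos : (0 : ℤ) < (a : ℤ) ^ m := pow_pos haz m
  have hyd : (b : ℤ) ^ (m + 1) ∣ y - r := ⟨w, by rw [hy]; ring⟩
  -- the state at the columns of small level
  have st2 : ∀ x, ¬ (a : ℤ) ^ m ∣ x - c → S.s x y = 2 := by
    intro x hx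
    obtain ⟨i, hi1⟩ := LvT.exists a (m + 1) (x - c)
    have him : i < m := by
      by_contra hcon
      exact hx ((pow_dvd_pow (a : ℤ) (by omega : m ≤ i)).trans hi1.2.1)
    have h1 := hi.cn x y i hi1 (by omega) hyd
    have h2 := h.s_hi x y
    simp only [cl] at h1
    push_cast at h1
    omega
  have st1 : ∀ x, (a : ℤ) ^ m ∣ x - c → ¬ (a : ℤ) ^ (m + 1) ∣ x - c → S.s x y = 1 := by
    intro x hx hx'
    have h1 : LvT a (m + 1) (x - c) (m + 1 - 1) := ⟨by omega, hx, fun _ => hx'⟩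
    have h2 := ((hv x h1 w).2 hw).1
    simp only [Sk.tr] at h2
    have h3 : -S.s x y = -1 := h2
    omega
  have hny : S.n y = 0 := by
    rw [hi.nz (by omega) y]
    exact (dvd_pow_self (b : ℤ) (by omega)).trans hyd
  have hrow : ∀ x, Stp a (-S.s x y) (-1) (S.p (-1) (x - 1) y) (S.p (-1) x y) (S.dx x) := fun x =>
    h.row (-1) x y (by norm_num) (by norm_num) (fun _ => hny)
  have hunch : ∀ x, ¬ (a : ℤ) ^ m ∣ x - c → S.p (-1) x y = S.p (-1) (x - 1) y := by
    intro x hx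
    refine (hrow x).1 ?_
    rw [st2 x hx]
    norm_num
  -- the states at the columns of level `n` are not positive
  have hle : ∀ w' : ℤ, S.s (c + (a : ℤ) ^ (m + 1) * w') y ≤ 0 := by
    intro w'
    set x : ℤ := c + (a : ℤ) ^ (m + 1) * w' with hx
    have e1 : x - (a : ℤ) ^ m - c = (a : ℤ) ^ m * ((a : ℤ) * w' - 1) := by rw [hx]; ring
    have e2 : x + (a : ℤ) ^ m - c = (a : ℤ) ^ m * ((a : ℤ) * w' + 1) := by rw [hx]; ring
    have e0 : x - c = (a : ℤ) ^ m * ((a : ℤ) * w') := by rw [hx]; ring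
    have na1 : ¬ (a : ℤ) ∣ (a : ℤ) * w' - 1 := by
      intro hd
      have h1 : (a : ℤ) ∣ 1 := by
        have := dvd_sub (dvd_mul_right (a : ℤ) w') hd
        simpa using this
      have h2 := Int.le_of_dvd one_pos h1
      omega
    have na2 : ¬ (a : ℤ) ∣ (a : ℤ) * w' + 1 := by
      intro hd
      have h1 : (a : ℤ) ∣ 1 := (dvd_add_right (dvd_mul_right (a : ℤ) w')).1 hd
      have h2 := Int.le_of_dvd one_pos h1
      omega
    have nd1 : ¬ (a : ℤ) ^ (m + 1) ∣ x - (a : ℤ) ^ m - c := by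
      rw [e1, pow_succ]
      intro hd
      exact na1 (Int.dvd_of_mul_dvd_mul_left hMpos.ne' hd)
    have nd2 : ¬ (a : ℤ) ^ (m + 1) ∣ x + (a : ℤ) ^ m - c := by
      rw [e2, pow_succ]
      intro hd
      exact na2 (Int.dvd_of_mul_dvd_mul_left hMpos.ne' hd)
    have s1 := st1 (x - (a : ℤ) ^ m) (by rw [e1]; exact dvd_mul_right _ _) nd1
    have s2 := st1 (x + (a : ℤ) ^ m) (by rw [e2]; exact dvd_mul_right _ _) nd2
    -- the digits
    have d1 : (S.dx (x - (a : ℤ) ^ m) : ℤ) = a - 1 := by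
      rw [hi.gx (x - (a : ℤ) ^ m) m ⟨by omega, by rw [e1]; exact dvd_mul_right _ _, fun _ => nd1⟩
        (by omega), e1, dig_eq (by omega)]
      have e3 : (a : ℤ) * w' - 1 = (a - 1) + (a : ℤ) * (w' - 1) := by ring
      rw [e3, Int.add_mul_emod_self_left]
      exact Int.emod_eq_of_lt (by omega) (by omega)
    have d2 : (S.dx (x + (a : ℤ) ^ m) : ℤ) = 1 := by
      rw [hi.gx (x + (a : ℤ) ^ m) m ⟨by omega, by rw [e2]; exact dvd_mul_right _ _, fun _ => nd2⟩
        (by omega), e2, dig_eq (by omega)]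
      have e3 : (a : ℤ) * w' + 1 = 1 + (a : ℤ) * w' := by ring
      rw [e3, Int.add_mul_emod_self_left]
      exact Int.emod_eq_of_lt (by omega) (by omega)
    have p1 := (hrow (x - (a : ℤ) ^ m)).2.1 (by rw [s1])
    have p2 := (hrow (x + (a : ℤ) ^ m)).2.1 (by rw [s2])
    -- constancy between the columns
    have c1 : S.p (-1) (x - 1) y = S.p (-1) (x - (a : ℤ) ^ m) y := by
      refine cst (fun x => S.p (-1) x y) (x1 := x - (a : ℤ) ^ m) (x2 := x) (fun z h1 h2 => ?_)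
        (x - 1) (by omega) (by omega)
      refine hunch z (not_dvd_between hMpos (q := (a : ℤ) * w' - 1) ?_ ?_)
      · rw [← e1]; omega
      · have e4 : (a : ℤ) ^ m * ((a : ℤ) * w' - 1 + 1) = x - c := by rw [e0]; ring
        rw [e4]; omega
    have c2 : S.p (-1) (x + (a : ℤ) ^ m - 1) y = S.p (-1) x y := by
      refine cst (fun x => S.p (-1) x y) (x1 := x) (x2 := x + (a : ℤ) ^ m) (fun z h1 h2 => ?_)
        (x + (a : ℤ) ^ m - 1) (by omega) (by omega)
      refine hunch z (not_dvd_between hMpos (q := (a : ℤ) * w') ?_ ?_)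
      · rw [← e0]; omega
      · rw [← e2]; omega
    obtain ⟨r1, r2, r3⟩ := hrow x
    by_contra hcon
    rcases lt_or_ge (-S.s x y) (-1) with h3 | h3
    · have h4 := r1 h3
      omega
    · have h4 := r2 (by omega)
      omega
  -- the phase of the signal at position `0`
  obtain ⟨u', hu'⟩ := sigRow h (by omega) (k := 0) (y := y) (N := m + 1) (c := c) (by norm_num)
    (by norm_num) (by norm_num)
    (fun x hx => by
      by_cases hxm : (a : ℤ) ^ m ∣ x - c
      · rw [st1 x hxm hx]; norm_num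
      · rw [st2 x hxm]; norm_num)
    (fun x hx => by
      obtain ⟨q, hq⟩ := hx
      have h1 := hle q
      rw [← hq] at h1
      have h2 : c + (x - c) = x := by ring
      rw [h2] at h1
      omega)
  have hy0 : LvT b (m + 1) (r + (b : ℤ) ^ m - r) (m + 1 - 1) := by
    have e : r + (b : ℤ) ^ m - r = (b : ℤ) ^ m := by ring
    rw [e]
    refine ⟨by omega, dvd_rfl, fun _ hd => ?_⟩
    have h1 := Int.le_of_dvd (pow_pos hbz m) hd
    have h2 : (b : ℤ) ^ (m + 1 - 1 + 1) = (b : ℤ) ^ m * b := by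
      rw [Nat.add_sub_cancel, pow_succ]
    rw [h2] at h1
    have h3 : (b : ℤ) ^ m * 3 ≤ (b : ℤ) ^ m * b :=
      mul_le_mul_of_nonneg_left (by exact_mod_cast hb) (pow_pos hbz m).le
    have h4 := pow_pos hbz m
    omega
  have hph : (a : ℤ) ∣ u - u' := by
    refine phase ha fun z h1 h2 => ?_
    rw [← ((hu _ hy0 z).2 h1).2, ← ((hu' z).2.1 h2).2]
  intro w'
  have hiff : (a : ℤ) ∣ w' - u ↔ (a : ℤ) ∣ w' - u' := by
    have e : w' - u' = (w' - u) + (u - u') := by ring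
    rw [e]
    exact (dvd_add_left hph).symm
  constructor
  · intro h1
    have h2 := ((hu' w').2.1 (fun h3 => h1 (hiff.2 h3))).1
    omega
  · intro h1
    have h2 := (hu' w').1 (hiff.1 h1)
    omega

end H96.CK
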