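import Pool.Agent.H96.CK.Cyc

/-!
# Module SigRow (120 lines): one signal along one row

Fix the row `y`, the position `k` and `N`. Columns `x` with `¬ a ^ N ∣ x - c` leave the signal
unchanged (`lo` and the first part of `Stp`), a column `x_w = c + a ^ N * w` either increases it
(if `-s = k`) or resets it (if `-s > k`).
Put `D w = p k x_w y`. By `cst` (the columns strictly between `x_{w-1}` and `x_w` are not
`= c` mod `a ^ N`) `p k (x_w - 1) y = D (w - 1)`. So with `rs w := k < -s x_w y` the hypotheses of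
`cyc` hold (`Sk.Ok.row`). The last clause of the conclusion is again `cst`.
Use `Int.emod`/`dvd` facts: if `c + a^N * w < x < c + a^N * (w+1)` then `¬ a^N ∣ x - c`.
-/

namespace H96.CK

theorem sigRow {a b : ℕ} {S : Sk} (h : S.Ok a b) (ha : 2 ≤ a) {k y : ℤ} {N : ℕ} {c : ℤ}
    (hk1 : -1 ≤ k) (hk2 : k ≤ 1) (hz : k = -1 → S.n y = 0)
    (lo : ∀ x, ¬ (a : ℤ) ^ N ∣ x - c → -S.s x y < k)
    (hi : ∀ x, (a : ℤ) ^ N ∣ x - c → k ≤ -S.s x y) :
    ∃ u : ℤ, ∀ w : ℤ,
      ((a : ℤ) ∣ w - u → k < -S.s (c + (a : ℤ) ^ N * w) y) ∧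
      (¬ (a : ℤ) ∣ w - u → -S.s (c + (a : ℤ) ^ N * w) y = k ∧
        (S.dx (c + (a : ℤ) ^ N * w) : ℤ) = (w - u) % a) ∧
      ∀ x, c + (a : ℤ) ^ N * w ≤ x → x < c + (a : ℤ) ^ N * (w + 1) →
        (S.p k x y : ℤ) = (w - u) % a := by
  have hA : (0 : ℤ) < (a : ℤ) ^ N := by
    have : (0 : ℤ) < a := by omega
    positivity
  set A : ℤ := (a : ℤ) ^ N with hAdef
  have hrow : ∀ x, Stp a (-S.s x y) k (S.p k (x - 1) y) (S.p k x y) (S.dx x) := fun x => h.row k x y hk1 hk2 hz
  have hbet : ∀ w x : ℤ, c + A * w < x → x < c + A * (w + 1) → ¬ A ∣ x - c := by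
    rintro w x h1 h2 ⟨t, ht⟩
    have e1 : A * w < A * t := by linarith
    have e2 : A * t < A * (w + 1) := by linarith
    have e3 := lt_of_mul_lt_mul_left e1 hA.le
    have e4 := lt_of_mul_lt_mul_left e2 hA.le
    omega
  have hcst : ∀ w x : ℤ, c + A * w ≤ x → x < c + A * (w + 1) → S.p k x y = S.p k (c + A * w) y := by
    intro w
    refine cst (fun x => S.p k x y) fun x h1 h2 => ?_
    exact (hrow x).1 (lo x (hbet w x h1 h2))
  have hprev : ∀ w : ℤ, S.p k (c + A * w - 1) y = S.p k (c + A * (w - 1)) y := by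
    intro w
    refine hcst (w - 1) (c + A * w - 1) ?_ ?_
    · have : A * (w - 1) = A * w - A := by ring
      rw [this]
      omega
    · rw [sub_add_cancel]
      omega
  have hdv : ∀ w : ℤ, A ∣ c + A * w - c := fun w => ⟨w, by ring⟩
  obtain ⟨u, hu⟩ := cyc ha (fun w => S.p k (c + A * w) y) (fun w => k < -S.s (c + A * w) y)
    (fun w => h.p_lt k _ y)
    (fun w hw => by
      have h1 := (hrow (c + A * w)).2.2 hw
      rw [hprev w] at h1
      exact h1)
    (fun w hw => by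
      have h0 := hi (c + A * w) (hdv w)
      have h1 := (hrow (c + A * w)).2.1 (by have hw' : ¬ k < -S.s (c + A * w) y := hw; omega)
      rw [hprev w] at h1
      exact h1.1)
  refine ⟨u, fun w => ⟨fun hw => (hu w).2.2 hw, fun hw => ?_, fun x h1 h2 => ?_⟩⟩
  · have hw' : ¬ k < -S.s (c + A * w) y := fun hr => hw ((hu w).2.1 hr)
    have h0 := hi (c + A * w) (hdv w)
    have e0 : -S.s (c + A * w) y = k := by omega
    have h1 := (hrow (c + A * w)).2.1 e0
    refine ⟨e0, ?_⟩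
    rw [← h1.2]
    exact (hu w).1
  · rw [hcst w x h1 h2]
    exact (hu w).1

end H96.CK
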