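import Mathlib

/-!
# The skeleton: a hierarchical system of Wang tiles (definitions)

`Sk a b` is a colouring of the plane: columns carry the labels `m` (residue mod `a`) and `dx`,
rows the labels `n` (residue mod `b`) and `dy`; every cell has a state `s x y` in `-2 .. 2`
(to be: level of the row minus level of the column, clamped); the edge on the right of a cell
carries three signals `p k x y` (`k = -1, 0, 1`), the edge above a cell three signals `e k x y`.
The rules are local. Main theorem (`SkMain`): every such colouring comes from an `a`-adic integer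
(columns) and a `b`-adic integer (rows).
-/

namespace H96.CK

/-- clamp to `-2 .. 2` -/
def cl (z : ℤ) : ℤ := max (-2) (min 2 z)

/-- the signal for position `k` seen by a line whose crossing line has relative level `u`:
below the position nothing happens, at the position the digit increases by one and equals the
label `d`, above it the digit goes from `a - 1` to `0` -/
def Stp (a : ℕ) (u k : ℤ) (l r d : ℕ) : Prop :=
  (u < k → r = l) ∧ (u = k → r = l + 1 ∧ r = d) ∧ (k < u → l + 1 = a ∧ r = 0)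

structure Sk where
  s : ℤ → ℤ → ℤ
  m : ℤ → ℕ
  dx : ℤ → ℕ
  n : ℤ → ℕ
  dy : ℤ → ℕ
  p : ℤ → ℤ → ℤ → ℕ
  e : ℤ → ℤ → ℤ → ℕ

/-- the local rules -/
structure Sk.Ok (a b : ℕ) (S : Sk) : Prop where
  s_lo : ∀ x y, -2 ≤ S.s x y
  s_hi : ∀ x y, S.s x y ≤ 2
  m_lt : ∀ x, S.m x < a
  m_succ : ∀ x, S.m (x + 1) = (S.m x + 1) % a
  n_lt : ∀ y, S.n y < b
  n_succ : ∀ y, S.n (y + 1) = (S.n y + 1) % b
  dx_m : ∀ x, S.m x ≠ 0 → S.dx x = S.m x
  dy_n : ∀ y, S.n y ≠ 0 → S.dy y = S.n y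
  s00 : ∀ x y, S.m x ≠ 0 → S.n y ≠ 0 → S.s x y = 0
  s01 : ∀ x y, S.m x ≠ 0 → S.n y = 0 → 1 ≤ S.s x y
  s10 : ∀ x y, S.m x = 0 → S.n y ≠ 0 → S.s x y ≤ -1
  p_lt : ∀ k x y, S.p k x y < a
  e_lt : ∀ k x y, S.e k x y < b
  row : ∀ k x y, -1 ≤ k → k ≤ 1 → (k = -1 → S.n y = 0) →
    Stp a (-S.s x y) k (S.p k (x - 1) y) (S.p k x y) (S.dx x)
  row0 : ∀ x y, S.n y ≠ 0 → S.p (-1) x y = 0
  col : ∀ k x y, -1 ≤ k → k ≤ 1 → (k = -1 → S.m x = 0) →
    Stp b (S.s x y) k (S.e k x (y - 1)) (S.e k x y) (S.dy y)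
  col0 : ∀ x y, S.m x ≠ 0 → S.e (-1) x y = 0

/-- exchange of rows and columns -/
def Sk.tr (S : Sk) : Sk where
  s x y := -S.s y x
  m := S.n
  dx := S.dy
  n := S.m
  dy := S.dx
  p k x y := S.e k y x
  e k x y := S.p k y x

theorem Sk.tr_tr (S : Sk) : S.tr.tr = S := by
  unfold Sk.tr
  simp

theorem Sk.Ok.tr {a b : ℕ} {S : Sk} (h : S.Ok a b) : S.tr.Ok b a where
  s_lo x y := by have := h.s_hi y x; simp only [Sk.tr]; omega
  s_hi x y := by have := h.s_lo y x; simp only [Sk.tr]; omega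
  m_lt := h.n_lt
  m_succ := h.n_succ
  n_lt := h.m_lt
  n_succ := h.m_succ
  dx_m := h.dy_n
  dy_n := h.dx_m
  s00 x y h1 h2 := by have := h.s00 y x h2 h1; simp only [Sk.tr]; omega
  s01 x y h1 h2 := by have := h.s10 y x h2 h1; simp only [Sk.tr]; omega
  s10 x y h1 h2 := by have := h.s01 y x h2 h1; simp only [Sk.tr]; omega
  p_lt k x y := h.e_lt k y x
  e_lt k x y := h.p_lt k y x
  row k x y h1 h2 h3 := by
    have := h.col k y x h1 h2 h3
    simpa only [Sk.tr, neg_neg] using this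
  row0 x y h1 := h.col0 y x h1
  col k x y h1 h2 h3 := by
    have := h.row k y x h1 h2 h3
    simpa only [Sk.tr] using this
  col0 x y h1 := h.row0 y x h1

/-- `i` is the level of `z` truncated at `n`: the largest `i ≤ n` with `a ^ i ∣ z` -/
def LvT (a n : ℕ) (z : ℤ) (i : ℕ) : Prop :=
  i ≤ n ∧ (a : ℤ) ^ i ∣ z ∧ (i < n → ¬ (a : ℤ) ^ (i + 1) ∣ z)

/-- the digit of `z` at position `i` (base `a`) -/
def dig (a i : ℕ) (z : ℤ) : ℕ := (z / (a : ℤ) ^ i % a).toNat

/-- knowledge up to level `n`: columns come from the residue `c` mod `a ^ n`, rows from `r` -/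
structure Sk.Inv (S : Sk) (a b n : ℕ) (c r : ℤ) : Prop where
  cc : ∀ x y i j, LvT a n (x - c) i → LvT b n (y - r) j → i < n → j < n → S.s x y = cl (j - i)
  cn : ∀ x y i, LvT a n (x - c) i → i < n → (b : ℤ) ^ n ∣ y - r → cl (n - i) ≤ S.s x y
  nc : ∀ x y j, (a : ℤ) ^ n ∣ x - c → LvT b n (y - r) j → j < n → S.s x y ≤ cl (j - n)
  gx : ∀ x i, LvT a n (x - c) i → i < n → S.dx x = dig a i (x - c)
  gy : ∀ y j, LvT b n (y - r) j → j < n → S.dy y = dig b j (y - r)
  mz : 0 < n → ∀ x, S.m x = 0 ↔ (a : ℤ) ∣ x - c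
  nz : 0 < n → ∀ y, S.n y = 0 ↔ (b : ℤ) ∣ y - r

theorem Sk.Inv.tr {S : Sk} {a b n : ℕ} {c r : ℤ} (h : S.Inv a b n c r) : S.tr.Inv b a n r c where
  cc x y i j h1 h2 h3 h4 := by
    have := h.cc y x j i h2 h1 h4 h3
    simp only [Sk.tr, this, cl]; omega
  cn x y i h1 h2 h3 := by
    have := h.nc y x i h3 h1 h2
    simp only [Sk.tr, cl] at *; omega
  nc x y j h1 h2 h3 := by
    have := h.cn y x j h2 h3 h1
    simp only [Sk.tr, cl] at *; omega
  gx := h.gy
  gy := h.gx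
  mz := h.nz
  nz := h.mz

end H96.CK
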