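import Pool.Agent.H96.CK.SkStep
import Pool.Agent.H96.CK.Adic

/-!
# Module SkMain (180 lines): the structure theorem of the skeleton

Choose by recursion (`Nat.rec` on a subtype, from `base` and `step`) sequences `c`, `r` with
`S.Inv a b (n+1) (c (n+1)) (r (n+1))` and coherence; put `c 0 = c 1`, `r 0 = r 1`.
* `fin`: `IsLv a c x i`, `IsLv b r y j`: take `n = max i j + 1` and `IsLv.lvT`, `Inv.cc`.
* `ri`: `IsLv a c x i`, `IsInf b r y`: `n = i + 2`, `Inv.cn`: `s ≥ cl 2 = 2`. `ci` symmetric.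
* `dx`, `dy`: `Inv.gx` with `n = i + 1`. `m`: `m x = (x - c 1) % a`: from `m_succ` and `mz` for `n = 1`
  (`m x = (m 0 + x) % a`).
* signals on a row of finite level `j` (`p_fin`), position `K = j + k ≥ 0`: both `p k x y` and
  `dig a K (x - c (K + 1))` satisfy the same recursion at every column `x`: level of `x` `< K`:
  unchanged (`-s x y < k`; `dig_step_lt`); `= K`: `p k x y = dx x = dig a K (x - c (K+1))`; `> K` or
  infinite: both `0` (`dig_zero`). Every `x` has a column `x' ≤ x` of level `≥ K` at distance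
  `< a ^ K` (`lv_between`); induct from `x'` to `x` (`Int.le_induction`).
  Care: `-s x y` against `k`: `-s = cl (i - j)` up to sign for a column of level `i`, and
  `i - j < k ↔ -s < k` because `-1 ≤ k ≤ 1` and `cl` clamps at `2`.
* `p_inf`: on a row of infinite level every column of finite level has `s = 2`, `-2 < k`.
* `e_fin`, `e_inf`: the same for `S.tr`.
-/

namespace H96.CK

structure Sk.Str (S : Sk) (a b : ℕ) (c r : ℕ → ℤ) : Prop where
  cohc : Coh a c
  cohr : Coh b r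
  fin : ∀ x y i j, IsLv a c x i → IsLv b r y j → S.s x y = cl (j - i)
  ri : ∀ x y i, IsLv a c x i → IsInf b r y → S.s x y = 2
  ci : ∀ x y j, IsInf a c x → IsLv b r y j → S.s x y = -2
  dx : ∀ x i, IsLv a c x i → S.dx x = dig a i (x - c (i + 1))
  dy : ∀ y j, IsLv b r y j → S.dy y = dig b j (y - r (j + 1))
  m : ∀ x, (S.m x : ℤ) = (x - c 1) % a
  n : ∀ y, (S.n y : ℤ) = (y - r 1) % b
  p_fin : ∀ (k : ℤ) (K : ℕ) x y j, -1 ≤ k → k ≤ 1 → IsLv b r y j → (K : ℤ) = j + k →
    S.p k x y = dig a K (x - c (K + 1))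
  p_zero : ∀ x y, IsLv b r y 0 → S.p (-1) x y = 0
  p_inf : ∀ k x y i, -1 ≤ k → k ≤ 1 → IsInf b r y → IsLv a c x i → S.p k x y = S.p k (x - 1) y
  e_fin : ∀ (k : ℤ) (K : ℕ) x y i, -1 ≤ k → k ≤ 1 → IsLv a c x i → (K : ℤ) = i + k →
    S.e k x y = dig b K (y - r (K + 1))
  e_zero : ∀ x y, IsLv a c x 0 → S.e (-1) x y = 0
  e_inf : ∀ k x y j, -1 ≤ k → k ≤ 1 → IsInf a c x → IsLv b r y j → S.e k x y = S.e k x (y - 1)

private structure Hyp (S : Sk) (a b : ℕ) (c r : ℕ → ℤ) : Prop where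
  ok : S.Ok a b
  ha : 3 ≤ a
  hb : 3 ≤ b
  hc : Coh a c
  hr : Coh b r
  inv : ∀ n, 1 ≤ n → S.Inv a b n (c n) (r n)

section priv

variable {S : Sk} {a b : ℕ} {c r : ℕ → ℤ}

private theorem Hyp.tr (H : Hyp S a b c r) : Hyp S.tr b a r c :=
  ⟨H.ok.tr, H.hb, H.ha, H.hr, H.hc, fun n hn => (H.inv n hn).tr⟩

private theorem hyp_exists (h : S.Ok a b) (ha : 3 ≤ a) (hb : 3 ≤ b) : ∃ c r : ℕ → ℤ, Hyp S a b c r := by
  obtain ⟨c0, r0, h0⟩ := h.base (by omega : 2 ≤ a) (by omega : 2 ≤ b)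
  choose f g hf hg hfg using fun (n : ℕ) (p : {p : ℤ × ℤ // S.Inv a b (n + 1) p.1 p.2}) =>
    h.step ha hb (Nat.le_add_left 1 n) p.2
  let F : ∀ n : ℕ, {p : ℤ × ℤ // S.Inv a b (n + 1) p.1 p.2} := fun n =>
    Nat.rec ⟨(c0, r0), h0⟩ (fun n p => ⟨(f n p, g n p), hfg n p⟩) n
  refine ⟨fun n => (F (n - 1)).1.1, fun n => (F (n - 1)).1.2, h, ha, hb, ?_, ?_, ?_⟩
  · intro n
    cases n with
    | zero => simp
    | succ n => exact hf n (F n)
  · intro n
    cases n with
    | zero => simp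
    | succ n => exact hg n (F n)
  · intro n hn
    obtain ⟨m, rfl⟩ : ∃ m, n = m + 1 := ⟨n - 1, by omega⟩
    exact (F m).2

private theorem Hyp.fin (H : Hyp S a b c r) {x y : ℤ} {i j : ℕ} (hi : IsLv a c x i) (hj : IsLv b r y j) :
    S.s x y = cl (j - i) := by
  have h1 : i < max i j + 1 := by omega
  have h2 : j < max i j + 1 := by omega
  exact (H.inv (max i j + 1) (by omega)).cc x y i j (hi.lvT H.hc h1) (hj.lvT H.hr h2) h1 h2

private theorem Hyp.ri (H : Hyp S a b c r) {x y : ℤ} {i : ℕ} (hi : IsLv a c x i) (hy : IsInf b r y) :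
    S.s x y = 2 := by
  have h1 : i < i + 2 := by omega
  have h2 := (H.inv (i + 2) (by omega)).cn x y i (hi.lvT H.hc h1) h1 (hy (i + 2))
  have h3 := H.ok.s_hi x y
  unfold cl at h2
  push_cast at h2
  omega

private theorem Hyp.ci (H : Hyp S a b c r) {x y : ℤ} {j : ℕ} (hx : IsInf a c x) (hj : IsLv b r y j) :
    S.s x y = -2 := by
  have h1 := H.tr.ri hj hx
  simp only [Sk.tr] at h1
  omega

private theorem Hyp.dx (H : Hyp S a b c r) {x : ℤ} {i : ℕ} (hi : IsLv a c x i) :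
    S.dx x = dig a i (x - c (i + 1)) :=
  (H.inv (i + 1) (by omega)).gx x i (hi.lvT H.hc (by omega)) (by omega)

private theorem Hyp.m (H : Hyp S a b c r) (x : ℤ) : (S.m x : ℤ) = (x - c 1) % a := by
  have hstep : ∀ w : ℤ, (S.m (w + 1) : ℤ) ≡ S.m w + 1 [ZMOD a] := by
    intro w
    rw [H.ok.m_succ w]
    push_cast
    exact Int.mod_modEq _ _
  have hbase : S.m (c 1) = 0 := by
    rw [(H.inv 1 le_rfl).mz (by omega)]
    simp
  have hall : (S.m x : ℤ) ≡ x - c 1 [ZMOD a] := by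
    induction x using Int.inductionOn' (b := c 1) with
    | zero => rw [hbase]; simp
    | succ k hk ih =>
      refine (hstep k).trans ?_
      have e : k + 1 - c 1 = (k - c 1) + 1 := by ring
      rw [e]
      exact ih.add_right 1
    | pred k hk ih =>
      have h1 := hstep (k - 1)
      rw [sub_add_cancel] at h1
      have h2 : (S.m (k - 1) : ℤ) + 1 ≡ (k - 1 - c 1) + 1 [ZMOD a] := by
        refine h1.symm.trans (ih.trans ?_)
        have e : k - c 1 = k - 1 - c 1 + 1 := by ring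
        rw [e]
      exact h2.add_right_cancel' 1
  have h3 : (S.m x : ℤ) % a = (x - c 1) % a := hall
  rw [← h3]
  exact (Int.emod_eq_of_lt (by positivity) (by exact_mod_cast H.ok.m_lt x)).symm

private theorem Hyp.n_zero (H : Hyp S a b c r) {y : ℤ} : S.n y = 0 ↔ (b : ℤ) ^ 1 ∣ y - r 1 := by
  rw [(H.inv 1 le_rfl).nz (by omega), pow_one]

private theorem Hyp.p_zero (H : Hyp S a b c r) {x y : ℤ} (hy : IsLv b r y 0) : S.p (-1) x y = 0 := by
  apply H.ok.row0
  intro h0
  exact hy.2 (H.n_zero.1 h0)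

private theorem Hyp.p_inf (H : Hyp S a b c r) {k x y : ℤ} {i : ℕ} (hk1 : -1 ≤ k) (hk2 : k ≤ 1)
    (hy : IsInf b r y) (hi : IsLv a c x i) : S.p k x y = S.p k (x - 1) y := by
  have h1 := (H.ok.row k x y hk1 hk2 (fun _ => H.n_zero.2 (hy 1))).1
  apply h1
  rw [H.ri hi hy]
  omega

/-- the signal at one column -/
private theorem Hyp.p_rec (H : Hyp S a b c r) {k x y : ℤ} {K j : ℕ} (hk1 : -1 ≤ k) (hk2 : k ≤ 1)
    (hj : IsLv b r y j) (hK : (K : ℤ) = j + k) :
    (¬ (a : ℤ) ^ K ∣ x - c (K + 1) ∧ S.p k x y = S.p k (x - 1) y) ∨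
    ((a : ℤ) ^ K ∣ x - c (K + 1) ∧ S.p k x y = dig a K (x - c (K + 1))) := by
  have hz : k = -1 → S.n y = 0 := by
    intro hk
    rw [H.n_zero, hj.dvd H.hr]
    omega
  obtain ⟨r1, r2, r3⟩ := H.ok.row k x y hk1 hk2 hz
  have ha1 : 1 ≤ a := by have := H.ha; omega
  have hcK : ((a : ℤ) ^ K ∣ x - c (K + 1)) ↔ ((a : ℤ) ^ K ∣ x - c K) := by
    have e : x - c K = (x - c (K + 1)) + (c (K + 1) - c K) := by ring
    rw [e]
    exact (dvd_add_left (H.hc K)).symm
  rcases lv_or a c x with ⟨i, hi⟩ | hx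
  · have hs := H.fin hi hj
    unfold cl at hs
    rcases lt_trichotomy i K with hlt | heq | hgt
    · left
      refine ⟨?_, r1 (by omega)⟩
      rw [hcK, hi.dvd H.hc]
      omega
    · right
      refine ⟨?_, ?_⟩
      · rw [hcK, hi.dvd H.hc]
        omega
      · subst heq
        rw [(r2 (by omega)).2]
        exact H.dx hi
    · right
      refine ⟨?_, ?_⟩
      · rw [hcK, hi.dvd H.hc]
        omega
      · rw [(r3 (by omega)).2, dig_zero ha1]
        rw [hi.dvd H.hc]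
        omega
  · have hs := H.ci hx hj
    right
    refine ⟨hcK.2 (hx K), ?_⟩
    rw [(r3 (by omega)).2, dig_zero ha1 (hx (K + 1))]

private theorem Hyp.p_fin (H : Hyp S a b c r) {k x y : ℤ} {K j : ℕ} (hk1 : -1 ≤ k) (hk2 : k ≤ 1)
    (hj : IsLv b r y j) (hK : (K : ℤ) = j + k) : S.p k x y = dig a K (x - c (K + 1)) := by
  have ha1 : 1 ≤ a := by have := H.ha; omega
  obtain ⟨x', h1, h2, h3⟩ := lv_between (c := c) ha1 K (x - (a : ℤ) ^ K)
  rw [sub_add_cancel] at h2
  have key : ∀ z : ℤ, x' ≤ z → S.p k z y = dig a K (z - c (K + 1)) := by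
    intro z hz
    induction z, hz using Int.leInduction with
    | base =>
      rcases H.p_rec (x := x') hk1 hk2 hj hK with ⟨h4, _⟩ | ⟨_, h5⟩
      · exfalso
        apply h4
        have e : x' - c (K + 1) = (x' - c K) - (c (K + 1) - c K) := by ring
        rw [e]
        exact dvd_sub h3 (H.hc K)
      · exact h5
    | succ z hz ih =>
      rcases H.p_rec (x := z + 1) hk1 hk2 hj hK with ⟨h4, h5⟩ | ⟨_, h5⟩
      · rw [h5, dig_step_lt ha1 h4, add_sub_cancel_right, ih]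
        congr 1
        ring
      · exact h5
  exact key x h2

end priv

theorem Sk.Ok.main {a b : ℕ} {S : Sk} (h : S.Ok a b) (ha : 3 ≤ a) (hb : 3 ≤ b) :
    ∃ c r, S.Str a b c r := by
  obtain ⟨c, r, H⟩ := hyp_exists h ha hb
  refine ⟨c, r, ?_⟩
  exact
    { cohc := H.hc
      cohr := H.hr
      fin := fun x y i j hi hj => H.fin hi hj
      ri := fun x y i hi hy => H.ri hi hy
      ci := fun x y j hx hj => H.ci hx hj
      dx := fun x i hi => H.dx hi
      dy := fun y j hj => H.tr.dx hj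
      m := H.m
      n := H.tr.m
      p_fin := fun k K x y j h1 h2 hj hK => H.p_fin h1 h2 hj hK
      p_zero := fun x y hy => H.p_zero hy
      p_inf := fun k x y i h1 h2 hy hi => H.p_inf h1 h2 hy hi
      e_fin := fun k K x y i h1 h2 hi hK => H.tr.p_fin h1 h2 hi hK
      e_zero := fun x y hx => H.tr.p_zero hx
      e_inf := fun k x y j h1 h2 hx hj => H.tr.p_inf h1 h2 hx hj }

end H96.CK
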