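import Pool.Agent.H96.CK.RowB

/-!
# Module SkStep (200 lines): one step of the induction, and the base

`base`: `n = 1`. Choose `c` with `m c = 0` (the counter `m` runs through all residues:
`m x = (m 0 + x) % a` by induction from `m_succ`, so take `c = -m 0`), similarly `r`. Then
`m x = 0 ↔ a ∣ x - c`, in fact `m x = (x - c) % a`. `LvT a 1 z 0` means `¬ a ∣ z`, so `cc` is `s00`
(`cl 0 = 0`), `cn` is `s01` (`cl (1 - 0) = 1`), `nc` is `s10`, `gx` is `dx_m`
(`dig a 0 z = z % a`).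

`step`: `u` from `rowA`, `v` from `rowA` for `S.tr` (`h.tr`, `hi.tr`), `c' = c + a ^ n * u`,
`r' = r + b ^ n * v`. For levels use `LvT.up`, `LvT.succ`: a column of level `i < n` for `c` (truncated
at `n`) is a column of level `i < n + 1` for `c'`; a column `x = c + a ^ n * w` has level `n` for `c'`
iff `¬ a ∣ w - u`, and `a ^ (n+1) ∣ x - c'` iff `a ∣ w - u`. Now check `Inv` at `n + 1`:
* `cc` (`i, j ≤ n`): both `< n`: old `cc`. `i ≤ n - 2, j = n`: old `cn` gives `s ≥ 2` hence `= 2`.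
  `i = n - 1, j = n`: `hv` (transposed `RA`): `s = 1`. `i = n, j ≤ n - 2`: old `nc`; `i = n, j = n - 1`:
  `hu`: `-1`. `i = j = n`: `rowB`.
* `cn` (`i ≤ n`, `b ^ (n+1) ∣ y - r'`): `i ≤ n - 2`: `s ≥ 2` by old `cn`; `i = n - 1`: `hv` on the
  phase: `2 = cl (n + 1 - (n - 1))`; `i = n`: `rowB` for `S.tr` (second part): `-s ≤ -1`,
  `cl 1 = 1`.
* `nc`: symmetric (or by `tr`).
* `gx`: `i < n` old (`dig_congr`), `i = n`: `hu` for one row of level `n - 1` (`r + b ^ (n-1)`) and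
  `dig_eq`. `gy` symmetric. `mz`, `nz`: `a ∣ c' - c` since `n ≥ 1`.
It is convenient to prove only half and to use `Sk.Inv.tr`, `Sk.tr_tr` for the other half.
-/

namespace H96.CK

private theorem cnt {a : ℕ} (f : ℤ → ℕ) (h1 : ∀ x, f x < a)
    (h2 : ∀ x, f (x + 1) = (f x + 1) % a) : ∀ x : ℤ, (f x : ℤ) = (x + f 0) % a := by
  have key : ∀ x : ℤ, (f x : ℤ) % a = f x := by
    intro x
    exact Int.emod_eq_of_lt (by positivity) (by exact_mod_cast h1 x)
  have h3 : ∀ x : ℤ, (f (x + 1) : ℤ) ≡ (f x : ℤ) + 1 [ZMOD a] := by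
    intro x
    rw [h2 x]
    push_cast
    exact Int.mod_modEq _ _
  have h4 : ∀ x : ℤ, (f x : ℤ) ≡ x + f 0 [ZMOD a] := by
    intro x
    induction x using Int.induction_on with
    | zero => rw [zero_add]
    | succ k ih =>
      refine (h3 _).trans ?_
      have := ih.add_right 1
      rw [show (k : ℤ) + 1 + (f 0 : ℤ) = k + f 0 + 1 by ring]
      exact this
    | pred k ih =>
      have h5 := h3 (-(k : ℤ) - 1)
      rw [sub_add_cancel] at h5
      have h6 := (h5.symm.trans ih).sub_right 1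
      rw [add_sub_cancel_right] at h6
      rw [show -(k : ℤ) - 1 + (f 0 : ℤ) = -k + f 0 - 1 by ring]
      exact h6
  intro x
  rw [← key x]
  exact h4 x

private theorem emod_zero_iff {a : ℕ} {z : ℤ} {m : ℕ} (h : (m : ℤ) = z % a) : m = 0 ↔ (a : ℤ) ∣ z := by
  constructor
  · intro h0
    rw [h0] at h
    exact Int.dvd_of_emod_eq_zero (by exact_mod_cast h.symm)
  · intro h0
    rw [Int.emod_eq_zero_of_dvd h0] at h
    exact_mod_cast h

private theorem lvT_one {a : ℕ} {z : ℤ} {i : ℕ} (h : LvT a 1 z i) (hi : i < 1) : i = 0 ∧ ¬ (a : ℤ) ∣ z := by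
  have h0 : i = 0 := by omega
  subst h0
  refine ⟨rfl, ?_⟩
  have := h.2.2 hi
  rwa [zero_add, pow_one] at this

theorem Sk.Ok.base {a b : ℕ} {S : Sk} (h : S.Ok a b) (ha : 2 ≤ a) (hb : 2 ≤ b) :
    ∃ c r, S.Inv a b 1 c r := by
  have hm := cnt S.m h.m_lt h.m_succ
  have hn := cnt S.n h.n_lt h.n_succ
  have hm' : ∀ x, (S.m x : ℤ) = (x - -(S.m 0 : ℤ)) % a := by
    intro x
    rw [sub_neg_eq_add]
    exact hm x
  have hn' : ∀ y, (S.n y : ℤ) = (y - -(S.n 0 : ℤ)) % b := by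
    intro y
    rw [sub_neg_eq_add]
    exact hn y
  refine ⟨-(S.m 0 : ℤ), -(S.n 0 : ℤ), ?_, ?_, ?_, ?_, ?_, ?_, ?_⟩
  · intro x y i j h1 h2 h3 h4
    obtain ⟨rfl, h5⟩ := lvT_one h1 h3
    obtain ⟨rfl, h6⟩ := lvT_one h2 h4
    rw [h.s00 x y (fun h0 => h5 ((emod_zero_iff (hm' x)).1 h0)) (fun h0 => h6 ((emod_zero_iff (hn' y)).1 h0))]
    simp [cl]
  · intro x y i h1 h2 h3
    obtain ⟨rfl, h5⟩ := lvT_one h1 h2
    rw [pow_one] at h3
    have := h.s01 x y (fun h0 => h5 ((emod_zero_iff (hm' x)).1 h0)) ((emod_zero_iff (hn' y)).2 h3)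
    simp only [cl]
    push_cast
    omega
  · intro x y j h1 h2 h3
    obtain ⟨rfl, h5⟩ := lvT_one h2 h3
    rw [pow_one] at h1
    have := h.s10 x y ((emod_zero_iff (hm' x)).2 h1) (fun h0 => h5 ((emod_zero_iff (hn' y)).1 h0))
    simp only [cl]
    push_cast
    omega
  · intro x i h1 h2
    obtain ⟨rfl, h5⟩ := lvT_one h1 h2
    rw [h.dx_m x (fun h0 => h5 ((emod_zero_iff (hm' x)).1 h0))]
    have h6 : (dig a 0 (x - -(S.m 0 : ℤ)) : ℤ) = (x - -(S.m 0 : ℤ)) % a := by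
      rw [dig_cast (by omega), pow_zero, Int.ediv_one]
    have h7 := hm' x
    rw [← h6] at h7
    exact_mod_cast h7
  · intro y j h1 h2
    obtain ⟨rfl, h5⟩ := lvT_one h1 h2
    rw [h.dy_n y (fun h0 => h5 ((emod_zero_iff (hn' y)).1 h0))]
    have h6 : (dig b 0 (y - -(S.n 0 : ℤ)) : ℤ) = (y - -(S.n 0 : ℤ)) % b := by
      rw [dig_cast (by omega), pow_zero, Int.ediv_one]
    have h7 := hn' y
    rw [← h6] at h7
    exact_mod_cast h7
  · intro _ x
    exact emod_zero_iff (hm' x)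
  · intro _ y
    exact emod_zero_iff (hn' y)

/-- a column divisible to order `n` for the new residue -/
private theorem col_n {a : ℕ} (ha : 0 < a) (n : ℕ) {x c u : ℤ} (h : (a : ℤ) ^ n ∣ x - (c + (a : ℤ) ^ n * u)) :
    ∃ w, x = c + (a : ℤ) ^ n * w ∧ ((a : ℤ) ^ (n + 1) ∣ x - (c + (a : ℤ) ^ n * u) ↔ (a : ℤ) ∣ w - u) := by
  obtain ⟨t, ht⟩ := h
  have ha' : (a : ℤ) ^ n ≠ 0 := by positivity
  refine ⟨t + u, by linear_combination ht, ?_⟩
  rw [ht, pow_succ, mul_dvd_mul_iff_left ha', add_sub_cancel_right]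

/-- levels below `n` for the new residue are levels for the old one -/
private theorem lv_old {a n : ℕ} {x c u : ℤ} {i : ℕ} (h : LvT a (n + 1) (x - (c + (a : ℤ) ^ n * u)) i) (hi : i < n) :
    LvT a n (x - c) i := by
  have h1 := (LvT.succ hi).1 h
  have h2 := LvT.up (d := (a : ℤ) ^ n * u) (dvd_mul_right _ _) h1
  rwa [show x - (c + (a : ℤ) ^ n * u) + (a : ℤ) ^ n * u = x - c by ring] at h2

/-- level exactly `n` for the new residue -/
private theorem lv_new {a : ℕ} (ha : 0 < a) {n : ℕ} {x c u : ℤ} {i : ℕ}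
    (h : LvT a (n + 1) (x - (c + (a : ℤ) ^ n * u)) i) (h1 : i < n + 1) (hi : ¬ i < n) :
    i = n ∧ ∃ w, x = c + (a : ℤ) ^ n * w ∧ ¬ (a : ℤ) ∣ w - u := by
  have hin : i = n := by omega
  subst hin
  refine ⟨rfl, ?_⟩
  obtain ⟨w, hw, hw'⟩ := col_n ha i h.2.1
  exact ⟨w, hw, fun hc => h.2.2 h1 (hw'.2 hc)⟩

private theorem rowlev {b : ℕ} (hb : 2 ≤ b) {n : ℕ} (hn : 1 ≤ n) (r : ℤ) :
    LvT b n (r + (b : ℤ) ^ (n - 1) - r) (n - 1) := by
  rw [add_sub_cancel_left]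
  refine ⟨by omega, dvd_rfl, fun _ hc => ?_⟩
  rw [pow_succ] at hc
  have hb0 : (b : ℤ) ^ (n - 1) ≠ 0 := by positivity
  have h1 : (b : ℤ) ^ (n - 1) * b ∣ (b : ℤ) ^ (n - 1) * 1 := by rwa [mul_one]
  rw [mul_dvd_mul_iff_left hb0] at h1
  have := Int.le_of_dvd one_pos h1
  have hb' : (2 : ℤ) ≤ b := by exact_mod_cast hb
  linarith

private theorem half {a b : ℕ} {S : Sk} (h : S.Ok a b) (ha : 3 ≤ a) (hb : 3 ≤ b) {n : ℕ}
    (hn : 1 ≤ n) {c r : ℤ} (hi : S.Inv a b n c r) {u v : ℤ} (hu : S.RA a b n c r u)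
    (hv : S.tr.RA b a n r c v) :
    (∀ x y i j, LvT a (n + 1) (x - (c + (a : ℤ) ^ n * u)) i → LvT b (n + 1) (y - (r + (b : ℤ) ^ n * v)) j →
      i < n + 1 → j < n + 1 → S.s x y = cl (j - i)) ∧
    (∀ x y i, LvT a (n + 1) (x - (c + (a : ℤ) ^ n * u)) i → i < n + 1 →
      (b : ℤ) ^ (n + 1) ∣ y - (r + (b : ℤ) ^ n * v) → cl ((n + 1 : ℕ) - i) ≤ S.s x y) ∧
    (∀ x i, LvT a (n + 1) (x - (c + (a : ℤ) ^ n * u)) i → i < n + 1 →
      S.dx x = dig a i (x - (c + (a : ℤ) ^ n * u))) ∧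
    (∀ x, S.m x = 0 ↔ (a : ℤ) ∣ x - (c + (a : ℤ) ^ n * u)) := by
  have ha0 : 0 < a := by omega
  have hb0 : 0 < b := by omega
  have hvs : ∀ x, LvT a n (x - c) (n - 1) → ∀ w : ℤ,
      ((b : ℤ) ∣ w - v → S.s x (r + (b : ℤ) ^ n * w) = 2) ∧
      (¬ (b : ℤ) ∣ w - v → S.s x (r + (b : ℤ) ^ n * w) = 1) := by
    intro x hx w
    have h1 := hv x hx w
    refine ⟨fun h2 => ?_, fun h2 => ?_⟩
    · have h3 := h1.1 h2
      have h4 : -S.s x (r + (b : ℤ) ^ n * w) = -2 := h3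
      omega
    · have h3 := (h1.2 h2).1
      have h4 : -S.s x (r + (b : ℤ) ^ n * w) = -1 := h3
      omega
  refine ⟨?_, ?_, ?_, ?_⟩
  · intro x y i j h1 h2 h3 h4
    by_cases hin : i < n
    · have h1' := lv_old h1 hin
      by_cases hjn : j < n
      · exact hi.cc x y i j h1' (lv_old h2 hjn) hin hjn
      · obtain ⟨rfl, w, rfl, hw⟩ := lv_new hb0 h2 h4 hjn
        by_cases hi1 : i = j - 1
        · subst hi1
          rw [(hvs x h1' w).2 hw]
          simp only [cl]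
          push_cast [Nat.cast_sub hn]
          omega
        · have h5 := hi.cn x (r + (b : ℤ) ^ j * w) i h1' hin
            (by rw [add_sub_cancel_left]; exact dvd_mul_right _ _)
          have h6 := h.s_hi x (r + (b : ℤ) ^ j * w)
          simp only [cl] at h5 ⊢
          omega
    · obtain ⟨rfl, w, rfl, hw⟩ := lv_new ha0 h1 h3 hin
      by_cases hjn : j < i
      · have h2' := lv_old h2 hjn
        by_cases hj1 : j = i - 1
        · subst hj1
          rw [((hu y h2' w).2 hw).1]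
          simp only [cl]
          push_cast [Nat.cast_sub hn]
          omega
        · have h5 := hi.nc (c + (a : ℤ) ^ i * w) y j
            (by rw [add_sub_cancel_left]; exact dvd_mul_right _ _) h2' hjn
          have h6 := h.s_lo (c + (a : ℤ) ^ i * w) y
          simp only [cl] at h5 ⊢
          omega
      · obtain ⟨rfl, w', rfl, hw'⟩ := lv_new hb0 h2 h4 hjn
        rw [(h.rowB ha hb hn hi hu hv w' hw' w).1 hw]
        simp [cl]
  · intro x y i h1 h2 h3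
    obtain ⟨w', rfl, hw'⟩ := col_n hb0 n ((pow_dvd_pow _ (Nat.le_succ n)).trans h3)
    have hw'' := hw'.1 h3
    by_cases hin : i < n
    · have h1' := lv_old h1 hin
      by_cases hi1 : i = n - 1
      · subst hi1
        rw [(hvs x h1' w').1 hw'']
        simp only [cl]
        omega
      · have h5 := hi.cn x (r + (b : ℤ) ^ n * w') i h1' hin
          (by rw [add_sub_cancel_left]; exact dvd_mul_right _ _)
        simp only [cl] at h5 ⊢
        omega
    · obtain ⟨rfl, w, rfl, hw⟩ := lv_new ha0 h1 h2 hin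
      have hu' : S.tr.tr.RA a b i c r u := by rw [Sk.tr_tr]; exact hu
      have h5 := (h.tr.rowB hb ha hn hi.tr hv hu' w hw w').2 hw''
      have h6 : -S.s (c + (a : ℤ) ^ i * w) (r + (b : ℤ) ^ i * w') ≤ -1 := h5
      simp only [cl]
      push_cast
      omega
  · intro x i h1 h2
    by_cases hin : i < n
    · rw [hi.gx x i (lv_old h1 hin) hin]
      apply dig_congr (by omega)
      rw [show x - c - (x - (c + (a : ℤ) ^ n * u)) = (a : ℤ) ^ n * u by ring]
      exact (pow_dvd_pow _ (by omega)).mul_right _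
    · obtain ⟨rfl, w, rfl, hw⟩ := lv_new ha0 h1 h2 hin
      have h3 := ((hu _ (rowlev (by omega) hn r) w).2 hw).2
      have h4 : (dig a i (c + (a : ℤ) ^ i * w - (c + (a : ℤ) ^ i * u)) : ℤ) = (w - u) % a := by
        rw [show c + (a : ℤ) ^ i * w - (c + (a : ℤ) ^ i * u) = (a : ℤ) ^ i * (w - u) by ring]
        exact dig_eq (by omega) i (w - u)
      rw [← h4] at h3
      exact_mod_cast h3
  · intro x
    rw [hi.mz (by omega) x]
    have h1 : (a : ℤ) ∣ (a : ℤ) ^ n * u := (dvd_pow_self _ (by omega)).mul_right _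
    rw [show x - (c + (a : ℤ) ^ n * u) = x - c - (a : ℤ) ^ n * u by ring]
    exact (dvd_sub_left h1).symm

theorem Sk.Ok.step {a b : ℕ} {S : Sk} (h : S.Ok a b) (ha : 3 ≤ a) (hb : 3 ≤ b) {n : ℕ}
    (hn : 1 ≤ n) {c r : ℤ} (hi : S.Inv a b n c r) :
    ∃ c' r', (a : ℤ) ^ n ∣ c' - c ∧ (b : ℤ) ^ n ∣ r' - r ∧ S.Inv a b (n + 1) c' r' := by
  obtain ⟨u, hu⟩ := h.rowA ha (by omega) hn hi
  obtain ⟨v, hv⟩ := h.tr.rowA hb (by omega) hn hi.tr
  have hu' : S.tr.tr.RA a b n c r u := by rw [Sk.tr_tr]; exact hu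
  obtain ⟨k1, k2, k3, k4⟩ := half h ha hb hn hi hu hv
  obtain ⟨_, l2, l3, l4⟩ := half h.tr hb ha hn hi.tr hv hu'
  refine ⟨c + (a : ℤ) ^ n * u, r + (b : ℤ) ^ n * v, ?_, ?_, k1, k2, ?_, k3, l3, fun _ => k4, fun _ => l4⟩
  · rw [add_sub_cancel_left]; exact dvd_mul_right _ _
  · rw [add_sub_cancel_left]; exact dvd_mul_right _ _
  · intro x y j h1 h2 h3
    have h4 := l2 y x j h2 h3 h1
    have h5 : cl ((n + 1 : ℕ) - j) ≤ -S.s x y := h4
    simp only [cl] at h5 ⊢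
    omega

end H96.CK
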