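import Pool.Agent.H96.CK.Tile

/-!
# Module TileFin (60 lines): there are finitely many tiles

`Lam K G` is finite (`Pi.finite`, `K` finite), `St M.Q` injects into a product of finite types
(`M.fin`; `Mode` is a `Fintype`), so do `Info`, `Glob`, `HL M` (into `Option (Lam ⊕ Lam × St)`), `WL M`,
`HE M`, `VE M`, `Tile M`. Use `Finite.of_injective` with the tuple of all components.
-/

namespace H96.CK

private theorem fin_Lam (K G : Type) [Finite K] [Finite G] : Finite (Lam K G) := by
  unfold Lam
  infer_instance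

private theorem fin_St (Q : Type) [Finite Q] : Finite (St Q) := by
  refine Finite.of_injective (β := Q × Fin 3 × Fin 3 × Mode × Bool × Bool × Bool)
    (fun s => (s.q, s.ph, s.n3, s.mode, s.mkd, s.b, s.c)) fun s t h => ?_
  obtain ⟨s1, s2, s3, s4, s5, s6, s7⟩ := s
  obtain ⟨t1, t2, t3, t4, t5, t6, t7⟩ := t
  simpa [Prod.ext_iff] using h

private theorem fin_Info (K G : Type) [Finite K] [Finite G] : Finite (Info K G) := by
  have := fin_Lam K G
  refine Finite.of_injective (β := Lam K G × Lam K G × Bool × Bool)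
    (fun s => (s.y1, s.y2, s.e, s.z)) fun s t h => ?_
  obtain ⟨s1, s2, s3, s4⟩ := s
  obtain ⟨t1, t2, t3, t4⟩ := t
  simp only [Prod.ext_iff] at h
  obtain ⟨h1, h2, h3, h4⟩ := h
  have e1 : s1 = t1 := Prod.ext h1.1 (Prod.ext h1.2.1 h1.2.2)
  have e2 : s2 = t2 := Prod.ext h2.1 (Prod.ext h2.2.1 h2.2.2)
  subst e1 e2 h3 h4
  rfl

private theorem fin_Glob {K G : Type} [Finite K] [Finite G] (M : SM K G) : Finite (Glob M) := by
  have := fin_Lam K G
  have := M.fin
  have := fin_St M.Q
  refine Finite.of_injective (β := St M.Q × Lam K G × Bool)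
    (fun s => (s.st, s.l0, s.ch)) fun s t h => ?_
  obtain ⟨s1, s2, s3⟩ := s
  obtain ⟨t1, t2, t3⟩ := t
  injection h with h1 h
  injection h with h2 h3
  simp only at h1 h2 h3
  subst h1 h2 h3
  rfl

private theorem fin_HL {K G : Type} [Finite K] [Finite G] (M : SM K G) : Finite (HL M) := by
  have := fin_Lam K G
  have := M.fin
  have := fin_St M.Q
  refine Finite.of_injective (β := Option (Lam K G ⊕ Lam K G × St M.Q))
    (fun s => match s with
      | .blank => none
      | .A l => some (Sum.inl l)
      | .F l s => some (Sum.inr (l, s))) fun s t h => ?_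
  cases s <;> cases t <;> simp_all

private theorem fin_WL {K G : Type} [Finite K] [Finite G] (M : SM K G) : Finite (WL M) := by
  have := fin_Info K G
  have := fin_Glob M
  refine Finite.of_injective (β := Fin 4 ⊕ Glob M × Info K G)
    (fun s => match s with
      | .blank => Sum.inl 0
      | .P => Sum.inl 1
      | .I0 => Sum.inl 2
      | .T => Sum.inl 3
      | .V g j => Sum.inr (g, j)) fun s t h => ?_
  cases s <;> cases t <;> simp_all

private theorem fin_HE {K G : Type} [Finite K] [Finite G] (M : SM K G) : Finite (HE M) := by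
  have := fin_HL M
  refine Finite.of_injective
    (β := Fin 3 × Fin 3 × Bool × Bool × Bool × (Fin 3 → Fin 3) × (Fin 3 → Fin 9) × HL M)
    (fun s => (s.n, s.dy, s.be, s.ro, s.ini, s.pA, s.pB, s.h)) fun s t h => ?_
  obtain ⟨s1, s2, s3, s4, s5, s6, s7, s8⟩ := s
  obtain ⟨t1, t2, t3, t4, t5, t6, t7, t8⟩ := t
  injection h with h1 h
  injection h with h2 h
  injection h with h3 h
  injection h with h4 h
  injection h with h5 h
  injection h with h6 h
  injection h with h7 h8
  simp only at h1 h2 h3 h4 h5 h6 h7 h8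
  subst h1 h2 h3 h4 h5 h6 h7 h8
  rfl

private theorem fin_VE {K G : Type} [Finite K] [Finite G] (M : SM K G) : Finite (VE M) := by
  have := fin_WL M
  refine Finite.of_injective
    (β := Fin 3 × Fin 9 × Fin 3 × Fin 9 × (Fin 3 → Fin 3) × (Fin 3 → Fin 3) × Bool × WL M)
    (fun s => (s.mA, s.mB, s.dA, s.dB, s.eA, s.eB, s.u, s.w)) fun s t h => ?_
  obtain ⟨s1, s2, s3, s4, s5, s6, s7, s8⟩ := s
  obtain ⟨t1, t2, t3, t4, t5, t6, t7, t8⟩ := t
  injection h with h1 h
  injection h with h2 h
  injection h with h3 h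
  injection h with h4 h
  injection h with h5 h
  injection h with h6 h
  injection h with h7 h8
  simp only at h1 h2 h3 h4 h5 h6 h7 h8
  subst h1 h2 h3 h4 h5 h6 h7 h8
  rfl

theorem tile_finite {K G : Type} [Finite K] [Finite G] (M : SM K G) : Finite (Tile M) := by
  have := fin_HE M
  have := fin_VE M
  refine Finite.of_injective (β := HE M × HE M × VE M × VE M × Fin 5 × Fin 5)
    (fun s => (s.l, s.r, s.d, s.u, s.sA, s.sB)) fun s t h => ?_
  obtain ⟨s1, s2, s3, s4, s5, s6⟩ := s
  obtain ⟨t1, t2, t3, t4, t5, t6⟩ := t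
  injection h with h1 h
  injection h with h2 h
  injection h with h3 h
  injection h with h4 h
  injection h with h5 h6
  simp only at h1 h2 h3 h4 h5 h6
  subst h1 h2 h3 h4 h5 h6
  rfl

end H96.CK
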