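import Pool.Agent.H96.CK.Win
import Pool.Agent.H96.CK.BusB
import Pool.Agent.H96.CK.Cls
import Pool.Agent.H96.CK.TileFin

/-!
# Module TameM (350 lines): finitely many types of tame configurations

Facts for a tame configuration `x` (with `Geo x c r0`):
(t1) no base row: `NoBase`. (t2) base row `b0`: `lane_of`, there is no corner (`Wf a 0 ≠ P`: tame), so all lanes and wires are blank (`act_H`, `act_W`),
`wire`: `(ve x a b).w = blank` for all `a, b`; `(he x a b).ini = false` (`row0`, `rows`), `h = blank` everywhere. The row `b0` : `he x a b0 =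
he x (a-1) b0` for all `a` (`row0`); a column `a0` of infinite level: `ve x a0 b = ve x a0 (b-1)` for `b ≠ b0` (`colc`, `Geo.eI`, `u_inf`, `w`).
Type of `x`: `(is there a base row?, row of infinite level exists: its `he x 0 b` unless a column of infinite level exists too, column of infinite level
exists: its `ve x a 0` unless a row .. exists too, both exist: the tile at the crossing)`, an element of the finite type
`Bool × Option (HE M) × Option (VE M) × Option (Tile M)` (`HE M`, `VE M` are finite as components of `Tile M`, `tile_finite`). Definition by classical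
choice; it does not depend on the choice of `c, r0`: rather define the type for `x ∈ TX` by choosing `c, r0` with `exists_geo` once.
Claim: `ty x = ty y` implies `y ∈ Cl (Orb x)`. Given `n` (window). Let `(c', r')` belong to `y`. Choose `M'` larger than all finite levels of columns and rows of `y`
in `|a|, |b| ≤ n + 1`, `R = 2 M' + 6`. Translation `(p, q)`: if `y` has a column `a'` of infinite level then `x` has one, `a0`, and `p = a0 - a'`;
otherwise `p = c R - c' R`. The same for rows. `window_eq` for `sh (p, q) x` and `y` (geometry `c n - p`, `r0 n - q`): `hc`: clear in the second case; in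
the first `c R - p = a0 - p = a' = c' R` mod `3 ^ R`. A column with `3 ^ (M'+1) ∣ a - c' (M'+1)` in the window has infinite level (choice of `M'`), the same
for the shifted `x` (residues agree mod `3 ^ R`, so in the window both conditions are equivalent): it is `a'`. `Hcol`: `a = a'`: if there is no row of
infinite level `ve` is constant along the column for both, and equal by the type; if there is one, at `b'`, `ve` is constant above (`b ≥ b'`) and below
(`b < b'`) and these are the edges `u`, `d` of the crossing tile, equal by the type. `Hrow` the same. `Hx`: crossing tile. `Lrow`: `be = false`, `ini = false`, `h = blank`; `ro`: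
`false` without base row; with base row `b' ` (the row of infinite level, aligned) `∃ t, b = b' + 3 ^ t` for both. `Lcol`: `w = blank`; `u`: `false`, or `b' ≤ b < b' + 3 ^ (i+1)` with the
same level `i ≤ M'`.
-/

namespace H96.CK

private theorem cst_up {α : Type} (f : ℤ → α) (b0 : ℤ) (h : ∀ b, b0 < b → f b = f (b - 1)) :
    ∀ b, b0 ≤ b → f b = f b0 := by
  intro b hb
  induction b, hb using Int.leInduction with
  | base => rfl
  | succ b hb ih =>
    rw [h (b + 1) (by omega), add_sub_cancel_right]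
    exact ih

private theorem cst_dn {α : Type} (f : ℤ → α) (b0 : ℤ) (h : ∀ b, b < b0 → f b = f (b - 1)) :
    ∀ b, b < b0 → f b = f (b0 - 1) := by
  have key : ∀ n : ℕ, f (b0 - 1 - n) = f (b0 - 1) := by
    intro n
    induction n with
    | zero => simp
    | succ n ih =>
      have h1 := h (b0 - 1 - n) (by omega)
      have h2 : b0 - 1 - ((n + 1 : ℕ) : ℤ) = b0 - 1 - n - 1 := by push_cast; ring
      rw [h2, ← h1]
      exact ih
  intro b hb
  have h1 := key (b0 - 1 - b).toNat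
  have h2 : b0 - 1 - ((b0 - 1 - b).toNat : ℤ) = b := by omega
  rwa [h2] at h1

private theorem cst_all {α : Type} (f : ℤ → α) (h : ∀ b, f b = f (b - 1)) (b b' : ℤ) :
    f b = f b' := by
  have key : ∀ b, f b = f 0 := by
    intro b
    rcases le_or_gt 0 b with hb | hb
    · exact cst_up f 0 (fun b _ => h b) b hb
    · rw [cst_dn f 0 (fun b _ => h b) b hb, ← h 0]
  rw [key b, key b']

section

variable {K G : Type} {M : SM K G}

private theorem he_ext {p q : HE M} (h1 : p.n = q.n) (h2 : p.dy = q.dy) (h3 : p.be = q.be)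
    (h4 : p.ro = q.ro) (h5 : p.ini = q.ini) (h6 : ∀ k, p.pA k = q.pA k) (h7 : ∀ k, p.pB k = q.pB k)
    (h8 : p.h = q.h) : p = q := by
  cases p
  cases q
  simp only at h1 h2 h3 h4 h5 h6 h7 h8
  have h6' := funext h6
  have h7' := funext h7
  subst h1 h2 h3 h4 h5 h6' h7' h8
  rfl

private theorem ve_ext {p q : VE M} (h1 : p.mA = q.mA) (h2 : p.mB = q.mB) (h3 : p.dA = q.dA)
    (h4 : p.dB = q.dB) (h5 : ∀ k, p.eA k = q.eA k) (h6 : ∀ k, p.eB k = q.eB k) (h7 : p.u = q.u)
    (h8 : p.w = q.w) : p = q := by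
  cases p
  cases q
  simp only at h1 h2 h3 h4 h5 h6 h7 h8
  have h5' := funext h5
  have h6' := funext h6
  subst h1 h2 h3 h4 h5' h6' h7 h8
  rfl

private theorem bool_iff {p q : Bool} (h : p = true ↔ q = true) : p = q := by
  cases p <;> cases q <;> simp_all

/-- facts about a tame configuration; `β` is the base row, if there is one -/
private structure TF (x : ℤ × ℤ → Tile M) (c r : ℕ → ℤ) (β : Option ℤ) : Prop where
  inf : ∀ b0, β = some b0 → IsInf 3 r b0
  be : ∀ a b j, IsLv 3 r b j → (he x a b).be = false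
  ro : ∀ a b j, IsLv 3 r b j → ((he x a b).ro = true ↔ ∃ b0, β = some b0 ∧ ∃ t : ℕ, b = b0 + 3 ^ t)
  ini : ∀ a b j, IsLv 3 r b j → (he x a b).ini = false
  h : ∀ a b j, IsLv 3 r b j → (he x a b).h = .blank
  u : ∀ a b i, IsLv 3 c a i →
    ((ve x a b).u = true ↔ ∃ b0, β = some b0 ∧ b0 ≤ b ∧ b < b0 + 3 ^ (i + 1))
  w : ∀ a b i, IsLv 3 c a i → (ve x a b).w = .blank
  hinf : ∀ a b i, IsInf 3 r b → IsLv 3 c a i → he x a b = he x (a - 1) b
  vinf : ∀ a b j, IsInf 3 c a → IsLv 3 r b j → ve x a b = ve x a (b - 1)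

end

section

variable {K G : Type} [DecidableEq G] {M : SM K G} {mn : K} {cs : G}

private theorem tf_of {x : ℤ × ℤ → Tile M} (hx : x ∈ TX M mn cs) {c r : ℕ → ℤ} (g : Geo x c r)
    (ht : Tame x) : ∃ β, TF x c r β := by
  by_cases hb : ∃ a b, (he x a b).be = true
  · obtain ⟨a0, b0, hb⟩ := hb
    have B := baseG_of hx g hb
    have L := lane_of hx g B
    have hC := colOk_of g
    have hW0 : ∀ a, Wf x b0 a 0 ≠ .P := by
      intro a
      have h1 := ht a b0 ((B.be a b0).2 rfl)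
      unfold Wf
      simpa using h1
    have hW : ∀ a t, Wf x b0 a t = .blank := by
      intro a t
      by_contra h
      obtain ⟨X, -, h1⟩ := act_W hC L h
      exact hW0 X h1
    have hH : ∀ a t, Hf x b0 a t = .blank := by
      intro a t
      by_contra h
      obtain ⟨X, -, h1⟩ := act_H hC L h
      exact hW0 X h1
    have hw : ∀ a b, (ve x a b).w = .blank := by
      intro a b
      obtain ⟨h1, h2, h3⟩ := wire hx g B a b
      rcases lt_trichotomy b b0 with hlt | heq | hgt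
      · exact h1 hlt
      · rw [h2 heq]; exact hW a 0
      · obtain ⟨d, hd⟩ : ∃ d : ℕ, b = b0 + d := ⟨(b - b0).toNat, by omega⟩
        have hd0 : d ≠ 0 := by omega
        have h4 : 3 ^ Nat.log 3 d ≤ d := Nat.pow_log_le_self 3 hd0
        have h5 : d < 3 ^ (Nat.log 3 d + 1) := Nat.lt_pow_succ_log_self (by norm_num) d
        have h4' : (3 : ℤ) ^ Nat.log 3 d ≤ d := by exact_mod_cast h4
        have h5' : (d : ℤ) < 3 ^ (Nat.log 3 d + 1) := by exact_mod_cast h5
        rw [h3 (Nat.log 3 d) (by omega) (by omega)]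
        exact hW a _
    have hne : ∀ b j, IsLv 3 r b j → b ≠ b0 := by
      intro b j h h1
      rw [h1] at h
      exact h.not_inf B.inf
    have hro : ∀ a, (he x a b0).ro = false := by
      intro a
      rw [Bool.eq_false_iff]
      intro h
      obtain ⟨t, h1⟩ := (B.ro a b0).1 h
      have : (0 : ℤ) < 3 ^ t := by positivity
      omega
    have hini : ∀ a, (he x a b0).ini = false := by
      intro a
      rw [Bool.eq_false_iff]
      intro h
      have h1 := (B.row0 a).2.2.2.2.2.1 h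
      rw [hw] at h1
      exact absurd h1 (by simp)
    refine ⟨some b0, ⟨?_, ?_, ?_, ?_, ?_, ?_, ?_, ?_, ?_⟩⟩
    · intro b1 h1
      obtain rfl := Option.some.inj h1
      exact B.inf
    · intro a b j hj
      rw [Bool.eq_false_iff]
      intro h
      exact hne b j hj ((B.be a b).1 h)
    · intro a b j hj
      rw [B.ro a b]
      constructor
      · intro h
        exact ⟨b0, rfl, h⟩
      · rintro ⟨b1, h1, h2⟩
        obtain rfl := Option.some.inj h1
        exact h2
    · intro a b j hj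
      exact (B.rows a b (hne b j hj)).1
    · intro a b j hj
      by_cases h : (he x a b).ro = true
      · obtain ⟨t, h1⟩ := (B.ro a b).1 h
        have h2 := hH a t
        unfold Hf at h2
        rw [h1]
        exact h2
      · exact (B.rows a b (hne b j hj)).2 (by simpa using h)
    · intro a b i hi
      rw [B.u_fin a b i hi]
      constructor
      · intro h
        exact ⟨b0, rfl, h⟩
      · rintro ⟨b1, h1, h2⟩
        obtain rfl := Option.some.inj h1
        exact h2
    · intro a b i _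
      exact hw a b
    · intro a b i hb hi
      have hbb : b = b0 := IsInf.unique (by norm_num) hb B.inf
      subst hbb
      obtain ⟨p1, p2, p3, p4, p5, -⟩ := B.row0 a
      obtain ⟨q1, q2, q3, q4, q5, -⟩ := B.row0 (a - 1)
      refine he_ext (p1.trans q1.symm) (p2.trans q2.symm) ?_ ?_ ?_ (fun k => (p3 k).trans (q3 k).symm)
        (fun k => (p4 k).trans (q4 k).symm) (p5.trans q5.symm)
      · rw [(B.be a b).2 rfl, (B.be (a - 1) b).2 rfl]
      · rw [hro, hro]
      · rw [hini, hini]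
    · intro a b j ha hj
      obtain ⟨p1, p2, p3, p4⟩ := TX.colc hx a b (b - 1)
      have h1 := hne b j hj
      refine ve_ext p1 p2 p3 p4 (fun k => (g.eI a b j k ha hj).1) (fun k => (g.eI a b j k ha hj).2) ?_ ?_
      · apply bool_iff
        rw [B.u_inf a b ha, B.u_inf a (b - 1) ha]
        omega
      · rw [hw, hw]
  · push Not at hb
    have hb' : ∀ a b, (he x a b).be = false := by
      intro a b
      simpa using hb a b
    have B := nobase hx g hb'
    refine ⟨none, ⟨?_, ?_, ?_, ?_, ?_, ?_, ?_, ?_, ?_⟩⟩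
    · intro b1 h1
      exact absurd h1 (by simp)
    · intro a b j _
      exact (B.be a b).1
    · intro a b j hj
      rw [(B.row a b j hj).1]
      simp
    · intro a b j _
      exact (B.be a b).2
    · intro a b j hj
      exact (B.row a b j hj).2
    · intro a b i hi
      rw [(B.col a b i hi).1]
      simp
    · intro a b i hi
      exact (B.col a b i hi).2
    · exact B.hinf
    · exact B.vinf

/-- levels are finite up to a bound in a window -/
private theorem bound_lv (c : ℕ → ℤ) (hc : Coh 3 c) (n : ℕ) : ∃ M0 : ℕ, ∀ M' : ℕ, M0 ≤ M' →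
    ∀ a : ℤ, |a| ≤ n → (3 : ℤ) ^ (M' + 1) ∣ a - c (M' + 1) → IsInf 3 c a := by
  classical
  have h : ∀ a : ℤ, ∃ m : ℕ, ∀ M' : ℕ, m ≤ M' → (3 : ℤ) ^ (M' + 1) ∣ a - c (M' + 1) → IsInf 3 c a := by
    intro a
    rcases lv_or 3 c a with ⟨i, hi⟩ | hinf
    · refine ⟨i, fun M' hM h1 => ?_⟩
      have h2 := (hi.dvd hc (n := M' + 1)).1 (by exact_mod_cast h1)
      omega
    · exact ⟨0, fun _ _ _ => hinf⟩
  choose m hm using h
  refine ⟨(Finset.Icc (-(n : ℤ)) n).sup m, fun M' hM a ha h1 => hm a M' (le_trans ?_ hM) h1⟩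
  refine Finset.le_sup (f := m) ?_
  rw [Finset.mem_Icc]
  exact abs_le.1 ha

private theorem dvd_le {c c' : ℕ → ℤ} (hc : Coh 3 c) (hc' : Coh 3 c') {R m : ℕ} (h : (3 : ℤ) ^ R ∣ c R - c' R)
    (hm : m ≤ R) : (3 : ℤ) ^ m ∣ c m - c' m := by
  have h1 : (3 : ℤ) ^ m ∣ c R - c m := by exact_mod_cast coh_le hc hm
  have h2 : (3 : ℤ) ^ m ∣ c' R - c' m := by exact_mod_cast coh_le hc' hm
  have h3 := dvd_add (dvd_sub ((pow_dvd_pow 3 hm).trans h) h1) h2
  have e : c R - c' R - (c R - c m) + (c' R - c' m) = c m - c' m := by ring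
  rwa [e] at h3

private theorem lv_same {c c' : ℕ → ℤ} (hc : Coh 3 c) (hc' : Coh 3 c') {R i : ℕ} (h : (3 : ℤ) ^ R ∣ c R - c' R)
    (hi : i + 1 ≤ R) {a : ℤ} (ha : IsLv 3 c a i) : IsLv 3 c' a i := by
  have h1 := dvd_le hc hc' h (Nat.le_of_succ_le hi)
  have h2 := dvd_le hc hc' h hi
  obtain ⟨h3, h4⟩ := ha
  have h3' : (3 : ℤ) ^ i ∣ a - c i := by exact_mod_cast h3
  have h4' : ¬ (3 : ℤ) ^ (i + 1) ∣ a - c (i + 1) := by exact_mod_cast h4
  constructor
  · have h5 := dvd_add h3' h1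
    have e : a - c i + (c i - c' i) = a - c' i := by ring
    rw [e] at h5
    exact_mod_cast h5
  · intro h5
    apply h4'
    have h5' : (3 : ℤ) ^ (i + 1) ∣ a - c' (i + 1) := by exact_mod_cast h5
    have h6 := dvd_sub h5' h2
    have e : a - c' (i + 1) - (c (i + 1) - c' (i + 1)) = a - c (i + 1) := by ring
    rwa [e] at h6

end

section

variable {K G : Type} {M : SM K G}

/-- the same type -/
private structure Same (x : ℤ × ℤ → Tile M) (c r : ℕ → ℤ) (β : Option ℤ) (y : ℤ × ℤ → Tile M)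
    (c' r' : ℕ → ℤ) (β' : Option ℤ) : Prop where
  bs : β.isSome = β'.isSome
  col : (∃ a, IsInf 3 c a) ↔ ∃ a, IsInf 3 c' a
  row : (∃ b, IsInf 3 r b) ↔ ∃ b, IsInf 3 r' b
  cross : ∀ a b a' b', IsInf 3 c a → IsInf 3 r b → IsInf 3 c' a' → IsInf 3 r' b' →
    x (a, b) = y (a', b')
  oc : (¬ ∃ b, IsInf 3 r b) → ∀ a a', IsInf 3 c a → IsInf 3 c' a' → ve x a 0 = ve y a' 0
  orr : (¬ ∃ a, IsInf 3 c a) → ∀ b b', IsInf 3 r b → IsInf 3 r' b' → he x 0 b = he y 0 b'

open Classical in
private noncomputable def tyd (x : ℤ × ℤ → Tile M) (c r : ℕ → ℤ) (β : Option ℤ) :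
    Bool × Option (HE M) × Option (VE M) × Option (Tile M) :=
  if hC : ∃ a, IsInf 3 c a then
    (if hR : ∃ b, IsInf 3 r b then (β.isSome, none, none, some (x (hC.choose, hR.choose)))
      else (β.isSome, none, some (ve x hC.choose 0), none))
  else (if hR : ∃ b, IsInf 3 r b then (β.isSome, some (he x 0 hR.choose), none, none)
      else (β.isSome, none, none, none))

private theorem tyd_fst (x : ℤ × ℤ → Tile M) (c r : ℕ → ℤ) (β : Option ℤ) :
    (tyd x c r β).1 = β.isSome := by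
  unfold tyd
  split_ifs <;> rfl

private theorem tyd_cross {x : ℤ × ℤ → Tile M} {c r : ℕ → ℤ} {β : Option ℤ} {a b : ℤ}
    (ha : IsInf 3 c a) (hb : IsInf 3 r b) : (tyd x c r β).2.2.2 = some (x (a, b)) := by
  have hC : ∃ a, IsInf 3 c a := ⟨a, ha⟩
  have hR : ∃ b, IsInf 3 r b := ⟨b, hb⟩
  have e1 : hC.choose = a := IsInf.unique (by norm_num) hC.choose_spec ha
  have e2 : hR.choose = b := IsInf.unique (by norm_num) hR.choose_spec hb
  unfold tyd
  rw [dif_pos hC, dif_pos hR, e1, e2]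

private theorem tyd_oc {x : ℤ × ℤ → Tile M} {c r : ℕ → ℤ} {β : Option ℤ} {a : ℤ}
    (ha : IsInf 3 c a) (hR : ¬ ∃ b, IsInf 3 r b) : (tyd x c r β).2.2.1 = some (ve x a 0) := by
  have hC : ∃ a, IsInf 3 c a := ⟨a, ha⟩
  have e1 : hC.choose = a := IsInf.unique (by norm_num) hC.choose_spec ha
  unfold tyd
  rw [dif_pos hC, dif_neg hR, e1]

private theorem tyd_or {x : ℤ × ℤ → Tile M} {c r : ℕ → ℤ} {β : Option ℤ} {b : ℤ}
    (hC : ¬ ∃ a, IsInf 3 c a) (hb : IsInf 3 r b) : (tyd x c r β).2.1 = some (he x 0 b) := by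
  have hR : ∃ b, IsInf 3 r b := ⟨b, hb⟩
  have e2 : hR.choose = b := IsInf.unique (by norm_num) hR.choose_spec hb
  unfold tyd
  rw [dif_neg hC, dif_pos hR, e2]

private theorem tyd_col (x : ℤ × ℤ → Tile M) (c r : ℕ → ℤ) (β : Option ℤ) :
    (∃ a, IsInf 3 c a) ↔ ((tyd x c r β).2.2.2 ≠ none ∨ (tyd x c r β).2.2.1 ≠ none) := by
  unfold tyd
  split_ifs with h1 h2 h3
  · simp [h1]
  · simp [h1]
  · simp [h1]
  · simp [h1]

private theorem tyd_row (x : ℤ × ℤ → Tile M) (c r : ℕ → ℤ) (β : Option ℤ) :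
    (∃ a, IsInf 3 r a) ↔ ((tyd x c r β).2.2.2 ≠ none ∨ (tyd x c r β).2.1 ≠ none) := by
  unfold tyd
  split_ifs with h1 h2 h3
  · simp [h2]
  · simp [h2]
  · simp [h3]
  · simp [h3]

private theorem same_of {x y : ℤ × ℤ → Tile M} {c r c' r' : ℕ → ℤ} {β β' : Option ℤ}
    (h : tyd x c r β = tyd y c' r' β') : Same x c r β y c' r' β' := by
  have hcol : (∃ a, IsInf 3 c a) ↔ ∃ a, IsInf 3 c' a := by
    rw [tyd_col x c r β, tyd_col y c' r' β', h]
  have hrow : (∃ a, IsInf 3 r a) ↔ ∃ a, IsInf 3 r' a := by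
    rw [tyd_row x c r β, tyd_row y c' r' β', h]
  refine ⟨?_, hcol, hrow, ?_, ?_, ?_⟩
  · rw [← tyd_fst x c r β, ← tyd_fst y c' r' β', h]
  · intro a b a' b' h1 h2 h3 h4
    have e1 := tyd_cross (x := x) (β := β) h1 h2
    have e2 := tyd_cross (x := y) (β := β') h3 h4
    rw [h] at e1
    exact Option.some.inj (e1.symm.trans e2)
  · intro hR a a' h1 h2
    have e1 := tyd_oc (x := x) (β := β) h1 hR
    have e2 := tyd_oc (x := y) (β := β') h2 (fun h' => hR (hrow.2 h'))
    rw [h] at e1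
    exact Option.some.inj (e1.symm.trans e2)
  · intro hC b b' h1 h2
    have e1 := tyd_or (x := x) (β := β) hC h1
    have e2 := tyd_or (x := y) (β := β') (fun h' => hC (hcol.2 h')) h2
    rw [h] at e1
    exact Option.some.inj (e1.symm.trans e2)

end

section

variable {K G : Type} [DecidableEq G] {M : SM K G} {mn : K} {cs : G}

/-- the translation which aligns the lines of infinite level, or the residues -/
private theorem align {c c' : ℕ → ℤ} (h : (∃ a, IsInf 3 c a) ↔ ∃ a, IsInf 3 c' a) (R : ℕ) :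
    ∃ p : ℤ, (3 : ℤ) ^ R ∣ (c R - p) - c' R ∧ ∀ a, IsInf 3 c' a → IsInf 3 c (a + p) := by
  by_cases hC : ∃ a, IsInf 3 c a
  · obtain ⟨a', ha'⟩ := h.1 hC
    obtain ⟨a0, ha0⟩ := hC
    refine ⟨a0 - a', ?_, ?_⟩
    · have h1 : (3 : ℤ) ^ R ∣ a0 - c R := by exact_mod_cast ha0 R
      have h2 : (3 : ℤ) ^ R ∣ a' - c' R := by exact_mod_cast ha' R
      have h3 := dvd_sub h2 h1
      have e : a' - c' R - (a0 - c R) = c R - (a0 - a') - c' R := by ring
      rwa [e] at h3
    · intro a ha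
      have e1 : a = a' := IsInf.unique (by norm_num) ha ha'
      rw [e1, add_sub_cancel]
      exact ha0
  · refine ⟨c R - c' R, ?_, fun a ha => absurd (h.2 ⟨a, ha⟩) hC⟩
    rw [sub_sub_cancel, sub_self]
    exact dvd_zero _

private theorem tame_main {x y : ℤ × ℤ → Tile M} (hx : x ∈ TX M mn cs) (hy : y ∈ TX M mn cs)
    {c r c' r' : ℕ → ℤ} (gx : Geo x c r) (gy : Geo y c' r') {β β' : Option ℤ}
    (fx : TF x c r β) (fy : TF y c' r' β') (S : Same x c r β y c' r' β') : y ∈ Cl (Orb x) := by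
  intro n
  obtain ⟨M1, hM1⟩ := bound_lv c' gy.cohc (n + 1)
  obtain ⟨M2, hM2⟩ := bound_lv r' gy.cohr (n + 1)
  obtain ⟨M', hM1', hM2'⟩ : ∃ M' : ℕ, M1 ≤ M' ∧ M2 ≤ M' := ⟨max M1 M2, le_max_left _ _, le_max_right _ _⟩
  have hA := fun (a : ℤ) (ha : |a| ≤ n + 1) => hM1 M' hM1' a (by push_cast; exact ha)
  have hB := fun (a : ℤ) (ha : |a| ≤ n + 1) => hM2 M' hM2' a (by push_cast; exact ha)
  clear hM1 hM2 hM1' hM2'
  obtain ⟨R, hR⟩ : ∃ R, R = 2 * M' + 6 := ⟨_, rfl⟩
  obtain ⟨p, hc, hcp⟩ := align S.col R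
  obtain ⟨q, hr, hrq⟩ := align S.row R
  set c1 : ℕ → ℤ := fun n => c n - p with hc1
  set r1 : ℕ → ℤ := fun n => r n - q with hr1
  have gs : Geo (sh (p, q) x) c1 r1 := geo_sh gx p q
  have hc' : (3 : ℤ) ^ R ∣ c1 R - c' R := hc
  have hr' : (3 : ℤ) ^ R ∣ r1 R - r' R := hr
  -- high columns and rows have infinite level
  have colInf : ∀ a : ℤ, |a| ≤ n + 1 → (3 : ℤ) ^ (M' + 1) ∣ a - c1 (M' + 1) → IsInf 3 c' a := by
    intro a ha h1
    apply hA a ha
    have h2 := dvd_le gs.cohc gy.cohc hc' (m := M' + 1) (by omega)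
    have h3 := dvd_add h1 h2
    rwa [sub_add_sub_cancel] at h3
  have rowInf : ∀ b : ℤ, |b| ≤ n + 1 → (3 : ℤ) ^ (M' + 1) ∣ b - r1 (M' + 1) → IsInf 3 r' b := by
    intro a ha h1
    apply hB a ha
    have h2 := dvd_le gs.cohr gy.cohr hr' (m := M' + 1) (by omega)
    have h3 := dvd_add h1 h2
    rwa [sub_add_sub_cancel] at h3
  have down : ∀ {c1 : ℕ → ℤ}, Coh 3 c1 → ∀ a : ℤ, (3 : ℤ) ^ R ∣ a - c1 R →
      (3 : ℤ) ^ (M' + 1) ∣ a - c1 (M' + 1) := by
    intro c1 hcoh a h1
    have h2 : (3 : ℤ) ^ (M' + 1) ∣ c1 R - c1 (M' + 1) := by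
      exact_mod_cast coh_le hcoh (show M' + 1 ≤ R by omega)
    have h3 := dvd_add ((pow_dvd_pow 3 (show M' + 1 ≤ R by omega)).trans h1) h2
    rwa [sub_add_sub_cancel] at h3
  have up : ∀ {c1 c' : ℕ → ℤ}, (3 : ℤ) ^ R ∣ c1 R - c' R → ∀ a : ℤ, IsInf 3 c' a →
      (3 : ℤ) ^ R ∣ a - c1 R := by
    intro c1 c' h a ha
    have h1 : (3 : ℤ) ^ R ∣ a - c' R := by exact_mod_cast ha R
    have h2 := dvd_sub h1 h
    rwa [show a - c' R - (c1 R - c' R) = a - c1 R by ring] at h2
  have hcolF : ∀ a : ℤ, ¬ (3 : ℤ) ^ (M' + 1) ∣ a - c1 (M' + 1) → ∃ i, i ≤ M' ∧ IsLv 3 c1 a i ∧ IsLv 3 c' a i := by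
    intro a ha
    rcases lv_or 3 c1 a with ⟨i, hi⟩ | hinf
    · have h1 : ¬ (M' + 1 ≤ i) := fun h => ha (by exact_mod_cast (hi.dvd gs.cohc).2 h)
      exact ⟨i, by omega, hi, lv_same gs.cohc gy.cohc hc' (by omega) hi⟩
    · exact absurd (by exact_mod_cast hinf (M' + 1)) ha
  have hrowF : ∀ a : ℤ, ¬ (3 : ℤ) ^ (M' + 1) ∣ a - r1 (M' + 1) → ∃ i, i ≤ M' ∧ IsLv 3 r1 a i ∧ IsLv 3 r' a i := by
    intro a ha
    rcases lv_or 3 r1 a with ⟨i, hi⟩ | hinf
    · have h1 : ¬ (M' + 1 ≤ i) := fun h => ha (by exact_mod_cast (hi.dvd gs.cohr).2 h)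
      exact ⟨i, by omega, hi, lv_same gs.cohr gy.cohr hr' (by omega) hi⟩
    · exact absurd (by exact_mod_cast hinf (M' + 1)) ha
  -- the base rows are aligned
  have hbase : ∀ b0 : ℤ, β' = some b0 → β = some (b0 + q) := by
    intro b0 hb0
    have h1 : β.isSome := by rw [S.bs, hb0]; rfl
    obtain ⟨b1, hb1⟩ := Option.isSome_iff_exists.1 h1
    have h2 := fx.inf b1 hb1
    have h3 := hrq b0 (fy.inf b0 hb0)
    rw [hb1, IsInf.unique (by norm_num) h2 h3]
  have hbase' : ∀ b1 : ℤ, β = some b1 → β' = some (b1 - q) := by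
    intro b1 hb1
    have h1 : β'.isSome := by rw [← S.bs, hb1]; rfl
    obtain ⟨b0, hb0⟩ := Option.isSome_iff_exists.1 h1
    have h2 := hbase b0 hb0
    rw [hb1] at h2
    have h3 := Option.some.inj h2
    rw [hb0, h3, add_sub_cancel_right]
  have hes : ∀ a b, he (sh (p, q) x) a b = he x (a + p) (b + q) := fun a b => rfl
  have ves : ∀ a b, ve (sh (p, q) x) a b = ve x (a + p) (b + q) := fun a b => rfl
  have ex : ∀ a b, (x (a, b)).l = he x (a - 1) b ∧ (x (a, b)).r = he x a b ∧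
      (x (a, b)).d = ve x a (b - 1) ∧ (x (a, b)).u = ve x a b := fun a b => (TX.eqs hx a b).2
  have ey : ∀ a b, (y (a, b)).l = he y (a - 1) b ∧ (y (a, b)).r = he y a b ∧
      (y (a, b)).d = ve y a (b - 1) ∧ (y (a, b)).u = ve y a b := fun a b => (TX.eqs hy a b).2
  refine ⟨sh (p, q) x, ⟨(p, q), rfl⟩, ?_⟩
  have key := window_eq (TX_sh hx (p, q)) hy gs gy (N := n) (M' := M') (R := R) (by omega) hc' hr'
    (fun a ha h => up hc' a (colInf a ha h)) (fun b hb h => up hr' b (rowInf b hb h)) ?_ ?_ ?_ ?_ ?_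
  · exact key
  · -- columns of infinite level
    intro a b ha hb h
    have ha' : IsInf 3 c' a := colInf a ha (down gs.cohc a h)
    have ha0 : IsInf 3 c (a + p) := hcp a ha'
    rw [ves]
    have vx : ∀ b, (∀ b1, IsInf 3 r b1 → b ≠ b1) → ve x (a + p) b = ve x (a + p) (b - 1) := by
      intro b hb
      rcases lv_or 3 r b with ⟨j, hj⟩ | hinf
      · exact fx.vinf _ b j ha0 hj
      · exact absurd rfl (hb b hinf)
    have vy : ∀ b, (∀ b1, IsInf 3 r' b1 → b ≠ b1) → ve y a b = ve y a (b - 1) := by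
      intro b hb
      rcases lv_or 3 r' b with ⟨j, hj⟩ | hinf
      · exact fy.vinf _ b j ha' hj
      · exact absurd rfl (hb b hinf)
    by_cases hRr : ∃ b1, IsInf 3 r' b1
    · obtain ⟨b', hb'⟩ := hRr
      have hb0 := hrq b' hb'
      have hcr := S.cross _ _ _ _ ha0 hb0 ha' hb'
      have vx' : ∀ b1, b1 ≠ b' + q → ve x (a + p) b1 = ve x (a + p) (b1 - 1) := fun b1 h1 =>
        vx b1 (fun b2 h2 => by rw [IsInf.unique (by norm_num) h2 hb0]; exact h1)
      have vy' : ∀ b1, b1 ≠ b' → ve y a b1 = ve y a (b1 - 1) := fun b1 h1 =>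
        vy b1 (fun b2 h2 => by rw [IsInf.unique (by norm_num) h2 hb']; exact h1)
      rcases le_or_gt b' b with hle | hlt
      · rw [cst_up (fun b1 => ve x (a + p) b1) (b' + q) (fun b1 h1 => vx' b1 (by omega)) (b + q) (by omega),
          cst_up (fun b1 => ve y a b1) b' (fun b1 h1 => vy' b1 (by omega)) b hle]
        show ve x (a + p) (b' + q) = ve y a b'
        rw [← (ex _ _).2.2.2, ← (ey _ _).2.2.2, hcr]
      · rw [cst_dn (fun b1 => ve x (a + p) b1) (b' + q) (fun b1 h1 => vx' b1 (by omega)) (b + q) (by omega),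
          cst_dn (fun b1 => ve y a b1) b' (fun b1 h1 => vy' b1 (by omega)) b hlt]
        show ve x (a + p) (b' + q - 1) = ve y a (b' - 1)
        rw [← (ex _ _).2.2.1, ← (ey _ _).2.2.1, hcr]
    · have hRx : ¬ ∃ b, IsInf 3 r b := fun h => hRr (S.row.1 h)
      have h1 := S.oc hRx _ _ ha0 ha'
      have h2 : ve x (a + p) (b + q) = ve x (a + p) 0 :=
        cst_all (fun b => ve x (a + p) b) (fun b => vx b (fun b1 h => absurd ⟨b1, h⟩ hRx)) _ _
      have h3 : ve y a b = ve y a 0 :=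
        cst_all (fun b => ve y a b) (fun b => vy b (fun b1 h => absurd ⟨b1, h⟩ hRr)) _ _
      rw [h2, h3, h1]
  · -- rows of infinite level
    intro a b ha hb h
    have hb' : IsInf 3 r' b := rowInf b hb (down gs.cohr b h)
    have hb0 : IsInf 3 r (b + q) := hrq b hb'
    rw [hes]
    have vx : ∀ a, (∀ a1, IsInf 3 c a1 → a ≠ a1) → he x a (b + q) = he x (a - 1) (b + q) := by
      intro a ha
      rcases lv_or 3 c a with ⟨j, hj⟩ | hinf
      · exact fx.hinf a _ j hb0 hj
      · exact absurd rfl (ha a hinf)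
    have vy : ∀ a, (∀ a1, IsInf 3 c' a1 → a ≠ a1) → he y a b = he y (a - 1) b := by
      intro a ha
      rcases lv_or 3 c' a with ⟨j, hj⟩ | hinf
      · exact fy.hinf a _ j hb' hj
      · exact absurd rfl (ha a hinf)
    by_cases hCc : ∃ a1, IsInf 3 c' a1
    · obtain ⟨a', ha'⟩ := hCc
      have ha0 := hcp a' ha'
      have hcr := S.cross _ _ _ _ ha0 hb0 ha' hb'
      have vx' : ∀ a1, a1 ≠ a' + p → he x a1 (b + q) = he x (a1 - 1) (b + q) := fun a1 h1 =>
        vx a1 (fun a2 h2 => by rw [IsInf.unique (by norm_num) h2 ha0]; exact h1)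
      have vy' : ∀ a1, a1 ≠ a' → he y a1 b = he y (a1 - 1) b := fun a1 h1 =>
        vy a1 (fun a2 h2 => by rw [IsInf.unique (by norm_num) h2 ha']; exact h1)
      rcases le_or_gt a' a with hle | hlt
      · rw [cst_up (fun a1 => he x a1 (b + q)) (a' + p) (fun a1 h1 => vx' a1 (by omega)) (a + p) (by omega),
          cst_up (fun a1 => he y a1 b) a' (fun a1 h1 => vy' a1 (by omega)) a hle]
        show he x (a' + p) (b + q) = he y a' b
        rw [← (ex _ _).2.1, ← (ey _ _).2.1, hcr]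
      · rw [cst_dn (fun a1 => he x a1 (b + q)) (a' + p) (fun a1 h1 => vx' a1 (by omega)) (a + p) (by omega),
          cst_dn (fun a1 => he y a1 b) a' (fun a1 h1 => vy' a1 (by omega)) a hlt]
        show he x (a' + p - 1) (b + q) = he y (a' - 1) b
        rw [← (ex _ _).1, ← (ey _ _).1, hcr]
    · have hCx : ¬ ∃ a, IsInf 3 c a := fun h => hCc (S.col.1 h)
      have h1 := S.orr hCx _ _ hb0 hb'
      have h2 : he x (a + p) (b + q) = he x 0 (b + q) :=
        cst_all (fun a => he x a (b + q)) (fun a => vx a (fun a1 h => absurd ⟨a1, h⟩ hCx)) _ _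
      have h3 : he y a b = he y 0 b :=
        cst_all (fun a => he y a b) (fun a => vy a (fun a1 h => absurd ⟨a1, h⟩ hCc)) _ _
      rw [h2, h3, h1]
  · -- the crossing
    intro a b ha hb h h'
    have ha' : IsInf 3 c' a := colInf a (by omega) (down gs.cohc a h)
    have hb' : IsInf 3 r' b := rowInf b (by omega) (down gs.cohr b h')
    have hcr := S.cross _ _ _ _ (hcp a ha') (hrq b hb') ha' hb'
    have e : (sh (p, q) x) (a, b) = x (a + p, b + q) := rfl
    rw [e, hcr]
    exact ⟨rfl, rfl⟩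
  · -- rows of low level
    intro a b ha hb h
    obtain ⟨j, -, hj1, hj2⟩ := hrowF b h
    have hj0 : IsLv 3 r (b + q) j := isLv_sh.1 hj1
    rw [hes]
    refine ⟨?_, ?_, ?_, ?_⟩
    · rw [fx.be _ _ j hj0, fy.be _ _ j hj2]
    · apply bool_iff
      rw [fx.ro _ _ j hj0, fy.ro _ _ j hj2]
      constructor
      · rintro ⟨b1, h1, t, h2⟩
        exact ⟨b1 - q, hbase' b1 h1, t, by omega⟩
      · rintro ⟨b0, h1, t, h2⟩
        exact ⟨b0 + q, hbase b0 h1, t, by omega⟩
    · rw [fx.ini _ _ j hj0, fy.ini _ _ j hj2]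
    · rw [fx.h _ _ j hj0, fy.h _ _ j hj2]
  · -- columns of low level
    intro a b ha hb h
    obtain ⟨i, -, hi1, hi2⟩ := hcolF a h
    have hi0 : IsLv 3 c (a + p) i := isLv_sh.1 hi1
    rw [ves]
    refine ⟨?_, ?_⟩
    · apply bool_iff
      rw [fx.u _ _ i hi0, fy.u _ _ i hi2]
      constructor
      · rintro ⟨b1, h1, h2, h3⟩
        exact ⟨b1 - q, hbase' b1 h1, by omega, by omega⟩
      · rintro ⟨b0, h1, h2, h3⟩
        exact ⟨b0 + q, hbase b0 h1, by omega, by omega⟩
    · rw [fx.w _ _ i hi0, fy.w _ _ i hi2]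

end

section

variable {K G : Type}

private theorem fin_HE [Finite K] [Finite G] (M : SM K G) : Finite (HE M) := by
  have := tile_finite M
  let v0 : VE M := ⟨0, 0, 0, 0, fun _ => 0, fun _ => 0, false, .blank⟩
  exact Finite.of_injective (fun h : HE M => (⟨h, h, v0, v0, 0, 0⟩ : Tile M))
    (fun a b h => by simpa using congrArg Tile.l h)

private theorem fin_VE [Finite K] [Finite G] (M : SM K G) : Finite (VE M) := by
  have := tile_finite M
  let h0 : HE M := ⟨0, 0, false, false, false, fun _ => 0, fun _ => 0, .blank⟩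
  exact Finite.of_injective (fun v : VE M => (⟨h0, h0, v, v, 0, 0⟩ : Tile M))
    (fun a b h => by simpa using congrArg Tile.d h)

end

theorem tame_type {K G : Type} [Finite K] [Finite G] [DecidableEq G] (M : SM K G) (mn : K)
    (cs : G) : ∃ (F : Type) (_ : Finite F) (ty : (ℤ × ℤ → Tile M) → F),
      ∀ x ∈ TX M mn cs, ∀ y ∈ TX M mn cs, Tame x → Tame y → ty x = ty y → y ∈ Cl (Orb x) := by
  classical
  have := fin_HE M
  have := fin_VE M
  have := tile_finite M
  have hch : ∀ x : ℤ × ℤ → Tile M, ∃ d : (ℕ → ℤ) × (ℕ → ℤ) × Option ℤ, x ∈ TX M mn cs → Tame x →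
      Geo x d.1 d.2.1 ∧ TF x d.1 d.2.1 d.2.2 := by
    intro x
    by_cases h : x ∈ TX M mn cs ∧ Tame x
    · obtain ⟨c, r, g⟩ := exists_geo h.1
      obtain ⟨β, f⟩ := tf_of h.1 g h.2
      exact ⟨(c, r, β), fun _ _ => ⟨g, f⟩⟩
    · exact ⟨(fun _ => 0, fun _ => 0, none), fun h1 h2 => absurd ⟨h1, h2⟩ h⟩
  choose D hD using hch
  refine ⟨Bool × Option (HE M) × Option (VE M) × Option (Tile M), inferInstance,
    fun x => tyd x (D x).1 (D x).2.1 (D x).2.2, ?_⟩
  intro x hx y hy tx ty h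
  obtain ⟨gx, fx⟩ := hD x hx tx
  obtain ⟨gy, fy⟩ := hD y hy ty
  exact tame_main hx hy gx gy fx fy (same_of h)

end H96.CK
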