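import Pool.Agent.H96.CK.Adic
import Pool.Agent.H96.CK.Cyc

/-!
# Module Tie (200 lines): two skeletons with the same digits have the same levels

`tie_same` (rows): let `r`, `r'` be coherent (base 3) and suppose that `r 1 = r' 1` mod 3 and that
every `y` which has level `i` for `r` and level `i'` for `r'` satisfies
`dig 3 i (y - r (i+1)) = dig 3 i' (y - r' (i'+1))`. Then `3 ^ n ∣ r n - r' n` for all `n`. Proof by
induction: suppose `3 ^ n ∣ r n - r' n`, `n ≥ 1`. Write `r (n+1) = r n + 3 ^ n u`,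
`r' (n+1) = r n + 3 ^ n u'` (mod `3 ^ (n+1)`). For `w` with `¬ 3 ∣ w - u`, `¬ 3 ∣ w - u'` the row
`y = r n + 3 ^ n w` has level `n` for both, so `(w - u) % 3 = (w - u') % 3` (`dig_eq`, `dig_congr`);
`phase` gives `3 ∣ u - u'`.

`tie_nine` (columns): `c` coherent in base 3, `c'` coherent in base 9, `9 ∣ c' 1 - c 2` is not
assumed; hypothesis: whenever `x` has level `i` for `c` (base 3) and level `i'` for `c'` (base 9), then
with `d = dig 3 i (x - c (i+1))` and `D = dig 9 i' (x - c' (i'+1))`: if `3 ∣ D` then `d = D / 3`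
else `d = D % 3`. Conclusion: `9 ^ n ∣ c' n - c (2 n)`. Induction: suppose it for `n`, write
`c' (n+1) = c (2n) + 9 ^ n U` mod `9 ^ (n+1)`, `c (2n+1) = c (2n) + 9 ^ n u` mod `3 ^ (2n+1)`,
`c (2n+2) = c (2n+1) + 3 ^ (2n+1) u'`. For `w` with `¬ 3 ∣ w - u`, `¬ 3 ∣ w - U` the column
`x = c (2n) + 9 ^ n w` has level `2n` for `c` with digit `(w - u) % 3` and level `n` for `c'` with
digit `(w - U) % 9`, not divisible by 3, so `(w - u) % 3 = (w - U) % 9 % 3 = (w - U) % 3`; `phase`: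
`3 ∣ u - U`. Now for `w = U + 3 w'` with `¬ 3 ∣ w'`: level `n` for `c'` with digit `3 (w' % 3)`; for
`c`: `x - c (2n+1) = 3 ^ (2n+1) (w' + (U - u) / 3 )` mod.. so its level is `2n+1` with digit
`(w' - t) % 3`, `t = u' - (U - u)/3`, if `¬ 3 ∣ w' - t`. `phase` again gives `3 ∣ t`, which is
`9 ∣ u + 3 u' - U`, that is `9 ^ (n+1) ∣ c' (n+1) - c (2n+2)`.
-/

namespace H96.CK

private theorem nine_pow (n : ℕ) : (9 : ℤ) ^ n = 3 ^ (2 * n) := by
  rw [pow_mul]
  norm_num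

private theorem coh3 {c : ℕ → ℤ} (hc : Coh 3 c) (n : ℕ) : (3 : ℤ) ^ n ∣ c (n + 1) - c n := by
  exact_mod_cast hc n

private theorem coh9 {c : ℕ → ℤ} (hc : Coh 9 c) (n : ℕ) : (9 : ℤ) ^ n ∣ c (n + 1) - c n := by
  exact_mod_cast hc n

private theorem lv3 {c : ℕ → ℤ} {x : ℤ} {i : ℕ} (h1 : (3 : ℤ) ^ i ∣ x - c i)
    (h2 : ¬ (3 : ℤ) ^ (i + 1) ∣ x - c (i + 1)) : IsLv 3 c x i :=
  ⟨by exact_mod_cast h1, by exact_mod_cast h2⟩

private theorem lv9 {c : ℕ → ℤ} {x : ℤ} {i : ℕ} (h1 : (9 : ℤ) ^ i ∣ x - c i)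
    (h2 : ¬ (9 : ℤ) ^ (i + 1) ∣ x - c (i + 1)) : IsLv 9 c x i :=
  ⟨by exact_mod_cast h1, by exact_mod_cast h2⟩

private theorem dig3 (n : ℕ) (w : ℤ) : (dig 3 n ((3 : ℤ) ^ n * w) : ℤ) = w % 3 := by
  exact_mod_cast dig_eq (a := 3) (by norm_num) n w

private theorem dig9 (n : ℕ) (w : ℤ) : (dig 9 n ((9 : ℤ) ^ n * w) : ℤ) = w % 9 := by
  exact_mod_cast dig_eq (a := 9) (by norm_num) n w

private theorem phase3 {u u' : ℤ}
    (h : ∀ w : ℤ, ¬ (3 : ℤ) ∣ w - u → ¬ (3 : ℤ) ∣ w - u' → (w - u) % 3 = (w - u') % 3) :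
    (3 : ℤ) ∣ u - u' := by
  have h1 := phase (a := 3) (u := u) (u' := u') (by norm_num) (by exact_mod_cast h)
  exact_mod_cast h1

private theorem not_dvd_mul {n : ℕ} {w : ℤ} (h : ¬ (3 : ℤ) ∣ w) : ¬ (3 : ℤ) ^ (n + 1) ∣ 3 ^ n * w := by
  intro h1
  rw [pow_succ] at h1
  exact h ((mul_dvd_mul_iff_left (by positivity)).1 h1)

theorem tie_same {r r' : ℕ → ℤ} (hr : Coh 3 r) (hr' : Coh 3 r') (h1 : (3 : ℤ) ∣ r 1 - r' 1)
    (h : ∀ y i i', IsLv 3 r y i → IsLv 3 r' y i' →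
      dig 3 i (y - r (i + 1)) = dig 3 i' (y - r' (i' + 1))) (n : ℕ) :
    (3 : ℤ) ^ n ∣ r n - r' n := by
  have _ := h1
  induction n with
  | zero => simp
  | succ n ih =>
    obtain ⟨u, hu⟩ := coh3 hr n
    obtain ⟨u0, hu0⟩ := coh3 hr' n
    obtain ⟨s, hs⟩ := ih
    -- `r' (n + 1) = r n + 3 ^ n * (u0 - s)`
    have e1 : r (n + 1) = r n + 3 ^ n * u := by linarith
    have e2 : r' (n + 1) = r n + 3 ^ n * (u0 - s) := by
      rw [mul_sub]
      linarith
    have hph : (3 : ℤ) ∣ u - (u0 - s) := by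
      apply phase3
      intro w hw hw'
      have f1 : r n + 3 ^ n * w - r (n + 1) = 3 ^ n * (w - u) := by rw [e1]; ring
      have f2 : r n + 3 ^ n * w - r' (n + 1) = 3 ^ n * (w - (u0 - s)) := by rw [e2]; ring
      have l1 : IsLv 3 r (r n + 3 ^ n * w) n := by
        refine lv3 ⟨w, by ring⟩ ?_
        rw [f1]
        exact not_dvd_mul hw
      have l2 : IsLv 3 r' (r n + 3 ^ n * w) n := by
        refine lv3 ⟨w + s, ?_⟩ ?_
        · rw [mul_add, ← hs]
          ring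
        · rw [f2]
          exact not_dvd_mul hw'
      have h2 := h _ _ _ l1 l2
      rw [f1, f2] at h2
      have h3 : ((dig 3 n (3 ^ n * (w - u)) : ℕ) : ℤ) = dig 3 n (3 ^ n * (w - (u0 - s))) := by
        exact_mod_cast h2
      rw [dig3, dig3] at h3
      exact h3
    obtain ⟨t, ht⟩ := hph
    refine ⟨t, ?_⟩
    rw [e1, e2, pow_succ]
    calc r n + 3 ^ n * u - (r n + 3 ^ n * (u0 - s)) = 3 ^ n * (u - (u0 - s)) := by ring
      _ = 3 ^ n * 3 * t := by rw [ht]; ring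

theorem tie_nine {c c' : ℕ → ℤ} (hc : Coh 3 c) (hc' : Coh 9 c')
    (h : ∀ x i i', IsLv 3 c x i → IsLv 9 c' x i' →
      dig 3 i (x - c (i + 1)) =
        if 3 ∣ dig 9 i' (x - c' (i' + 1)) then dig 9 i' (x - c' (i' + 1)) / 3
        else dig 9 i' (x - c' (i' + 1)) % 3) (n : ℕ) :
    (9 : ℤ) ^ n ∣ c' n - c (2 * n) := by
  induction n with
  | zero => simp
  | succ n ih =>
    obtain ⟨u, hu⟩ := coh3 hc (2 * n)
    obtain ⟨v, hv⟩ := coh3 hc (2 * n + 1)
    obtain ⟨U0, hU0⟩ := coh9 hc' n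
    obtain ⟨s0, hs0⟩ := ih
    have h9 := nine_pow n
    set U : ℤ := U0 + s0 with hU
    have e1 : c (2 * n + 1) = c (2 * n) + 3 ^ (2 * n) * u := by linarith
    have e2 : c' (n + 1) = c (2 * n) + 3 ^ (2 * n) * U := by
      rw [hU, mul_add, ← h9]
      linarith
    have e2' : c' n = c (2 * n) + 3 ^ (2 * n) * s0 := by
      rw [← h9]
      linarith
    have e3 : c (2 * n + 1 + 1) = c (2 * n) + 3 ^ (2 * n) * (u + 3 * v) := by
      have : c (2 * n + 1 + 1) = c (2 * n + 1) + 3 ^ (2 * n + 1) * v := by linarith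
      rw [this, e1, pow_succ]
      ring
    -- first digit
    have hph : (3 : ℤ) ∣ u - U := by
      apply phase3
      intro w hw hw'
      have f1 : c (2 * n) + 3 ^ (2 * n) * w - c (2 * n + 1) = 3 ^ (2 * n) * (w - u) := by
        rw [e1]; ring
      have f2 : c (2 * n) + 3 ^ (2 * n) * w - c' (n + 1) = 9 ^ n * (w - U) := by
        rw [e2, h9]; ring
      have l1 : IsLv 3 c (c (2 * n) + 3 ^ (2 * n) * w) (2 * n) := by
        refine lv3 ⟨w, by ring⟩ ?_
        rw [f1]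
        exact not_dvd_mul hw
      have l2 : IsLv 9 c' (c (2 * n) + 3 ^ (2 * n) * w) n := by
        refine lv9 ⟨w - s0, ?_⟩ ?_
        · rw [e2', h9]
          ring
        · rw [f2, pow_succ]
          intro h5
          have h6 := (mul_dvd_mul_iff_left (a := (9 : ℤ) ^ n) (by positivity)).1 h5
          exact hw' (dvd_trans (by norm_num) h6)
      have h2 := h _ _ _ l1 l2
      rw [f1, f2] at h2
      have d1 := dig3 (2 * n) (w - u)
      have d2 := dig9 n (w - U)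
      have hnd : ¬ 3 ∣ dig 9 n (9 ^ n * (w - U)) := by
        intro h5
        apply hw'
        have h6 : (3 : ℤ) ∣ ((dig 9 n (9 ^ n * (w - U)) : ℕ) : ℤ) := by exact_mod_cast h5
        rw [d2] at h6
        omega
      rw [if_neg hnd] at h2
      have h3 : ((dig 3 (2 * n) (3 ^ (2 * n) * (w - u)) : ℕ) : ℤ) =
          ((dig 9 n (9 ^ n * (w - U)) : ℕ) : ℤ) % 3 := by exact_mod_cast h2
      rw [d1, d2] at h3
      omega
    obtain ⟨s, hs⟩ := hph
    -- second digit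
    have hph2 : (3 : ℤ) ∣ (s + v) - 0 := by
      apply phase3
      intro w hw hw'
      rw [sub_zero] at hw'
      have hsu : U = u - 3 * s := by linarith
      have f1 : c (2 * n) + 3 ^ (2 * n) * (U + 3 * w) - c (2 * n + 1) = 3 ^ (2 * n + 1) * (w - s) := by
        rw [e1, hsu, pow_succ]; ring
      have f1' : c (2 * n) + 3 ^ (2 * n) * (U + 3 * w) - c (2 * n + 1 + 1) =
          3 ^ (2 * n + 1) * (w - (s + v)) := by
        rw [e3, hsu, pow_succ]; ring
      have f2 : c (2 * n) + 3 ^ (2 * n) * (U + 3 * w) - c' (n + 1) = 9 ^ n * (3 * w) := by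
        rw [e2, h9]; ring
      have l1 : IsLv 3 c (c (2 * n) + 3 ^ (2 * n) * (U + 3 * w)) (2 * n + 1) := by
        refine lv3 ⟨w - s, f1⟩ ?_
        rw [f1']
        exact not_dvd_mul hw
      have l2 : IsLv 9 c' (c (2 * n) + 3 ^ (2 * n) * (U + 3 * w)) n := by
        refine lv9 ⟨U + 3 * w - s0, ?_⟩ ?_
        · rw [e2', h9]
          ring
        · rw [f2, pow_succ]
          intro h5
          have h6 := (mul_dvd_mul_iff_left (a := (9 : ℤ) ^ n) (by positivity)).1 h5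
          apply hw'
          omega
      have h2 := h _ _ _ l1 l2
      rw [f1', f2] at h2
      have d1 := dig3 (2 * n + 1) (w - (s + v))
      have d2 := dig9 n (3 * w)
      have hd : 3 ∣ dig 9 n (9 ^ n * (3 * w)) := by
        have h6 : (3 : ℤ) ∣ ((dig 9 n (9 ^ n * (3 * w)) : ℕ) : ℤ) := by
          rw [d2]
          omega
        exact_mod_cast h6
      rw [if_pos hd] at h2
      have h3 : ((dig 3 (2 * n + 1) (3 ^ (2 * n + 1) * (w - (s + v))) : ℕ) : ℤ) =
          ((dig 9 n (9 ^ n * (3 * w)) : ℕ) : ℤ) / 3 := by exact_mod_cast h2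
      rw [d1, d2] at h3
      rw [sub_zero]
      omega
    obtain ⟨t, ht⟩ := hph2
    refine ⟨-t, ?_⟩
    have e4 : c (2 * (n + 1)) = c (2 * n) + 3 ^ (2 * n) * (u + 3 * v) := by
      rw [← e3]
      congr 1
    rw [e2, e4, pow_succ, h9]
    have hu' : u = U + 3 * s := by linarith
    have hv' : v = 3 * t - s := by linarith
    rw [hu', hv']
    ring

/-- levels in base 9 and base 3 -/
theorem lv_nine {c c' : ℕ → ℤ} (hc : Coh 3 c) (h : ∀ n, (9 : ℤ) ^ n ∣ c' n - c (2 * n))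
    {x : ℤ} {i : ℕ} (hx : IsLv 3 c x i) : IsLv 9 c' x (i / 2) := by
  have key : ∀ n, (9 : ℤ) ^ n ∣ x - c' n ↔ 2 * n ≤ i := by
    intro n
    rw [← hx.dvd hc (n := 2 * n)]
    have h1 := h n
    have e : x - c (2 * n) = (x - c' n) + (c' n - c (2 * n)) := by ring
    rw [e, nine_pow]
    rw [nine_pow] at h1
    push_cast
    exact (dvd_add_left h1).symm
  refine lv9 ((key _).2 (by omega)) fun h1 => ?_
  have := (key _).1 h1
  omega

theorem inf_nine {c c' : ℕ → ℤ} (hc : Coh 3 c) (h : ∀ n, (9 : ℤ) ^ n ∣ c' n - c (2 * n))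
    {x : ℤ} : IsInf 3 c x ↔ IsInf 9 c' x := by
  constructor
  · intro hx n
    have h1 := hx (2 * n)
    have h2 := h n
    push_cast at h1 ⊢
    rw [nine_pow] at h2 ⊢
    have e : x - c' n = (x - c (2 * n)) - (c' n - c (2 * n)) := by ring
    rw [e]
    exact dvd_sub h1 h2
  · intro hx n
    have h1 := hx n
    have h2 := h n
    have h3 := coh_le hc (show n ≤ 2 * n by omega)
    push_cast at h1 h3 ⊢
    rw [nine_pow] at h1 h2
    have e : x - c n = (x - c' n) + (c' n - c (2 * n)) + (c (2 * n) - c n) := by ring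
    rw [e]
    have h4 : (3 : ℤ) ^ n ∣ 3 ^ (2 * n) := pow_dvd_pow _ (by omega)
    exact dvd_add (dvd_add (h4.trans h1) (h4.trans h2)) h3

end H96.CK
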