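import Pool.Agent.H96.CK.SkDef
import Pool.Agent.H96.CK.Lane

/-!
# The tiles (definitions)

A tile has labels on its four edges and two states. Horizontal edges (`HE`, constant along a row in
the components `n, dy, be, ro`): residue and digit of the row, `be`: base row, `ro`: companion row,
`ini`: start signal on the base row, the row signals `pA`, `pB` of the two skeletons (index `k + 1` for
position `k = -1, 0, 1`), the lane label `h`. Vertical edges (`VE`, constant along a column in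
`mA, mB, dA, dB`): residues and digits of the column in base 3 and 9, column signals, `u`: no row of
higher level and no base row since the base row, and the wire label `w`.
`TX M mn cs`: the set of legal configurations. (`x (a, b)`: column `a`, row `b`.)
-/

namespace H96.CK

variable {K G : Type}

structure HE (M : SM K G) where
  n : Fin 3
  dy : Fin 3
  be : Bool
  ro : Bool
  ini : Bool
  pA : Fin 3 → Fin 3
  pB : Fin 3 → Fin 9
  h : HL M

structure VE (M : SM K G) where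
  mA : Fin 3
  mB : Fin 9
  dA : Fin 3
  dB : Fin 9
  eA : Fin 3 → Fin 3
  eB : Fin 3 → Fin 3
  u : Bool
  w : WL M

structure Tile (M : SM K G) where
  l : HE M
  r : HE M
  d : VE M
  u : VE M
  sA : Fin 5
  sB : Fin 5

/-- the state of skeleton A as a number in `-2 .. 2` -/
def Tile.tA {M : SM K G} (t : Tile M) : ℤ := (t.sA : ℤ) - 2

def Tile.tB {M : SM K G} (t : Tile M) : ℤ := (t.sB : ℤ) - 2

section Ok

variable [DecidableEq G] (M : SM K G) (mn : K) (cs : G)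

/-- constant components -/
structure Tile.OkC (t : Tile M) : Prop where
  n : t.r.n = t.l.n
  dy : t.r.dy = t.l.dy
  be : t.r.be = t.l.be
  ro : t.r.ro = t.l.ro
  mA : t.u.mA = t.d.mA
  mB : t.u.mB = t.d.mB
  dA : t.u.dA = t.d.dA
  dB : t.u.dB = t.d.dB
  tie : (t.d.dA : ℕ) = if 3 ∣ (t.d.dB : ℕ) then (t.d.dB : ℕ) / 3 else (t.d.dB : ℕ) % 3

/-- the rules of the skeletons -/
structure Tile.OkS (t : Tile M) : Prop where
  dAm : t.d.mA ≠ 0 → t.d.dA = t.d.mA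
  dBm : t.d.mB ≠ 0 → t.d.dB = t.d.mB
  dyn : t.l.n ≠ 0 → t.l.dy = t.l.n
  a00 : t.d.mA ≠ 0 → t.l.n ≠ 0 → t.tA = 0
  a01 : t.d.mA ≠ 0 → t.l.n = 0 → 1 ≤ t.tA
  a10 : t.d.mA = 0 → t.l.n ≠ 0 → t.tA ≤ -1
  b00 : t.d.mB ≠ 0 → t.l.n ≠ 0 → t.tB = 0
  b01 : t.d.mB ≠ 0 → t.l.n = 0 → 1 ≤ t.tB
  b10 : t.d.mB = 0 → t.l.n ≠ 0 → t.tB ≤ -1
  rowA : ∀ k : Fin 3, (k = 0 → t.l.n = 0) →
    Stp 3 (-t.tA) ((k : ℤ) - 1) (t.l.pA k) (t.r.pA k) t.d.dA
  rowB : ∀ k : Fin 3, (k = 0 → t.l.n = 0) →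
    Stp 9 (-t.tB) ((k : ℤ) - 1) (t.l.pB k) (t.r.pB k) t.d.dB
  rowA0 : t.l.n ≠ 0 → t.r.pA 0 = 0
  rowB0 : t.l.n ≠ 0 → t.r.pB 0 = 0
  colA : ∀ k : Fin 3, (k = 0 → t.d.mA = 0) →
    Stp 3 t.tA ((k : ℤ) - 1) (t.d.eA k) (t.u.eA k) t.l.dy
  colB : ∀ k : Fin 3, (k = 0 → t.d.mB = 0) →
    Stp 3 t.tB ((k : ℤ) - 1) (t.d.eB k) (t.u.eB k) t.l.dy
  colA0 : t.d.mA ≠ 0 → t.u.eA 0 = 0
  colB0 : t.d.mB ≠ 0 → t.u.eB 0 = 0

/-- base row, companion rows, wires and lanes -/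
structure Tile.OkL (t : Tile M) : Prop where
  base : t.l.be = true → t.tA = 2 ∧ t.tB = 2 ∧ t.l.ro = false ∧ t.l.n = 0 ∧ t.l.dy = 1 ∧
    (∀ k, t.l.pA k = 0 ∧ t.l.pB k = 0 ∧ t.r.pA k = 0 ∧ t.r.pB k = 0) ∧
    t.d.u = false ∧ t.u.u = true ∧ t.d.w = .blank ∧ t.l.h = .blank ∧ t.r.h = .blank ∧
    (t.u.w = .blank ∨ t.u.w = .P ∨ t.u.w = .I0) ∧ (t.r.ini = true ↔ t.u.w = .P) ∧
    (t.l.ini = true ↔ t.u.w = .I0)
  nini : t.l.be = false → t.l.ini = false ∧ t.r.ini = false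
  ur : t.l.be = false → 0 < t.tA → t.u.u = false
  uc : t.l.be = false → t.tA ≤ 0 → t.u.u = t.d.u
  roE : t.tA = 0 → (t.l.ro = true ↔ t.d.u = true ∧ t.l.dy = 1)
  wd : t.d.u = false → t.d.w = .blank
  wu : t.u.u = false → t.u.w = .blank
  wr : t.l.be = false → 0 < t.tA → t.d.w = .blank
  h0 : t.l.ro = false → t.l.h = .blank ∧ t.r.h = .blank
  we : t.l.ro = false → t.tA = 0 → t.d.w = .blank ∧ t.u.w = .blank
  wc : t.l.ro = false → t.tA < 0 → t.u.w = t.d.w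
  hr : t.l.ro = true → 0 < t.tA → t.r.h = t.l.h
  lane : t.l.ro = true → t.tA ≤ 0 →
    LRule M mn cs t.tA t.tB t.d.dA t.d.dB t.l.h t.r.h t.d.w t.u.w

structure Tile.Ok (t : Tile M) : Prop where
  c : t.OkC M
  s : t.OkS M
  l : t.OkL M mn cs

/-- rule for horizontal neighbours -/
def THor (t t' : Tile M) : Prop :=
  t.Ok M mn cs ∧ t'.Ok M mn cs ∧ t.r = t'.l ∧ t'.d.mA = t.d.mA + 1 ∧ t'.d.mB = t.d.mB + 1

/-- rule for vertical neighbours -/
def TVer (t t' : Tile M) : Prop := t.u = t'.d ∧ t'.l.n = t.l.n + 1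

/-- the legal configurations -/
def TX : Set (ℤ × ℤ → Tile M) :=
  {x | ∀ a b, THor M mn cs (x (a, b)) (x (a + 1, b)) ∧ TVer M (x (a, b)) (x (a, b + 1))}

end Ok

/-- translation -/
def sh {T : Type} (p : ℤ × ℤ) (x : ℤ × ℤ → T) : ℤ × ℤ → T := fun q => x (q.1 + p.1, q.2 + p.2)

def Orb {T : Type} (x : ℤ × ℤ → T) : Set (ℤ × ℤ → T) := {y | ∃ p, y = sh p x}

/-- closure: `y` agrees with elements of `S` on all windows -/
def Cl {T : Type} (S : Set (ℤ × ℤ → T)) : Set (ℤ × ℤ → T) :=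
  {y | ∀ n : ℕ, ∃ x ∈ S, ∀ a b : ℤ, |a| ≤ n → |b| ≤ n → x (a, b) = y (a, b)}

/-- closed and invariant sets of legal configurations -/
def SubSys {T : Type} (X : Set (ℤ × ℤ → T)) : Set (Set (ℤ × ℤ → T)) :=
  {Z | Z ⊆ X ∧ Cl Z ⊆ Z ∧ ∀ x ∈ Z, ∀ p, sh p x ∈ Z}

section Edges

variable {M : SM K G}

/-- label of the edge on the right of the cell `(a, b)` -/
def he (x : ℤ × ℤ → Tile M) (a b : ℤ) : HE M := (x (a, b)).r

/-- label of the edge above the cell `(a, b)` -/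
def ve (x : ℤ × ℤ → Tile M) (a b : ℤ) : VE M := (x (a, b)).u

def skA (x : ℤ × ℤ → Tile M) : Sk where
  s a b := (x (a, b)).tA
  m a := (x (a, 0)).d.mA
  dx a := (x (a, 0)).d.dA
  n b := (x (0, b)).l.n
  dy b := (x (0, b)).l.dy
  p k a b := if k = -1 then (he x a b).pA 0 else if k = 0 then (he x a b).pA 1
    else (he x a b).pA 2
  e k a b := if k = -1 then (ve x a b).eA 0 else if k = 0 then (ve x a b).eA 1
    else (ve x a b).eA 2

def skB (x : ℤ × ℤ → Tile M) : Sk where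
  s a b := (x (a, b)).tB
  m a := (x (a, 0)).d.mB
  dx a := (x (a, 0)).d.dB
  n b := (x (0, b)).l.n
  dy b := (x (0, b)).l.dy
  p k a b := if k = -1 then (he x a b).pB 0 else if k = 0 then (he x a b).pB 1
    else (he x a b).pB 2
  e k a b := if k = -1 then (ve x a b).eB 0 else if k = 0 then (ve x a b).eB 1
    else (ve x a b).eB 2

end Edges

end H96.CK
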