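import Pool.Agent.H96.CK.Tile
import Pool.Agent.H96.CK.SkMain
import Pool.Agent.H96.CK.Tie

/-!
# Module TileSk (250 lines): the geometry of a legal configuration

`TX.eqs`: matching: `he x (a-1) b = (x (a,b)).l`, `ve x a (b-1) = (x (a,b)).d`.
`TX.rowc`, `TX.colc`: the components `n, dy, be, ro` are constant along rows, `mA, mB, dA, dB` along columns
(`Int.induction_on`).
`skA_ok : (skA x).Ok 3 3`, `skB_ok : (skB x).Ok 9 3`: unfold; every field is a field of `Tile.OkS` (by the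
constancy the labels at `(a, 0)`, `(0, b)` are those at `(a, b)`); `Fin` values are `< 3`, `< 9`; `m_succ`: from `THor`
(`Fin.val_add`: `(m + 1 : Fin 3)` has value `(m + 1) % 3`).
`exists_geo`: `Sk.Ok.main` gives `c, r` for `skA x` and `c', r'` for `skB x`. The rows: `n` and `dy` are the same for both, so
`tie_same` gives `3 ^ n ∣ r n - r' n`, so `IsLv 3 r`, `IsInf 3 r` and the digits are the same for `r` and `r'`. The columns:
`OkC.tie` is the hypothesis of `tie_nine`, so `9 ^ n ∣ c' n - c (2 n)`; `lv_nine`, `inf_nine` turn levels of `c'` into halves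
of levels of `c`, `dig_congr` replaces `c' (n)` by `c (2 n)`.
-/

namespace H96.CK

variable {K G : Type} [DecidableEq G] {M : SM K G} {mn : K} {cs : G}

theorem TX.eqs {x : ℤ × ℤ → Tile M} (hx : x ∈ TX M mn cs) (a b : ℤ) :
    (x (a, b)).Ok M mn cs ∧ (x (a, b)).l = he x (a - 1) b ∧ (x (a, b)).r = he x a b ∧
      (x (a, b)).d = ve x a (b - 1) ∧ (x (a, b)).u = ve x a b := by
  refine ⟨(hx a b).1.1, ?_, rfl, ?_, rfl⟩
  · have h := (hx (a - 1) b).1.2.2.1
    rw [sub_add_cancel] at h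
    exact h.symm
  · have h := (hx a (b - 1)).2.1
    rw [sub_add_cancel] at h
    exact h.symm

private theorem const_step {α : Type} {f : ℤ → α} (h : ∀ a, f (a + 1) = f a) (a a' : ℤ) :
    f a = f a' := by
  have key : ∀ a, f a = f 0 := by
    intro a
    induction a using Int.induction_on with
    | zero => rfl
    | succ n ih => rw [h, ih]
    | pred n ih =>
      have h1 := h (-(n : ℤ) - 1)
      rw [sub_add_cancel] at h1
      rw [← h1, ih]
  rw [key a, key a']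

theorem TX.rowc {x : ℤ × ℤ → Tile M} (hx : x ∈ TX M mn cs) (a a' b : ℤ) :
    (he x a b).n = (he x a' b).n ∧ (he x a b).dy = (he x a' b).dy ∧
      (he x a b).be = (he x a' b).be ∧ (he x a b).ro = (he x a' b).ro := by
  have hm : ∀ c : ℤ, (x (c + 1, b)).l = he x c b := by
    intro c
    have h := (TX.eqs hx (c + 1) b).2.1
    rwa [add_sub_cancel_right] at h
  have hc : ∀ c : ℤ, (x (c, b)).OkC M := fun c => (TX.eqs hx c b).1.c
  refine ⟨?_, ?_, ?_, ?_⟩
  · exact const_step (f := fun c => (he x c b).n) (fun c => by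
      change (x (c + 1, b)).r.n = _
      rw [(hc (c + 1)).n, hm]) a a'
  · exact const_step (f := fun c => (he x c b).dy) (fun c => by
      change (x (c + 1, b)).r.dy = _
      rw [(hc (c + 1)).dy, hm]) a a'
  · exact const_step (f := fun c => (he x c b).be) (fun c => by
      change (x (c + 1, b)).r.be = _
      rw [(hc (c + 1)).be, hm]) a a'
  · exact const_step (f := fun c => (he x c b).ro) (fun c => by
      change (x (c + 1, b)).r.ro = _
      rw [(hc (c + 1)).ro, hm]) a a'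

theorem TX.colc {x : ℤ × ℤ → Tile M} (hx : x ∈ TX M mn cs) (a b b' : ℤ) :
    (ve x a b).mA = (ve x a b').mA ∧ (ve x a b).mB = (ve x a b').mB ∧
      (ve x a b).dA = (ve x a b').dA ∧ (ve x a b).dB = (ve x a b').dB := by
  have hm : ∀ c : ℤ, (x (a, c + 1)).d = ve x a c := by
    intro c
    have h := (TX.eqs hx a (c + 1)).2.2.2.1
    rwa [add_sub_cancel_right] at h
  have hc : ∀ c : ℤ, (x (a, c)).OkC M := fun c => (TX.eqs hx a c).1.c
  refine ⟨?_, ?_, ?_, ?_⟩
  · exact const_step (f := fun c => (ve x a c).mA) (fun c => by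
      change (x (a, c + 1)).u.mA = _
      rw [(hc (c + 1)).mA, hm]) b b'
  · exact const_step (f := fun c => (ve x a c).mB) (fun c => by
      change (x (a, c + 1)).u.mB = _
      rw [(hc (c + 1)).mB, hm]) b b'
  · exact const_step (f := fun c => (ve x a c).dA) (fun c => by
      change (x (a, c + 1)).u.dA = _
      rw [(hc (c + 1)).dA, hm]) b b'
  · exact const_step (f := fun c => (ve x a c).dB) (fun c => by
      change (x (a, c + 1)).u.dB = _
      rw [(hc (c + 1)).dB, hm]) b b'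

private theorem dcol {x : ℤ × ℤ → Tile M} (hx : x ∈ TX M mn cs) (a b : ℤ) :
    (x (a, 0)).d.mA = (x (a, b)).d.mA ∧ (x (a, 0)).d.mB = (x (a, b)).d.mB ∧
      (x (a, 0)).d.dA = (x (a, b)).d.dA ∧ (x (a, 0)).d.dB = (x (a, b)).d.dB := by
  rw [(TX.eqs hx a b).2.2.2.1, (TX.eqs hx a 0).2.2.2.1]
  exact TX.colc hx a _ _

private theorem lrow {x : ℤ × ℤ → Tile M} (hx : x ∈ TX M mn cs) (a b : ℤ) :
    (x (0, b)).l.n = (x (a, b)).l.n ∧ (x (0, b)).l.dy = (x (a, b)).l.dy := by
  rw [(TX.eqs hx a b).2.1, (TX.eqs hx 0 b).2.1]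
  exact ⟨(TX.rowc hx _ _ b).1, (TX.rowc hx _ _ b).2.1⟩

private theorem fin_cast_ne {n : ℕ} [NeZero n] {k : Fin n} (h : (k : ℕ) ≠ 0) : k ≠ 0 := by
  rintro rfl
  exact h (by simp)

private theorem fin_cast_eq {n : ℕ} [NeZero n] {k : Fin n} (h : (k : ℕ) = 0) : k = 0 :=
  Fin.ext (by simpa using h)

private theorem k_cases {k : ℤ} (h1 : -1 ≤ k) (h2 : k ≤ 1) :
    ∃ q : Fin 3, k = (q : ℤ) - 1 ∧ (q = 0 → k = -1) := by
  have h : k = -1 ∨ k = 0 ∨ k = 1 := by omega
  rcases h with rfl | rfl | rfl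
  · exact ⟨0, by simp, fun _ => rfl⟩
  · exact ⟨1, by simp, fun h => absurd h (by decide)⟩
  · exact ⟨2, by simp, fun h => absurd h (by decide)⟩

private theorem sel {α : Type} (f : Fin 3 → α) (q : Fin 3) :
    (if ((q : ℤ) - 1) = -1 then f 0 else if ((q : ℤ) - 1) = 0 then f 1 else f 2) = f q := by
  fin_cases q <;> simp

omit [DecidableEq G] in
private theorem skA_p (x : ℤ × ℤ → Tile M) (q : Fin 3) (a b : ℤ) :
    (skA x).p ((q : ℤ) - 1) a b = ((he x a b).pA q : ℕ) :=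
  sel (fun q => ((he x a b).pA q : ℕ)) q

omit [DecidableEq G] in
private theorem skB_p (x : ℤ × ℤ → Tile M) (q : Fin 3) (a b : ℤ) :
    (skB x).p ((q : ℤ) - 1) a b = ((he x a b).pB q : ℕ) :=
  sel (fun q => ((he x a b).pB q : ℕ)) q

omit [DecidableEq G] in
private theorem skA_e (x : ℤ × ℤ → Tile M) (q : Fin 3) (a b : ℤ) :
    (skA x).e ((q : ℤ) - 1) a b = ((ve x a b).eA q : ℕ) :=
  sel (fun q => ((ve x a b).eA q : ℕ)) q

omit [DecidableEq G] in
private theorem skB_e (x : ℤ × ℤ → Tile M) (q : Fin 3) (a b : ℤ) :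
    (skB x).e ((q : ℤ) - 1) a b = ((ve x a b).eB q : ℕ) :=
  sel (fun q => ((ve x a b).eB q : ℕ)) q

private theorem mA_succ {x : ℤ × ℤ → Tile M} (hx : x ∈ TX M mn cs) (a : ℤ) :
    (((x (a + 1, 0)).d.mA : Fin 3) : ℕ) = ((((x (a, 0)).d.mA : Fin 3) : ℕ) + 1) % 3 := by
  rw [(hx a 0).1.2.2.2.1, Fin.val_add]
  rfl

private theorem mB_succ {x : ℤ × ℤ → Tile M} (hx : x ∈ TX M mn cs) (a : ℤ) :
    (((x (a + 1, 0)).d.mB : Fin 9) : ℕ) = ((((x (a, 0)).d.mB : Fin 9) : ℕ) + 1) % 9 := by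
  rw [(hx a 0).1.2.2.2.2, Fin.val_add]
  rfl

private theorem n_succ' {x : ℤ × ℤ → Tile M} (hx : x ∈ TX M mn cs) (b : ℤ) :
    (((x (0, b + 1)).l.n : Fin 3) : ℕ) = ((((x (0, b)).l.n : Fin 3) : ℕ) + 1) % 3 := by
  rw [(hx 0 b).2.2, Fin.val_add]
  rfl

private theorem skA_ok {x : ℤ × ℤ → Tile M} (hx : x ∈ TX M mn cs) : (skA x).Ok 3 3 where
  s_lo a b := by
    change -2 ≤ (((x (a, b)).sA : ℕ) : ℤ) - 2
    omega
  s_hi a b := by
    change (((x (a, b)).sA : ℕ) : ℤ) - 2 ≤ 2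
    have := (x (a, b)).sA.isLt
    omega
  m_lt a := (x (a, 0)).d.mA.isLt
  m_succ a := mA_succ hx a
  n_lt b := (x (0, b)).l.n.isLt
  n_succ b := n_succ' hx b
  dx_m a h := by
    change (((x (a, 0)).d.dA : Fin 3) : ℕ) = (((x (a, 0)).d.mA : Fin 3) : ℕ)
    rw [(TX.eqs hx a 0).1.s.dAm (fin_cast_ne h)]
  dy_n b h := by
    change (((x (0, b)).l.dy : Fin 3) : ℕ) = (((x (0, b)).l.n : Fin 3) : ℕ)
    rw [(TX.eqs hx 0 b).1.s.dyn (fin_cast_ne h)]
  s00 a b h1 h2 := by
    have h1' := fin_cast_ne h1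
    have h2' := fin_cast_ne h2
    rw [(dcol hx a b).1] at h1'
    rw [(lrow hx a b).1] at h2'
    exact (TX.eqs hx a b).1.s.a00 h1' h2'
  s01 a b h1 h2 := by
    have h1' := fin_cast_ne h1
    have h2' := fin_cast_eq h2
    rw [(dcol hx a b).1] at h1'
    rw [(lrow hx a b).1] at h2'
    exact (TX.eqs hx a b).1.s.a01 h1' h2'
  s10 a b h1 h2 := by
    have h1' := fin_cast_eq h1
    have h2' := fin_cast_ne h2
    rw [(dcol hx a b).1] at h1'
    rw [(lrow hx a b).1] at h2'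
    exact (TX.eqs hx a b).1.s.a10 h1' h2'
  p_lt k a b := by
    change (if k = -1 then (((he x a b).pA 0 : Fin 3) : ℕ) else if k = 0 then (((he x a b).pA 1 : Fin 3) : ℕ)
      else (((he x a b).pA 2 : Fin 3) : ℕ)) < 3
    split_ifs <;> exact Fin.isLt _
  e_lt k a b := by
    change (if k = -1 then (((ve x a b).eA 0 : Fin 3) : ℕ) else if k = 0 then (((ve x a b).eA 1 : Fin 3) : ℕ)
      else (((ve x a b).eA 2 : Fin 3) : ℕ)) < 3
    split_ifs <;> exact Fin.isLt _
  row k a b h1 h2 h3 := by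
    obtain ⟨q, rfl, hq⟩ := k_cases h1 h2
    rw [skA_p, skA_p]
    have h4 := (TX.eqs hx a b).1.s.rowA q (fun h => by
      rw [← (lrow hx a b).1]
      exact fin_cast_eq (h3 (hq h)))
    rw [(TX.eqs hx a b).2.1, ← (dcol hx a b).2.2.1] at h4
    exact h4
  row0 a b h := by
    have h2' := fin_cast_ne h
    rw [(lrow hx a b).1] at h2'
    have h4 := (TX.eqs hx a b).1.s.rowA0 h2'
    change (((he x a b).pA 0 : Fin 3) : ℕ) = 0
    change (he x a b).pA 0 = 0 at h4
    rw [h4]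
    rfl
  col k a b h1 h2 h3 := by
    obtain ⟨q, rfl, hq⟩ := k_cases h1 h2
    rw [skA_e, skA_e]
    have h4 := (TX.eqs hx a b).1.s.colA q (fun h => by
      rw [← (dcol hx a b).1]
      exact fin_cast_eq (h3 (hq h)))
    rw [(TX.eqs hx a b).2.2.2.1, ← (lrow hx a b).2] at h4
    exact h4
  col0 a b h := by
    have h2' := fin_cast_ne h
    rw [(dcol hx a b).1] at h2'
    have h4 := (TX.eqs hx a b).1.s.colA0 h2'
    change (((ve x a b).eA 0 : Fin 3) : ℕ) = 0
    change (ve x a b).eA 0 = 0 at h4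
    rw [h4]
    rfl

private theorem skB_ok {x : ℤ × ℤ → Tile M} (hx : x ∈ TX M mn cs) : (skB x).Ok 9 3 where
  s_lo a b := by
    change -2 ≤ (((x (a, b)).sB : ℕ) : ℤ) - 2
    omega
  s_hi a b := by
    change (((x (a, b)).sB : ℕ) : ℤ) - 2 ≤ 2
    have := (x (a, b)).sB.isLt
    omega
  m_lt a := (x (a, 0)).d.mB.isLt
  m_succ a := mB_succ hx a
  n_lt b := (x (0, b)).l.n.isLt
  n_succ b := n_succ' hx b
  dx_m a h := by
    change (((x (a, 0)).d.dB : Fin 9) : ℕ) = (((x (a, 0)).d.mB : Fin 9) : ℕ)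
    rw [(TX.eqs hx a 0).1.s.dBm (fin_cast_ne h)]
  dy_n b h := by
    change (((x (0, b)).l.dy : Fin 3) : ℕ) = (((x (0, b)).l.n : Fin 3) : ℕ)
    rw [(TX.eqs hx 0 b).1.s.dyn (fin_cast_ne h)]
  s00 a b h1 h2 := by
    have h1' := fin_cast_ne h1
    have h2' := fin_cast_ne h2
    rw [(dcol hx a b).2.1] at h1'
    rw [(lrow hx a b).1] at h2'
    exact (TX.eqs hx a b).1.s.b00 h1' h2'
  s01 a b h1 h2 := by
    have h1' := fin_cast_ne h1
    have h2' := fin_cast_eq h2
    rw [(dcol hx a b).2.1] at h1'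
    rw [(lrow hx a b).1] at h2'
    exact (TX.eqs hx a b).1.s.b01 h1' h2'
  s10 a b h1 h2 := by
    have h1' := fin_cast_eq h1
    have h2' := fin_cast_ne h2
    rw [(dcol hx a b).2.1] at h1'
    rw [(lrow hx a b).1] at h2'
    exact (TX.eqs hx a b).1.s.b10 h1' h2'
  p_lt k a b := by
    change (if k = -1 then (((he x a b).pB 0 : Fin 9) : ℕ) else if k = 0 then (((he x a b).pB 1 : Fin 9) : ℕ)
      else (((he x a b).pB 2 : Fin 9) : ℕ)) < 9
    split_ifs <;> exact Fin.isLt _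
  e_lt k a b := by
    change (if k = -1 then (((ve x a b).eB 0 : Fin 3) : ℕ) else if k = 0 then (((ve x a b).eB 1 : Fin 3) : ℕ)
      else (((ve x a b).eB 2 : Fin 3) : ℕ)) < 3
    split_ifs <;> exact Fin.isLt _
  row k a b h1 h2 h3 := by
    obtain ⟨q, rfl, hq⟩ := k_cases h1 h2
    rw [skB_p, skB_p]
    have h4 := (TX.eqs hx a b).1.s.rowB q (fun h => by
      rw [← (lrow hx a b).1]
      exact fin_cast_eq (h3 (hq h)))
    rw [(TX.eqs hx a b).2.1, ← (dcol hx a b).2.2.2] at h4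
    exact h4
  row0 a b h := by
    have h2' := fin_cast_ne h
    rw [(lrow hx a b).1] at h2'
    have h4 := (TX.eqs hx a b).1.s.rowB0 h2'
    change (((he x a b).pB 0 : Fin 9) : ℕ) = 0
    change (he x a b).pB 0 = 0 at h4
    rw [h4]
    rfl
  col k a b h1 h2 h3 := by
    obtain ⟨q, rfl, hq⟩ := k_cases h1 h2
    rw [skB_e, skB_e]
    have h4 := (TX.eqs hx a b).1.s.colB q (fun h => by
      rw [← (dcol hx a b).2.1]
      exact fin_cast_eq (h3 (hq h)))
    rw [(TX.eqs hx a b).2.2.2.1, ← (lrow hx a b).2] at h4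
    exact h4
  col0 a b h := by
    have h2' := fin_cast_ne h
    rw [(dcol hx a b).2.1] at h2'
    have h4 := (TX.eqs hx a b).1.s.colB0 h2'
    change (((ve x a b).eB 0 : Fin 3) : ℕ) = 0
    change (ve x a b).eB 0 = 0 at h4
    rw [h4]
    rfl

/-- columns come from the 3-adic integer `c`, rows from `r` -/
structure Geo (x : ℤ × ℤ → Tile M) (c r : ℕ → ℤ) : Prop where
  cohc : Coh 3 c
  cohr : Coh 3 r
  A_fin : ∀ a b i j, IsLv 3 c a i → IsLv 3 r b j → (x (a, b)).tA = cl (j - i)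
  A_ri : ∀ a b i, IsLv 3 c a i → IsInf 3 r b → (x (a, b)).tA = 2
  A_ci : ∀ a b j, IsInf 3 c a → IsLv 3 r b j → (x (a, b)).tA = -2
  B_fin : ∀ a b i j, IsLv 3 c a i → IsLv 3 r b j → (x (a, b)).tB = cl (j - (i / 2 : ℕ))
  B_ri : ∀ a b i, IsLv 3 c a i → IsInf 3 r b → (x (a, b)).tB = 2
  B_ci : ∀ a b j, IsInf 3 c a → IsLv 3 r b j → (x (a, b)).tB = -2
  mA : ∀ a b, ((ve x a b).mA : ℤ) = (a - c 1) % 3
  mB : ∀ a b, ((ve x a b).mB : ℤ) = (a - c 2) % 9
  n : ∀ a b, ((he x a b).n : ℤ) = (b - r 1) % 3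
  dA : ∀ a b i, IsLv 3 c a i → ((ve x a b).dA : ℕ) = dig 3 i (a - c (i + 1))
  dB : ∀ a b i, IsLv 3 c a i → ((ve x a b).dB : ℕ) = dig 9 (i / 2) (a - c (2 * (i / 2) + 2))
  dy : ∀ a b j, IsLv 3 r b j → ((he x a b).dy : ℕ) = dig 3 j (b - r (j + 1))
  pA : ∀ a b j (k : Fin 3) (q : ℕ), IsLv 3 r b j → q + 1 = j + (k : ℕ) →
    ((he x a b).pA k : ℕ) = dig 3 q (a - c (q + 1))
  pB : ∀ a b j (k : Fin 3) (q : ℕ), IsLv 3 r b j → q + 1 = j + (k : ℕ) →
    ((he x a b).pB k : ℕ) = dig 9 q (a - c (2 * q + 2))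
  pA0 : ∀ a b, IsLv 3 r b 0 → (he x a b).pA 0 = 0
  pB0 : ∀ a b, IsLv 3 r b 0 → (he x a b).pB 0 = 0
  pI : ∀ a b i k, IsInf 3 r b → IsLv 3 c a i →
    (he x a b).pA k = (he x (a - 1) b).pA k ∧ (he x a b).pB k = (he x (a - 1) b).pB k
  eA : ∀ a b i (k : Fin 3) (q : ℕ), IsLv 3 c a i → q + 1 = i + (k : ℕ) →
    ((ve x a b).eA k : ℕ) = dig 3 q (b - r (q + 1))
  eB : ∀ a b i (k : Fin 3) (q : ℕ), IsLv 3 c a i → q + 1 = i / 2 + (k : ℕ) →
    ((ve x a b).eB k : ℕ) = dig 3 q (b - r (q + 1))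
  eA0 : ∀ a b, IsLv 3 c a 0 → (ve x a b).eA 0 = 0
  eB0 : ∀ a b i, IsLv 3 c a i → i < 2 → (ve x a b).eB 0 = 0
  eI : ∀ a b j k, IsInf 3 c a → IsLv 3 r b j →
    (ve x a b).eA k = (ve x a (b - 1)).eA k ∧ (ve x a b).eB k = (ve x a (b - 1)).eB k

private theorem lv_same {c c' : ℕ → ℤ} (h : ∀ n, (3 : ℤ) ^ n ∣ c n - c' n) {y : ℤ} {i : ℕ}
    (hi : IsLv 3 c y i) : IsLv 3 c' y i := by
  have key : ∀ n, (3 : ℤ) ^ n ∣ y - c n ↔ (3 : ℤ) ^ n ∣ y - c' n := by
    intro n
    have e : y - c' n = (y - c n) + (c n - c' n) := by ring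
    rw [e]
    exact (dvd_add_left (h n)).symm
  exact ⟨(key i).1 hi.1, fun h1 => hi.2 ((key (i + 1)).2 h1)⟩

private theorem inf_same {c c' : ℕ → ℤ} (h : ∀ n, (3 : ℤ) ^ n ∣ c n - c' n) {y : ℤ}
    (hi : IsInf 3 c y) : IsInf 3 c' y := by
  intro n
  have e : y - c' n = (y - c n) + (c n - c' n) := by ring
  rw [e]
  exact dvd_add (hi n) (h n)

theorem exists_geo {x : ℤ × ℤ → Tile M} (hx : x ∈ TX M mn cs) : ∃ c r, Geo x c r := by
  obtain ⟨c, r, HA⟩ := (skA_ok hx).main le_rfl le_rfl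
  obtain ⟨c', r', HB⟩ := (skB_ok hx).main (by norm_num) le_rfl
  have hr1 : (3 : ℤ) ∣ r 1 - r' 1 := by
    have h1 := HA.n 0
    have h2 := HB.n 0
    have h3 : (skA x).n 0 = (skB x).n 0 := rfl
    rw [h3] at h1
    push_cast at h1 h2
    omega
  have hrr : ∀ n, (3 : ℤ) ^ n ∣ r n - r' n := by
    refine tie_same HA.cohr HB.cohr hr1 ?_
    intro y i i' hi hi'
    rw [← HA.dy y i hi, ← HB.dy y i' hi']
    rfl
  have hrr' : ∀ n, (3 : ℤ) ^ n ∣ r' n - r n := fun n => by
    have h := hrr n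
    rwa [← neg_sub, dvd_neg] at h
  have hcc : ∀ n, (9 : ℤ) ^ n ∣ c' n - c (2 * n) := by
    refine tie_nine HA.cohc HB.cohc ?_
    intro y i i' hi hi'
    rw [← HA.dx y i hi, ← HB.dx y i' hi']
    exact (TX.eqs hx y 0).1.c.tie
  have lv9 : ∀ {a : ℤ} {i : ℕ}, IsLv 3 c a i → IsLv 9 c' a (i / 2) := fun h => lv_nine HA.cohc hcc h
  have inf9 : ∀ {a : ℤ}, IsInf 3 c a → IsInf 9 c' a := fun h => (inf_nine HA.cohc hcc).1 h
  have lvr : ∀ {b : ℤ} {j : ℕ}, IsLv 3 r b j → IsLv 3 r' b j := fun h => lv_same hrr h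
  have infr : ∀ {b : ℤ}, IsInf 3 r b → IsInf 3 r' b := fun h => inf_same hrr h
  have mAe : ∀ a b, (ve x a b).mA = (x (a, 0)).d.mA := fun a b => by
    rw [(TX.eqs hx a 0).2.2.2.1]
    exact (TX.colc hx a _ _).1
  have mBe : ∀ a b, (ve x a b).mB = (x (a, 0)).d.mB := fun a b => by
    rw [(TX.eqs hx a 0).2.2.2.1]
    exact (TX.colc hx a _ _).2.1
  have dAe : ∀ a b, (ve x a b).dA = (x (a, 0)).d.dA := fun a b => by
    rw [(TX.eqs hx a 0).2.2.2.1]
    exact (TX.colc hx a _ _).2.2.1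
  have dBe : ∀ a b, (ve x a b).dB = (x (a, 0)).d.dB := fun a b => by
    rw [(TX.eqs hx a 0).2.2.2.1]
    exact (TX.colc hx a _ _).2.2.2
  have ne : ∀ a b, (he x a b).n = (x (0, b)).l.n := fun a b => by
    rw [(TX.eqs hx 0 b).2.1]
    exact (TX.rowc hx _ _ b).1
  have dye : ∀ a b, (he x a b).dy = (x (0, b)).l.dy := fun a b => by
    rw [(TX.eqs hx 0 b).2.1]
    exact (TX.rowc hx _ _ b).2.1
  have d9 : ∀ (a : ℤ) (q : ℕ), dig 9 q (a - c' (q + 1)) = dig 9 q (a - c (2 * q + 2)) := by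
    intro a q
    refine dig_congr (by norm_num) ?_
    have h := hcc (q + 1)
    have e : a - c' (q + 1) - (a - c (2 * q + 2)) = -(c' (q + 1) - c (2 * (q + 1))) := by
      rw [show 2 * (q + 1) = 2 * q + 2 by ring]
      ring
    rw [e, dvd_neg]
    exact_mod_cast h
  have d3 : ∀ (b : ℤ) (q : ℕ), dig 3 q (b - r' (q + 1)) = dig 3 q (b - r (q + 1)) := by
    intro b q
    refine dig_congr (by norm_num) ?_
    have h := hrr (q + 1)
    have e : b - r' (q + 1) - (b - r (q + 1)) = r (q + 1) - r' (q + 1) := by ring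
    rw [e]
    exact_mod_cast h
  refine ⟨c, r, ?_⟩
  exact
    { cohc := HA.cohc
      cohr := HA.cohr
      A_fin := fun a b i j hi hj => HA.fin a b i j hi hj
      A_ri := fun a b i hi hy => HA.ri a b i hi hy
      A_ci := fun a b j hx' hj => HA.ci a b j hx' hj
      B_fin := fun a b i j hi hj => HB.fin a b (i / 2) j (lv9 hi) (lvr hj)
      B_ri := fun a b i hi hy => HB.ri a b (i / 2) (lv9 hi) (infr hy)
      B_ci := fun a b j hx' hj => HB.ci a b j (inf9 hx') (lvr hj)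
      mA := fun a b => by
        rw [mAe a b]
        exact HA.m a
      mB := fun a b => by
        rw [mBe a b]
        have h1 := HB.m a
        have h2 := hcc 1
        change (((x (a, 0)).d.mB : ℕ) : ℤ) = _ at h1
        rw [h1]
        norm_num at h2 ⊢
        omega
      n := fun a b => by
        rw [ne a b]
        exact HA.n b
      dA := fun a b i hi => by
        rw [dAe a b]
        exact HA.dx a i hi
      dB := fun a b i hi => by
        rw [dBe a b, ← d9]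
        exact HB.dx a (i / 2) (lv9 hi)
      dy := fun a b j hj => by
        rw [dye a b]
        exact HA.dy b j hj
      pA := fun a b j k q hj hq => by
        rw [← skA_p]
        exact HA.p_fin _ q a b j (by omega) (by omega) hj (by omega)
      pB := fun a b j k q hj hq => by
        rw [← skB_p, ← d9]
        exact HB.p_fin _ q a b j (by omega) (by omega) (lvr hj) (by omega)
      pA0 := fun a b hj => by
        have h := HA.p_zero a b hj
        exact fin_cast_eq h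
      pB0 := fun a b hj => by
        have h := HB.p_zero a b (lvr hj)
        exact fin_cast_eq h
      pI := fun a b i k hb hi => by
        constructor
        · apply Fin.ext
          rw [← skA_p, ← skA_p]
          exact HA.p_inf _ a b i (by omega) (by omega) hb hi
        · apply Fin.ext
          rw [← skB_p, ← skB_p]
          exact HB.p_inf _ a b (i / 2) (by omega) (by omega) (infr hb) (lv9 hi)
      eA := fun a b i k q hi hq => by
        rw [← skA_e]
        exact HA.e_fin _ q a b i (by omega) (by omega) hi (by omega)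
      eB := fun a b i k q hi hq => by
        rw [← skB_e, ← d3]
        exact HB.e_fin _ q a b (i / 2) (by omega) (by omega) (lv9 hi) (by omega)
      eA0 := fun a b hi => by
        have h := HA.e_zero a b hi
        exact fin_cast_eq h
      eB0 := fun a b i hi h2 => by
        have h0 : i / 2 = 0 := by omega
        have h1 := lv9 hi
        rw [h0] at h1
        have h := HB.e_zero a b h1
        exact fin_cast_eq h
      eI := fun a b j k ha hj => by
        constructor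
        · apply Fin.ext
          rw [← skA_e, ← skA_e]
          exact HA.e_inf _ a b j (by omega) (by omega) ha hj
        · apply Fin.ext
          rw [← skB_e, ← skB_e]
          exact HB.e_inf _ a b j (by omega) (by omega) (inf9 ha) (lvr hj) }

end H96.CK
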