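import Pool.Agent.H96.CK.Time

/-!
# Module TimA (250 lines): the universal part of the time line

Write `T v i = tl M mn cs v i`. All statements by induction on `i`.
* `tl_univ`: `q, ph, n3, mode, S, tok, nE` do not depend on `v` (in `St.next` these components depend
  only on each other; the choice `ch` influences only `mkd` and `C`, `e` only `b`, `c`).
* `tl_n3`: `n3 = nE % 3`.
* `tl_len`: `3 * (S k).length + ph ≤ i` (a push only when `ph = 2`, then `ph` becomes `0`) and
  `3 * C.length ≤ i`.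
* `tl_tok`: `tok = some t` implies `t ≤ i`.
* `tl_run`: `(q, S) = M.run s` for some `s` (the machine makes a step `M.stp` at a proper step, where the
  top letters are those of lane `i` after time step `i`, i.e. `(x.S k)[0]? = (x.S k).head?`, and a
  restart at an event).
* `tl_ev`: there are times `τ n` with: after time step `τ n` the control is in mode run at the event
  number `n`. Precisely (`hev` : the events of `M.run` are at the steps `evs n`, strictly
  increasing): there is a strictly increasing `τ` with, for `x = T v (τ n)`: mode = run, `M.ev q`,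
  `nE = n`, `S = (M.run (evs n)).2`; for every `i` with `isEv` after time step `i`, `i = τ nE`;
  for `n % 3 = 2`: after time `τ n + 1` mode is `hold0`, after the times `τ n + 2, .., 2 (τ n) + 3`
  mode is `hold`, after time `2 (τ n) + 4` mode is `launch`, after time `2 (τ n) + 5` mode is `run`,
  with `nE = n` from `τ n` to `2 (τ n) + 4`, `tok = some (τ n + 1)` in this period, and these are
  the only times with modes `hold0`, `hold`, `launch`.
  (The token is placed at time `i = τ n + 1`, on lane `τ n + 1`; it dies at time `2 (τ n + 1) + 2`.)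
  Construction of `τ`: from an event (after time `τ n`, step `evs n` of the run) the next steps of the
  run are executed at every third time, so the next event state is reached (finitely many steps,
  `evs (n+1)`); in case `n % 3 = 2` after the period just described.
-/

namespace H96.CK

variable {K G : Type} [DecidableEq G] {M : SM K G} {mn : K} {cs : G}

/-! ### one time step -/

private lemma nx_idle (x : MS M) (i : ℕ) (ch : Bool) (hm : x.st.mode = .run) (he : M.ev x.st.q = false)
    (hp : x.st.ph ≠ 2) :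
    (x.next mn cs i ch).st.mode = .run ∧ (x.next mn cs i ch).st.ph = x.st.ph + 1 ∧
    (x.next mn cs i ch).st.q = x.st.q ∧ (x.next mn cs i ch).S = x.S ∧ (x.next mn cs i ch).nE = x.nE := by
  simp [MS.next, St.next, St.op, St.isAct, St.isEv, Op.app, hm, he, hp]

private lemma nx_act (x : MS M) (i : ℕ) (ch : Bool) (hm : x.st.mode = .run) (he : M.ev x.st.q = false)
    (hp : x.st.ph = 2) :
    (x.next mn cs i ch).st.mode = .run ∧ (x.next mn cs i ch).st.ph = 0 ∧
    (x.next mn cs i ch).st.q = (M.stp (x.st.q, x.S)).1 ∧ (x.next mn cs i ch).S = (M.stp (x.st.q, x.S)).2 ∧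
    (x.next mn cs i ch).nE = x.nE := by
  have h0 : ∀ k : K, (x.S k)[0]? = (x.S k).head? := fun k => by
    cases x.S k <;> rfl
  simp [MS.next, St.next, St.op, St.isAct, St.isEv, SM.stp, MS.lam, hm, he, hp, h0]

private lemma nx_ev (x : MS M) (i : ℕ) (ch : Bool) (hm : x.st.mode = .run) (he : M.ev x.st.q = true)
    (hn : x.st.n3 ≠ 2) :
    (x.next mn cs i ch).st.mode = .run ∧ (x.next mn cs i ch).st.ph = 0 ∧
    (x.next mn cs i ch).st.q = M.rs x.st.q ∧ (x.next mn cs i ch).S = x.S ∧
    (x.next mn cs i ch).nE = x.nE + 1 := by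
  have h : x.st.n3 = 0 ∨ x.st.n3 = 1 := by
    revert hn
    generalize x.st.n3 = n
    revert n
    decide
  rcases h with h | h <;> simp [MS.next, St.next, St.op, St.isAct, St.isEv, Op.app, hm, he, h]

private lemma nx_ev2 (x : MS M) (i : ℕ) (ch : Bool) (hm : x.st.mode = .run) (he : M.ev x.st.q = true)
    (hn : x.st.n3 = 2) :
    (x.next mn cs i ch).st.mode = .hold0 ∧
    (x.next mn cs i ch).st.q = x.st.q ∧ (x.next mn cs i ch).S = x.S ∧
    (x.next mn cs i ch).nE = x.nE ∧ (x.next mn cs i ch).tok = some i := by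
  simp [MS.next, St.next, St.op, St.isAct, St.isEv, St.plc, Op.app, hm, he, hn]

private lemma nx_hold0 (x : MS M) (i : ℕ) (ch : Bool) (hm : x.st.mode = .hold0) :
    (x.next mn cs i ch).st.mode = .hold ∧
    (x.next mn cs i ch).st.q = x.st.q ∧ (x.next mn cs i ch).S = x.S ∧
    (x.next mn cs i ch).nE = x.nE ∧ (x.next mn cs i ch).tok = x.tok := by
  simp [MS.next, St.next, St.op, St.isAct, St.isEv, St.plc, Op.app, hm]

private lemma nx_hold (x : MS M) (i : ℕ) (ch : Bool) (hm : x.st.mode = .hold) :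
    (x.next mn cs i ch).st.mode = (if x.zz i = true then .launch else .hold) ∧
    (x.next mn cs i ch).st.q = x.st.q ∧ (x.next mn cs i ch).S = x.S ∧
    (x.next mn cs i ch).nE = x.nE ∧ (x.next mn cs i ch).tok = x.tok := by
  by_cases h : x.zz i = true <;> simp [MS.next, St.next, St.op, St.isAct, St.isEv, St.plc, Op.app, hm, h]

private lemma nx_launch (x : MS M) (i : ℕ) (ch : Bool) (hm : x.st.mode = .launch) :
    (x.next mn cs i ch).st.mode = .run ∧ (x.next mn cs i ch).st.ph = 0 ∧
    (x.next mn cs i ch).st.q = M.rs x.st.q ∧ (x.next mn cs i ch).S = x.S ∧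
    (x.next mn cs i ch).nE = x.nE + 1 := by
  simp [MS.next, St.next, St.op, St.isAct, St.isEv, Op.app, hm]

/-- control in mode run at step `s` of the run, phase `r`, `n` events so far -/
private def RunAt (x : MS M) (s n : ℕ) (r : Fin 3) : Prop :=
  x.st.mode = .run ∧ x.st.ph = r ∧ x.st.q = (M.run s).1 ∧ x.S = (M.run s).2 ∧ x.nE = n

/-- first step of the run of segment `n` -/
private def es (evs : ℕ → ℕ) : ℕ → ℕ
  | 0 => 0
  | n + 1 => evs n + 1

/-- time of the first state of segment `n` -/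
private def sg (evs : ℕ → ℕ) : ℕ → ℕ
  | 0 => 0
  | n + 1 => if n % 3 = 2 then 2 * (sg evs n + 3 * (evs n - es evs n)) + 5
      else sg evs n + 3 * (evs n - es evs n) + 1

private def ta (evs : ℕ → ℕ) (n : ℕ) : ℕ := sg evs n + 3 * (evs n - es evs n)

private lemma sg_succ (evs : ℕ → ℕ) (n : ℕ) :
    sg evs (n + 1) = if n % 3 = 2 then 2 * ta evs n + 5 else ta evs n + 1 := rfl

private lemma es_le {evs : ℕ → ℕ} (hm : StrictMono evs) (n : ℕ) : es evs n ≤ evs n := by
  cases n with
  | zero => exact Nat.zero_le _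
  | succ n => exact hm (Nat.lt_succ_self n)

omit [DecidableEq G] in
private lemma ev_false {evs : ℕ → ℕ} (hm : StrictMono evs)
    (hev : ∀ s, M.ev (M.run s).1 = true ↔ ∃ n, s = evs n) {n s : ℕ} (h1 : es evs n ≤ s)
    (h2 : s < evs n) : M.ev (M.run s).1 = false := by
  by_contra hc
  rw [Bool.not_eq_false, hev] at hc
  obtain ⟨m, rfl⟩ := hc
  have h3 : m < n := hm.lt_iff_lt.1 h2
  cases n with
  | zero => omega
  | succ n =>
    have h4 : evs n < evs m := h1
    have h5 := hm.lt_iff_lt.1 h4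
    omega

private lemma ta_lt_sg (evs : ℕ → ℕ) (n : ℕ) : ta evs n < sg evs (n + 1) := by
  rw [sg_succ]
  split_ifs <;> omega

private lemma sg_le_ta (evs : ℕ → ℕ) (n : ℕ) : sg evs n ≤ ta evs n := Nat.le_add_right _ _

private lemma seg {evs : ℕ → ℕ} (hm : StrictMono evs)
    (hev : ∀ s, M.ev (M.run s).1 = true ↔ ∃ n, s = evs n) (v : Option ℕ) (n : ℕ)
    (h0 : RunAt (tl M mn cs v (sg evs n)) (es evs n) n 0) (d : ℕ) :
    (es evs n + d ≤ evs n → RunAt (tl M mn cs v (sg evs n + 3 * d)) (es evs n + d) n 0) ∧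
    (es evs n + d < evs n → RunAt (tl M mn cs v (sg evs n + 3 * d + 1)) (es evs n + d) n 1) ∧
    (es evs n + d < evs n → RunAt (tl M mn cs v (sg evs n + 3 * d + 2)) (es evs n + d) n 2) := by
  have st : ∀ i s (r : Fin 3), es evs n ≤ s → s < evs n → r ≠ 2 → RunAt (tl M mn cs v i) s n r →
      RunAt (tl M mn cs v (i + 1)) s n (r + 1) := by
    rintro i s r g1 g2 g3 ⟨a1, a2, a3, a4, a5⟩
    have he : M.ev (tl M mn cs v i).st.q = false := by rw [a3]; exact ev_false hm hev g1 g2
    obtain ⟨b1, b2, b3, b4, b5⟩ := nx_idle (mn := mn) (cs := cs) (tl M mn cs v i) (i + 1)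
      ((tl M mn cs v i).ch v) a1 he (by rw [a2]; exact g3)
    exact ⟨b1, b2.trans (by rw [a2]), b3.trans a3, b4.trans a4, b5.trans a5⟩
  have key : (es evs n + d ≤ evs n → RunAt (tl M mn cs v (sg evs n + 3 * d)) (es evs n + d) n 0) := by
    induction d with
    | zero => exact fun _ => h0
    | succ d ih =>
      intro h
      have h1 := ih (by omega)
      have h2 := st _ _ 0 (by omega) (by omega) (by decide) h1
      have h3 := st _ _ (0 + 1) (by omega) (by omega) (by decide) h2
      obtain ⟨a1, a2, a3, a4, a5⟩ := h3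
      have hef := ev_false hm hev (s := es evs n + d) (n := n) (by omega) (by omega)
      have he : M.ev (tl M mn cs v (sg evs n + 3 * d + 1 + 1)).st.q = false := by rw [a3]; exact hef
      obtain ⟨b1, b2, b3, b4, b5⟩ := nx_act (mn := mn) (cs := cs) (tl M mn cs v (sg evs n + 3 * d + 1 + 1))
        (sg evs n + 3 * d + 1 + 1 + 1) ((tl M mn cs v (sg evs n + 3 * d + 1 + 1)).ch v) a1 he (by rw [a2]; rfl)
      have hrun : M.run (es evs n + (d + 1)) = M.stp (M.run (es evs n + d)) :=
        if_neg (show ¬ M.ev (M.run (es evs n + d)).1 = true by rw [hef]; decide)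
      have hq : ((tl M mn cs v (sg evs n + 3 * d + 1 + 1)).st.q, (tl M mn cs v (sg evs n + 3 * d + 1 + 1)).S) =
          M.run (es evs n + d) := by rw [a3, a4]
      rw [hq] at b3 b4
      rw [show sg evs n + 3 * (d + 1) = sg evs n + 3 * d + 1 + 1 + 1 by ring]
      exact ⟨b1, b2, by rw [hrun]; exact b3, by rw [hrun]; exact b4, b5.trans a5⟩
  refine ⟨key, fun h => ?_, fun h => ?_⟩
  · exact st _ _ 0 (by omega) h (by decide) (key (by omega))
  · exact st _ _ (0 + 1) (by omega) h (by decide) (st _ _ 0 (by omega) h (by decide) (key (by omega)))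

/-- the waiting period after event number `n`, `n % 3 = 2` -/
private def HoldAt (x : MS M) (m : Mode) (s n t : ℕ) : Prop :=
  x.st.mode = m ∧ x.st.q = (M.run s).1 ∧ x.S = (M.run s).2 ∧ x.nE = n ∧ x.tok = some t

private lemma hold_per (v : Option ℕ) {i s n : ℕ} (h : RunAt (tl M mn cs v i) s n 0)
    (he : M.ev (M.run s).1 = true) (hn : n % 3 = 2) (h3 : ((tl M mn cs v i).st.n3 : ℕ) = (tl M mn cs v i).nE % 3) :
    HoldAt (tl M mn cs v (i + 1)) .hold0 s n (i + 1) ∧
    (∀ j, i + 2 ≤ j → j ≤ 2 * i + 3 → HoldAt (tl M mn cs v j) .hold s n (i + 1)) ∧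
    HoldAt (tl M mn cs v (2 * i + 4)) .launch s n (i + 1) := by
  obtain ⟨a1, a2, a3, a4, a5⟩ := h
  have hn3 : (tl M mn cs v i).st.n3 = 2 := by
    apply Fin.ext
    rw [h3, a5, hn]
    rfl
  have b := nx_ev2 (mn := mn) (cs := cs) (tl M mn cs v i) (i + 1) ((tl M mn cs v i).ch v) a1 (by rw [a3]; exact he) hn3
  have c0 : HoldAt (tl M mn cs v (i + 1)) .hold0 s n (i + 1) :=
    ⟨b.1, b.2.1.trans a3, b.2.2.1.trans a4, b.2.2.2.1.trans a5, b.2.2.2.2⟩
  have c1 : ∀ j, i + 2 ≤ j → j ≤ 2 * i + 3 → HoldAt (tl M mn cs v j) .hold s n (i + 1) := by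
    intro j hj
    induction j, hj using Nat.le_induction with
    | base =>
      intro _
      obtain ⟨d1, d2, d3, d4, d5⟩ := c0
      have e := nx_hold0 (mn := mn) (cs := cs) (tl M mn cs v (i + 1)) (i + 1 + 1) ((tl M mn cs v (i + 1)).ch v) d1
      exact ⟨e.1, e.2.1.trans d2, e.2.2.1.trans d3, e.2.2.2.1.trans d4, e.2.2.2.2.trans d5⟩
    | succ j hj ih =>
      intro h
      obtain ⟨d1, d2, d3, d4, d5⟩ := ih (by omega)
      have e := nx_hold (mn := mn) (cs := cs) (tl M mn cs v j) (j + 1) ((tl M mn cs v j).ch v) d1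
      have hz : (tl M mn cs v j).zz (j + 1) = false := by
        unfold MS.zz
        rw [d5]
        exact decide_eq_false (by omega)
      have e1 := e.1
      rw [hz] at e1
      exact ⟨e1, e.2.1.trans d2, e.2.2.1.trans d3, e.2.2.2.1.trans d4, e.2.2.2.2.trans d5⟩
  refine ⟨c0, c1, ?_⟩
  obtain ⟨d1, d2, d3, d4, d5⟩ := c1 (2 * i + 3) (by omega) le_rfl
  have e := nx_hold (mn := mn) (cs := cs) (tl M mn cs v (2 * i + 3)) (2 * i + 3 + 1)
    ((tl M mn cs v (2 * i + 3)).ch v) d1
  have hz : (tl M mn cs v (2 * i + 3)).zz (2 * i + 3 + 1) = true := by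
    unfold MS.zz
    rw [d5]
    exact decide_eq_true (by omega)
  have e1 := e.1
  rw [hz] at e1
  exact ⟨e1, e.2.1.trans d2, e.2.2.1.trans d3, e.2.2.2.1.trans d4, e.2.2.2.2.trans d5⟩

omit [DecidableEq G] in
private lemma run_ev {s : ℕ} (he : M.ev (M.run s).1 = true) : M.run (s + 1) = (M.rs (M.run s).1, (M.run s).2) :=
  if_pos he

private lemma nx_ev_at (v : Option ℕ) {i s n : ℕ} (h : RunAt (tl M mn cs v i) s n 0)
    (he : M.ev (M.run s).1 = true) (hn : n % 3 ≠ 2)
    (h3 : ((tl M mn cs v i).st.n3 : ℕ) = (tl M mn cs v i).nE % 3) :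
    RunAt (tl M mn cs v (i + 1)) (s + 1) (n + 1) 0 := by
  obtain ⟨a1, a2, a3, a4, a5⟩ := h
  have hn3 : (tl M mn cs v i).st.n3 ≠ 2 := by
    intro h
    rw [h, a5] at h3
    exact hn h3.symm
  have b := nx_ev (mn := mn) (cs := cs) (tl M mn cs v i) (i + 1) ((tl M mn cs v i).ch v) a1 (by rw [a3]; exact he) hn3
  refine ⟨b.1, b.2.1, ?_, ?_, ?_⟩
  · rw [run_ev he]
    exact b.2.2.1.trans (by rw [a3])
  · rw [run_ev he]
    exact b.2.2.2.1.trans a4
  · exact b.2.2.2.2.trans (by rw [a5])

private lemma nx_launch_at (v : Option ℕ) {i s n t : ℕ} (h : HoldAt (tl M mn cs v i) .launch s n t)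
    (he : M.ev (M.run s).1 = true) : RunAt (tl M mn cs v (i + 1)) (s + 1) (n + 1) 0 := by
  obtain ⟨a1, a2, a3, a4, a5⟩ := h
  have b := nx_launch (mn := mn) (cs := cs) (tl M mn cs v i) (i + 1) ((tl M mn cs v i).ch v) a1
  refine ⟨b.1, b.2.1, ?_, ?_, ?_⟩
  · rw [run_ev he]
    exact b.2.2.1.trans (by rw [a2])
  · rw [run_ev he]
    exact b.2.2.2.1.trans a3
  · exact b.2.2.2.2.trans (by rw [a4])

private lemma univ_next (x x' : MS M) (i : ℕ) (ch ch' : Bool)
    (h1 : x.st.q = x'.st.q) (h2 : x.st.ph = x'.st.ph) (h3 : x.st.n3 = x'.st.n3) (h4 : x.st.mode = x'.st.mode)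
    (h5 : x.S = x'.S) (h6 : x.tok = x'.tok) (h7 : x.nE = x'.nE) :
    (x.next mn cs i ch).st.q = (x'.next mn cs i ch').st.q ∧
    (x.next mn cs i ch).st.ph = (x'.next mn cs i ch').st.ph ∧
    (x.next mn cs i ch).st.n3 = (x'.next mn cs i ch').st.n3 ∧
    (x.next mn cs i ch).st.mode = (x'.next mn cs i ch').st.mode ∧
    (x.next mn cs i ch).S = (x'.next mn cs i ch').S ∧
    (x.next mn cs i ch).tok = (x'.next mn cs i ch').tok ∧
    (x.next mn cs i ch).nE = (x'.next mn cs i ch').nE := by
  obtain ⟨⟨q, ph, n3, mode, mkd, b, c⟩, S, C, tok, nE⟩ := x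
  obtain ⟨⟨q', ph', n3', mode', mkd', b', c'⟩, S', C', tok', nE'⟩ := x'
  simp only at h1 h2 h3 h4 h5 h6 h7
  subst h1 h2 h3 h4 h5 h6 h7
  have hz : MS.zz (⟨⟨q, ph, n3, mode, mkd, b, c⟩, S, C, tok, nE⟩ : MS M) i =
    MS.zz (⟨⟨q, ph, n3, mode, mkd', b', c'⟩, S, C', tok, nE⟩ : MS M) i := rfl
  refine ⟨?_, ?_, ?_, ?_, rfl, rfl, rfl⟩ <;>
    (simp only [MS.next, St.next, hz, MS.lam]; cases mode <;> simp only <;> split_ifs <;> rfl)

theorem tl_univ (v v' : Option ℕ) (i : ℕ) :
    (tl M mn cs v i).st.q = (tl M mn cs v' i).st.q ∧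
    (tl M mn cs v i).st.ph = (tl M mn cs v' i).st.ph ∧
    (tl M mn cs v i).st.n3 = (tl M mn cs v' i).st.n3 ∧
    (tl M mn cs v i).st.mode = (tl M mn cs v' i).st.mode ∧
    (tl M mn cs v i).S = (tl M mn cs v' i).S ∧
    (tl M mn cs v i).tok = (tl M mn cs v' i).tok ∧
    (tl M mn cs v i).nE = (tl M mn cs v' i).nE := by
  induction i with
  | zero => exact ⟨rfl, rfl, rfl, rfl, rfl, rfl, rfl⟩
  | succ i ih =>
    obtain ⟨h1, h2, h3, h4, h5, h6, h7⟩ := ih
    exact univ_next _ _ _ _ _ h1 h2 h3 h4 h5 h6 h7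

private lemma n3_next (x : MS M) (i : ℕ) (ch : Bool) (h1 : (x.st.n3 : ℕ) = x.nE % 3)
    (h2 : x.st.mode ≠ .run → x.st.n3 = 2) :
    ((x.next mn cs i ch).st.n3 : ℕ) = (x.next mn cs i ch).nE % 3 ∧
      ((x.next mn cs i ch).st.mode ≠ .run → (x.next mn cs i ch).st.n3 = 2) := by
  obtain ⟨⟨q, ph, n3, mode, mkd, b, c⟩, S, C, tok, nE⟩ := x
  simp only at h1 h2
  cases mode with
  | run =>
    by_cases he : M.ev q = true
    · have hc : n3 = 0 ∨ n3 = 1 ∨ n3 = 2 := by
        clear h1 h2
        revert n3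
        decide
      rcases hc with rfl | rfl | rfl
      · simp only [MS.next, St.next, St.isEv, he, if_true, ne_eq, not_true_eq_false, false_implies,
          and_true, decide_true, Bool.and_self, Bool.true_and]
        have : nE % 3 = 0 := h1.symm
        simp
        omega
      · have : nE % 3 = 1 := h1.symm
        simp [MS.next, St.next, St.isEv, he]
        omega
      · have : nE % 3 = 2 := h1.symm
        simp [MS.next, St.next, St.isEv, he]
        omega
    · by_cases hp : ph = 2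
      · simp [MS.next, St.next, St.isEv, he, hp]
        exact h1
      · simp [MS.next, St.next, St.isEv, he, hp]
        exact h1
  | hold0 =>
    have h3 := h2 (by decide)
    simp [MS.next, St.next, St.isEv, h3]
    rw [← h1, h3]
    rfl
  | hold =>
    have h3 := h2 (by decide)
    refine ⟨?_, fun _ => ?_⟩
    · simp only [MS.next, St.next, St.isEv]
      split_ifs <;> simp_all
    · simp only [MS.next, St.next, St.isEv]
      split_ifs <;> exact h3
  | launch =>
    have h3 := h2 (by decide)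
    subst h3
    have : nE % 3 = 2 := h1.symm
    simp [MS.next, St.next, St.isEv]
    omega

theorem tl_n3 (v : Option ℕ) (i : ℕ) :
    ((tl M mn cs v i).st.n3 : ℕ) = (tl M mn cs v i).nE % 3 := by
  have key : ((tl M mn cs v i).st.n3 : ℕ) = (tl M mn cs v i).nE % 3 ∧
      ((tl M mn cs v i).st.mode ≠ .run → (tl M mn cs v i).st.n3 = 2) := by
    induction i with
    | zero => exact ⟨rfl, fun h => absurd rfl h⟩
    | succ i ih =>
      exact n3_next _ _ _ ih.1 ih.2
  exact key.1

private lemma len_next (x : MS M) (i : ℕ) (ch : Bool) (h1 : ∀ k, 3 * (x.S k).length + (x.st.ph : ℕ) ≤ i)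
    (h2 : 3 * x.C.length ≤ i) :
    (∀ k, 3 * ((x.next mn cs (i + 1) ch).S k).length + ((x.next mn cs (i + 1) ch).st.ph : ℕ) ≤ i + 1) ∧
      3 * ((x.next mn cs (i + 1) ch).C).length ≤ i + 1 := by
  constructor
  · intro k
    have hk := h1 k
    by_cases ha : x.st.isAct M = true
    · have ha' := ha
      unfold St.isAct at ha
      rw [Bool.and_eq_true, Bool.and_eq_true, decide_eq_true_iff, decide_eq_true_iff] at ha
      obtain ⟨⟨g1, g2⟩, g3⟩ := ha
      have g2' : M.ev x.st.q = false := by simpa using g2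
      have b := nx_act (mn := mn) (cs := cs) x (i + 1) ch g1 g2' g3
      rw [b.2.1]
      have hl : ((x.next mn cs (i + 1) ch).S k).length ≤ (x.S k).length + 1 := by
        show ((x.st.op M (x.lam (i + 1 - 1) (i + 1 - 1)) k).app (x.S k)).length ≤ _
        cases x.st.op M (x.lam (i + 1 - 1) (i + 1 - 1)) k with
        | keep => exact Nat.le_succ _
        | push g => exact le_rfl
        | pop =>
          show (x.S k).tail.length ≤ _
          rw [List.length_tail]
          omega
      rw [g3] at hk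
      have e2 : ((2 : Fin 3) : ℕ) = 2 := rfl
      have e0 : ((0 : Fin 3) : ℕ) = 0 := rfl
      rw [e2] at hk
      rw [e0]
      omega
    · have hS : (x.next mn cs (i + 1) ch).S k = x.S k := by
        show (x.st.op M (x.lam (i + 1 - 1) (i + 1 - 1)) k).app (x.S k) = _
        unfold St.op
        rw [if_neg ha]
        rfl
      rw [hS]
      have hph : ((x.next mn cs (i + 1) ch).st.ph : ℕ) ≤ (x.st.ph : ℕ) + 1 := by
        have e0 : ((0 : Fin 3) : ℕ) = 0 := rfl
        have e1 : ((x.st.ph + 1 : Fin 3) : ℕ) ≤ (x.st.ph : ℕ) + 1 := by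
          generalize x.st.ph = r
          revert r
          decide
        show ((x.st.next M (x.lam (i + 1 - 1) (i + 1 - 1)) ch (eqw cs (x.S mn) x.C) (x.zz (i + 1))).ph : ℕ) ≤ _
        unfold St.next
        split
        · split_ifs <;> (try simp only) <;> omega
        · (try simp only); omega
        · split_ifs <;> (try simp only) <;> omega
        · (try simp only); omega
      omega
  · show 3 * (if ch = true then x.S mn else x.C).length ≤ i + 1
    have := h1 mn
    split_ifs <;> omega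

theorem tl_len (v : Option ℕ) (i : ℕ) (k : K) :
    3 * ((tl M mn cs v i).S k).length ≤ i ∧ 3 * ((tl M mn cs v i).C).length ≤ i := by
  have key : (∀ k, 3 * ((tl M mn cs v i).S k).length + ((tl M mn cs v i).st.ph : ℕ) ≤ i) ∧
      3 * ((tl M mn cs v i).C).length ≤ i := by
    clear k
    induction i with
    | zero => exact ⟨fun _ => le_rfl, le_rfl⟩
    | succ i ih =>
      exact len_next (mn := mn) (cs := cs) (tl M mn cs v i) i ((tl M mn cs v i).ch v) ih.1 ih.2
  exact ⟨by have := key.1 k; omega, key.2⟩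

theorem tl_tok (v : Option ℕ) (i t : ℕ) (h : (tl M mn cs v i).tok = some t) : t ≤ i := by
  induction i with
  | zero => exact absurd h (by simp [tl, MS.init])
  | succ i ih =>
    have h' : (if (tl M mn cs v i).st.plc M = true then some (i + 1) else (tl M mn cs v i).tok) = some t := h
    split_ifs at h' with hp
    · exact (Option.some.inj h').ge
    · exact (ih h').trans (Nat.le_succ i)

/-- the times of the events -/
structure Tau (M : SM K G) (mn : K) (cs : G) (evs τ : ℕ → ℕ) : Prop where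
  mono : StrictMono τ
  next : ∀ n, n % 3 = 2 → 2 * τ n + 5 ≤ τ (n + 1)
  atE : ∀ v n, (tl M mn cs v (τ n)).st.mode = .run ∧ M.ev (tl M mn cs v (τ n)).st.q = true ∧
    (tl M mn cs v (τ n)).nE = n ∧ (tl M mn cs v (τ n)).S = (M.run (evs n)).2
  only : ∀ v i, (tl M mn cs v i).st.isEv M = true → i = τ (tl M mn cs v i).nE
  nE : ∀ v n i, (n % 3 ≠ 2 → τ n < i) → (n % 3 = 2 → 2 * τ n + 4 < i) → i ≤ τ (n + 1) →
    (tl M mn cs v i).nE = n + 1
  nE0 : ∀ v i, i ≤ τ 0 → (tl M mn cs v i).nE = 0
  nEh : ∀ v n i, n % 3 = 2 → τ n ≤ i → i ≤ 2 * τ n + 4 → (tl M mn cs v i).nE = n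
  hold0 : ∀ v i, (tl M mn cs v i).st.mode = .hold0 ↔ ∃ n, n % 3 = 2 ∧ i = τ n + 1
  launch : ∀ v i, (tl M mn cs v i).st.mode = .launch ↔ ∃ n, n % 3 = 2 ∧ i = 2 * τ n + 4

theorem exists_tau {evs : ℕ → ℕ} (hm : StrictMono evs)
    (hev : ∀ s, M.ev (M.run s).1 = true ↔ ∃ n, s = evs n) :
    ∃ τ, Tau M mn cs evs τ := by
  have hE : ∀ n, M.ev (M.run (evs n)).1 = true := fun n => (hev _).2 ⟨n, rfl⟩
  have hes := es_le hm
  have hend : ∀ v n, RunAt (tl M mn cs v (sg evs n)) (es evs n) n 0 →
      RunAt (tl M mn cs v (ta evs n)) (evs n) n 0 := by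
    intro v n h0
    have h := (seg hm hev v n h0 (evs n - es evs n)).1 (by have := hes n; omega)
    rw [Nat.add_sub_cancel' (hes n)] at h
    exact h
  have hstart : ∀ v n, RunAt (tl M mn cs v (sg evs n)) (es evs n) n 0 := by
    intro v n
    induction n with
    | zero => exact ⟨rfl, rfl, rfl, rfl, rfl⟩
    | succ n ih =>
      have h1 := hend v n ih
      have h3 := tl_n3 (M := M) (mn := mn) (cs := cs) v (ta evs n)
      rw [sg_succ]
      by_cases hn : n % 3 = 2
      · rw [if_pos hn]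
        exact nx_launch_at v (hold_per v h1 (hE n) hn h3).2.2 (hE n)
      · rw [if_neg hn]
        exact nx_ev_at v h1 (hE n) hn h3
  have hta := fun v n => hend v n (hstart v n)
  have hhold := fun v n (hn : n % 3 = 2) => hold_per v (hta v n) (hE n) hn (tl_n3 v (ta evs n))
  have hseg : ∀ v n i, sg evs n ≤ i → i ≤ ta evs n → (tl M mn cs v i).st.mode = .run ∧
      (tl M mn cs v i).nE = n ∧ (M.ev (tl M mn cs v i).st.q = true → i = ta evs n) := by
    intro v n i h1 h2
    have hs := seg hm hev v n (hstart v n) ((i - sg evs n) / 3)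
    have hle : es evs n + (i - sg evs n) / 3 ≤ evs n := by
      have := hes n
      unfold ta at h2
      omega
    have hr : (i - sg evs n) % 3 < 3 := Nat.mod_lt _ (by norm_num)
    have hdm := Nat.div_add_mod (i - sg evs n) 3
    rcases Nat.lt_or_ge (es evs n + (i - sg evs n) / 3) (evs n) with hlt | hge
    · have hR : ∃ r, RunAt (tl M mn cs v i) (es evs n + (i - sg evs n) / 3) n r := by
        have h012 : (i - sg evs n) % 3 = 0 ∨ (i - sg evs n) % 3 = 1 ∨ (i - sg evs n) % 3 = 2 := by omega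
        rcases h012 with h | h | h
        · refine ⟨0, ?_⟩
          have := hs.1 hle
          rwa [show sg evs n + 3 * ((i - sg evs n) / 3) = i by omega] at this
        · refine ⟨1, ?_⟩
          have := hs.2.1 hlt
          rwa [show sg evs n + 3 * ((i - sg evs n) / 3) + 1 = i by omega] at this
        · refine ⟨2, ?_⟩
          have := hs.2.2 hlt
          rwa [show sg evs n + 3 * ((i - sg evs n) / 3) + 2 = i by omega] at this
      obtain ⟨r, a1, a2, a3, a4, a5⟩ := hR
      refine ⟨a1, a5, fun hev' => ?_⟩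
      rw [a3, ev_false hm hev (Nat.le_add_right _ _) hlt] at hev'
      exact absurd hev' (by decide)
    · have hi : i = ta evs n := by
        have := hes n
        unfold ta at h2 ⊢
        omega
      subst hi
      obtain ⟨a1, a2, a3, a4, a5⟩ := hta v n
      exact ⟨a1, a5, fun _ => rfl⟩
  have hloc : ∀ i, ∃ n, (sg evs n ≤ i ∧ i ≤ ta evs n) ∨ (n % 3 = 2 ∧ ta evs n < i ∧ i ≤ 2 * ta evs n + 4) := by
    intro i
    have hex : ∃ n, i < sg evs (n + 1) := by
      have hge : ∀ n, n ≤ sg evs n := by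
        intro n
        induction n with
        | zero => exact Nat.zero_le _
        | succ n ih =>
          have := ta_lt_sg evs n
          have := sg_le_ta evs n
          omega
      exact ⟨i, hge (i + 1)⟩
    classical
    refine ⟨Nat.find hex, ?_⟩
    have h1 := Nat.find_spec hex
    set n := Nat.find hex with hn
    have h2 : sg evs n ≤ i := by
      rcases Nat.eq_zero_or_pos n with h | h
      · rw [h]; exact Nat.zero_le _
      · have := Nat.find_min hex (m := n - 1) (by omega)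
        rw [Nat.sub_add_cancel h] at this
        omega
    rcases Nat.lt_or_ge (ta evs n) i with h3 | h3
    · right
      rw [sg_succ] at h1
      split_ifs at h1 with h4
      · exact ⟨h4, h3, by omega⟩
      · omega
    · exact Or.inl ⟨h2, h3⟩
  have hper : ∀ v n i, n % 3 = 2 → ta evs n < i → i ≤ 2 * ta evs n + 4 →
      ((tl M mn cs v i).st.mode = .hold0 ∧ i = ta evs n + 1 ∨
        (tl M mn cs v i).st.mode = .hold ∧ ta evs n + 1 < i ∧ i < 2 * ta evs n + 4 ∨
        (tl M mn cs v i).st.mode = .launch ∧ i = 2 * ta evs n + 4) ∧ (tl M mn cs v i).nE = n := by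
    intro v n i hn h1 h2
    obtain ⟨c0, c1, c2⟩ := hhold v n hn
    rcases Nat.lt_or_ge (ta evs n + 1) i with h3 | h3
    · rcases Nat.lt_or_ge i (2 * ta evs n + 4) with h4 | h4
      · obtain ⟨a1, a2, a3, a4, a5⟩ := c1 i (by omega) (by omega)
        exact ⟨Or.inr (Or.inl ⟨a1, h3, h4⟩), a4⟩
      · have hi : i = 2 * ta evs n + 4 := by omega
        subst hi
        obtain ⟨a1, a2, a3, a4, a5⟩ := c2
        exact ⟨Or.inr (Or.inr ⟨a1, rfl⟩), a4⟩
    · have hi : i = ta evs n + 1 := by omega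
      subst hi
      obtain ⟨a1, a2, a3, a4, a5⟩ := c0
      exact ⟨Or.inl ⟨a1, rfl⟩, a4⟩
  refine ⟨ta evs, ?_, ?_, ?_, ?_, ?_, ?_, ?_, ?_, ?_⟩
  · exact strictMono_nat_of_lt_succ fun n => (ta_lt_sg evs n).trans_le (sg_le_ta evs (n + 1))
  · intro n hn
    have := sg_le_ta evs (n + 1)
    rw [sg_succ, if_pos hn] at this
    exact this
  · intro v n
    obtain ⟨a1, a2, a3, a4, a5⟩ := hta v n
    exact ⟨a1, by rw [a3]; exact hE n, a5, a4⟩
  · intro v i h
    unfold St.isEv at h
    rw [Bool.and_eq_true, decide_eq_true_iff] at h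
    obtain ⟨n, ⟨h1, h2⟩ | ⟨hn, h1, h2⟩⟩ := hloc i
    · obtain ⟨a1, a2, a3⟩ := hseg v n i h1 h2
      rw [a2]
      exact a3 h.2
    · obtain ⟨hc, -⟩ := hper v n i hn h1 h2
      rcases hc with ⟨h3, -⟩ | ⟨h3, -⟩ | ⟨h3, -⟩ <;> rw [h3] at h <;> exact absurd h.1 (by decide)
  · intro v n i h1 h2 h3
    refine (hseg v (n + 1) i ?_ h3).2.1
    rw [sg_succ]
    split_ifs with hn
    · exact h2 hn
    · exact h1 hn
  · intro v i h
    exact (hseg v 0 i (Nat.zero_le _) h).2.1
  · intro v n i hn h1 h2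
    rcases Nat.eq_or_lt_of_le h1 with h3 | h3
    · rw [← h3]
      exact (hta v n).2.2.2.2
    · exact (hper v n i hn h3 h2).2
  · intro v i
    constructor
    · intro h
      obtain ⟨n, ⟨h1, h2⟩ | ⟨hn, h1, h2⟩⟩ := hloc i
      · rw [(hseg v n i h1 h2).1] at h
        exact absurd h (by decide)
      · obtain ⟨hc, -⟩ := hper v n i hn h1 h2
        rcases hc with ⟨h3, h4⟩ | ⟨h3, -⟩ | ⟨h3, -⟩
        · exact ⟨n, hn, h4⟩
        · rw [h3] at h
          exact absurd h (by decide)
        · rw [h3] at h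
          exact absurd h (by decide)
    · rintro ⟨n, hn, rfl⟩
      exact (hhold v n hn).1.1
  · intro v i
    constructor
    · intro h
      obtain ⟨n, ⟨h1, h2⟩ | ⟨hn, h1, h2⟩⟩ := hloc i
      · rw [(hseg v n i h1 h2).1] at h
        exact absurd h (by decide)
      · obtain ⟨hc, -⟩ := hper v n i hn h1 h2
        rcases hc with ⟨h3, -⟩ | ⟨h3, -⟩ | ⟨h3, h4⟩
        · rw [h3] at h
          exact absurd h (by decide)
        · rw [h3] at h
          exact absurd h (by decide)
        · exact ⟨n, hn, h4⟩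
    · rintro ⟨n, hn, rfl⟩
      exact (hhold v n hn).2.2.1

end H96.CK
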