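import Pool.Agent.H96.CK.TimA
import Pool.Agent.H96.CK.Enm

/-!
# Module TimB (250 lines): codes, launching, closing

`hP : M.Prog mn cs e`. With `τ` from `exists_tau`, `κ q = τ (3 q + 2) + 2`.
* marks: for `v = some m`, `mkd` holds after time `i` iff `τ (3 m) < i`, and then
  `C = (M.run (evs (3 m))).2 mn`; before, `C = []`. For `v = none` never (induction; `ch` is true
  exactly at the state after time `τ (3 m)` by `Tau.only`, `Tau.atE`, `tl_n3`).
* `b` after time `i` in the mode launch (`i = 2 τ n + 4`, `n = 3 q + 2`): it was set at the event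
  `3 q + 1` (time `τ (3 q + 1) + 1`) and not changed since: `b = eqw cs ((M.run (evs (3q+1))).2 mn) C`,
  which is `decide (e (3 q + 1) = e (3 m))` if marked (`m ≤ q`; `τ (3 m) < τ (3 q + 1) + 1` iff
  `3 m ≤ 3 q + 1` iff `m ≤ q`) and `false` if not marked (`eqw cs _ [] = false`).
* in the same way `c` in the mode hold0 (`i = τ n + 1`).
So: launching at time `k` (state after time `k - 1`) iff `k - 1 = 2 τ (3q+2) + 4`, i.e.
`k = 2 κ q + 1`; closing at time `κ` iff `κ - 1 = τ (3q+2) + 1`, i.e. `κ = κ q`.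
* `ch` after time `i` is true iff `v = some m` and `i = τ (3 m)`.
-/

namespace H96.CK

variable {K G : Type} [DecidableEq G] {M : SM K G} {mn : K} {cs : G}

/-- the facts about the time line which are used for the tiles -/
structure TLine (M : SM K G) (mn : K) (cs : G) (e : ℕ → ℕ) (κ μ : ℕ → ℕ) : Prop where
  mono : StrictMono κ
  dbl : ∀ q, 2 * κ q + 1 < κ (q + 1)
  one : ∀ q, 1 ≤ κ q
  lch : ∀ v i, (tl M mn cs v i).st.lch = true ↔
    ∃ q m, i = 2 * κ q ∧ v = some m ∧ m ≤ q ∧ e (3 * q + 1) = e (3 * m)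
  acc : ∀ v i, (tl M mn cs v i).st.acc = true ↔
    ∃ q m, i + 1 = κ q ∧ v = some m ∧ m ≤ q ∧ e (3 * q + 2) = e (3 * m)
  nE : ∀ v q, (tl M mn cs v (2 * κ q)).nE = 3 * q + 2
  mu : StrictMono μ
  ch : ∀ v i, (tl M mn cs v i).ch v = true ↔ ∃ m, v = some m ∧ i = μ m
  chOK : ∀ v i, (tl M mn cs v i).st.chOK M = true ↔
    ∃ m, i = μ m ∧ ∀ m', v = some m' → m ≤ m'
  muk : ∀ m q, m ≤ q → μ m + 1 < κ q

omit [DecidableEq G] in
private theorem next_mkd (s : St M.Q) (l0 : Lam K G) (ch e z : Bool)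
    (h : ch = true → s.isEv M = true ∧ s.n3 = 0) :
    (s.next M l0 ch e z).mkd = (s.mkd || ch) := by
  cases ch with
  | true =>
    obtain ⟨h1, h2⟩ := h rfl
    unfold St.isEv at h1
    simp only [Bool.and_eq_true, decide_eq_true_eq] at h1
    unfold St.next
    rw [h1.1]
    simp only [h1.2, h2, if_true]
  | false =>
    rw [Bool.or_false]
    unfold St.next
    cases hm : s.mode
    · simp only
      split_ifs <;> simp
    · simp
    · simp only
      split_ifs <;> simp
    · simp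

omit [DecidableEq G] in
private theorem next_b (s : St M.Q) (l0 : Lam K G) (ch e z : Bool)
    (h : s.isEv M = true → s.n3 ≠ 1) (hl : s.mode ≠ .launch) :
    (s.next M l0 ch e z).b = s.b := by
  unfold St.next
  cases hm : s.mode
  · simp only
    by_cases he : M.ev s.q = true
    · have h1 : s.n3 ≠ 1 := h (by unfold St.isEv; simp [hm, he])
      rw [if_pos he, if_neg h1]
      split_ifs <;> simp
    · rw [if_neg he]
      split_ifs <;> simp
  · simp
  · simp only
    split_ifs <;> simp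
  · exact absurd hm hl

omit [DecidableEq G] in
private theorem next_b1 (s : St M.Q) (l0 : Lam K G) (ch e z : Bool)
    (h : s.isEv M = true) (h1 : s.n3 = 1) : (s.next M l0 ch e z).b = e := by
  unfold St.isEv at h
  simp only [Bool.and_eq_true, decide_eq_true_eq] at h
  unfold St.next
  rw [h.1]
  simp only [h.2, h1, if_true]
  rw [if_neg (by decide)]

omit [DecidableEq G] in
private theorem next_c2 (s : St M.Q) (l0 : Lam K G) (ch e z : Bool)
    (h : s.isEv M = true) (h1 : s.n3 = 2) : (s.next M l0 ch e z).c = e := by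
  unfold St.isEv at h
  simp only [Bool.and_eq_true, decide_eq_true_eq] at h
  unfold St.next
  rw [h.1]
  simp only [h.2, h1, if_true]
  rw [if_neg (by decide), if_neg (by decide)]

private theorem fin3 {a : Fin 3} {n : ℕ} (h : (a : ℕ) = n % 3) (j : Fin 3) : a = j ↔ n % 3 = j := by
  rw [Fin.ext_iff, h]

section

variable {evs τ : ℕ → ℕ}

private theorem isEv_at (hτ : Tau M mn cs evs τ) (v : Option ℕ) (n : ℕ) :
    (tl M mn cs v (τ n)).st.isEv M = true := by
  obtain ⟨h1, h2, _⟩ := hτ.atE v n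
  unfold St.isEv
  simp [h1, h2]

private theorem n3_at (hτ : Tau M mn cs evs τ) (v : Option ℕ) (n : ℕ) :
    (((tl M mn cs v (τ n)).st.n3 : Fin 3) : ℕ) = n % 3 := by
  rw [tl_n3, (hτ.atE v n).2.2.1]

private theorem ev_spec (hτ : Tau M mn cs evs τ) {v : Option ℕ} {i : ℕ}
    (h : (tl M mn cs v i).st.isEv M = true) (h0 : (tl M mn cs v i).st.n3 = 0) :
    ∃ m, i = τ (3 * m) ∧ (tl M mn cs v i).nE = 3 * m := by
  have h1 := hτ.only v i h
  have h2 := tl_n3 (M := M) (mn := mn) (cs := cs) v i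
  rw [h0] at h2
  refine ⟨(tl M mn cs v i).nE / 3, ?_, ?_⟩
  · rw [show 3 * ((tl M mn cs v i).nE / 3) = (tl M mn cs v i).nE by simp at h2; omega]
    exact h1
  · simp at h2; omega

/-- the marking -/
private theorem mk_spec (hτ : Tau M mn cs evs τ) (v : Option ℕ) (i : ℕ) :
    ((tl M mn cs v i).st.mkd = true ↔ ∃ m, v = some m ∧ τ (3 * m) < i) ∧
    (∀ m, v = some m → τ (3 * m) < i → (tl M mn cs v i).C = (M.run (evs (3 * m))).2 mn) ∧
    ((∀ m, v = some m → i ≤ τ (3 * m)) → (tl M mn cs v i).C = []) := by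
  induction i with
  | zero =>
    refine ⟨?_, fun m _ h => absurd h (Nat.not_lt_zero _), fun _ => rfl⟩
    constructor
    · intro h
      exact absurd h (by show ¬ (false = true); simp)
    · rintro ⟨m, _, h⟩
      exact absurd h (Nat.not_lt_zero _)
  | succ i ih =>
    obtain ⟨ih1, ih2, ih3⟩ := ih
    -- the choice
    have hch : (tl M mn cs v i).ch v = true ↔ ∃ m, v = some m ∧ i = τ (3 * m) := by
      unfold MS.ch St.chOK
      simp only [Bool.and_eq_true, decide_eq_true_eq, Bool.not_eq_true']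
      constructor
      · rintro ⟨⟨⟨h1, h2⟩, h3⟩, h4⟩
        obtain ⟨m, hm1, hm2⟩ := ev_spec hτ h1 h2
        refine ⟨m, ?_, hm1⟩
        rw [h4, hm2]
        congr 1
        omega
      · rintro ⟨m, hm, hi⟩
        have hx := hτ.atE v (3 * m)
        rw [← hi] at hx
        have he := isEv_at hτ v (3 * m)
        rw [← hi] at he
        have hn := n3_at hτ v (3 * m)
        rw [← hi] at hn
        refine ⟨⟨⟨he, (fin3 hn 0).2 (by simp)⟩, ?_⟩, ?_⟩
        · rw [← Bool.not_eq_true, ih1]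
          rintro ⟨m', hm', hlt⟩
          rw [hm] at hm'
          obtain rfl := Option.some.inj hm'
          omega
        · rw [hx.2.2.1, hm]
          congr 1
          omega
    have hmk : (tl M mn cs v (i + 1)).st.mkd = ((tl M mn cs v i).st.mkd || (tl M mn cs v i).ch v) := by
      refine next_mkd _ _ _ _ _ fun h => ?_
      unfold MS.ch St.chOK at h
      simp only [Bool.and_eq_true, decide_eq_true_eq, Bool.not_eq_true'] at h
      exact ⟨h.1.1.1, h.1.1.2⟩
    have hC : (tl M mn cs v (i + 1)).C =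
        if (tl M mn cs v i).ch v = true then (tl M mn cs v i).S mn else (tl M mn cs v i).C := rfl
    refine ⟨?_, ?_, ?_⟩
    · rw [hmk, Bool.or_eq_true, ih1, hch]
      constructor
      · rintro (⟨m, hm, h⟩ | ⟨m, hm, h⟩)
        · exact ⟨m, hm, by omega⟩
        · exact ⟨m, hm, by omega⟩
      · rintro ⟨m, hm, h⟩
        rcases Nat.lt_or_ge (τ (3 * m)) i with h' | h'
        · exact Or.inl ⟨m, hm, h'⟩
        · exact Or.inr ⟨m, hm, by omega⟩
    · intro m hm h
      rw [hC]
      rcases Nat.lt_or_ge (τ (3 * m)) i with h' | h'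
      · rw [if_neg, ih2 m hm h']
        rw [hch]
        rintro ⟨m', hm', hi⟩
        rw [hm] at hm'
        obtain rfl := Option.some.inj hm'
        omega
      · have hi : i = τ (3 * m) := by omega
        rw [if_pos (hch.2 ⟨m, hm, hi⟩)]
        have hx := (hτ.atE v (3 * m)).2.2.2
        rw [← hi] at hx
        rw [hx]
    · intro h
      rw [hC, if_neg, ih3 fun m hm => (by have := h m hm; omega)]
      rw [hch]
      rintro ⟨m', hm', hi⟩
      have := h m' hm'
      omega

private theorem ch_spec (hτ : Tau M mn cs evs τ) (v : Option ℕ) (i : ℕ) :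
    (tl M mn cs v i).st.chOK M = true ↔ ∃ m, i = τ (3 * m) ∧ ∀ m', v = some m' → m ≤ m' := by
  have hmk := (mk_spec hτ v i).1
  unfold St.chOK
  simp only [Bool.and_eq_true, decide_eq_true_eq, Bool.not_eq_true']
  constructor
  · rintro ⟨⟨h1, h2⟩, h3⟩
    obtain ⟨m, hm1, hm2⟩ := ev_spec hτ h1 h2
    refine ⟨m, hm1, fun m' hm' => ?_⟩
    by_contra hlt
    rw [← Bool.not_eq_true, hmk] at h3
    exact h3 ⟨m', hm', by rw [hm1]; exact hτ.mono (by omega)⟩
  · rintro ⟨m, hi, hm⟩
    have he := isEv_at hτ v (3 * m)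
    rw [← hi] at he
    have hn := n3_at hτ v (3 * m)
    rw [← hi] at hn
    refine ⟨⟨he, (fin3 hn 0).2 (by simp)⟩, ?_⟩
    rw [← Bool.not_eq_true, hmk]
    rintro ⟨m', hm', hlt⟩
    have := hm m' hm'
    rw [hi] at hlt
    have := hτ.mono.lt_iff_lt.1 hlt
    omega

/-- comparison of the word of the stack with the code at the event number `n` -/
private theorem cmp_spec {e : ℕ → ℕ} (hτ : Tau M mn cs evs τ)
    (hw : ∀ m n, eqw cs ((M.run (evs m)).2 mn) ((M.run (evs n)).2 mn) = decide (e m = e n))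
    (v : Option ℕ) (n : ℕ) :
    eqw cs ((tl M mn cs v (τ n)).S mn) (tl M mn cs v (τ n)).C = true ↔
      ∃ m, v = some m ∧ 3 * m < n ∧ e n = e (3 * m) := by
  obtain ⟨_, h2, h3⟩ := mk_spec hτ v (τ n)
  have hS := (hτ.atE v n).2.2.2
  by_cases h : ∃ m, v = some m ∧ τ (3 * m) < τ n
  · obtain ⟨m, hm, hlt⟩ := h
    rw [h2 m hm hlt, hS, hw, decide_eq_true_eq]
    constructor
    · intro he
      exact ⟨m, hm, hτ.mono.lt_iff_lt.1 hlt, he⟩
    · rintro ⟨m', hm', _, he⟩
      rw [hm] at hm'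
      obtain rfl := Option.some.inj hm'
      exact he
  · have hC : (tl M mn cs v (τ n)).C = [] := by
      refine h3 fun m hm => ?_
      by_contra hlt
      exact h ⟨m, hm, by omega⟩
    rw [hC]
    constructor
    · intro he
      exfalso
      cases hl : (tl M mn cs v (τ n)).S mn with
      | nil => rw [hl] at he; simp [eqw] at he
      | cons a l => rw [hl] at he; simp [eqw] at he
    · rintro ⟨m, hm, hlt, _⟩
      exact absurd ⟨m, hm, hτ.mono hlt⟩ h

private theorem nE_mid (hτ : Tau M mn cs evs τ) (v : Option ℕ) (q i : ℕ)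
    (h1 : τ (3 * q + 1) < i) (h2 : i ≤ 2 * τ (3 * q + 2) + 4) : (tl M mn cs v i).nE = 3 * q + 2 := by
  rcases Nat.le_total i (τ (3 * q + 2)) with h | h
  · exact hτ.nE v (3 * q + 1) i (fun _ => h1) (fun h => by omega) h
  · exact hτ.nEh v (3 * q + 2) i (by omega) h h2

private theorem b_spec (hτ : Tau M mn cs evs τ) (v : Option ℕ) (q i : ℕ)
    (h1 : τ (3 * q + 1) + 1 ≤ i) (h2 : i ≤ 2 * τ (3 * q + 2) + 4) :
    (tl M mn cs v i).st.b =
      eqw cs ((tl M mn cs v (τ (3 * q + 1))).S mn) (tl M mn cs v (τ (3 * q + 1))).C := by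
  induction i, h1 using Nat.le_induction with
  | base =>
    refine next_b1 _ _ _ _ _ (isEv_at hτ v _) ?_
    exact (fin3 (n3_at hτ v _) 1).2 (by simp)
  | succ i hi ih =>
    rw [← ih (by omega)]
    have hnE := nE_mid hτ v q i (by omega) (by omega)
    refine next_b _ _ _ _ _ ?_ ?_
    · intro _ h
      have h3 := tl_n3 (M := M) (mn := mn) (cs := cs) v i
      rw [h, hnE] at h3
      simp at h3
    · intro h
      obtain ⟨n, hn, hi'⟩ := (hτ.launch v i).1 h
      have h3 := hτ.nEh v n i hn (by omega) (by omega)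
      rw [hnE] at h3
      subst h3
      omega

end

theorem exists_tline {e : ℕ → ℕ} (hP : M.Prog mn cs e) :
    ∃ κ μ, TLine M mn cs e κ μ := by
  obtain ⟨evs, hm, hev, hw⟩ := hP
  obtain ⟨τ, hτ⟩ := exists_tau (mn := mn) (cs := cs) hm hev
  refine ⟨fun q => τ (3 * q + 2) + 2, fun m => τ (3 * m), ?_⟩
  refine { mono := ?_, dbl := ?_, one := ?_, lch := ?_, acc := ?_, nE := ?_, mu := ?_, ch := ?_,
           chOK := ?_, muk := ?_ }
  · intro a b hab
    have : τ (3 * a + 2) < τ (3 * b + 2) := hτ.mono (by omega)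
    show τ (3 * a + 2) + 2 < τ (3 * b + 2) + 2
    omega
  · intro q
    have h1 := hτ.next (3 * q + 2) (by omega)
    have h2 : τ (3 * q + 2 + 1) < τ (3 * (q + 1) + 2) := hτ.mono (by omega)
    show 2 * (τ (3 * q + 2) + 2) + 1 < τ (3 * (q + 1) + 2) + 2
    omega
  · intro q
    show 1 ≤ τ (3 * q + 2) + 2
    omega
  · intro v i
    have hl := hτ.launch v i
    unfold St.lch
    rw [Bool.and_eq_true, decide_eq_true_eq, hl]
    constructor
    · rintro ⟨⟨n, hn, hi⟩, hb⟩
      obtain ⟨q, rfl⟩ : ∃ q, n = 3 * q + 2 := ⟨n / 3, by omega⟩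
      have hτ1 : τ (3 * q + 1) < τ (3 * q + 2) := hτ.mono (by omega)
      rw [b_spec hτ v q i (by omega) (by omega), cmp_spec hτ hw] at hb
      obtain ⟨m, hv, hmq, he⟩ := hb
      exact ⟨q, m, by show i = 2 * (τ (3 * q + 2) + 2); omega, hv, by omega, he⟩
    · rintro ⟨q, m, hi, hv, hmq, he⟩
      have hi' : i = 2 * (τ (3 * q + 2) + 2) := hi
      have hτ1 : τ (3 * q + 1) < τ (3 * q + 2) := hτ.mono (by omega)
      refine ⟨⟨3 * q + 2, by omega, by omega⟩, ?_⟩
      rw [b_spec hτ v q i (by omega) (by omega), cmp_spec hτ hw]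
      exact ⟨m, hv, by omega, he⟩
  · intro v i
    have hl := hτ.hold0 v i
    unfold St.acc
    rw [Bool.and_eq_true, decide_eq_true_eq, hl]
    have hc : ∀ q, (tl M mn cs v (τ (3 * q + 2) + 1)).st.c =
        eqw cs ((tl M mn cs v (τ (3 * q + 2))).S mn) (tl M mn cs v (τ (3 * q + 2))).C := by
      intro q
      refine next_c2 _ _ _ _ _ (isEv_at hτ v _) ?_
      exact (fin3 (n3_at hτ v _) 2).2 (by simp)
    constructor
    · rintro ⟨⟨n, hn, hi⟩, hb⟩
      obtain ⟨q, rfl⟩ : ∃ q, n = 3 * q + 2 := ⟨n / 3, by omega⟩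
      rw [hi, hc, cmp_spec hτ hw] at hb
      obtain ⟨m, hv, hmq, he⟩ := hb
      exact ⟨q, m, by show i + 1 = τ (3 * q + 2) + 2; omega, hv, by omega, he⟩
    · rintro ⟨q, m, hi, hv, hmq, he⟩
      have hi' : i + 1 = τ (3 * q + 2) + 2 := hi
      have hi2 : i = τ (3 * q + 2) + 1 := by omega
      refine ⟨⟨3 * q + 2, by omega, hi2⟩, ?_⟩
      rw [hi2, hc, cmp_spec hτ hw]
      exact ⟨m, hv, by omega, he⟩
  · intro v q
    exact hτ.nEh v (3 * q + 2) _ (by omega) (by omega) (by omega)
  · intro a b hab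
    exact hτ.mono (by omega)
  · intro v i
    have h1 := ch_spec hτ v i
    unfold MS.ch
    rw [Bool.and_eq_true, decide_eq_true_eq]
    constructor
    · rintro ⟨h2, h3⟩
      obtain ⟨m, hi, _⟩ := h1.1 h2
      refine ⟨m, ?_, hi⟩
      rw [h3]
      have := (hτ.atE v (3 * m)).2.2.1
      rw [← hi] at this
      rw [this]
      congr 1
      omega
    · rintro ⟨m, hv, hi⟩
      have hi' : i = τ (3 * m) := hi
      refine ⟨h1.2 ⟨m, hi', fun m' hm' => ?_⟩, ?_⟩
      · rw [hv] at hm'
        obtain rfl := Option.some.inj hm'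
        exact le_rfl
      · have := (hτ.atE v (3 * m)).2.2.1
        rw [← hi'] at this
        rw [this, hv]
        congr 1
        omega
  · intro v i
    exact ch_spec hτ v i
  · intro m q hmq
    have : τ (3 * m) < τ (3 * q + 2) := hτ.mono (by omega)
    show τ (3 * m) + 1 < τ (3 * q + 2) + 2
    omega

end H96.CK
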