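import Pool.Agent.H96.CK.Mach

/-!
# The time line of a corner (definitions)

Every corner runs the machine `M`; time step `i` is executed by the special column at distance
`3 ^ i`. A proper machine step is executed at every third time step only (`ph`), so that the stacks
stay short. At the events number `3 q`, `3 q + 1`, `3 q + 2` (`n3` = number of the event mod 3):
* `3 q`: a corner which is not yet marked may be marked (`ch`, the only free choice): it copies the
  stack `mn` to the code track `G`;
* `3 q + 1`: the flag `b` says whether the word of `mn` equals the code;
* `3 q + 2`: the flag `c` says whether the word of `mn` equals the code; a token is put on the lane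
  born now (lane `i`), and the corner waits (`hold0`, `hold`) until this lane dies (time `2 i + 2`);
  then one step in mode `launch`, and the machine goes on.
`MS` is the state of a corner after time step `i`; depth `d` of a stack is on lane `i - d`.
-/

namespace H96.CK

inductive Mode where
  | run | hold0 | hold | launch
  deriving DecidableEq, Fintype

/-- the finite control -/
structure St (Q : Type) where
  q : Q
  ph : Fin 3
  n3 : Fin 3
  mode : Mode
  mkd : Bool
  b : Bool
  c : Bool

/-- contents of a lane: letters of the stacks, letter of the code track, token -/
abbrev Lam (K G : Type) := (K → Option G) × Option G × Bool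

def Lam0 (K G : Type) : Lam K G := (fun _ => none, none, false)

variable {K G : Type}

/-- the control acts as an event -/
def St.isEv (M : SM K G) (s : St M.Q) : Bool := decide (s.mode = .run) && M.ev s.q

/-- the control executes a proper step of the machine -/
def St.isAct (M : SM K G) (s : St M.Q) : Bool :=
  decide (s.mode = .run) && !M.ev s.q && decide (s.ph = 2)

/-- marking is allowed -/
def St.chOK (M : SM K G) (s : St M.Q) : Bool :=
  s.isEv M && decide (s.n3 = 0) && !s.mkd

/-- a token is placed -/
def St.plc (M : SM K G) (s : St M.Q) : Bool := s.isEv M && decide (s.n3 = 2)

/-- the patch may be closed -/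
def St.acc {Q : Type} (s : St Q) : Bool := decide (s.mode = .hold0) && s.c

/-- a sub-corner is launched -/
def St.lch {Q : Type} (s : St Q) : Bool := decide (s.mode = .launch) && s.b

def St.op (M : SM K G) (s : St M.Q) (l0 : Lam K G) (k : K) : Op G :=
  if s.isAct M = true then (M.act s.q l0.1).2 k else .keep

def St.next (M : SM K G) (s : St M.Q) (l0 : Lam K G) (ch e z : Bool) : St M.Q :=
  match s.mode with
  | .run =>
    if M.ev s.q = true then
      if s.n3 = 0 then { s with q := M.rs s.q, ph := 0, n3 := 1, mkd := s.mkd || ch }
      else if s.n3 = 1 then { s with q := M.rs s.q, ph := 0, n3 := 2, b := e }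
      else { s with mode := .hold0, c := e }
    else if s.ph = 2 then { s with q := (M.act s.q l0.1).1, ph := 0 }
    else { s with ph := s.ph + 1 }
  | .hold0 => { s with mode := .hold }
  | .hold => if z = true then { s with mode := .launch } else s
  | .launch => { s with mode := .run, q := M.rs s.q, ph := 0, n3 := 0, b := false, c := false }

def St.init (M : SM K G) : St M.Q where
  q := M.q0
  ph := 0
  n3 := 0
  mode := .run
  mkd := false
  b := false
  c := false

/-- state of a corner after a time step -/
structure MS (M : SM K G) where
  st : St M.Q
  S : K → List G
  C : List G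
  tok : Option ℕ
  nE : ℕ

def MS.init (M : SM K G) : MS M where
  st := St.init M
  S := fun _ => []
  C := []
  tok := none
  nE := 0

variable {M : SM K G}

/-- contents of lane `t` after time step `i` -/
def MS.lam (x : MS M) (i t : ℕ) : Lam K G :=
  (fun k => (x.S k)[i - t]?, x.C[i - t]?, decide (x.tok = some t))

variable [DecidableEq G]

/-- the lane with the token dies at time `i` -/
def MS.zz (x : MS M) (i : ℕ) : Bool :=
  match x.tok with
  | none => false
  | some t => decide (i = 2 * t + 2)

/-- time step `i` (`1 ≤ i`), `x` is the state after time step `i - 1` -/
def MS.next (mn : K) (cs : G) (i : ℕ) (ch : Bool) (x : MS M) : MS M where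
  st := x.st.next M (x.lam (i - 1) (i - 1)) ch (eqw cs (x.S mn) x.C) (x.zz i)
  S := fun k => (x.st.op M (x.lam (i - 1) (i - 1)) k).app (x.S k)
  C := if ch = true then x.S mn else x.C
  tok := if x.st.plc M = true then some i else x.tok
  nE := if (x.st.isEv M && decide (x.st.n3 ≠ 2)) || decide (x.st.mode = .launch) then x.nE + 1
    else x.nE

/-- the choice of a corner with code `v` (`none`: never marked) -/
def MS.ch (v : Option ℕ) (x : MS M) : Bool := x.st.chOK M && decide (v = some (x.nE / 3))

/-- the state of a corner with code `v` after time step `i` -/
def tl (M : SM K G) (mn : K) (cs : G) (v : Option ℕ) : ℕ → MS M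
  | 0 => MS.init M
  | i + 1 => (tl M mn cs v i).next mn cs (i + 1) ((tl M mn cs v i).ch v)

end H96.CK
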